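import Pool.Agent.Lib.MP_5d2315_pr.Defs

/-!
# The compensation formula for Poisson clocks
-/

namespace Pool.Agent.Lib.MP_5d2315_pr

open MeasureTheory ProbabilityTheory Filter Topology
open scoped ENNReal NNReal

variable {Ω : Type*} {mΩ : MeasurableSpace Ω} {P : Measure Ω}
  {F : Filtration ℝ mΩ} {R : ℤ → ℕ → Ω → Set ℝ}

lemma tsum_poisson_weights (r : ℝ≥0) :
    ∑' n : ℕ, ENNReal.ofReal (Real.exp (-r) * (r : ℝ) ^ n / (n.factorial : ℝ)) = 1 := by
  rw [← ENNReal.ofReal_tsum_of_nonneg (fun n => by positivity)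
    (hasSum_one_poissonMeasure r).summable, (hasSum_one_poissonMeasure r).tsum_eq]
  simp

lemma lintegral_poisson (r : ℝ≥0) : ∫⁻ n, (n : ℝ≥0∞) ∂(poissonMeasure r) = r := by
  rw [poissonMeasure, lintegral_sum_measure]
  simp only [lintegral_smul_measure, lintegral_dirac]
  rw [tsum_eq_zero_add' ENNReal.summable]
  simp only [Nat.cast_zero, smul_eq_mul, mul_zero, zero_add]
  have h : ∀ n : ℕ, ENNReal.ofReal (Real.exp (-r) * (r : ℝ) ^ (n + 1) /
      ((n + 1).factorial : ℝ)) * ((n + 1 : ℕ) : ℝ≥0∞) =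
      r * ENNReal.ofReal (Real.exp (-r) * (r : ℝ) ^ n / (n.factorial : ℝ)) := by
    intro n
    have e1 : ((n + 1 : ℕ) : ℝ≥0∞) = ENNReal.ofReal ((n + 1 : ℕ) : ℝ) := by
      rw [ENNReal.ofReal_natCast]
    have e2 : (r : ℝ≥0∞) = ENNReal.ofReal (r : ℝ) := by
      rw [ENNReal.ofReal_coe_nnreal]
    rw [e1, e2, ← ENNReal.ofReal_mul (by positivity), ← ENNReal.ofReal_mul (by positivity)]
    congr 1
    rw [Nat.factorial_succ]
    push_cast
    field_simp
    ring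
  rw [tsum_congr h, ENNReal.tsum_mul_left, tsum_poisson_weights, mul_one]

lemma poisson_pos_le (r : ℝ≥0) : (poissonMeasure r) {n | 1 ≤ n} ≤ r := by
  have h := meas_ge_le_lintegral_div (μ := poissonMeasure r) (f := fun n : ℕ => (n : ℝ≥0∞))
    (by fun_prop) (ε := 1) (by simp) (by simp)
  rw [lintegral_poisson, div_one] at h
  refine le_trans (measure_mono ?_) h
  intro n hn
  simp only [Set.mem_ofPred_eq] at hn ⊢
  exact_mod_cast hn

variable (hR : IsPoissonClocks P F R)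
include hR

lemma IsPoissonClocks.measurable_count (k : ℤ) (i : ℕ) {s t : ℝ} (hs : 0 ≤ s) (hst : s ≤ t) :
    Measurable fun ω => ringCount (R k i ω) s t :=
  (hR.adapted k i s t hs hst).mono (F.le t) le_rfl

lemma IsPoissonClocks.lintegral_count (k : ℤ) (i : ℕ) {s t : ℝ} (hs : 0 ≤ s) (hst : s ≤ t) :
    ∫⁻ ω, (ringCount (R k i ω) s t : ℝ≥0∞) ∂P = ENNReal.ofReal (t - s) := by
  have h := lintegral_map (μ := P) (f := fun n : ℕ => (n : ℝ≥0∞)) (by fun_prop)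
    (hR.measurable_count k i hs hst)
  rw [← h, hR.law k i s t hs hst, lintegral_poisson]
  rfl

lemma IsPoissonClocks.indep_count (k : ℤ) (i : ℕ) {s t : ℝ} (hs : 0 ≤ s) (hst : s ≤ t) :
    Indep (F s) (MeasurableSpace.comap (fun ω => ringCount (R k i ω) s t) ⊤) P := by
  have h := (hR.indep s t hs hst).indep (i := none) (j := some (k, i)) (by simp)
  exact h

lemma IsPoissonClocks.lintegral_count_indicator (k : ℤ) (i : ℕ) {s t : ℝ} (hs : 0 ≤ s)
    (hst : s ≤ t) {A : Set Ω} (hA : MeasurableSet[F s] A) :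
    ∫⁻ ω, A.indicator (fun _ => (1 : ℝ≥0∞)) ω * (ringCount (R k i ω) s t : ℝ≥0∞) ∂P =
      P A * ENNReal.ofReal (t - s) := by
  have hle : MeasurableSpace.comap (fun ω => ringCount (R k i ω) s t) ⊤ ≤ mΩ :=
    (hR.measurable_count k i hs hst).comap_le
  have h := lintegral_mul_eq_lintegral_mul_lintegral_of_independent_measurableSpace
    (F.le s) hle (hR.indep_count k i hs hst)
    (f := A.indicator (fun _ => (1 : ℝ≥0∞)))
    (g := fun ω => (ringCount (R k i ω) s t : ℝ≥0∞))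
    (Measurable.indicator measurable_const hA) ?_
  · rw [h, hR.lintegral_count k i hs hst, lintegral_indicator_const (F.le s _ hA), one_mul]
  · exact Measurable.comp (g := fun n : ℕ => (n : ℝ≥0∞)) measurable_from_top
      (comap_measurable _)

/-- Two different clocks hardly ring both in a short interval. -/
lemma IsPoissonClocks.both_ring_le {c c' : ℤ × ℕ} (hc : c ≠ c') {s t : ℝ} (hs : 0 ≤ s)
    (hst : s ≤ t) :
    P {ω | 1 ≤ ringCount (R c.1 c.2 ω) s t ∧ 1 ≤ ringCount (R c'.1 c'.2 ω) s t} ≤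
      ENNReal.ofReal (t - s) * ENNReal.ofReal (t - s) := by
  have h := (hR.indep s t hs hst).indep (i := some c) (j := some c') (by simpa using hc)
  have h1 : P ({ω | 1 ≤ ringCount (R c.1 c.2 ω) s t} ∩ {ω | 1 ≤ ringCount (R c'.1 c'.2 ω) s t})
      = P {ω | 1 ≤ ringCount (R c.1 c.2 ω) s t} * P {ω | 1 ≤ ringCount (R c'.1 c'.2 ω) s t} := by
    rw [Indep_iff] at h
    apply h
    · exact ⟨{n | 1 ≤ n}, trivial, rfl⟩
    · exact ⟨{n | 1 ≤ n}, trivial, rfl⟩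
  have h2 : ∀ c : ℤ × ℕ, P {ω | 1 ≤ ringCount (R c.1 c.2 ω) s t} ≤ ENNReal.ofReal (t - s) := by
    intro c
    have h3 : P {ω | 1 ≤ ringCount (R c.1 c.2 ω) s t} =
        (P.map (fun ω => ringCount (R c.1 c.2 ω) s t)) {n | 1 ≤ n} := by
      rw [Measure.map_apply (hR.measurable_count c.1 c.2 hs hst) (by measurability)]
      rfl
    rw [h3, hR.law c.1 c.2 s t hs hst]
    exact poisson_pos_le _
  have h4 : {ω | 1 ≤ ringCount (R c.1 c.2 ω) s t ∧ 1 ≤ ringCount (R c'.1 c'.2 ω) s t} =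
      {ω | 1 ≤ ringCount (R c.1 c.2 ω) s t} ∩ {ω | 1 ≤ ringCount (R c'.1 c'.2 ω) s t} := rfl
  rw [h4, h1]
  exact mul_le_mul' (h2 c) (h2 c')

omit hR in
/-- dyadic point at or before -/
lemma exists_dyadic_cell {T : ℕ} {n : ℕ} {s : ℝ} (hs0 : 0 < s) (hsT : s ≤ T) :
    ∃ m : ℕ, m < T * 2 ^ n ∧ (m : ℝ) / 2 ^ n < s ∧ s ≤ ((m : ℝ) + 1) / 2 ^ n := by
  have h2 : (0 : ℝ) < 2 ^ n := by positivity
  have hpos : 0 < s * 2 ^ n := by positivity
  obtain ⟨m, hm⟩ : ∃ m : ℕ, ⌈s * 2 ^ n⌉₊ = m + 1 := by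
    have : 0 < ⌈s * 2 ^ n⌉₊ := Nat.ceil_pos.2 hpos
    exact ⟨⌈s * 2 ^ n⌉₊ - 1, by omega⟩
  have h3 : s * 2 ^ n ≤ ((m + 1 : ℕ) : ℝ) := by rw [← hm]; exact Nat.le_ceil _
  have h4 : (m : ℝ) < s * 2 ^ n := by
    have := Nat.ceil_lt_add_one hpos.le
    rw [hm] at this
    push_cast at this
    linarith
  refine ⟨m, ?_, ?_, ?_⟩
  · have h5 : (m : ℝ) < (T : ℝ) * 2 ^ n := h4.trans_le (by gcongr)
    exact_mod_cast h5
  · rwa [div_lt_iff₀ h2]
  · rw [le_div_iff₀ h2]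
    push_cast at h3
    exact h3

/-- Almost surely no two clocks ring at the same time. -/
lemma IsPoissonClocks.no_simultaneous :
    ∀ᵐ ω ∂P, ∀ c c' : ℤ × ℕ, c ≠ c' → ∀ s, 0 < s → s ∈ R c.1 c.2 ω → s ∉ R c'.1 c'.2 ω := by
  rw [ae_all_iff]; intro c
  rw [ae_all_iff]; intro c'
  by_cases hc : c ≠ c'
  swap
  · exact ae_of_all _ (fun ω h => absurd h hc)
  have key : ∀ T : ℕ, P {ω | ∃ s : ℝ, 0 < s ∧ s ≤ T ∧ s ∈ R c.1 c.2 ω ∧ s ∈ R c'.1 c'.2 ω} = 0 := by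
    intro T
    have hn : ∀ n : ℕ, P {ω | ∃ s : ℝ, 0 < s ∧ s ≤ T ∧ s ∈ R c.1 c.2 ω ∧ s ∈ R c'.1 c'.2 ω} ≤
        ENNReal.ofReal (T * (1 / 2) ^ n) := by
      intro n
      have hsub : {ω | ∃ s : ℝ, 0 < s ∧ s ≤ T ∧ s ∈ R c.1 c.2 ω ∧ s ∈ R c'.1 c'.2 ω} ⊆
          ⋃ m ∈ Finset.range (T * 2 ^ n), {ω | 1 ≤ ringCount (R c.1 c.2 ω) ((m : ℝ) / 2 ^ n)
            (((m : ℝ) + 1) / 2 ^ n) ∧ 1 ≤ ringCount (R c'.1 c'.2 ω) ((m : ℝ) / 2 ^ n)
            (((m : ℝ) + 1) / 2 ^ n)} := by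
        rintro ω ⟨s, hs0, hsT, hs1, hs2⟩
        obtain ⟨m, hm1, hm2, hm3⟩ := exists_dyadic_cell (n := n) hs0 hsT
        simp only [Set.mem_iUnion, Finset.mem_range]
        refine ⟨m, hm1, ?_⟩
        have hm0 : (0 : ℝ) ≤ (m : ℝ) / 2 ^ n := by positivity
        have aux : ∀ c : ℤ × ℕ, s ∈ R c.1 c.2 ω →
            1 ≤ ringCount (R c.1 c.2 ω) ((m : ℝ) / 2 ^ n) (((m : ℝ) + 1) / 2 ^ n) := by
          intro c hsc
          unfold ringCount
          have hfin : (R c.1 c.2 ω ∩ Set.Ioc ((m : ℝ) / 2 ^ n) (((m : ℝ) + 1) / 2 ^ n)).Finite := by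
            refine (hR.finite c.1 c.2 ω (((m : ℝ) + 1) / 2 ^ n)).subset ?_
            exact Set.inter_subset_inter_right _ (Set.Ioc_subset_Ioc_left hm0)
          rw [Nat.one_le_iff_ne_zero, ← Nat.pos_iff_ne_zero, Set.ncard_pos hfin]
          exact ⟨s, hsc, hm2, hm3⟩
        exact ⟨aux c hs1, aux c' hs2⟩
      refine (measure_mono hsub).trans ((measure_biUnion_finset_le _ _).trans ?_)
      have hle : ∀ m ∈ Finset.range (T * 2 ^ n),
          P {ω | 1 ≤ ringCount (R c.1 c.2 ω) ((m : ℝ) / 2 ^ n)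
            (((m : ℝ) + 1) / 2 ^ n) ∧ 1 ≤ ringCount (R c'.1 c'.2 ω) ((m : ℝ) / 2 ^ n)
            (((m : ℝ) + 1) / 2 ^ n)} ≤ ENNReal.ofReal ((1 / 2) ^ n * (1 / 2) ^ n) := by
        intro m _
        have h1 := hR.both_ring_le hc (s := (m : ℝ) / 2 ^ n) (t := ((m : ℝ) + 1) / 2 ^ n)
          (by positivity) (by gcongr; linarith)
        refine h1.trans ?_
        rw [← ENNReal.ofReal_mul' (by
          rw [← sub_div]
          have : (m : ℝ) + 1 - m = 1 := by ring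
          rw [this]; positivity)]
        apply ENNReal.ofReal_le_ofReal
        have : ((m : ℝ) + 1) / 2 ^ n - (m : ℝ) / 2 ^ n = (1 / 2) ^ n := by
          rw [← sub_div, div_pow, one_pow]; congr 1; ring
        rw [this]
      refine (Finset.sum_le_sum hle).trans ?_
      rw [Finset.sum_const, Finset.card_range, nsmul_eq_mul,
        ← ENNReal.ofReal_natCast, ← ENNReal.ofReal_mul (by positivity)]
      apply ENNReal.ofReal_le_ofReal
      push_cast
      have e : (2 : ℝ) ^ n * (1 / 2) ^ n = 1 := by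
        rw [← mul_pow]; norm_num
      calc (T : ℝ) * 2 ^ n * ((1 / 2) ^ n * (1 / 2) ^ n) =
          T * (1 / 2) ^ n * (2 ^ n * (1 / 2) ^ n) := by ring
        _ ≤ _ := by rw [e, mul_one]
    have hlim : Tendsto (fun n : ℕ => ENNReal.ofReal (T * (1 / 2 : ℝ) ^ n)) atTop (𝓝 0) := by
      have h1 : Tendsto (fun n : ℕ => (T : ℝ) * (1 / 2 : ℝ) ^ n) atTop (𝓝 (T * 0)) :=
        (tendsto_pow_atTop_nhds_zero_of_lt_one (by norm_num) (by norm_num)).const_mul _
      rw [mul_zero] at h1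
      have h2 := ENNReal.tendsto_ofReal h1
      simpa using h2
    exact le_antisymm (ge_of_tendsto' hlim hn) bot_le
  have hall : ∀ᵐ ω ∂P, ∀ T : ℕ, ¬ ∃ s : ℝ, 0 < s ∧ s ≤ T ∧ s ∈ R c.1 c.2 ω ∧ s ∈ R c'.1 c'.2 ω := by
    rw [ae_all_iff]
    intro T
    rw [ae_iff]
    simp only [not_not]
    exact key T
  filter_upwards [hall] with ω hω _ s hs0 hs1 hs2
  obtain ⟨T, hT⟩ := exists_nat_ge s
  exact hω T ⟨s, hs0, hT, hs1, hs2⟩

/-- For a fixed time, almost surely no clock rings at this time. -/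
lemma IsPoissonClocks.no_fixed_ring {t : ℝ} (ht : 0 < t) :
    ∀ᵐ ω ∂P, ∀ k i, t ∉ R k i ω := by
  rw [ae_all_iff]; intro k
  rw [ae_all_iff]; intro i
  rw [ae_iff]
  simp only [not_not]
  have hn : ∀ n : ℕ, P {ω | t ∈ R k i ω} ≤ ENNReal.ofReal (t * (1 / 2) ^ n) := by
    intro n
    have hb : (1 / 2 : ℝ) ^ n ≤ 1 := pow_le_one₀ (by norm_num) (by norm_num)
    have hb0 : (0 : ℝ) < (1 / 2) ^ n := by positivity
    have hs0 : 0 ≤ t - t * (1 / 2) ^ n := by nlinarith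
    have hst : t - t * (1 / 2) ^ n < t := by
      have : 0 < t * (1 / 2) ^ n := by positivity
      linarith
    have hsub : {ω | t ∈ R k i ω} ⊆ {ω | 1 ≤ ringCount (R k i ω) (t - t * (1 / 2) ^ n) t} := by
      intro ω hω
      simp only [Set.mem_ofPred_eq] at hω ⊢
      unfold ringCount
      have hfin : (R k i ω ∩ Set.Ioc (t - t * (1 / 2) ^ n) t).Finite := by
        refine (hR.finite k i ω t).subset ?_
        exact Set.inter_subset_inter_right _ (Set.Ioc_subset_Ioc_left hs0)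
      rw [Nat.one_le_iff_ne_zero, ← Nat.pos_iff_ne_zero, Set.ncard_pos hfin]
      exact ⟨t, hω, hst, le_refl _⟩
    refine (measure_mono hsub).trans ?_
    have h3 : P {ω | 1 ≤ ringCount (R k i ω) (t - t * (1 / 2) ^ n) t} =
        (P.map (fun ω => ringCount (R k i ω) (t - t * (1 / 2) ^ n) t)) {n | 1 ≤ n} := by
      rw [Measure.map_apply (hR.measurable_count k i hs0 hst.le) (by measurability)]
      rfl
    rw [h3, hR.law k i _ _ hs0 hst.le]
    refine (poisson_pos_le _).trans ?_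
    apply le_of_eq
    rw [sub_sub_cancel]
    rfl
  have hlim : Tendsto (fun n : ℕ => ENNReal.ofReal (t * (1 / 2 : ℝ) ^ n)) atTop (𝓝 0) := by
    have h1 : Tendsto (fun n : ℕ => t * (1 / 2 : ℝ) ^ n) atTop (𝓝 (t * 0)) :=
      (tendsto_pow_atTop_nhds_zero_of_lt_one (by norm_num) (by norm_num)).const_mul _
    rw [mul_zero] at h1
    have h2 := ENNReal.tendsto_ofReal h1
    simpa using h2
  exact le_antisymm (ge_of_tendsto' hlim hn) bot_le

end Pool.Agent.Lib.MP_5d2315_pr
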