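import Pool.Agent.Lib.MP_5d2315_pr.Var3

/-!
# The characteristic function of the number of balls
-/

namespace Pool.Agent.Lib.MP_5d2315_pr

open MeasureTheory ProbabilityTheory Filter Topology
open scoped ENNReal NNReal Real

/-- A comparison lemma for an integral equation with damping. -/
lemma ode_abs_le {ψ G Q E : ℝ → ℝ} {t : ℝ} (ht : 0 ≤ t) (hG : IntegrableOn G (Set.Ioc 0 t))
    (hE : IntegrableOn E (Set.Ioc 0 t))
    (hψ : ∀ r, 0 ≤ r → r ≤ t → ψ r = ψ 0 + ∫ s in Set.Ioc 0 r, G s)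
    (hQ : ∀ s ∈ Set.Ioc 0 t, 0 ≤ Q s)
    (hb : ∀ s ∈ Set.Ioc 0 t, |G s + Q s * ψ s| ≤ E s) :
    |ψ t| ≤ |ψ 0| + ∫ s in Set.Ioc 0 t, E s := by
  -- a one sided version
  have key : ∀ (ψ G : ℝ → ℝ), IntegrableOn G (Set.Ioc 0 t) →
      (∀ r, 0 ≤ r → r ≤ t → ψ r = ψ 0 + ∫ s in Set.Ioc 0 r, G s) →
      (∀ s ∈ Set.Ioc 0 t, |G s + Q s * ψ s| ≤ E s) → ψ t ≤ |ψ 0| + ∫ s in Set.Ioc 0 t, E s := by
    intro ψ G hG hψ hb
    have hE0 : ∀ s ∈ Set.Ioc 0 t, 0 ≤ E s := fun s hs => (abs_nonneg _).trans (hb s hs)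
    have hGi : ∀ a b, 0 ≤ a → a ≤ t → 0 ≤ b → b ≤ t → IntervalIntegrable G volume a b := by
      intro a b ha hat hb0 hbt
      rw [intervalIntegrable_iff]
      refine hG.mono_set ?_
      intro s hs
      rw [Set.mem_uIoc] at hs
      rcases hs with hs | hs
      · exact ⟨lt_of_le_of_lt ha hs.1, hs.2.trans hbt⟩
      · exact ⟨lt_of_le_of_lt hb0 hs.1, hs.2.trans hat⟩
    have hψi : ∀ r, 0 ≤ r → r ≤ t → ψ r = ψ 0 + ∫ s in (0 : ℝ)..r, G s := by
      intro r hr hrt
      rw [intervalIntegral.integral_of_le hr]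
      exact hψ r hr hrt
    have hcont : ContinuousOn ψ (Set.Icc 0 t) := by
      have h1 : ContinuousOn (fun r => ∫ s in (0 : ℝ)..r, G s) (Set.Icc 0 t) := by
        have := intervalIntegral.continuousOn_primitive_interval (f := G) (a := 0) (b := t)
          (μ := volume) (by
            rw [Set.uIcc_of_le ht, integrableOn_Icc_iff_integrableOn_Ioc]; exact hG)
        rwa [Set.uIcc_of_le ht] at this
      refine ((continuousOn_const (c := ψ 0)).add h1).congr (fun r hr => ?_)
      exact hψi r hr.1 hr.2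
    set S : Set ℝ := {r | r ∈ Set.Icc 0 t ∧ ψ r ≤ 0} with hS
    have hScl : IsClosed S := by
      have h1 : S = Set.Icc 0 t ∩ ψ ⁻¹' Set.Iic 0 := by
        ext r; simp [hS]
      rw [h1]
      exact hcont.preimage_isClosed_of_isClosed isClosed_Icc isClosed_Iic
    have hScomp : IsCompact S := isCompact_Icc.of_isClosed_subset hScl (fun r hr => hr.1)
    -- the bound from a starting point
    have hstep : ∀ r₀, 0 ≤ r₀ → r₀ ≤ t → (∀ s ∈ Set.Ioc r₀ t, 0 < ψ s) →
        ψ t ≤ ψ r₀ + ∫ s in Set.Ioc 0 t, E s := by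
      intro r₀ h0 h1 hpos
      have h2 : ψ t = ψ r₀ + ∫ s in r₀..t, G s := by
        rw [hψi t ht le_rfl, hψi r₀ h0 h1, add_assoc,
          intervalIntegral.integral_add_adjacent_intervals (hGi 0 r₀ le_rfl ht h0 h1)
            (hGi r₀ t h0 h1 ht le_rfl)]
      rw [h2, intervalIntegral.integral_of_le h1]
      have hsub : Set.Ioc r₀ t ⊆ Set.Ioc 0 t := Set.Ioc_subset_Ioc_left h0
      have h3 : ∫ s in Set.Ioc r₀ t, G s ≤ ∫ s in Set.Ioc r₀ t, E s := by
        refine setIntegral_mono_on (hG.mono_set hsub) (hE.mono_set hsub) measurableSet_Ioc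
          (fun s hs => ?_)
        have h4 := (le_abs_self _).trans (hb s (hsub hs))
        have h5 := mul_nonneg (hQ s (hsub hs)) (hpos s hs).le
        linarith
      have h4 : ∫ s in Set.Ioc r₀ t, E s ≤ ∫ s in Set.Ioc 0 t, E s := by
        refine setIntegral_mono_set hE ?_ (LE.le.eventuallyLE hsub)
        rw [EventuallyLE, ae_restrict_iff' measurableSet_Ioc]
        exact ae_of_all _ (fun s hs => hE0 s hs)
      linarith
    rcases S.eq_empty_or_nonempty with hemp | hne
    · have h1 := hstep 0 le_rfl ht (fun s hs => by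
        by_contra hcon
        push Not at hcon
        have : s ∈ S := ⟨⟨hs.1.le, hs.2⟩, hcon⟩
        rw [hemp] at this
        exact this)
      linarith [le_abs_self (ψ 0)]
    · obtain ⟨r₀, hr₀, hmax⟩ := hScomp.exists_isGreatest hne
      have h1 := hstep r₀ hr₀.1.1 hr₀.1.2 (fun s hs => by
        by_contra hcon
        push Not at hcon
        have : s ∈ S := ⟨⟨(hr₀.1.1.trans hs.1.le), hs.2⟩, hcon⟩
        exact absurd (hmax this) (not_le.2 hs.1))
      linarith [hr₀.2, abs_nonneg (ψ 0)]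
  rw [abs_le]
  constructor
  · have h1 := key (fun s => -ψ s) (fun s => -G s) hG.neg (fun r h0 h1 => by
      rw [integral_neg, hψ r h0 h1]; ring) (fun s hs => by
      have := hb s hs
      rw [← abs_neg] at this
      convert this using 2
      ring)
    simp only [abs_neg] at h1
    linarith
  · exact key ψ G hG hψ hb

/-- Taylor expansion of the cosine -/
lemma abs_cos_taylor (X a : ℝ) :
    |Real.cos (X + a) - Real.cos X + a * Real.sin X + a ^ 2 / 2 * Real.cos X| ≤ |a| ^ 3 := by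
  have h1 : Real.cos (X + a) - Real.cos X + a * Real.sin X + a ^ 2 / 2 * Real.cos X =
      Real.cos X * (Real.cos a - 1 + a ^ 2 / 2) + Real.sin X * (a - Real.sin a) := by
    rw [Real.cos_add]; ring
  have h2 : |a - Real.sin a| ≤ |a| ^ 3 / 6 := Real.abs_sub_sin_le a
  have h3 : |Real.cos a - 1 + a ^ 2 / 2| ≤ |a| ^ 3 / 2 := by
    have h0 : 0 ≤ Real.cos a - 1 + a ^ 2 / 2 := by
      linarith [Real.one_sub_sq_div_two_le_cos (x := a)]
    rw [abs_of_nonneg h0]
    by_cases ha : |a| ≤ 1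
    · have h4 := Real.cos_bound ha
      rw [abs_le] at h4
      have h5 : |a| ^ 4 ≤ |a| ^ 3 := by
        rw [pow_succ]
        exact mul_le_of_le_one_right (by positivity) ha
      nlinarith [h4.2, pow_nonneg (abs_nonneg a) 3]
    · push Not at ha
      have h4 := Real.cos_le_one a
      have h5 : a ^ 2 = |a| ^ 2 := (sq_abs a).symm
      have h6 : |a| ^ 2 ≤ |a| ^ 3 := pow_le_pow_right₀ ha.le (by norm_num)
      linarith
  rw [h1]
  refine (abs_add_le _ _).trans ?_
  rw [abs_mul, abs_mul]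
  have h4 := Real.abs_cos_le_one X
  have h5 := Real.abs_sin_le_one X
  have h6 : |Real.cos X| * |Real.cos a - 1 + a ^ 2 / 2| ≤ 1 * (|a| ^ 3 / 2) := by gcongr
  have h7 : |Real.sin X| * |a - Real.sin a| ≤ 1 * (|a| ^ 3 / 6) := by gcongr
  nlinarith [pow_nonneg (abs_nonneg a) 3]

lemma abs_lin_le (Λ : Finset ℤ) (g : ℤ → ℝ) (y : ℤ → ℤ) :
    |lin Λ g y| ≤ ∑ k ∈ Λ, |g k| * ((y k).natAbs : ℝ) := by
  unfold lin
  refine (Finset.abs_sum_le_sum_abs _ _).trans (le_of_eq ?_)
  refine Finset.sum_congr rfl (fun k _ => ?_)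
  rw [abs_mul, cast_natAbs_eq_abs]

variable {Ω : Type*} {mΩ : MeasurableSpace Ω} {P : Measure Ω}
  {F : Filtration ℝ mΩ} {R : ℤ → ℕ → Ω → Set ℝ} {Y : ℝ → Ω → ℤ → ℤ}

section

variable [IsProbabilityMeasure P] (h : IsUrnProcess P F R Y)
include h

theorem IsUrnProcess.cos_aux {Λ : Finset ℤ} {g : ℤ → ℝ} (hg : SuppIn Λ g) {c₁ : ℝ}
    (h1 : N1 g c₁) {t : ℝ} (ht : 0 ≤ t) (N : ℕ) {E : ℝ → ℝ} (hE : IntegrableOn E (Set.Ioc 0 t))
    (hE2 : ∀ s ∈ Set.Ioc 0 t, Real.exp (2 * s) * (2 * ((2 * t) ^ N / N.factorial) * c₁) +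
      √(3 * Real.exp (4 * s) * ∑ j ∈ nb (win N Λ), (Af (EN N (t - s) g) j) ^ 4) +
      Real.exp (2 * s) * ∑ j ∈ nb (win N Λ), |Af (EN N (t - s) g) j| ^ 3 ≤ E s) :
    |∫ ω, Real.cos (lin Λ g (Y t ω)) ∂P| ≤
      |∏ k ∈ win N Λ, Real.cos (EN N t g k)| + ∫ s in Set.Ioc 0 t, E s := by
  set W := win N Λ with hW
  set f : ℝ → (ℤ → ℤ) → ℝ := fun s y => Real.cos (lin W (EN N (t - s) g) y) with hf
  set f' : ℝ → (ℤ → ℤ) → ℝ := fun s y =>
    Real.sin (lin W (EN N (t - s) g) y) * lin W (ENd N (t - s) g) y with hf'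
  -- bound for the derivative functional
  obtain ⟨Kd, hKd0, hKd⟩ : ∃ Kd : ℝ, 0 ≤ Kd ∧ ∀ s, 0 ≤ s → s ≤ t →
      ∑ k ∈ W, (ENd N (t - s) g k) ^ 2 ≤ Kd := by
    have hcont : ContinuousOn (fun s => ∑ k ∈ W, (ENd N (t - s) g k) ^ 2) (Set.Icc 0 t) := by
      apply Continuous.continuousOn
      exact continuous_finsetSum _ (fun k _ => (continuous_ENd N g t k).pow 2)
    obtain ⟨C, hC⟩ := isCompact_Icc.bddAbove_image hcont
    refine ⟨max C 0, le_max_right _ _, fun s hs hst => ?_⟩
    exact (hC ⟨s, ⟨hs, hst⟩, rfl⟩).trans (le_max_left _ _)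
  have hsqW : ∀ y, sqM W y ≤ sqM (W ∪ nb W) y := by
    intro y; unfold sqM
    have : ∑ x ∈ W, (y x : ℝ) ^ 2 ≤ ∑ x ∈ W ∪ nb W, (y x : ℝ) ^ 2 :=
      Finset.sum_le_sum_of_subset_of_nonneg Finset.subset_union_left (fun _ _ _ => sq_nonneg _)
    linarith
  have hbf : ∀ s, 0 ≤ s → s ≤ t → ∀ y, |f s y| ≤ (2 + Kd) * sqM (W ∪ nb W) y := by
    intro s _ _ y
    have h3 := one_le_sqM (W ∪ nb W) y
    refine (Real.abs_cos_le_one _).trans ?_
    nlinarith [mul_nonneg hKd0 (sqM_nonneg (W ∪ nb W) y)]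
  have hbf' : ∀ s, 0 ≤ s → s ≤ t → ∀ y, |f' s y| ≤ (2 + Kd) * sqM (W ∪ nb W) y := by
    intro s hs hst y
    have h3 := one_le_sqM (W ∪ nb W) y
    simp only [hf']
    rw [abs_mul]
    have h4 : (lin W (ENd N (t - s) g) y) ^ 2 ≤ Kd * sqM (W ∪ nb W) y := by
      refine (lin_sq_le W _ y).trans ?_
      have h3 := hKd s hs hst
      have h4 := hsqW y
      have h5 := sqM_nonneg W y
      gcongr
    have h5 := Real.abs_sin_le_one (lin W (EN N (t - s) g) y)
    have h6 : |lin W (ENd N (t - s) g) y| ≤ 1 + (lin W (ENd N (t - s) g) y) ^ 2 := by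
      nlinarith [sq_abs (lin W (ENd N (t - s) g) y),
        sq_nonneg (|lin W (ENd N (t - s) g) y| - 1)]
    calc |Real.sin (lin W (EN N (t - s) g) y)| * |lin W (ENd N (t - s) g) y| ≤
        1 * |lin W (ENd N (t - s) g) y| := by gcongr
      _ ≤ _ := by nlinarith
  have hbr : ∀ s, 0 ≤ s → s ≤ t → ∀ j ∈ nb W, ∀ y : ℤ → ℤ,
      |((y j).natAbs : ℝ) * (f s (upd j y) - f s y)| ≤ (2 + Kd) * sqM (W ∪ nb W) y := by
    intro s hs hst j hj y
    rw [abs_mul, abs_of_nonneg (by positivity : (0 : ℝ) ≤ ((y j).natAbs : ℝ))]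
    have h3 : |f s (upd j y) - f s y| ≤ 2 := by
      refine (abs_sub _ _).trans ?_
      linarith [Real.abs_cos_le_one (lin W (EN N (t - s) g) (upd j y)),
        Real.abs_cos_le_one (lin W (EN N (t - s) g) y)]
    have h4 : ((y j).natAbs : ℝ) ≤ sqM (W ∪ nb W) y :=
      natAbs_le_sqM (Finset.mem_union_right _ hj) y
    have h6 := sqM_nonneg (W ∪ nb W) y
    calc ((y j).natAbs : ℝ) * |f s (upd j y) - f s y| ≤ sqM (W ∪ nb W) y * 2 := by gcongr
      _ ≤ _ := by nlinarith [mul_nonneg hKd0 h6]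
  have hlocf : ∀ s, LocalOn W (f s) := fun s y y' hy => by
    simp only [hf, lin_local W _ y y' hy]
  have hlocf' : ∀ s, LocalOn W (f' s) := fun s y y' hy => by
    simp only [hf', lin_local W _ y y' hy]
  have hder : ∀ y, ∀ s, HasDerivAt (fun r => f r y) (f' s y) s := by
    intro y s
    have h3 : HasDerivAt (fun r => lin W (EN N (t - r) g) y) (-lin W (ENd N (t - s) g) y) s := by
      unfold lin
      rw [← Finset.sum_neg_distrib]
      refine HasDerivAt.fun_sum (fun k _ => ?_)
      have := (hasDerivAt_EN N g t k s).mul_const (y k : ℝ)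
      refine this.congr_deriv (by ring)
    have h4 := h3.cos
    refine h4.congr_deriv ?_
    simp only [hf']
    ring
  have hcontf' : ∀ y, Continuous (fun s => f' s y) := by
    intro y
    simp only [hf']
    unfold lin
    have h3 : Continuous (fun s => ∑ k ∈ W, EN N (t - s) g k * (y k : ℝ)) :=
      continuous_finsetSum _ (fun k _ => (continuous_EN N g t k).mul continuous_const)
    have h4 : Continuous (fun s => ∑ k ∈ W, ENd N (t - s) g k * (y k : ℝ)) :=
      continuous_finsetSum _ (fun k _ => (continuous_ENd N g t k).mul continuous_const)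
    exact (Real.continuous_sin.comp h3).mul h4
  set G : ℝ → ℝ := fun s => ∫ ω, (f' s (Y s ω) + ∑ j ∈ nb W, ((Y s ω j).natAbs : ℝ) *
      (f s (upd j (Y s ω)) - f s (Y s ω))) ∂P with hGdef
  have hdyn : ∀ r, 0 ≤ r → r ≤ t → IntegrableOn G (Set.Ioc 0 r) ∧
      (∫ ω, f r (Y r ω) ∂P) - ∫ ω, f 0 (Y 0 ω) ∂P = ∫ s in Set.Ioc 0 r, G s := by
    intro r hr hrt
    exact h.dynkin hlocf hlocf' hr hder hcontf' (fun s hs hsr => hbf s hs (hsr.trans hrt))
      (fun s hs hsr => hbf' s hs (hsr.trans hrt)) (fun s hs hsr => hbr s hs (hsr.trans hrt))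
  have hode := ode_abs_le (ψ := fun r => ∫ ω, f r (Y r ω) ∂P) (G := G)
    (Q := fun s => (∑ j ∈ nb W, q P Y s j * (Af (EN N (t - s) g) j) ^ 2) / 2) (E := E)
    ht (hdyn t ht le_rfl).1 hE
    (fun r hr hrt => by have := (hdyn r hr hrt).2; linarith)
    (fun s hs => by
      apply div_nonneg _ (by norm_num)
      exact Finset.sum_nonneg (fun j _ => mul_nonneg (h.q_nonneg s j) (sq_nonneg _)))
    (fun s hs => by
      have hs0 := hs.1.le
      have hst := hs.2
      have hu : 0 ≤ t - s := by linarith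
      refine le_trans ?_ (hE2 s hs)
      set a : ℤ → ℝ := fun j => Af (EN N (t - s) g) j with ha
      have hIcos : Integrable (fun ω => f s (Y s ω)) P :=
        h.integrable_of_le hs0 (hlocf s) (hbf s hs0 hst)
      -- the pointwise identity
      set rem : ℤ → (ℤ → ℤ) → ℝ := fun j y => f s (upd j y) - f s y +
        ((y j).sign * a j) * Real.sin (lin W (EN N (t - s) g) y) +
        ((y j).sign * a j) ^ 2 / 2 * Real.cos (lin W (EN N (t - s) g) y) with hrem
      have hremb : ∀ j y, |rem j y| ≤ |a j| ^ 3 := by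
        intro j y
        simp only [hrem, hf]
        rw [lin_upd (suppIn_EN hg N (t - s))]
        refine (abs_cos_taylor _ _).trans ?_
        apply pow_le_pow_left₀ (abs_nonneg _)
        rw [abs_mul]
        exact mul_le_of_le_one_left (abs_nonneg _) (abs_sign_le _)
      have hpt : ∀ ω, f' s (Y s ω) + ∑ j ∈ nb W, ((Y s ω j).natAbs : ℝ) *
          (f s (upd j (Y s ω)) - f s (Y s ω)) =
          -(∑ j ∈ nb W, q P Y s j * (a j) ^ 2) / 2 * f s (Y s ω) +
          (-Real.sin (lin W (EN N (t - s) g) (Y s ω)) *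
            lin (W ∪ nb W) (er N (t - s) g) (Y s ω) +
          (-(f s (Y s ω)) / 2 * ∑ j ∈ nb W, (a j) ^ 2 * (((Y s ω j).natAbs : ℝ) - q P Y s j) +
          ∑ j ∈ nb W, ((Y s ω j).natAbs : ℝ) * rem j (Y s ω))) := by
        intro ω
        set y := Y s ω with hy
        have e1 : ∑ j ∈ nb W, ((y j).natAbs : ℝ) * (f s (upd j y) - f s y) =
            ∑ j ∈ nb W, ((y j).natAbs : ℝ) * rem j y -
            Real.sin (lin W (EN N (t - s) g) y) * lin (nb W) (Af (EN N (t - s) g)) y -
            f s y / 2 * ∑ j ∈ nb W, (a j) ^ 2 * ((y j).natAbs : ℝ) := by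
          unfold lin
          rw [Finset.mul_sum, Finset.mul_sum, ← Finset.sum_sub_distrib, ← Finset.sum_sub_distrib]
          refine Finset.sum_congr rfl (fun j _ => ?_)
          have e2 := natAbs_mul_sign (y j)
          have e3 := natAbs_mul_sign_sq (y j)
          simp only [hrem, ha]
          have e4 : ((y j).natAbs : ℝ) * (f s (upd j y) - f s y +
              ((y j).sign * Af (EN N (t - s) g) j) * Real.sin (lin W (EN N (t - s) g) y) +
              ((y j).sign * Af (EN N (t - s) g) j) ^ 2 / 2 *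
                Real.cos (lin W (EN N (t - s) g) y)) =
              ((y j).natAbs : ℝ) * (f s (upd j y) - f s y) +
              (((y j).natAbs : ℝ) * (y j).sign) * Af (EN N (t - s) g) j *
                Real.sin (lin W (EN N (t - s) g) y) +
              (((y j).natAbs : ℝ) * (y j).sign ^ 2) * (Af (EN N (t - s) g) j) ^ 2 / 2 *
                Real.cos (lin W (EN N (t - s) g) y) := by ring
          rw [e4, e2, e3]
          simp only [hf]
          unfold lin
          ring
        rw [e1, ← lin_drift hg N (t - s) y]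
        have e5 : ∑ j ∈ nb W, (a j) ^ 2 * (((y j).natAbs : ℝ) - q P Y s j) =
            ∑ j ∈ nb W, (a j) ^ 2 * ((y j).natAbs : ℝ) -
            ∑ j ∈ nb W, q P Y s j * (a j) ^ 2 := by
          rw [← Finset.sum_sub_distrib]
          exact Finset.sum_congr rfl (fun j _ => by ring)
        rw [e5]
        simp only [hf', ← hW]
        ring
      -- integrability and bounds of the three error terms
      set T1 : Ω → ℝ := fun ω => -Real.sin (lin W (EN N (t - s) g) (Y s ω)) *
            lin (W ∪ nb W) (er N (t - s) g) (Y s ω) with hT1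
      set T2 : Ω → ℝ := fun ω => -(f s (Y s ω)) / 2 *
        ∑ j ∈ nb W, (a j) ^ 2 * (((Y s ω j).natAbs : ℝ) - q P Y s j) with hT2
      set T3 : Ω → ℝ := fun ω => ∑ j ∈ nb W, ((Y s ω j).natAbs : ℝ) * rem j (Y s ω) with hT3
      have hmY : ∀ x, Measurable (fun ω => Y s ω x) := fun x => h.measurable_Y hs0 x
      have hB1 : Integrable (fun ω => ∑ k ∈ W ∪ nb W,
          |er N (t - s) g k| * ((Y s ω k).natAbs : ℝ)) P :=
        integrable_finsetSum _ (fun k _ => (h.integrable_natAbs hs0 k).const_mul _)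
      have hB2 : Integrable (fun ω => |∑ j ∈ nb W, (a j) ^ 2 *
          (((Y s ω j).natAbs : ℝ) - q P Y s j)|) P :=
        (integrable_finsetSum _ (fun k _ =>
          ((h.integrable_natAbs hs0 k).sub (integrable_const _)).const_mul _)).abs
      have hB3 : Integrable (fun ω => ∑ j ∈ nb W, |a j| ^ 3 * ((Y s ω j).natAbs : ℝ)) P :=
        integrable_finsetSum _ (fun k _ => (h.integrable_natAbs hs0 k).const_mul _)
      have hle1 : ∀ ω, ‖T1 ω‖ ≤ ∑ k ∈ W ∪ nb W, |er N (t - s) g k| * ((Y s ω k).natAbs : ℝ) := by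
        intro ω
        rw [Real.norm_eq_abs]
        simp only [hT1]
        rw [abs_mul, abs_neg]
        have h3 := Real.abs_sin_le_one (lin W (EN N (t - s) g) (Y s ω))
        have h4 := abs_lin_le (W ∪ nb W) (er N (t - s) g) (Y s ω)
        calc _ ≤ 1 * |lin (W ∪ nb W) (er N (t - s) g) (Y s ω)| := by gcongr
          _ ≤ _ := by rw [one_mul]; exact h4
      have hle2 : ∀ ω, ‖T2 ω‖ ≤ |∑ j ∈ nb W, (a j) ^ 2 *
          (((Y s ω j).natAbs : ℝ) - q P Y s j)| := by
        intro ω
        rw [Real.norm_eq_abs]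
        simp only [hT2]
        rw [abs_mul, abs_div, abs_neg]
        have h3 : |f s (Y s ω)| ≤ 1 := Real.abs_cos_le_one _
        have h4 : |f s (Y s ω)| / |(2 : ℝ)| ≤ 1 := by
          rw [abs_of_pos (by norm_num : (0 : ℝ) < 2)]; linarith
        exact mul_le_of_le_one_left (abs_nonneg _) h4
      have hle3 : ∀ ω, ‖T3 ω‖ ≤ ∑ j ∈ nb W, |a j| ^ 3 * ((Y s ω j).natAbs : ℝ) := by
        intro ω
        rw [Real.norm_eq_abs]
        simp only [hT3]
        refine (Finset.abs_sum_le_sum_abs _ _).trans (Finset.sum_le_sum (fun j _ => ?_))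
        rw [abs_mul, abs_of_nonneg (by positivity : (0 : ℝ) ≤ ((Y s ω j).natAbs : ℝ)), mul_comm]
        have := hremb j (Y s ω)
        gcongr
      have hm1 : AEStronglyMeasurable T1 P := by
        have h3 : Measurable (fun ω => lin W (EN N (t - s) g) (Y s ω)) :=
          measurable_localY hmY (lin_local W _)
        have h4 : Measurable (fun ω => lin (W ∪ nb W) (er N (t - s) g) (Y s ω)) :=
          measurable_localY hmY (lin_local _ _)
        exact ((Real.measurable_sin.comp h3).neg.mul h4).aestronglyMeasurable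
      have hI1 : Integrable T1 P := hB1.mono' hm1 (ae_of_all _ hle1)
      have hI2 : Integrable T2 P := by
        refine hB2.mono' ?_ (ae_of_all _ hle2)
        have h3 : AEStronglyMeasurable (fun ω => ∑ j ∈ nb W, (a j) ^ 2 *
          (((Y s ω j).natAbs : ℝ) - q P Y s j)) P := (integrable_finsetSum _ (fun k _ =>
          ((h.integrable_natAbs hs0 k).sub (integrable_const _)).const_mul _)).1
        have h4 : AEStronglyMeasurable (fun ω => -(f s (Y s ω)) / 2) P :=
          (hIcos.neg.div_const 2).1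
        exact h4.mul h3
      have hI3 : Integrable T3 P := by
        have hdiff : ∀ j ∈ nb W, Integrable (fun ω => ((Y s ω j).natAbs : ℝ) *
            (f s (upd j (Y s ω)) - f s (Y s ω))) P := fun j hj =>
          h.integrable_rate (hlocf s) hs0 hj (hbr s hs0 hst j hj)
        have hff' : Integrable (fun ω => f' s (Y s ω)) P :=
          h.integrable_of_le hs0 (hlocf' s) (hbf' s hs0 hst)
        have e : T3 = fun ω => (f' s (Y s ω) + ∑ j ∈ nb W, ((Y s ω j).natAbs : ℝ) *
            (f s (upd j (Y s ω)) - f s (Y s ω))) -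
            (-(∑ j ∈ nb W, q P Y s j * (a j) ^ 2) / 2 * f s (Y s ω)) - T1 ω - T2 ω := by
          funext ω
          rw [hpt ω]
          simp only [hT1, hT2, hT3]
          ring
        rw [e]
        exact (((hff'.add (integrable_finsetSum _ hdiff)).sub (hIcos.const_mul _)).sub hI1).sub hI2
      have hGs : G s + (∑ j ∈ nb W, q P Y s j * (Af (EN N (t - s) g) j) ^ 2) / 2 *
          (∫ ω, f s (Y s ω) ∂P) = (∫ ω, T1 ω ∂P) + ((∫ ω, T2 ω ∂P) + ∫ ω, T3 ω ∂P) := by
        simp only [hGdef]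
        have e : ∀ ω, f' s (Y s ω) + ∑ j ∈ nb W, ((Y s ω j).natAbs : ℝ) *
          (f s (upd j (Y s ω)) - f s (Y s ω)) =
          -(∑ j ∈ nb W, q P Y s j * (a j) ^ 2) / 2 * f s (Y s ω) + (T1 ω + (T2 ω + T3 ω)) :=
          fun ω => hpt ω
        simp_rw [e]
        have hI23 : Integrable (fun ω => T2 ω + T3 ω) P := hI2.add hI3
        have hI123 : Integrable (fun ω => T1 ω + (T2 ω + T3 ω)) P := hI1.add hI23
        rw [integral_add (hIcos.const_mul _) hI123, integral_add hI1 hI23,
          integral_add hI2 hI3, integral_const_mul]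
        simp only [ha]
        ring
      rw [hGs]
      have hb1 : |∫ ω, T1 ω ∂P| ≤ Real.exp (2 * s) * (2 * ((2 * t) ^ N / N.factorial) * c₁) := by
        have h3 := norm_integral_le_of_norm_le hB1 (ae_of_all P hle1)
        rw [Real.norm_eq_abs, integral_finsetSum _
          (fun k _ => (h.integrable_natAbs hs0 k).const_mul _)] at h3
        simp_rw [integral_const_mul] at h3
        refine h3.trans ?_
        have h4 : ∑ k ∈ W ∪ nb W, |er N (t - s) g k| * ∫ ω, ((Y s ω k).natAbs : ℝ) ∂P ≤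
            ∑ k ∈ W ∪ nb W, |er N (t - s) g k| * Real.exp (2 * s) := by
          refine Finset.sum_le_sum (fun k _ => ?_)
          have := h.q_le_exp hs0 k
          unfold q at this
          gcongr
        refine h4.trans ?_
        rw [← Finset.sum_mul, mul_comm]
        have h5 := (h1.er N hu (by linarith : t - s ≤ t)) (W ∪ nb W)
        gcongr
      have hb2 : |∫ ω, T2 ω ∂P| ≤
          √(3 * Real.exp (4 * s) * ∑ j ∈ nb W, (Af (EN N (t - s) g) j) ^ 4) := by
        have h3 := norm_integral_le_of_norm_le hB2 (ae_of_all P hle2)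
        rw [Real.norm_eq_abs] at h3
        refine h3.trans ?_
        classical
        set w : ℤ → ℝ := fun j => if j ∈ nb W then (a j) ^ 2 else 0 with hw
        have hws : SuppIn (nb W) w := fun j hj => by simp only [hw, if_neg hj]
        have h4 := h.abs_dev_le hws (N2_of_supp hws) hs0
        have e1 : ∀ ω, ∑ k ∈ nb W, w k * (((Y s ω k).natAbs : ℝ) - q P Y s k) =
            ∑ j ∈ nb W, (a j) ^ 2 * (((Y s ω j).natAbs : ℝ) - q P Y s j) := by
          intro ω
          refine Finset.sum_congr rfl (fun j hj => ?_)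
          simp only [hw, if_pos hj]
        have e2 : ∑ k ∈ nb W, (w k) ^ 2 = ∑ j ∈ nb W, (Af (EN N (t - s) g) j) ^ 4 := by
          refine Finset.sum_congr rfl (fun j hj => ?_)
          simp only [hw, if_pos hj, ha]
          ring
        simp_rw [e1, e2] at h4
        exact h4
      have hb3 : |∫ ω, T3 ω ∂P| ≤ Real.exp (2 * s) *
          ∑ j ∈ nb W, |Af (EN N (t - s) g) j| ^ 3 := by
        have h3 := norm_integral_le_of_norm_le hB3 (ae_of_all P hle3)
        rw [Real.norm_eq_abs, integral_finsetSum _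
          (fun k _ => (h.integrable_natAbs hs0 k).const_mul _)] at h3
        simp_rw [integral_const_mul] at h3
        refine h3.trans ?_
        rw [Finset.mul_sum]
        refine Finset.sum_le_sum (fun k _ => ?_)
        rw [mul_comm]
        have := h.q_le_exp hs0 k
        unfold q at this
        simp only [ha]
        gcongr
      refine (abs_add_le _ _).trans ?_
      have := (abs_add_le (∫ ω, T2 ω ∂P) (∫ ω, T3 ω ∂P)).trans (add_le_add hb2 hb3)
      linarith)
  have hft : ∀ ω, f t (Y t ω) = Real.cos (lin Λ g (Y t ω)) := by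
    intro ω
    simp only [hf, sub_self, EN_zero]
    rw [lin_eq_of_subset hg (subset_win N Λ)]
  have hf0 : ∫ ω, f 0 (Y 0 ω) ∂P = ∏ k ∈ W, Real.cos (EN N t g k) := by
    simp only [hf, sub_zero]
    exact h.integral_initial_cos W _
  simp only [hft] at hode
  rw [hf0] at hode
  exact hode

end

end Pool.Agent.Lib.MP_5d2315_pr
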