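import Mathlib

/-!
# The two-type competing urn scheme on the integers: the model

Every ball at a site `k` uses one of the clocks `(k, 0), (k, 1), …` of that site: when there are
`m` balls at `k`, they use the clocks `(k, 0), …, (k, m - 1)`.  All clocks are independent
Poisson processes of rate `1`; because of the lack of memory of Poisson processes this is the
same as giving each ball a clock of its own.
-/

namespace Pool.Agent.Lib.MP_5d2315_pr

open MeasureTheory ProbabilityTheory Filter Topology
open scoped ENNReal NNReal

/-- The number of rings during the time interval `(s, t]` of a clock whose set of ring times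
is `A`. -/
noncomputable def ringCount (A : Set ℝ) (s t : ℝ) : ℕ := (A ∩ Set.Ioc s t).ncard

/-- `R k i ω` is the set of ring times of the clock with label `(k, i)`.  The clocks are
independent Poisson processes of rate `1` relative to the filtration `F`: there are finitely many
rings in bounded time, the numbers of rings up to time `t` are known at time `t`, the number of
rings during `(s, t]` has the Poisson law with mean `t - s`, and the numbers of rings of all the
clocks during `(s, t]` are independent of each other and of `F s`. -/
structure IsPoissonClocks {Ω : Type*} {mΩ : MeasurableSpace Ω} (P : Measure Ω)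
    (F : Filtration ℝ mΩ) (R : ℤ → ℕ → Ω → Set ℝ) : Prop where
  finite : ∀ k i ω t, (R k i ω ∩ Set.Ioc 0 t).Finite
  adapted : ∀ k i s t, 0 ≤ s → s ≤ t → Measurable[F t] fun ω => ringCount (R k i ω) s t
  law : ∀ k i s t, 0 ≤ s → s ≤ t →
    P.map (fun ω => ringCount (R k i ω) s t) = poissonMeasure (t - s).toNNReal
  indep : ∀ s t, 0 ≤ s → s ≤ t →
    iIndep (fun c : Option (ℤ × ℕ) => c.elim (F s)
      (fun p => MeasurableSpace.comap (fun ω => ringCount (R p.1 p.2 ω) s t) ⊤)) P

/-- The integer valued path `y` is equal to `a` immediately before time `t`. -/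
def LeftValue (y : ℝ → ℤ) (t : ℝ) (a : ℤ) : Prop := ∀ᶠ s in 𝓝[<] t, y s = a

/-- `y t x` is the number of red balls minus the number of blue balls at the site `x` at time
`t ≥ 0`, and `R k i` is the set of ring times of the clock `(k, i)`.  The numbers of balls at a
site are step functions of time which are continuous from the right.  Let `z` be the
configuration immediately before a time `t > 0`.  If at time `t` the clock of a ball at the site
`k` rings (a clock `(k, i)` where `i` is smaller than the number `|z k|` of balls at `k`), then
one ball of the colour of the balls at `k` is sent to each of the two neighbours of `k`.  If the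
clock of no ball rings at time `t`, then nothing changes at time `t`. -/
structure IsUrnPath (R : ℤ → ℕ → Set ℝ) (y : ℝ → ℤ → ℤ) : Prop where
  right : ∀ t, 0 ≤ t → ∀ x, ∀ᶠ s in 𝓝[>] t, y s x = y t x
  left : ∀ t, 0 < t → ∀ x, ∃ a, LeftValue (fun s => y s x) t a
  nucleation : ∀ t, 0 < t → ∀ z : ℤ → ℤ, (∀ x, LeftValue (fun s => y s x) t (z x)) →
    ∀ k i, t ∈ R k i → i < (z k).natAbs →
      ∀ x, y t x = z x + if x = k - 1 ∨ x = k + 1 then (z k).sign else 0
  quiet : ∀ t, 0 < t → ∀ z : ℤ → ℤ, (∀ x, LeftValue (fun s => y s x) t (z x)) →
    (∀ k i, t ∈ R k i → (z k).natAbs ≤ i) → ∀ x, y t x = z x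

/-- The two-type competing urn scheme on `ℤ` started from one ball per site, with independent
colours given by fair coin flips.  `Y t ω x` is the number of red balls minus the number of blue
balls at the site `x` at time `t`.  The last condition (second moments bounded uniformly in space
and locally uniformly in time) is the usual regularity condition for the infinite system: no
balls come in from infinity. -/
structure IsUrnProcess {Ω : Type*} {mΩ : MeasurableSpace Ω} (P : Measure Ω)
    (F : Filtration ℝ mΩ) (R : ℤ → ℕ → Ω → Set ℝ) (Y : ℝ → Ω → ℤ → ℤ) : Prop where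
  clocks : IsPoissonClocks P F R
  adapted : ∀ t, 0 ≤ t → ∀ x, Measurable[F t] fun ω => Y t ω x
  initial : ∀ x, P {ω | Y 0 ω x = 1} = 1 / 2 ∧ P {ω | Y 0 ω x = -1} = 1 / 2
  initial_indep : iIndepFun (fun x ω => Y 0 ω x) P
  paths : ∀ᵐ ω ∂P, IsUrnPath (fun k i => R k i ω) (fun t => Y t ω)
  moments : ∀ T : ℝ, ∃ B : ℝ≥0, ∀ t, 0 ≤ t → t ≤ T → ∀ x,
    ∫⁻ ω, ((Y t ω x).natAbs : ℝ≥0∞) ^ 2 ∂P ≤ B

/-- `S` is a set of consecutive sites which contains at least one occupied site and in which
every site is white (holds no ball) or has one and the same colour. -/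
def IsMonochromatic (y : ℤ → ℤ) (S : Set ℤ) : Prop :=
  S.OrdConnected ∧ (∃ x ∈ S, y x ≠ 0) ∧ ((∀ x ∈ S, 0 ≤ y x) ∨ (∀ x ∈ S, y x ≤ 0))

/-- `S` is a monochromatic interval of the configuration `y`: a maximal set of consecutive sites
that contains at least one occupied site and in which every site is white or has one and the same
colour. -/
def IsMonoInterval (y : ℤ → ℤ) (S : Set ℤ) : Prop := Maximal (IsMonochromatic y) S

/-- There is a monochromatic interval which contains the site `0`, and every such interval is
finite and has at least `a` and at most `b` sites. -/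
def WidthBetween (y : ℤ → ℤ) (a b : ℝ) : Prop :=
  (∃ S, IsMonoInterval y S ∧ (0 : ℤ) ∈ S) ∧
    ∀ S, IsMonoInterval y S → (0 : ℤ) ∈ S → S.Finite ∧ a ≤ (S.ncard : ℝ) ∧ (S.ncard : ℝ) ≤ b

end Pool.Agent.Lib.MP_5d2315_pr
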