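import Pool.Agent.Lib.MP_5d2315_pr.Path

/-!
# Sums over active rings
-/

namespace Pool.Agent.Lib.MP_5d2315_pr

open MeasureTheory ProbabilityTheory Filter Topology
open scoped ENNReal NNReal

lemma lintegral_ringMeasure {A : Set ℝ} {T : ℝ} (hA : (A ∩ Set.Ioc 0 T).Finite)
    (g : ℝ → ℝ≥0∞) :
    ∫⁻ s, g s ∂(ringMeasure A T) = ∑' s : ℝ, (A ∩ Set.Ioc 0 T).indicator g s := by
  unfold ringMeasure
  rw [lintegral_countable _ hA.countable, ← tsum_subtype]
  refine tsum_congr (fun a => ?_)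
  rw [Measure.count_singleton, mul_one]

/-- Sum over the active rings as a sum of integrals. -/
lemma sum_active {R : ℤ → ℕ → Set ℝ} {z : ℝ → ℤ → ℤ} {J : Finset ℤ} {T : ℝ}
    (hfin : ∀ j i, (R j i ∩ Set.Ioc 0 T).Finite)
    (hact : (PathData.actSet R z J T).Finite) (G : ℤ → ℝ → ℝ≥0∞) :
    ∑ a ∈ hact.toFinset, G a.1 a.2.2 =
      ∑ j ∈ J, ∑' i : ℕ, ∫⁻ s, (if i < (z s j).natAbs then G j s else 0)
        ∂(ringMeasure (R j i) T) := by
  classical
  have h1 : ∑ a ∈ hact.toFinset, G a.1 a.2.2 =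
      ∑' a : ℤ × ℕ × ℝ, (PathData.actSet R z J T).indicator (fun a => G a.1 a.2.2) a := by
    rw [← tsum_subtype, ← Finset.tsum_subtype]
    have e : ∀ a : ℤ × ℕ × ℝ, a ∈ hact.toFinset ↔ a ∈ PathData.actSet R z J T := by
      intro a; rw [Set.Finite.mem_toFinset]
    exact Equiv.tsum_eq (Equiv.subtypeEquivRight e)
      (fun a : PathData.actSet R z J T => G a.1.1 a.1.2.2)
  rw [h1, ENNReal.tsum_prod']
  rw [tsum_eq_sum (s := J)]
  · refine Finset.sum_congr rfl (fun j hj => ?_)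
    rw [ENNReal.tsum_prod']
    refine tsum_congr (fun i => ?_)
    rw [lintegral_ringMeasure (hfin j i)]
    refine tsum_congr (fun s => ?_)
    by_cases hs : s ∈ R j i ∩ Set.Ioc 0 T
    · rw [Set.indicator_of_mem hs]
      by_cases hi : i < (z s j).natAbs
      · have hm : (j, i, s) ∈ PathData.actSet R z J T := ⟨hj, hs.2.1, hs.2.2, hs.1, hi⟩
        rw [Set.indicator_of_mem hm, if_pos hi]
      · have hm : (j, i, s) ∉ PathData.actSet R z J T := fun h => hi h.2.2.2.2
        rw [Set.indicator_of_notMem hm, if_neg hi]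
    · have hm : (j, i, s) ∉ PathData.actSet R z J T := fun h => hs ⟨h.2.2.2.1, h.2.1, h.2.2.1⟩
      rw [Set.indicator_of_notMem hm, Set.indicator_of_notMem hs]
  · intro j hj
    rw [ENNReal.tsum_eq_zero]
    intro p
    rw [Set.indicator_of_notMem]
    intro h
    exact hj h.1

end Pool.Agent.Lib.MP_5d2315_pr
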