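import Pool.Agent.Lib.MP_5d2315_pr.Dyn1

/-!
# The Dynkin formula for local functions of the urn process
-/

namespace Pool.Agent.Lib.MP_5d2315_pr

open MeasureTheory ProbabilityTheory Filter Topology
open scoped ENNReal NNReal

variable {Ω : Type*} {mΩ : MeasurableSpace Ω} {P : Measure Ω}
  {F : Filtration ℝ mΩ} {R : ℤ → ℕ → Ω → Set ℝ} {Y : ℝ → Ω → ℤ → ℤ}

section

variable (h : IsUrnProcess P F R Y)
include h

lemma IsUrnProcess.ae_pathData : ∀ᵐ ω ∂P,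
    PathData (fun k i => R k i ω) (fun t => Y t ω) (fun s => ZL Y (ω, s)) := by
  filter_upwards [h.paths, h.clocks.no_simultaneous] with ω h1 h2
  refine ⟨h1, h2, ?_⟩
  intro s hs x
  obtain ⟨a, ha⟩ := h1.left s hs x
  rw [ZL_eq hs ha]
  exact ha

lemma IsUrnProcess.ae_ZL_eq {s : ℝ} (hs : 0 < s) : ∀ᵐ ω ∂P, ZL Y (ω, s) = Y s ω := by
  filter_upwards [h.ae_pathData, h.clocks.no_fixed_ring hs] with ω h1 h2
  funext x
  refine (h1.path.quiet s hs (ZL Y (ω, s)) (h1.left s hs) ?_ x).symm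
  intro k i hk
  exact absurd hk (h2 k i)

lemma IsUrnProcess.measurable_Y {s : ℝ} (hs : 0 ≤ s) (x : ℤ) : Measurable (fun ω => Y s ω x) :=
  (h.adapted s hs x).mono (F.le s) le_rfl

lemma IsUrnProcess.measurable_ZL' (x : ℤ) : Measurable (fun p : Ω × ℝ => ZL Y p x) :=
  (measurable_ZL h.adapted x).mono (pred_le F) le_rfl

omit h in
lemma measurable_localY {α : Type*} [MeasurableSpace α] {s : ℝ} {Λ : Finset ℤ} {g : (ℤ → ℤ) → α}
    (hY : ∀ x, Measurable (fun ω => Y s ω x)) (hg : LocalOn Λ g) :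
    Measurable (fun ω => g (Y s ω)) := by
  have e : (fun ω => g (Y s ω)) = (fun v : Λ → ℤ => g (extZ Λ v)) ∘
      (fun ω => fun x : Λ => Y s ω x) := by
    funext ω
    simp only [Function.comp]
    apply hg
    intro x hx
    simp [extZ, hx]
  rw [e]
  exact (measurable_of_countable _).comp (measurable_pi_lambda _ (fun x => hY x))

end

/-- product measure on `Ω × (0, T]` -/
noncomputable abbrev pm (P : Measure Ω) (T : ℝ) : Measure (Ω × ℝ) :=
  P.prod (volume.restrict (Set.Ioc 0 T))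

section

variable [IsProbabilityMeasure P] (h : IsUrnProcess P F R Y)
include h

lemma IsUrnProcess.lintegral_ZL {G : ℝ → (ℤ → ℤ) → ℝ≥0∞}
    (hG : Measurable (fun p : Ω × ℝ => G p.2 (ZL Y p))) (T : ℝ) :
    ∫⁻ p, G p.2 (ZL Y p) ∂(pm P T) = ∫⁻ s in Set.Ioc 0 T, (∫⁻ ω, G s (Y s ω) ∂P) := by
  rw [lintegral_prod_symm' _ hG]
  refine setLIntegral_congr_fun measurableSet_Ioc (fun s hs => ?_)
  refine lintegral_congr_ae ?_
  filter_upwards [h.ae_ZL_eq hs.1] with ω hω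
  simp only [hω]

lemma IsUrnProcess.integral_ZL {g : ℝ → (ℤ → ℤ) → ℝ} {T : ℝ}
    (hg : Integrable (fun p : Ω × ℝ => g p.2 (ZL Y p)) (pm P T)) :
    ∫ p, g p.2 (ZL Y p) ∂(pm P T) = ∫ s in Set.Ioc 0 T, (∫ ω, g s (Y s ω) ∂P) := by
  rw [integral_prod_symm _ hg]
  refine setIntegral_congr_fun measurableSet_Ioc (fun s hs => ?_)
  refine integral_congr_ae ?_
  filter_upwards [h.ae_ZL_eq hs.1] with ω hω
  simp only [hω]

lemma IsUrnProcess.integrableOn_ZL {g : ℝ → (ℤ → ℤ) → ℝ} {T : ℝ}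
    (hg : Integrable (fun p : Ω × ℝ => g p.2 (ZL Y p)) (pm P T)) :
    IntegrableOn (fun s => ∫ ω, g s (Y s ω) ∂P) (Set.Ioc 0 T) := by
  have h1 := hg.integral_prod_right
  refine h1.congr ?_
  rw [EventuallyEq, ae_restrict_iff' measurableSet_Ioc]
  refine ae_of_all _ (fun s hs => ?_)
  refine integral_congr_ae ?_
  filter_upwards [h.ae_ZL_eq hs.1] with ω hω
  simp only [hω]

end

/-- quadratic growth function -/
noncomputable def sqM (M : Finset ℤ) (y : ℤ → ℤ) : ℝ := 1 + ∑ x ∈ M, (y x : ℝ) ^ 2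

lemma sqM_nonneg (M : Finset ℤ) (y : ℤ → ℤ) : 0 ≤ sqM M y := by
  unfold sqM; positivity

lemma ofReal_sqM (M : Finset ℤ) (y : ℤ → ℤ) :
    ENNReal.ofReal (sqM M y) = 1 + ∑ x ∈ M, ((y x).natAbs : ℝ≥0∞) ^ 2 := by
  unfold sqM
  rw [ENNReal.ofReal_add (by norm_num) (Finset.sum_nonneg (fun x _ => by positivity)),
    ENNReal.ofReal_one, ENNReal.ofReal_sum_of_nonneg (fun x _ => by positivity)]
  congr 1
  refine Finset.sum_congr rfl (fun x _ => ?_)
  have e : ((y x : ℝ)) ^ 2 = (((y x).natAbs : ℕ) : ℝ) ^ 2 := by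
    rw [Nat.cast_natAbs]; push_cast; rw [sq_abs]
  rw [e, ENNReal.ofReal_pow (by positivity), ENNReal.ofReal_natCast]

section

variable [IsProbabilityMeasure P] (h : IsUrnProcess P F R Y)
include h

lemma IsUrnProcess.lintegral_sqM_le (M : Finset ℤ) (T : ℝ) :
    ∃ B : ℝ≥0, ∀ s, 0 ≤ s → s ≤ T → ∫⁻ ω, ENNReal.ofReal (sqM M (Y s ω)) ∂P ≤ B := by
  obtain ⟨B, hB⟩ := h.moments T
  refine ⟨1 + M.card * B, fun s hs hsT => ?_⟩
  simp_rw [ofReal_sqM]
  rw [lintegral_add_left measurable_const, lintegral_one, measure_univ, lintegral_finsetSum]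
  · push_cast
    gcongr
    refine (Finset.sum_le_sum (fun x _ => hB s hs hsT x)).trans ?_
    rw [Finset.sum_const, nsmul_eq_mul]
  · intro x _
    exact (Measurable.comp (g := fun a : ℤ => (a.natAbs : ℝ≥0∞) ^ 2) (measurable_of_countable _)
      (h.measurable_Y hs x))

lemma IsUrnProcess.integrable_of_le {s : ℝ} (hs : 0 ≤ s) {M Λ : Finset ℤ} {g : (ℤ → ℤ) → ℝ}
    (hloc : LocalOn Λ g) {C : ℝ} (hg : ∀ y, |g y| ≤ C * sqM M y) :
    Integrable (fun ω => g (Y s ω)) P := by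
  obtain ⟨B, hB⟩ := h.lintegral_sqM_le M s
  refine ⟨(measurable_localY (fun x => h.measurable_Y hs x) hloc).aestronglyMeasurable, ?_⟩
  rw [hasFiniteIntegral_iff_norm]
  have h1 : ∫⁻ ω, ENNReal.ofReal ‖g (Y s ω)‖ ∂P ≤
      ∫⁻ ω, ENNReal.ofReal C * ENNReal.ofReal (sqM M (Y s ω)) ∂P := by
    refine lintegral_mono (fun ω => ?_)
    rw [← ENNReal.ofReal_mul' (sqM_nonneg _ _)]
    exact ENNReal.ofReal_le_ofReal (hg _)
  refine h1.trans_lt ?_
  rw [lintegral_const_mul' _ _ ENNReal.ofReal_ne_top]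
  exact ENNReal.mul_lt_top ENNReal.ofReal_lt_top ((hB s hs le_rfl).trans_lt ENNReal.coe_lt_top)

lemma IsUrnProcess.measurable_sqM_ZL (M : Finset ℤ) :
    Measurable (fun p : Ω × ℝ => sqM M (ZL Y p)) := by
  unfold sqM
  refine measurable_const.add (Finset.measurable_sum _ (fun x _ => ?_))
  exact (Measurable.comp (g := fun a : ℤ => (a : ℝ) ^ 2) (measurable_of_countable _)
      (h.measurable_ZL' x))

lemma IsUrnProcess.integrable_ZL_of_le {T : ℝ} {M Λ : Finset ℤ}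
    {g : ℝ → (ℤ → ℤ) → ℝ} (hloc : ∀ s, LocalOn Λ (g s)) (hm : ∀ y, Measurable (fun s => g s y))
    {C : ℝ} (hg : ∀ s, 0 ≤ s → s ≤ T → ∀ y, |g s y| ≤ C * sqM M y) :
    Integrable (fun p : Ω × ℝ => g p.2 (ZL Y p)) (pm P T) := by
  obtain ⟨B, hB⟩ := h.lintegral_sqM_le M T
  have hmeas : Measurable (fun p : Ω × ℝ => g p.2 (ZL Y p)) :=
    (measurable_local_pred h.adapted hloc hm).mono (pred_le F) le_rfl
  refine ⟨hmeas.aestronglyMeasurable, ?_⟩
  rw [hasFiniteIntegral_iff_norm]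
  rw [h.lintegral_ZL (G := fun s y => ENNReal.ofReal ‖g s y‖)
    (ENNReal.measurable_ofReal.comp hmeas.norm) T]
  have h1 : ∫⁻ s in Set.Ioc 0 T, (∫⁻ ω, ENNReal.ofReal ‖g s (Y s ω)‖ ∂P) ≤
      ∫⁻ s in Set.Ioc 0 T, (ENNReal.ofReal C * B) := by
    refine setLIntegral_mono measurable_const (fun s hs => ?_)
    have h2 : ∫⁻ ω, ENNReal.ofReal ‖g s (Y s ω)‖ ∂P ≤
        ∫⁻ ω, ENNReal.ofReal C * ENNReal.ofReal (sqM M (Y s ω)) ∂P := by
      refine lintegral_mono (fun ω => ?_)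
      rw [← ENNReal.ofReal_mul' (sqM_nonneg _ _)]
      exact ENNReal.ofReal_le_ofReal (hg s hs.1.le hs.2 _)
    refine h2.trans ?_
    rw [lintegral_const_mul' _ _ ENNReal.ofReal_ne_top]
    gcongr
    exact hB s hs.1.le hs.2
  refine h1.trans_lt ?_
  rw [setLIntegral_const, Real.volume_Ioc]
  exact ENNReal.mul_lt_top (ENNReal.mul_lt_top ENNReal.ofReal_lt_top ENNReal.coe_lt_top)
    ENNReal.ofReal_lt_top

end

end Pool.Agent.Lib.MP_5d2315_pr
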