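import Pool.Agent.Lib.MP_5d2315_pr.Dyn2

/-!
# The Dynkin formula for local functions of the urn process, II
-/

namespace Pool.Agent.Lib.MP_5d2315_pr

open MeasureTheory ProbabilityTheory Filter Topology
open scoped ENNReal NNReal

variable {Ω : Type*} {mΩ : MeasurableSpace Ω} {P : Measure Ω}
  {F : Filtration ℝ mΩ} {R : ℤ → ℕ → Ω → Set ℝ} {Y : ℝ → Ω → ℤ → ℤ}

lemma tsum_if_lt (n : ℕ) (c : ℝ≥0∞) : ∑' i : ℕ, (if i < n then c else 0) = n * c := by
  rw [tsum_eq_sum (s := Finset.range n)]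
  · rw [Finset.sum_congr rfl (g := fun _ => c)]
    · rw [Finset.sum_const, Finset.card_range, nsmul_eq_mul]
    · intro i hi
      rw [if_pos (Finset.mem_range.1 hi)]
  · intro i hi
    rw [if_neg]
    simpa using hi

/-- the jump sum -/
noncomputable def jumpN (R : ℤ → ℕ → Ω → Set ℝ) (Y : ℝ → Ω → ℤ → ℤ) (J : Finset ℤ) (T : ℝ)
    (Φ : ℤ → ℝ → (ℤ → ℤ) → ℝ≥0∞) (ω : Ω) : ℝ≥0∞ :=
  ∑ j ∈ J, ∑' i : ℕ, ∫⁻ s, (if i < (ZL Y (ω, s) j).natAbs then Φ j s (ZL Y (ω, s)) else 0)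
        ∂(ringMeasure (R j i ω) T)

section

variable [IsProbabilityMeasure P] (h : IsUrnProcess P F R Y)
include h

lemma IsUrnProcess.lintegral_jumpN (J : Finset ℤ) {T : ℝ} (hT : 0 ≤ T)
    {Φ : ℤ → ℝ → (ℤ → ℤ) → ℝ≥0∞}
    (hΦ : ∀ j ∈ J, Measurable[pred F] (fun p : Ω × ℝ => Φ j p.2 (ZL Y p))) :
    Measurable (jumpN R Y J T Φ) ∧
    ∫⁻ ω, jumpN R Y J T Φ ω ∂P =
      ∑ j ∈ J, ∫⁻ p, ((ZL Y p j).natAbs : ℝ≥0∞) * Φ j p.2 (ZL Y p) ∂(pm P T) := by
  have hH : ∀ j ∈ J, ∀ i : ℕ, Measurable[pred F] (fun p : Ω × ℝ =>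
      if i < (ZL Y p j).natAbs then Φ j p.2 (ZL Y p) else 0) := by
    intro j hj i
    let : MeasurableSpace (Ω × ℝ) := pred F
    refine Measurable.ite ?_ (hΦ j hj) measurable_const
    have := measurable_ZL h.adapted j
    exact this (MeasurableSet.of_discrete (s := {a : ℤ | i < a.natAbs}))
  have hc : ∀ j ∈ J, ∀ i : ℕ, _ := fun j hj i => h.clocks.compensation j i hT (hH j hj i)
  refine ⟨?_, ?_⟩
  · unfold jumpN
    refine Finset.measurable_sum _ (fun j hj => ?_)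
    exact Measurable.tsum (fun i => (hc j hj i).1)
  · unfold jumpN
    rw [lintegral_finsetSum]
    · refine Finset.sum_congr rfl (fun j hj => ?_)
      rw [lintegral_tsum (fun i => (hc j hj i).1.aemeasurable)]
      have e1 : ∀ i : ℕ, ∫⁻ ω, (∫⁻ s, (if i < (ZL Y (ω, s) j).natAbs then
          Φ j s (ZL Y (ω, s)) else 0) ∂(ringMeasure (R j i ω) T)) ∂P =
          ∫⁻ p, (if i < (ZL Y p j).natAbs then Φ j p.2 (ZL Y p) else 0) ∂(pm P T) := by
        intro i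
        rw [(hc j hj i).2, lintegral_prod _ (((hH j hj i).mono (pred_le F) le_rfl).aemeasurable)]
      rw [tsum_congr e1, ← lintegral_tsum
        (fun i => ((hH j hj i).mono (pred_le F) le_rfl).aemeasurable)]
      refine lintegral_congr (fun p => ?_)
      rw [tsum_if_lt]
    · intro j hj
      exact Measurable.tsum (fun i => (hc j hj i).1)

lemma IsUrnProcess.integrable_rate {Λ M : Finset ℤ} {f : (ℤ → ℤ) → ℝ}
    (hloc : LocalOn Λ f) {s : ℝ} (hs : 0 ≤ s) {j : ℤ} (hj : j ∈ nb Λ) {C : ℝ}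
    (hδ : ∀ y, |((y j).natAbs : ℝ) * (f (upd j y) - f y)| ≤ C * sqM M y) :
    Integrable (fun ω => ((Y s ω j).natAbs : ℝ) * (f (upd j (Y s ω)) - f (Y s ω))) P := by
  refine h.integrable_of_le hs (Λ := Λ ∪ nb Λ)
    (g := fun y => ((y j).natAbs : ℝ) * (f (upd j y) - f y)) ?_ hδ
  intro y y' hy
  have h1 : f y = f y' := hloc y y' (fun x hx => hy x (Finset.mem_union_left _ hx))
  have h2 : f (upd j y) = f (upd j y') := by
    apply hloc
    intro x hx
    unfold upd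
    rw [hy x (Finset.mem_union_left _ hx), hy j (Finset.mem_union_right _ hj)]
  simp only [h1, h2, hy j (Finset.mem_union_right _ hj)]

/-- **Dynkin formula** for local functions of the process. -/
theorem IsUrnProcess.dynkin {Λ M : Finset ℤ} {f f' : ℝ → (ℤ → ℤ) → ℝ}
    (hloc : ∀ s, LocalOn Λ (f s)) (hloc' : ∀ s, LocalOn Λ (f' s)) {T : ℝ} (hT : 0 ≤ T)
    (hder : ∀ y, ∀ s, HasDerivAt (fun r => f r y) (f' s y) s)
    (hcont : ∀ y, Continuous (fun s => f' s y)) {C : ℝ}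
    (hf : ∀ s, 0 ≤ s → s ≤ T → ∀ y, |f s y| ≤ C * sqM M y)
    (hf' : ∀ s, 0 ≤ s → s ≤ T → ∀ y, |f' s y| ≤ C * sqM M y)
    (hδ : ∀ s, 0 ≤ s → s ≤ T → ∀ j ∈ nb Λ, ∀ y,
      |((y j).natAbs : ℝ) * (f s (upd j y) - f s y)| ≤ C * sqM M y) :
    IntegrableOn (fun s => ∫ ω, (f' s (Y s ω) + ∑ j ∈ nb Λ, ((Y s ω j).natAbs : ℝ) *
      (f s (upd j (Y s ω)) - f s (Y s ω))) ∂P) (Set.Ioc 0 T) ∧
    (∫ ω, f T (Y T ω) ∂P) - ∫ ω, f 0 (Y 0 ω) ∂P =
      ∫ s in Set.Ioc 0 T, (∫ ω, (f' s (Y s ω) + ∑ j ∈ nb Λ, ((Y s ω j).natAbs : ℝ) *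
      (f s (upd j (Y s ω)) - f s (Y s ω))) ∂P) := by
  classical
  set Λ' : Finset ℤ := Λ ∪ nb Λ with hΛ'
  have hlocδ : ∀ j ∈ nb Λ, ∀ s, LocalOn Λ' (fun y => f s (upd j y) - f s y) := by
    intro j hj s y y' hy
    have h1 : f s y = f s y' := hloc s y y' (fun x hx => hy x (Finset.mem_union_left _ hx))
    have h2 : f s (upd j y) = f s (upd j y') := by
      apply hloc s
      intro x hx
      unfold upd
      rw [hy x (Finset.mem_union_left _ hx), hy j (Finset.mem_union_right _ hj)]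
    simp only [h1, h2]
  have hlocH : ∀ j ∈ nb Λ, ∀ s, LocalOn Λ'
      (fun y => ((y j).natAbs : ℝ) * (f s (upd j y) - f s y)) := by
    intro j hj s y y' hy
    have h1 := hlocδ j hj s y y' hy
    simp only at h1 ⊢
    rw [h1, hy j (Finset.mem_union_right _ hj)]
  have hcontf : ∀ y, Continuous (fun s => f s y) := fun y =>
    continuous_iff_continuousAt.2 (fun s => (hder y s).continuousAt)
  -- integrability of H_j
  have hIH : ∀ j ∈ nb Λ, Integrable (fun p : Ω × ℝ => ((ZL Y p j).natAbs : ℝ) *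
      (f p.2 (upd j (ZL Y p)) - f p.2 (ZL Y p))) (pm P T) := by
    intro j hj
    refine h.integrable_ZL_of_le (g := fun s y => ((y j).natAbs : ℝ) * (f s (upd j y) - f s y))
      (hlocH j hj) (fun y => ?_) (fun s hs hsT y => hδ s hs hsT j hj y)
    exact (measurable_const.mul (((hcontf _).measurable).sub (hcontf _).measurable))
  have hIf' : Integrable (fun p : Ω × ℝ => f' p.2 (ZL Y p)) (pm P T) :=
    h.integrable_ZL_of_le hloc' (fun y => (hcont y).measurable) hf'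
  have hIfT : Integrable (fun ω => f T (Y T ω)) P :=
    h.integrable_of_le hT (hloc T) (hf T hT le_rfl)
  have hIf0 : Integrable (fun ω => f 0 (Y 0 ω)) P :=
    h.integrable_of_le le_rfl (hloc 0) (hf 0 le_rfl hT)
  -- the jump sums
  set Φp : ℤ → ℝ → (ℤ → ℤ) → ℝ≥0∞ := fun j s y => ENNReal.ofReal (f s (upd j y) - f s y) with hΦp
  set Φm : ℤ → ℝ → (ℤ → ℤ) → ℝ≥0∞ := fun j s y => ENNReal.ofReal (-(f s (upd j y) - f s y))
    with hΦm
  have hδm : ∀ j ∈ nb Λ, Measurable[pred F]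
      (fun p : Ω × ℝ => f p.2 (upd j (ZL Y p)) - f p.2 (ZL Y p)) := by
    intro j hj
    exact measurable_local_pred h.adapted (h := fun s y => f s (upd j y) - f s y)
      (hlocδ j hj) (fun y => ((hcontf _).measurable).sub (hcontf _).measurable)
  have hp := h.lintegral_jumpN (nb Λ) hT (Φ := Φp)
    (fun j hj => ENNReal.measurable_ofReal.comp (hδm j hj))
  have hm := h.lintegral_jumpN (nb Λ) hT (Φ := Φm)
    (fun j hj => ENNReal.measurable_ofReal.comp (hδm j hj).neg)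
  have hnat : ∀ (n : ℕ) (r : ℝ), (n : ℝ≥0∞) * ENNReal.ofReal r = ENNReal.ofReal ((n : ℝ) * r) := by
    intro n r
    rw [ENNReal.ofReal_mul (by positivity), ENNReal.ofReal_natCast]
  have hp2 : ∫⁻ ω, jumpN R Y (nb Λ) T Φp ω ∂P = ∑ j ∈ nb Λ, ∫⁻ p, ENNReal.ofReal
      (((ZL Y p j).natAbs : ℝ) * (f p.2 (upd j (ZL Y p)) - f p.2 (ZL Y p))) ∂(pm P T) := by
    rw [hp.2]
    refine Finset.sum_congr rfl (fun j _ => lintegral_congr (fun p => ?_))
    simp only [hΦp]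
    rw [hnat]
  have hm2 : ∫⁻ ω, jumpN R Y (nb Λ) T Φm ω ∂P = ∑ j ∈ nb Λ, ∫⁻ p, ENNReal.ofReal
      (-(((ZL Y p j).natAbs : ℝ) * (f p.2 (upd j (ZL Y p)) - f p.2 (ZL Y p)))) ∂(pm P T) := by
    rw [hm.2]
    refine Finset.sum_congr rfl (fun j _ => lintegral_congr (fun p => ?_))
    simp only [hΦm]
    rw [hnat, mul_neg]
  have hfinp : ∀ j ∈ nb Λ, ∫⁻ p, ENNReal.ofReal
      (((ZL Y p j).natAbs : ℝ) * (f p.2 (upd j (ZL Y p)) - f p.2 (ZL Y p))) ∂(pm P T) ≠ ⊤ := by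
    intro j hj
    refine ne_top_of_le_ne_top (hIH j hj).2.ne (lintegral_mono (fun p => ?_))
    rw [← ofReal_norm]
    exact ENNReal.ofReal_le_ofReal (le_abs_self _)
  have hfinm : ∀ j ∈ nb Λ, ∫⁻ p, ENNReal.ofReal
      (-(((ZL Y p j).natAbs : ℝ) * (f p.2 (upd j (ZL Y p)) - f p.2 (ZL Y p)))) ∂(pm P T) ≠ ⊤ := by
    intro j hj
    refine ne_top_of_le_ne_top (hIH j hj).2.ne (lintegral_mono (fun p => ?_))
    rw [← ofReal_norm]
    exact ENNReal.ofReal_le_ofReal (neg_le_abs _)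
  have hNp : ∫⁻ ω, jumpN R Y (nb Λ) T Φp ω ∂P ≠ ⊤ := by
    rw [hp2]; exact ENNReal.sum_ne_top.2 hfinp
  have hNm : ∫⁻ ω, jumpN R Y (nb Λ) T Φm ω ∂P ≠ ⊤ := by
    rw [hm2]; exact ENNReal.sum_ne_top.2 hfinm
  -- pathwise formula
  have hpath : ∀ᵐ ω ∂P, f T (Y T ω) - f 0 (Y 0 ω) = (∫ s in Set.Ioc 0 T, f' s (ZL Y (ω, s))) +
      ((jumpN R Y (nb Λ) T Φp ω).toReal - (jumpN R Y (nb Λ) T Φm ω).toReal) := by
    filter_upwards [h.ae_pathData] with ω hω
    have hmeas : Measurable (fun s => f' s (ZL Y (ω, s))) :=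
      ((measurable_local_pred h.adapted hloc' (fun y => (hcont y).measurable)).mono
        (pred_le F) le_rfl).comp measurable_prodMk_left
    obtain ⟨h1, h2⟩ := hω.change hloc hloc' hT hder hcont hmeas
    rw [h2, intervalIntegral.integral_of_le hT]
    congr 1
    have hfin : ∀ j i, (R j i ω ∩ Set.Ioc 0 T).Finite := fun j i => h.clocks.finite j i ω T
    have e1 := sum_active (R := fun j i => R j i ω) (z := fun s => ZL Y (ω, s)) hfin
      (hω.finite_actSet (nb Λ) T) (fun j s => Φp j s (ZL Y (ω, s)))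
    have e2 := sum_active (R := fun j i => R j i ω) (z := fun s => ZL Y (ω, s)) hfin
      (hω.finite_actSet (nb Λ) T) (fun j s => Φm j s (ZL Y (ω, s)))
    unfold jumpN
    rw [← e1, ← e2, ENNReal.toReal_sum (fun a _ => ENNReal.ofReal_ne_top),
      ENNReal.toReal_sum (fun a _ => ENNReal.ofReal_ne_top), ← Finset.sum_sub_distrib]
    refine Finset.sum_congr rfl (fun a _ => ?_)
    change _ = (ENNReal.ofReal _).toReal - (ENNReal.ofReal _).toReal
    rcases le_total 0 (f a.2.2 (upd a.1 (ZL Y (ω, a.2.2))) - f a.2.2 (ZL Y (ω, a.2.2))) with hs | hs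
    · rw [ENNReal.toReal_ofReal hs, ENNReal.ofReal_of_nonpos (by linarith), ENNReal.toReal_zero,
        sub_zero]
    · rw [ENNReal.ofReal_of_nonpos hs, ENNReal.toReal_zero, ENNReal.toReal_ofReal (by linarith)]
      ring
  have hIp : Integrable (fun ω => (jumpN R Y (nb Λ) T Φp ω).toReal) P :=
    integrable_toReal_of_lintegral_ne_top hp.1.aemeasurable hNp
  have hIm : Integrable (fun ω => (jumpN R Y (nb Λ) T Φm ω).toReal) P :=
    integrable_toReal_of_lintegral_ne_top hm.1.aemeasurable hNm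
  have hIprod : Integrable (fun ω => ∫ s in Set.Ioc 0 T, f' s (ZL Y (ω, s))) P :=
    hIf'.integral_prod_left
  have hmain : (∫ ω, f T (Y T ω) ∂P) - ∫ ω, f 0 (Y 0 ω) ∂P =
      (∫ p, f' p.2 (ZL Y p) ∂(pm P T)) + ∑ j ∈ nb Λ, ∫ p, ((ZL Y p j).natAbs : ℝ) *
        (f p.2 (upd j (ZL Y p)) - f p.2 (ZL Y p)) ∂(pm P T) := by
    have hI2 : Integrable (fun ω => (jumpN R Y (nb Λ) T Φp ω).toReal -
        (jumpN R Y (nb Λ) T Φm ω).toReal) P := hIp.sub hIm
    rw [← integral_sub hIfT hIf0, integral_congr_ae hpath, integral_add hIprod hI2,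
      integral_sub hIp hIm, integral_toReal hp.1.aemeasurable (ae_lt_top hp.1 hNp),
      integral_toReal hm.1.aemeasurable (ae_lt_top hm.1 hNm), hp2, hm2,
      ENNReal.toReal_sum hfinp, ENNReal.toReal_sum hfinm, ← Finset.sum_sub_distrib,
      integral_prod _ hIf']
    congr 1
    refine Finset.sum_congr rfl (fun j hj => ?_)
    rw [integral_eq_lintegral_pos_part_sub_lintegral_neg_part (hIH j hj)]
  -- assemble
  have hItot : Integrable (fun p : Ω × ℝ => f' p.2 (ZL Y p) + ∑ j ∈ nb Λ,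
      ((ZL Y p j).natAbs : ℝ) * (f p.2 (upd j (ZL Y p)) - f p.2 (ZL Y p))) (pm P T) :=
    hIf'.add (integrable_finsetSum _ hIH)
  refine ⟨h.integrableOn_ZL (g := fun s y => f' s y + ∑ j ∈ nb Λ, ((y j).natAbs : ℝ) *
      (f s (upd j y) - f s y)) hItot, ?_⟩
  rw [hmain, ← integral_finsetSum _ hIH, ← integral_add hIf' (integrable_finsetSum _ hIH)]
  exact h.integral_ZL (g := fun s y => f' s y + ∑ j ∈ nb Λ, ((y j).natAbs : ℝ) *
      (f s (upd j y) - f s y)) hItot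

end

end Pool.Agent.Lib.MP_5d2315_pr
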