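import Pool.Agent.Lib.MP_5d2315_pr.Width

/-!
# The width of the interval at the origin is of order `√t`
-/

namespace Pool.Agent.Lib.MP_5d2315_pr

open MeasureTheory ProbabilityTheory Filter Topology
open scoped ENNReal NNReal Real

variable {Ω : Type*} {mΩ : MeasurableSpace Ω} {P : Measure Ω}
  {F : Filtration ℝ mΩ} {R : ℤ → ℕ → Ω → Set ℝ} {Y : ℝ → Ω → ℤ → ℤ}

section

variable [IsProbabilityMeasure P] (h : IsUrnProcess P F R Y)
include h

lemma IsUrnProcess.integrable_grad_sq {t : ℝ} (ht : 0 ≤ t) (x : ℤ) :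
    Integrable (fun ω => ((Y t ω (x + 1) : ℝ) - Y t ω x) ^ 2) P := by
  have h1 := h.integrable_lin_mul ht {x, x + 1} {x, x + 1} (gr x) (gr x)
  simp_rw [lin_gr] at h1
  simpa [sq] using h1

lemma IsUrnProcess.prob_vari_le {t D lam : ℝ} (ht : 0 ≤ t) (hlam : 0 < lam)
    (hD : ∀ x : ℤ, ∫ ω, ((Y t ω (x + 1) : ℝ) - Y t ω x) ^ 2 ∂P ≤ D) (m : ℕ) :
    P.real {ω | lam ≤ vari m (Y t ω)} ≤ 4 * (m : ℝ) ^ 2 * D / lam ^ 2 := by
  set G : Ω → ℝ := fun ω => 2 * m * ∑ i ∈ Finset.range m,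
    (((Y t ω ((i : ℤ) + 1) : ℝ) - Y t ω i) ^ 2 +
      ((Y t ω (-(i : ℤ) - 1 + 1) : ℝ) - Y t ω (-(i : ℤ) - 1)) ^ 2) with hG
  have hIs : ∀ i : ℕ, Integrable (fun ω => ((Y t ω ((i : ℤ) + 1) : ℝ) - Y t ω i) ^ 2 +
      ((Y t ω (-(i : ℤ) - 1 + 1) : ℝ) - Y t ω (-(i : ℤ) - 1)) ^ 2) P := fun i =>
    (h.integrable_grad_sq ht _).add (h.integrable_grad_sq ht _)
  have hGI : Integrable G P := by
    simp only [hG]
    exact Integrable.const_mul (integrable_finsetSum _ (fun i _ => hIs i)) _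
  have hG0 : ∀ ω, 0 ≤ G ω := by
    intro ω
    simp only [hG]; positivity
  have hGint : ∫ ω, G ω ∂P ≤ 4 * (m : ℝ) ^ 2 * D := by
    simp only [hG]
    rw [integral_const_mul, integral_finsetSum _ (fun i _ => hIs i)]
    have h1 : ∀ i ∈ Finset.range m, ∫ ω, (((Y t ω ((i : ℤ) + 1) : ℝ) - Y t ω i) ^ 2 +
      ((Y t ω (-(i : ℤ) - 1 + 1) : ℝ) - Y t ω (-(i : ℤ) - 1)) ^ 2) ∂P ≤ 2 * D := by
      intro i _
      rw [integral_add (h.integrable_grad_sq ht _) (h.integrable_grad_sq ht _)]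
      linarith [hD i, hD (-(i : ℤ) - 1)]
    have h2 := Finset.sum_le_sum h1
    rw [Finset.sum_const, Finset.card_range, nsmul_eq_mul] at h2
    calc _ ≤ 2 * (m : ℝ) * (m * (2 * D)) := by gcongr
      _ = _ := by ring
  have hsub : {ω | lam ≤ vari m (Y t ω)} ⊆ {ω | lam ^ 2 ≤ G ω} := by
    intro ω hω
    simp only [Set.mem_ofPred_eq] at hω ⊢
    have h1 : lam ^ 2 ≤ (vari m (Y t ω)) ^ 2 := pow_le_pow_left₀ hlam.le hω 2
    refine h1.trans ?_
    unfold vari
    refine (sq_sum_le_card_mul_sum_sq).trans ?_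
    rw [Finset.card_range]
    simp only [hG]
    rw [mul_comm (2 : ℝ), mul_assoc, Finset.mul_sum (a := (2 : ℝ))]
    gcongr with i _
    nlinarith [sq_abs ((Y t ω ((i : ℤ) + 1) : ℝ) - Y t ω i),
      sq_abs ((Y t ω (-(i : ℤ) - 1 + 1) : ℝ) - Y t ω (-(i : ℤ) - 1)),
      sq_nonneg (|(Y t ω ((i : ℤ) + 1) : ℝ) - Y t ω i| -
        |(Y t ω (-(i : ℤ) - 1 + 1) : ℝ) - Y t ω (-(i : ℤ) - 1)|)]
  have hmk := mul_meas_ge_le_integral_of_nonneg (ae_of_all P hG0) hGI (lam ^ 2)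
  rw [le_div_iff₀ (by positivity), mul_comm]
  refine le_trans ?_ (hmk.trans hGint)
  gcongr
  exact measure_ne_top _ _

lemma IsUrnProcess.prob_oneSign_le {t A κ : ℝ} (ht : 0 ≤ t) (hA : 0 < A)
    (hκ : ∀ x : ℤ, P.real {ω | |tau t * Real.exp (-(2 * t)) * (Y t ω x : ℝ)| ≤ 1 / A} ≤ κ)
    (I : Finset ℤ) (hI : 0 < I.card) :
    P.real {ω | OneSign (Y t ω) (I : Set ℤ)} ≤
      2 * κ + 12 * (tau t) ^ 2 * A ^ 2 / I.card := by
  classical
  set τ := tau t with hτ
  have hτ1 : 1 ≤ τ := one_le_tau ht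
  have hn : (0 : ℝ) < I.card := by exact_mod_cast hI
  set n : ℝ := (I.card : ℝ) with hndef
  set V : ℤ → Ω → ℝ := fun x ω => τ * Real.exp (-(2 * t)) * (Y t ω x : ℝ) with hV
  have hVm : ∀ x, Measurable (V x) := by
    intro x
    refine measurable_const.mul ?_
    exact Measurable.comp (g := fun a : ℤ => (a : ℝ)) (measurable_of_countable _)
      (h.measurable_Y ht x)
  have hmS : ∀ x, MeasurableSet {ω | |V x ω| ≤ 1 / A} := fun x =>
    measurableSet_le ((hVm x).abs) measurable_const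
  set N : Ω → ℝ := fun ω => ∑ x ∈ I, {ω | |V x ω| ≤ 1 / A}.indicator (fun _ => (1 : ℝ)) ω with hN
  have hNI : Integrable N P := integrable_finsetSum _ (fun x _ =>
    (integrable_const _).indicator (hmS x))
  have hN0 : ∀ ω, 0 ≤ N ω := fun ω => Finset.sum_nonneg (fun x _ =>
    Set.indicator_nonneg (fun _ _ => zero_le_one) _)
  have hNint : ∫ ω, N ω ∂P ≤ n * κ := by
    simp only [hN]
    rw [integral_finsetSum _ (fun x _ => (integrable_const _).indicator (hmS x))]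
    have h1 : ∀ x ∈ I, ∫ ω, {ω | |V x ω| ≤ 1 / A}.indicator (fun _ => (1 : ℝ)) ω ∂P ≤ κ := by
      intro x _
      rw [integral_indicator_const _ (hmS x), smul_eq_mul, mul_one]
      exact hκ x
    have h2 := Finset.sum_le_sum h1
    rw [Finset.sum_const, nsmul_eq_mul] at h2
    exact h2
  -- the sum
  set g : ℤ → ℝ := fun x => if x ∈ I then 1 else 0 with hg
  have hgs : SuppIn I g := fun x hx => by simp only [hg, if_neg hx]
  have hg2 : N2 g n := by
    refine (N2_of_supp hgs).mono (le_of_eq ?_)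
    rw [hndef, Finset.card_eq_sum_ones]
    push_cast
    refine Finset.sum_congr rfl (fun x hx => ?_)
    simp only [hg, if_pos hx]; norm_num
  set G : Ω → ℝ := fun ω => (τ * Real.exp (-(2 * t))) ^ 2 * (lin I g (Y t ω)) ^ 2 with hG
  have hGI : Integrable G P := by
    have h1 := h.integrable_lin_mul ht I I g g
    simp only [hG]
    refine Integrable.const_mul ?_ _
    simpa [sq] using h1
  have hG0 : ∀ ω, 0 ≤ G ω := fun ω => by simp only [hG]; positivity
  have hGint : ∫ ω, G ω ∂P ≤ 3 * τ ^ 2 * n := by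
    simp only [hG]
    rw [integral_const_mul]
    have h1 := h.second_moment_le hgs hg2 ht
    have e : Real.exp (-(2 * t)) ^ 2 * Real.exp (4 * t) = 1 := by
      rw [← Real.exp_nat_mul, ← Real.exp_add, ← Real.exp_zero]; congr 1; push_cast; ring
    calc (τ * Real.exp (-(2 * t))) ^ 2 * ∫ ω, (lin I g (Y t ω)) ^ 2 ∂P ≤
        (τ * Real.exp (-(2 * t))) ^ 2 * (3 * Real.exp (4 * t) * n) := by gcongr
      _ = 3 * τ ^ 2 * n * (Real.exp (-(2 * t)) ^ 2 * Real.exp (4 * t)) := by ring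
      _ = _ := by rw [e, mul_one]
  have hsumV : ∀ ω, τ * Real.exp (-(2 * t)) * lin I g (Y t ω) = ∑ x ∈ I, V x ω := by
    intro ω
    unfold lin
    rw [Finset.mul_sum]
    refine Finset.sum_congr rfl (fun x hx => ?_)
    simp only [hg, hV, if_pos hx]
    ring
  have hsub : {ω | OneSign (Y t ω) (I : Set ℤ)} ⊆
      {ω | n / 2 ≤ N ω} ∪ {ω | (n / (2 * A)) ^ 2 ≤ G ω} := by
    intro ω hω
    by_cases h1 : n / 2 ≤ N ω
    · exact Or.inl h1
    · right
      push Not at h1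
      simp only [Set.mem_ofPred_eq] at hω ⊢
      have h2 : |∑ x ∈ I, V x ω| = ∑ x ∈ I, |V x ω| := by
        have hpos : 0 < τ * Real.exp (-(2 * t)) := by positivity
        rcases hω with h3 | h3
        · have h4 : ∀ x ∈ I, 0 ≤ V x ω := by
            intro x hx
            have : (0 : ℝ) ≤ Y t ω x := by exact_mod_cast h3 x hx
            simp only [hV]; positivity
          rw [abs_of_nonneg (Finset.sum_nonneg h4)]
          exact Finset.sum_congr rfl (fun x hx => (abs_of_nonneg (h4 x hx)).symm)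
        · have h4 : ∀ x ∈ I, V x ω ≤ 0 := by
            intro x hx
            have : (Y t ω x : ℝ) ≤ 0 := by exact_mod_cast h3 x hx
            simp only [hV]
            exact mul_nonpos_of_nonneg_of_nonpos hpos.le this
          rw [abs_of_nonpos (Finset.sum_nonpos h4), ← Finset.sum_neg_distrib]
          exact Finset.sum_congr rfl (fun x hx => (abs_of_nonpos (h4 x hx)).symm)
      have h3 : (n - N ω) / A ≤ ∑ x ∈ I, |V x ω| := by
        have h4 : (n - N ω) / A = ∑ x ∈ I, (1 -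
            {ω | |V x ω| ≤ 1 / A}.indicator (fun _ => (1 : ℝ)) ω) / A := by
          rw [← Finset.sum_div, Finset.sum_sub_distrib]
          simp [hN, hndef]
        rw [h4]
        refine Finset.sum_le_sum (fun x _ => ?_)
        by_cases hx : |V x ω| ≤ 1 / A
        · rw [Set.indicator_of_mem (show ω ∈ {ω | |V x ω| ≤ 1 / A} from hx), sub_self, zero_div]
          exact abs_nonneg _
        · rw [Set.indicator_of_notMem (show ω ∉ {ω | |V x ω| ≤ 1 / A} from hx), sub_zero]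
          push Not at hx
          exact hx.le
      have h4 : n / (2 * A) ≤ |∑ x ∈ I, V x ω| := by
        rw [h2]
        refine le_trans ?_ h3
        rw [div_le_div_iff₀ (by positivity) hA]
        nlinarith
      have h5 := pow_le_pow_left₀ (by positivity) h4 2
      rw [sq_abs, ← hsumV, mul_pow] at h5
      exact h5
  have h1 := mul_meas_ge_le_integral_of_nonneg (ae_of_all P hN0) hNI (n / 2)
  have h2 := mul_meas_ge_le_integral_of_nonneg (ae_of_all P hG0) hGI ((n / (2 * A)) ^ 2)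
  have h3 : P.real {ω | n / 2 ≤ N ω} ≤ 2 * κ := by
    have h4 : n / 2 * P.real {ω | n / 2 ≤ N ω} ≤ n / 2 * (2 * κ) := by
      refine h1.trans (hNint.trans (le_of_eq ?_)); ring
    exact le_of_mul_le_mul_left h4 (by positivity)
  have h4 : P.real {ω | (n / (2 * A)) ^ 2 ≤ G ω} ≤ 12 * τ ^ 2 * A ^ 2 / n := by
    have h5 : (n / (2 * A)) ^ 2 * P.real {ω | (n / (2 * A)) ^ 2 ≤ G ω} ≤
        (n / (2 * A)) ^ 2 * (12 * τ ^ 2 * A ^ 2 / n) := by
      refine h2.trans (hGint.trans (le_of_eq ?_))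
      field_simp
      norm_num
    exact le_of_mul_le_mul_left h5 (by positivity)
  calc P.real {ω | OneSign (Y t ω) (I : Set ℤ)} ≤
      P.real ({ω | n / 2 ≤ N ω} ∪ {ω | (n / (2 * A)) ^ 2 ≤ G ω}) := measureReal_mono hsub
    _ ≤ P.real {ω | n / 2 ≤ N ω} + P.real {ω | (n / (2 * A)) ^ 2 ≤ G ω} :=
      measureReal_union_le _ _
    _ ≤ _ := add_le_add h3 h4

end

theorem width_order {ε : ℝ} (hε : 0 < ε) : ∃ c C t₀ : ℝ, 0 < c ∧ c < C ∧
    ∀ {Ω : Type*} {mΩ : MeasurableSpace Ω}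
    {P : Measure Ω} {F : Filtration ℝ mΩ} {R : ℤ → ℕ → Ω → Set ℝ} {Y : ℝ → Ω → ℤ → ℤ}
    [IsProbabilityMeasure P] (_ : IsUrnProcess P F R Y) (t : ℝ), t₀ ≤ t →
    P {ω | ¬ WidthBetween (Y t ω) (c * √t) (C * √t)} ≤ ENNReal.ofReal ε := by
  obtain ⟨C₁, C₃, C₄, hC₁, hC₃, hC₄, hsmall⟩ := exists_small_ball
  obtain ⟨Cg, hCg, hgrad⟩ := exists_gradient_bound
  set A : ℝ := max 1 (20 * C₃ / ε) with hA
  have hA1 : 1 ≤ A := le_max_left _ _
  have hA0 : 0 < A := by linarith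
  have hA2 : 5 * (C₃ / A) ≤ ε / 4 := by
    have h1 : 20 * C₃ / ε ≤ A := le_max_right _ _
    rw [div_le_iff₀ hε] at h1
    rw [← mul_div_assoc, div_le_iff₀ hA0]
    linarith
  set c : ℝ := √(ε / (16 * Cg * A ^ 2)) with hc
  have hc0 : 0 < c := by positivity
  have hc2 : 4 * c ^ 2 * Cg * A ^ 2 ≤ ε / 4 := by
    rw [hc, Real.sq_sqrt (by positivity)]
    apply le_of_eq
    field_simp
    norm_num
  set K : ℝ := 144 * A ^ 2 / ε + 1 with hK
  have hK0 : 0 < K := by positivity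
  have hK2 : 36 * A ^ 2 / K ≤ ε / 4 := by
    rw [div_le_iff₀ hK0, hK]
    have : ε / 4 * (144 * A ^ 2 / ε + 1) = 36 * A ^ 2 + ε / 4 := by field_simp; ring
    rw [this]; linarith
  set T : ℝ := max (C₁ * A) (20 * C₄ * A ^ 3 / ε) with hT
  have hT0 : 0 < T := lt_of_lt_of_le (by positivity) (le_max_left _ _)
  refine ⟨c, 2 * K + c, max 1 (T ^ 4), hc0, by linarith, ?_⟩
  intro Ω mΩ P F R Y _ h t ht
  have ht1 : 1 ≤ t := (le_max_left _ _).trans ht
  have ht0 : 0 ≤ t := by linarith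
  set τ := tau t with hτ
  have hτ1 : 1 ≤ τ := one_le_tau ht0
  have hτ0 : 0 < τ := by linarith
  have hτsq : τ ^ 2 = √(1 + t) := tau_sq t
  have hτ4 : (τ ^ 2) ^ 2 = 1 + t := by rw [hτsq, Real.sq_sqrt (by linarith)]
  have hTτ : T ≤ τ := by
    have h1 : T ^ 4 ≤ τ ^ 4 := by
      have h2 : τ ^ 4 = 1 + t := by rw [← hτ4]; ring
      rw [h2]
      linarith [(le_max_right 1 (T ^ 4)).trans ht]
    exact le_of_pow_le_pow_left₀ (by norm_num) hτ0.le h1
  have hC1A : C₁ * A ≤ τ := (le_max_left _ _).trans hTτ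
  have hτ5 : 5 * (C₄ * A ^ 3 / τ) ≤ ε / 4 := by
    have h1 : 20 * C₄ * A ^ 3 / ε ≤ τ := (le_max_right _ _).trans hTτ
    rw [div_le_iff₀ hε] at h1
    rw [← mul_div_assoc, div_le_iff₀ hτ0]
    linarith
  set κ : ℝ := C₃ / A + C₄ * A ^ 3 / τ with hκ
  have hsm : ∀ x : ℤ, P.real {ω | |τ * Real.exp (-(2 * t)) * (Y t ω x : ℝ)| ≤ 1 / A} ≤ κ :=
    fun x => hsmall h ht0 hA1 x hC1A
  set m : ℕ := ⌊c * √t⌋₊ with hm
  set L : ℕ := ⌊K * √t⌋₊ with hL
  have hst : 0 < √t := Real.sqrt_pos.2 (by linarith)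
  have hm1 : (m : ℝ) ≤ c * √t := Nat.floor_le (by positivity)
  have hm2 : c * √t < m + 1 := Nat.lt_floor_add_one _
  have hL1 : (L : ℝ) ≤ K * √t := Nat.floor_le (by positivity)
  have hL2 : K * √t < L + 1 := Nat.lt_floor_add_one _
  set lam : ℝ := Real.exp (2 * t) / (τ * A) with hlam
  have hlam0 : 0 < lam := by positivity
  set B1 : Set Ω := {ω | |τ * Real.exp (-(2 * t)) * (Y t ω 0 : ℝ)| ≤ 1 / A} with hB1
  set B2 : Set Ω := {ω | lam ≤ vari m (Y t ω)} with hB2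
  set B3 : Set Ω := {ω | OneSign (Y t ω) ((Finset.Icc 0 (L : ℤ) : Finset ℤ) : Set ℤ)} with hB3
  set B4 : Set Ω := {ω | OneSign (Y t ω) ((Finset.Icc (-(L : ℤ)) 0 : Finset ℤ) : Set ℤ)} with hB4
  -- the four probabilities
  have hP1 : P.real B1 ≤ κ := hsm 0
  have hP2 : P.real B2 ≤ ε / 4 := by
    refine (h.prob_vari_le ht0 hlam0 (fun x => hgrad h ht0 x) m).trans ?_
    have h1 : 4 * (m : ℝ) ^ 2 * (Cg * Real.exp (4 * t) / ((1 + t) * √(1 + t))) / lam ^ 2 =
        4 * (m : ℝ) ^ 2 * Cg * A ^ 2 / (1 + t) := by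
      rw [← hτsq, hlam, div_pow, mul_pow]
      have e : Real.exp (2 * t) ^ 2 = Real.exp (4 * t) := by
        rw [← Real.exp_nat_mul]; congr 1; push_cast; ring
      rw [e]
      have := Real.exp_pos (4 * t)
      have h1t : (0 : ℝ) < 1 + t := by linarith
      field_simp
    rw [h1]
    have h2 : (m : ℝ) ^ 2 ≤ c ^ 2 * t := by
      have := pow_le_pow_left₀ (by positivity) hm1 2
      rwa [mul_pow, Real.sq_sqrt ht0] at this
    have h1t : (0 : ℝ) < 1 + t := by linarith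
    calc 4 * (m : ℝ) ^ 2 * Cg * A ^ 2 / (1 + t) ≤ 4 * (c ^ 2 * t) * Cg * A ^ 2 / (1 + t) := by
          gcongr
      _ = 4 * c ^ 2 * Cg * A ^ 2 * (t / (1 + t)) := by ring
      _ ≤ 4 * c ^ 2 * Cg * A ^ 2 * 1 := by
          gcongr
          rw [div_le_one h1t]; linarith
      _ ≤ _ := by rw [mul_one]; exact hc2
  have hsq : √(1 + t) ≤ 3 / 2 * √t := by
    apply Real.sqrt_le_iff.2
    refine ⟨by positivity, ?_⟩
    rw [mul_pow, Real.sq_sqrt ht0]
    linarith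
  have hP34 : ∀ I : Finset ℤ, I.card = L + 1 →
      P.real {ω | OneSign (Y t ω) (I : Set ℤ)} ≤ 2 * κ + 18 * A ^ 2 / K := by
    intro I hI
    refine (h.prob_oneSign_le ht0 hA0 hsm I (by omega)).trans ?_
    have h1 : 12 * τ ^ 2 * A ^ 2 / I.card ≤ 18 * A ^ 2 / K := by
      rw [hI, hτsq]
      push_cast
      rw [div_le_div_iff₀ (by positivity) hK0]
      calc 12 * √(1 + t) * A ^ 2 * K ≤ 12 * (3 / 2 * √t) * A ^ 2 * K := by gcongr
        _ = 18 * A ^ 2 * (K * √t) := by ring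
        _ ≤ 18 * A ^ 2 * (L + 1) := by gcongr
    linarith
  have hP3 : P.real B3 ≤ 2 * κ + 18 * A ^ 2 / K := by
    apply hP34
    rw [Int.card_Icc]; omega
  have hP4 : P.real B4 ≤ 2 * κ + 18 * A ^ 2 / K := by
    apply hP34
    rw [Int.card_Icc]; omega
  -- inclusion
  have hsub : {ω | ¬ WidthBetween (Y t ω) (c * √t) ((2 * K + c) * √t)} ⊆ B1 ∪ B2 ∪ B3 ∪ B4 := by
    intro ω hω
    by_contra hcon
    simp only [Set.mem_union, not_or] at hcon
    obtain ⟨⟨⟨h1, h2⟩, h3⟩, h4⟩ := hcon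
    apply hω
    have h5 : vari m (Y t ω) < |(Y t ω 0 : ℝ)| := by
      simp only [hB2, Set.mem_ofPred_eq, not_le] at h2
      refine h2.trans ?_
      simp only [hB1, Set.mem_ofPred_eq, not_le] at h1
      rw [abs_mul, abs_of_pos (by positivity), div_lt_iff₀ hA0] at h1
      rw [hlam, div_lt_iff₀ (by positivity)]
      have e : Real.exp (2 * t) * Real.exp (-(2 * t)) = 1 := by
        rw [← Real.exp_add]; simp
      have h6 := mul_lt_mul_of_pos_left h1 (Real.exp_pos (2 * t))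
      calc Real.exp (2 * t) = Real.exp (2 * t) * 1 := (mul_one _).symm
        _ < _ := h6
        _ = (Real.exp (2 * t) * Real.exp (-(2 * t))) * (|(Y t ω 0 : ℝ)| * (τ * A)) := by ring
        _ = _ := by rw [e, one_mul]
    have h6 : ¬ OneSign (Y t ω) (Set.Icc 0 (L : ℤ)) := by
      simp only [hB3, Finset.coe_Icc, Set.mem_ofPred_eq] at h3
      exact h3
    have h7 : ¬ OneSign (Y t ω) (Set.Icc (-(L : ℤ)) 0) := by
      simp only [hB4, Finset.coe_Icc, Set.mem_ofPred_eq] at h4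
      exact h4
    obtain ⟨h8, h9⟩ := width_det h5 h6 h7
    refine ⟨h8, fun S hS h0S => ?_⟩
    obtain ⟨h10, h11, h12⟩ := h9 S hS h0S
    refine ⟨h10, ?_, ?_⟩
    · have : ((2 * m + 1 : ℕ) : ℝ) ≤ (S.ncard : ℝ) := by exact_mod_cast h11
      push_cast at this
      have hm0 : (0 : ℝ) ≤ m := by positivity
      linarith
    · have : (S.ncard : ℝ) ≤ ((2 * L : ℕ) : ℝ) := by exact_mod_cast h12
      push_cast at this
      nlinarith [mul_pos hc0 hst]
  have hreal : P.real (B1 ∪ B2 ∪ B3 ∪ B4) ≤ ε := by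
    have h1 := measureReal_union_le (μ := P) (B1 ∪ B2 ∪ B3) B4
    have h2 := measureReal_union_le (μ := P) (B1 ∪ B2) B3
    have h3 := measureReal_union_le (μ := P) B1 B2
    have h4 : 5 * κ = 5 * (C₃ / A) + 5 * (C₄ * A ^ 3 / τ) := by rw [hκ]; ring
    have h5 : 2 * (18 * A ^ 2 / K) = 36 * A ^ 2 / K := by ring
    linarith
  refine (measure_mono hsub).trans ?_
  rw [← ENNReal.ofReal_toReal (measure_ne_top P (B1 ∪ B2 ∪ B3 ∪ B4))]
  exact ENNReal.ofReal_le_ofReal hreal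

end Pool.Agent.Lib.MP_5d2315_pr
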