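import Pool.Agent.Lib.MP_5d2315_pr.Ker

/-!
# Fourier analysis of the truncated kernel
-/

namespace Pool.Agent.Lib.MP_5d2315_pr

open MeasureTheory Filter Topology
open scoped ENNReal NNReal Real

/-- cosine sum -/
noncomputable def CF (Λ : Finset ℤ) (g : ℤ → ℝ) (θ : ℝ) : ℝ := ∑ k ∈ Λ, g k * Real.cos (k * θ)

/-- sine sum -/
noncomputable def SF (Λ : Finset ℤ) (g : ℤ → ℝ) (θ : ℝ) : ℝ := ∑ k ∈ Λ, g k * Real.sin (k * θ)

/-- truncated exponential series -/
noncomputable def PN (N : ℕ) (z : ℝ) : ℝ := ∑ n ∈ Finset.range (N + 1), z ^ n / n.factorial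

/-- tail of the exponential series -/
noncomputable def tl (N : ℕ) (r : ℝ) : ℝ := Real.exp r - PN N r

lemma abs_PN_sub_exp_le (N : ℕ) (z : ℝ) : |PN N z - Real.exp z| ≤ tl N |z| := by
  have h := Complex.norm_exp_sub_sum_le_exp_norm_sub_sum (z : ℂ) (N + 1)
  have e : Complex.exp z - ∑ m ∈ Finset.range (N + 1), (z : ℂ) ^ m / m.factorial =
      ((Real.exp z - PN N z : ℝ) : ℂ) := by
    unfold PN
    push_cast
    rfl
  rw [e, Complex.norm_real, Complex.norm_real, Real.norm_eq_abs, Real.norm_eq_abs] at h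
  rw [abs_sub_comm]
  exact h

lemma tl_eq (N : ℕ) (r : ℝ) : tl N r = Real.exp r - PN N r := rfl

lemma tl_nonneg (N : ℕ) {r : ℝ} (hr : 0 ≤ r) : 0 ≤ tl N r := by
  unfold tl PN
  linarith [Real.sum_le_exp_of_nonneg hr (N + 1)]

lemma hasDerivAt_PN (N : ℕ) (r : ℝ) :
    HasDerivAt (PN (N + 1)) (PN N r) r := by
  have h2 : ∀ n : ℕ, HasDerivAt (fun s : ℝ => s ^ (n + 1) / (n + 1).factorial)
      (r ^ n / n.factorial) r := by
    intro n
    have h3 := ((hasDerivAt_id r).pow (n + 1)).div_const ((n + 1).factorial : ℝ)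
    refine h3.congr_deriv ?_
    rw [Nat.factorial_succ]
    push_cast
    simp only [id]
    field_simp
  have h4 : PN (N + 1) = fun s : ℝ => (∑ n ∈ Finset.range (N + 1),
      s ^ (n + 1) / (n + 1).factorial) + 1 := by
    funext s
    unfold PN
    rw [Finset.sum_range_succ']
    simp
  rw [h4]
  unfold PN
  apply HasDerivAt.add_const
  exact HasDerivAt.fun_sum (fun n _ => h2 n)

lemma tl_mono (N : ℕ) {r r' : ℝ} (hr : 0 ≤ r) (hrr : r ≤ r') : tl N r ≤ tl N r' := by
  cases N with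
  | zero =>
    unfold tl PN
    simp only [zero_add, Finset.range_one, Finset.sum_singleton, pow_zero, Nat.factorial_zero,
      Nat.cast_one, div_one]
    have := Real.exp_le_exp.2 hrr
    linarith
  | succ N =>
    have hmono : MonotoneOn (tl (N + 1)) (Set.Ici 0) := by
      apply monotoneOn_of_deriv_nonneg (convex_Ici 0)
      · unfold tl
        apply Continuous.continuousOn
        unfold PN
        fun_prop
      · unfold tl
        intro x _
        exact ((Real.hasDerivAt_exp x).sub (hasDerivAt_PN N x)).differentiableAt.differentiableWithinAt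
      · intro x hx
        rw [interior_Ici] at hx
        have h1 : HasDerivAt (tl (N + 1)) (Real.exp x - PN N x) x :=
          (Real.hasDerivAt_exp x).sub (hasDerivAt_PN N x)
        rw [h1.deriv]
        exact tl_nonneg N (le_of_lt hx)
    exact hmono hr (hr.trans hrr) hrr

lemma tendsto_tl (r : ℝ) : Tendsto (fun N => tl N r) atTop (𝓝 0) := by
  have h0 : HasSum (fun n : ℕ => r ^ n / (n.factorial : ℝ)) (Real.exp r) := by
    rw [Real.exp_eq_exp_ℝ]
    exact NormedSpace.expSeries_div_hasSum_exp r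
  have h := h0.tendsto_sum_nat
  have h2 : Tendsto (fun N => PN N r) atTop (𝓝 (Real.exp r)) := by
    unfold PN
    exact h.comp (tendsto_add_atTop_nat 1)
  have h3 := h2.const_sub (Real.exp r)
  rw [sub_self] at h3
  exact h3

lemma sum_supp {Λ Λ' : Finset ℤ} {g : ℤ → ℝ} (h : SuppIn Λ g) (hΛ : Λ ⊆ Λ') (φ : ℤ → ℝ) :
    ∑ k ∈ Λ', g k * φ k = ∑ k ∈ Λ, g k * φ k := by
  symm
  apply Finset.sum_subset hΛ
  intro k _ hk
  rw [h k hk, zero_mul]

lemma sum_Af {Λ : Finset ℤ} {g : ℤ → ℝ} (hg : SuppIn Λ g) (φ : ℤ → ℝ) :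
    ∑ k ∈ nb Λ, Af g k * φ k = ∑ l ∈ Λ, g l * (φ (l + 1) + φ (l - 1)) := by
  have h1 : ∀ a : ℤ, (∀ l ∈ Λ, l + a ∈ nb Λ) →
      ∑ k ∈ nb Λ, g (k - a) * φ k = ∑ l ∈ Λ, g l * φ (l + a) := by
    intro a ha
    have e : ∑ k ∈ nb Λ, g (k - a) * φ k =
        ∑ k ∈ (nb Λ).image (fun k => k + (-a)), g k * φ (k + a) := by
      rw [← sum_shift (fun k => g k * φ (k + a)) (nb Λ) (-a)]
      refine Finset.sum_congr rfl (fun k _ => ?_)
      rw [sub_eq_add_neg, neg_add_cancel_right]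
    rw [e]
    apply sum_supp hg
    intro l hl
    rw [Finset.mem_image]
    exact ⟨l + a, ha l hl, by ring⟩
  have h2 := h1 1 (fun l hl => mem_nb.2 (Or.inr (by simpa using hl)))
  have h3 := h1 (-1) (fun l hl => mem_nb.2 (Or.inl (by simpa using hl)))
  have e : ∑ k ∈ nb Λ, Af g k * φ k = ∑ k ∈ nb Λ, g (k - 1) * φ k +
      ∑ k ∈ nb Λ, g (k - -1) * φ k := by
    rw [← Finset.sum_add_distrib]
    refine Finset.sum_congr rfl (fun k _ => ?_)
    unfold Af
    rw [sub_neg_eq_add]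
    ring
  rw [e, h2, h3, ← Finset.sum_add_distrib]
  refine Finset.sum_congr rfl (fun l _ => ?_)
  rw [← sub_eq_add_neg]
  ring

/-- eigenfunctions of the neighbour operator -/
lemma sum_iter {Λ : Finset ℤ} {g : ℤ → ℝ} (hg : SuppIn Λ g) {φ : ℤ → ℝ} {lam : ℝ}
    (hφ : ∀ l, φ (l + 1) + φ (l - 1) = lam * φ l) (n : ℕ) :
    ∑ k ∈ nb^[n] Λ, (Af^[n] g) k * φ k = lam ^ n * ∑ k ∈ Λ, g k * φ k := by
  induction n with
  | zero => simp
  | succ n ih =>
    rw [Function.iterate_succ_apply', Function.iterate_succ_apply', sum_Af (suppIn_iter hg n) φ]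
    simp_rw [hφ]
    have e : ∑ l ∈ nb^[n] Λ, (Af^[n] g) l * (lam * φ l) =
        lam * ∑ l ∈ nb^[n] Λ, (Af^[n] g) l * φ l := by
      rw [Finset.mul_sum]
      exact Finset.sum_congr rfl (fun l _ => by ring)
    rw [e, ih, pow_succ]
    ring

lemma sum_EN {Λ : Finset ℤ} {g : ℤ → ℝ} (hg : SuppIn Λ g) {φ : ℤ → ℝ} {lam : ℝ}
    (hφ : ∀ l, φ (l + 1) + φ (l - 1) = lam * φ l) (N : ℕ) (u : ℝ) :
    ∑ k ∈ win N Λ, EN N u g k * φ k = PN N (u * lam) * ∑ k ∈ Λ, g k * φ k := by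
  unfold EN PN
  simp_rw [Finset.sum_mul]
  rw [Finset.sum_comm]
  refine Finset.sum_congr rfl (fun n hn => ?_)
  have h1 : ∑ k ∈ win N Λ, u ^ n / n.factorial * (Af^[n] g) k * φ k =
      u ^ n / n.factorial * ∑ k ∈ nb^[n] Λ, (Af^[n] g) k * φ k := by
    rw [← sum_supp (suppIn_iter hg n) (Finset.subset_biUnion_of_mem (fun n => nb^[n] Λ) hn) φ,
      Finset.mul_sum]
    exact Finset.sum_congr rfl (fun k _ => by ring)
  rw [h1, sum_iter hg hφ n, mul_pow]
  ring

lemma CF_EN {Λ : Finset ℤ} {g : ℤ → ℝ} (hg : SuppIn Λ g) (N : ℕ) (u θ : ℝ) :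
    CF (win N Λ) (EN N u g) θ = PN N (u * (2 * Real.cos θ)) * CF Λ g θ := by
  unfold CF
  apply sum_EN hg (φ := fun k : ℤ => Real.cos (k * θ))
  intro l
  push_cast
  rw [add_mul, sub_mul, one_mul, Real.cos_add, Real.cos_sub]
  ring

lemma SF_EN {Λ : Finset ℤ} {g : ℤ → ℝ} (hg : SuppIn Λ g) (N : ℕ) (u θ : ℝ) :
    SF (win N Λ) (EN N u g) θ = PN N (u * (2 * Real.cos θ)) * SF Λ g θ := by
  unfold SF
  apply sum_EN hg (φ := fun k : ℤ => Real.sin (k * θ))
  intro l
  push_cast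
  rw [add_mul, sub_mul, one_mul, Real.sin_add, Real.sin_sub]
  ring

lemma integral_cos_int (n : ℤ) :
    ∫ θ in (-π)..π, Real.cos (n * θ) = if n = 0 then 2 * π else 0 := by
  by_cases hn : n = 0
  · subst hn
    simp
    ring
  · rw [if_neg hn]
    have hn' : (n : ℝ) ≠ 0 := by exact_mod_cast hn
    rw [intervalIntegral.integral_comp_mul_left (fun x => Real.cos x) hn', integral_cos]
    have h1 : Real.sin (n * π) = 0 := Real.sin_int_mul_pi n
    rw [mul_neg, Real.sin_neg, h1]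
    simp

lemma parseval (Λ : Finset ℤ) (g : ℤ → ℝ) :
    ∫ θ in (-π)..π, ((CF Λ g θ) ^ 2 + (SF Λ g θ) ^ 2) = 2 * π * ∑ k ∈ Λ, (g k) ^ 2 := by
  have e : ∀ θ, (CF Λ g θ) ^ 2 + (SF Λ g θ) ^ 2 =
      ∑ k ∈ Λ, ∑ l ∈ Λ, g k * g l * Real.cos (((k - l : ℤ) : ℝ) * θ) := by
    intro θ
    unfold CF SF
    rw [sq, sq, Finset.sum_mul_sum, Finset.sum_mul_sum, ← Finset.sum_add_distrib]
    refine Finset.sum_congr rfl (fun k _ => ?_)
    rw [← Finset.sum_add_distrib]
    refine Finset.sum_congr rfl (fun l _ => ?_)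
    push_cast
    rw [sub_mul, Real.cos_sub]
    ring
  simp_rw [e]
  rw [intervalIntegral.integral_finsetSum]
  · rw [Finset.mul_sum]
    refine Finset.sum_congr rfl (fun k hk => ?_)
    rw [intervalIntegral.integral_finsetSum]
    · have h1 : ∀ l ∈ Λ, ∫ θ in (-π)..π, g k * g l * Real.cos (((k - l : ℤ) : ℝ) * θ) =
          if k = l then 2 * π * (g k) ^ 2 else 0 := by
        intro l _
        rw [intervalIntegral.integral_const_mul, integral_cos_int]
        by_cases hkl : k = l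
        · subst hkl; simp; ring
        · rw [if_neg (by omega), if_neg hkl, mul_zero]
      rw [Finset.sum_congr rfl h1, Finset.sum_ite_eq, if_pos hk]
    · intro l _
      apply Continuous.intervalIntegrable
      fun_prop
  · intro k _
    apply Continuous.intervalIntegrable
    fun_prop

lemma coeff_eq (Λ : Finset ℤ) (g : ℤ → ℝ) {x : ℤ} (hx : x ∈ Λ) :
    ∫ θ in (-π)..π, (CF Λ g θ * Real.cos (x * θ) + SF Λ g θ * Real.sin (x * θ)) =
      2 * π * g x := by
  have e : ∀ θ, CF Λ g θ * Real.cos (x * θ) + SF Λ g θ * Real.sin (x * θ) =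
      ∑ k ∈ Λ, g k * Real.cos (((k - x : ℤ) : ℝ) * θ) := by
    intro θ
    unfold CF SF
    rw [Finset.sum_mul, Finset.sum_mul, ← Finset.sum_add_distrib]
    refine Finset.sum_congr rfl (fun k _ => ?_)
    push_cast
    rw [sub_mul, Real.cos_sub]
    ring
  simp_rw [e]
  rw [intervalIntegral.integral_finsetSum]
  · have h1 : ∀ k ∈ Λ, ∫ θ in (-π)..π, g k * Real.cos (((k - x : ℤ) : ℝ) * θ) =
        if k = x then 2 * π * g x else 0 := by
      intro k _
      rw [intervalIntegral.integral_const_mul, integral_cos_int]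
      by_cases hkl : k = x
      · subst hkl; simp; ring
      · rw [if_neg (by omega), if_neg hkl, mul_zero]
    rw [Finset.sum_congr rfl h1, Finset.sum_ite_eq', if_pos hx]
  · intro l _
    apply Continuous.intervalIntegrable
    fun_prop

end Pool.Agent.Lib.MP_5d2315_pr
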