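import Pool.Agent.Lib.MP_5d2315_pr.Ker

/-!
# The initial configuration
-/

namespace Pool.Agent.Lib.MP_5d2315_pr

open MeasureTheory ProbabilityTheory Filter Topology
open scoped ENNReal NNReal

variable {Ω : Type*} {mΩ : MeasurableSpace Ω} {P : Measure Ω}
  {F : Filtration ℝ mΩ} {R : ℤ → ℕ → Ω → Set ℝ} {Y : ℝ → Ω → ℤ → ℤ}

lemma sqM_update (M : Finset ℤ) (y : ℤ → ℤ) (k v : ℤ) (hv : v ^ 2 = 1) :
    sqM M (Function.update y k v) ≤ 2 * sqM M y := by
  classical
  unfold sqM
  have hv' : ((v : ℝ)) ^ 2 = 1 := by exact_mod_cast hv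
  have h1 : ∀ x ∈ M, ((Function.update y k v x : ℤ) : ℝ) ^ 2 ≤
      (y x : ℝ) ^ 2 + (if x = k then 1 else 0) := by
    intro x _
    by_cases hx : x = k
    · subst hx; rw [Function.update_self, if_pos rfl, hv']; linarith [sq_nonneg (y x : ℝ)]
    · rw [Function.update_of_ne hx, if_neg hx]; linarith
  have h2 := Finset.sum_le_sum h1
  rw [Finset.sum_add_distrib, Finset.sum_ite_eq'] at h2
  have h3 : (0 : ℝ) ≤ ∑ x ∈ M, (y x : ℝ) ^ 2 := Finset.sum_nonneg (fun x _ => sq_nonneg _)
  have h4 : (if k ∈ M then (1 : ℝ) else 0) ≤ 1 := by split_ifs <;> norm_num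
  linarith

section

variable [IsProbabilityMeasure P] (h : IsUrnProcess P F R Y)
include h

lemma IsUrnProcess.ae_initial (k : ℤ) : ∀ᵐ ω ∂P, Y 0 ω k = 1 ∨ Y 0 ω k = -1 := by
  have hi := h.initial k
  have hm := h.measurable_Y le_rfl k
  have hunion : P ({ω | Y 0 ω k = 1} ∪ {ω | Y 0 ω k = -1}) = 1 := by
    rw [measure_union (by
      rw [Set.disjoint_left]
      intro ω h1 h2
      simp only [Set.mem_ofPred_eq] at h1 h2
      omega) (show MeasurableSet {ω | Y 0 ω k = -1} from hm (measurableSet_singleton (-1))),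
      hi.1, hi.2, ENNReal.add_halves]
  have h1 : ∀ᵐ ω ∂P, ω ∈ ({ω | Y 0 ω k = 1} ∪ {ω | Y 0 ω k = -1}) :=
    (mem_ae_iff_prob_eq_one ((hm (measurableSet_singleton 1)).union
        (hm (measurableSet_singleton (-1))))).2 hunion
  filter_upwards [h1] with ω hω
  exact hω

/-- averaging over the initial sign of one site -/
lemma IsUrnProcess.init_avg {Λ M : Finset ℤ} {g : (ℤ → ℤ) → ℝ} (hloc : LocalOn Λ g) {C : ℝ}
    (hC : 0 ≤ C) (hg : ∀ y, |g y| ≤ C * sqM M y) (k : ℤ) :
    ∫ ω, g (Y 0 ω) ∂P = ∫ ω, (g (Function.update (Y 0 ω) k 1) +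
      g (Function.update (Y 0 ω) k (-1))) / 2 ∂P := by
  classical
  have hlocv : ∀ v : ℤ, LocalOn (Λ.erase k) (fun y => g (Function.update y k v)) := by
    intro v y y' hy
    apply hloc
    intro x hx
    by_cases hxk : x = k
    · subst hxk; rw [Function.update_self, Function.update_self]
    · rw [Function.update_of_ne hxk, Function.update_of_ne hxk]
      exact hy x (Finset.mem_erase.2 ⟨hxk, hx⟩)
  have hIv : ∀ v : ℤ, v ^ 2 = 1 → Integrable (fun ω => g (Function.update (Y 0 ω) k v)) P := by
    intro v hv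
    refine h.integrable_of_le le_rfl (M := M) (hlocv v) (C := 2 * C) ?_
    intro y
    refine (hg _).trans ?_
    have := mul_le_mul_of_nonneg_left (sqM_update M y k v hv) hC
    linarith
  -- independence
  have hind : ∀ v : ℤ, v ^ 2 = 1 → IndepFun (fun ω => if Y 0 ω k = v then (1 : ℝ) else 0)
      (fun ω => g (Function.update (Y 0 ω) k v)) P := by
    intro v _
    have h0 := h.initial_indep.indepFun_finset ({k} : Finset ℤ) (Λ.erase k)
      (by simp) (fun x => h.measurable_Y le_rfl x)
    have h1 := h0.comp (φ := fun w : (↥({k} : Finset ℤ) → ℤ) =>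
        if w ⟨k, Finset.mem_singleton_self k⟩ = v then (1 : ℝ) else 0)
      (ψ := fun w : (↥(Λ.erase k) → ℤ) => g (Function.update (extZ (Λ.erase k) w) k v))
      (measurable_of_countable _) (measurable_of_countable _)
    have e : (fun w : (↥(Λ.erase k) → ℤ) =>
        g (Function.update (extZ (Λ.erase k) w) k v)) ∘ (fun ω (x : ↥(Λ.erase k)) =>
          Y 0 ω x) = fun ω => g (Function.update (Y 0 ω) k v) := by
      funext ω
      simp only [Function.comp]
      apply hlocv v
      intro x hx
      unfold extZ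
      rw [dif_pos hx]
    rw [e] at h1
    exact h1
  have hexp : ∀ v : ℤ, (v = 1 ∨ v = -1) → ∫ ω, (if Y 0 ω k = v then (1 : ℝ) else 0) ∂P = 1 / 2 := by
    intro v hv
    have hi : P {ω | Y 0 ω k = v} = 1 / 2 := by
      rcases hv with rfl | rfl
      · exact (h.initial k).1
      · exact (h.initial k).2
    have e : (fun ω => if Y 0 ω k = v then (1 : ℝ) else 0) =
        Set.indicator {ω | Y 0 ω k = v} (fun _ => (1 : ℝ)) := by
      funext ω
      simp only [Set.indicator_apply, Set.mem_ofPred_eq]
    have hms : MeasurableSet {ω | Y 0 ω k = v} :=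
      h.measurable_Y le_rfl k (measurableSet_singleton v)
    rw [e, integral_indicator_const _ hms, Measure.real, hi]
    simp
  have hmul : ∀ v : ℤ, (v = 1 ∨ v = -1) → ∫ ω, (if Y 0 ω k = v then (1 : ℝ) else 0) *
      g (Function.update (Y 0 ω) k v) ∂P = 1 / 2 * ∫ ω, g (Function.update (Y 0 ω) k v) ∂P := by
    intro v hv
    have hv2 : v ^ 2 = 1 := by rcases hv with rfl | rfl <;> norm_num
    rw [← hexp v hv]
    exact (hind v hv2).integral_fun_mul_eq_mul_integral
      (Measurable.ite (h.measurable_Y le_rfl k (measurableSet_singleton v)) measurable_const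
        measurable_const).aestronglyMeasurable (hIv v hv2).1
  have hIm : ∀ v : ℤ, v ^ 2 = 1 → Integrable (fun ω => (if Y 0 ω k = v then (1 : ℝ) else 0) *
      g (Function.update (Y 0 ω) k v)) P := by
    intro v hv
    refine (hIv v hv).bdd_mul (c := 1) (Measurable.ite (h.measurable_Y le_rfl k
      (measurableSet_singleton v)) measurable_const measurable_const).aestronglyMeasurable ?_
    refine ae_of_all _ (fun ω => ?_)
    split_ifs <;> simp
  have hae : ∀ᵐ ω ∂P, g (Y 0 ω) = (if Y 0 ω k = 1 then (1 : ℝ) else 0) *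
      g (Function.update (Y 0 ω) k 1) + (if Y 0 ω k = -1 then (1 : ℝ) else 0) *
      g (Function.update (Y 0 ω) k (-1)) := by
    filter_upwards [h.ae_initial k] with ω hω
    rcases hω with hω | hω
    · rw [if_pos hω, if_neg (by omega), one_mul, zero_mul, add_zero]
      congr 1
      rw [← hω, Function.update_eq_self]
    · rw [if_neg (by omega), if_pos hω, one_mul, zero_mul, zero_add]
      congr 1
      rw [← hω, Function.update_eq_self]
  rw [integral_congr_ae hae, integral_add (hIm 1 (by norm_num)) (hIm (-1) (by norm_num)),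
    hmul 1 (Or.inl rfl), hmul (-1) (Or.inr rfl), integral_div,
    integral_add (hIv 1 (by norm_num)) (hIv (-1) (by norm_num))]
  ring

end

lemma lin_update {Λ : Finset ℤ} {k : ℤ} (hk : k ∉ Λ) (g : ℤ → ℝ) (y : ℤ → ℤ) (v : ℤ) :
    lin (insert k Λ) g (Function.update y k v) = g k * v + lin Λ g y := by
  unfold lin
  rw [Finset.sum_insert hk, Function.update_self]
  congr 1
  refine Finset.sum_congr rfl (fun x hx => ?_)
  rw [Function.update_of_ne (by rintro rfl; exact hk hx)]

lemma lin_sq_le (Λ : Finset ℤ) (g : ℤ → ℝ) (y : ℤ → ℤ) :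
    (lin Λ g y) ^ 2 ≤ (∑ k ∈ Λ, (g k) ^ 2) * sqM Λ y := by
  unfold lin sqM
  have h1 := Finset.sum_mul_sq_le_sq_mul_sq Λ g (fun k => (y k : ℝ))
  refine h1.trans ?_
  apply mul_le_mul_of_nonneg_left _ (Finset.sum_nonneg (fun x _ => sq_nonneg _))
  linarith

section

variable [IsProbabilityMeasure P] (h : IsUrnProcess P F R Y)
include h

lemma IsUrnProcess.integral_initial_sq (Λ : Finset ℤ) (g : ℤ → ℝ) :
    ∫ ω, (lin Λ g (Y 0 ω)) ^ 2 ∂P = ∑ k ∈ Λ, (g k) ^ 2 := by
  induction Λ using Finset.induction_on with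
  | empty => simp [lin]
  | insert k Λ hk ih =>
    have hI : Integrable (fun ω => (lin Λ g (Y 0 ω)) ^ 2) P := by
      refine h.integrable_of_le le_rfl (Λ := Λ) (M := Λ) (g := fun y => (lin Λ g y) ^ 2) ?_
        (C := ∑ k ∈ Λ, (g k) ^ 2) ?_
      · intro y y' hy
        simp only [lin_local Λ g y y' hy]
      · intro y
        rw [abs_of_nonneg (sq_nonneg _)]
        exact lin_sq_le Λ g y
    rw [h.init_avg (Λ := insert k Λ) (M := insert k Λ) (g := fun y => (lin (insert k Λ) g y) ^ 2)
      (fun y y' hy => by simp only [lin_local (insert k Λ) g y y' hy])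
      (C := ∑ k ∈ insert k Λ, (g k) ^ 2) (Finset.sum_nonneg (fun x _ => sq_nonneg _))
      (fun y => by rw [abs_of_nonneg (sq_nonneg _)]; exact lin_sq_le _ g y) k]
    have e : ∀ ω, ((lin (insert k Λ) g (Function.update (Y 0 ω) k 1)) ^ 2 +
        (lin (insert k Λ) g (Function.update (Y 0 ω) k (-1))) ^ 2) / 2 =
        (g k) ^ 2 + (lin Λ g (Y 0 ω)) ^ 2 := by
      intro ω
      rw [lin_update hk, lin_update hk]
      push_cast
      ring
    simp_rw [e]
    rw [integral_add (integrable_const _) hI, ih, Finset.sum_insert hk]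
    simp

lemma IsUrnProcess.integral_initial_cos (Λ : Finset ℤ) (g : ℤ → ℝ) :
    ∫ ω, Real.cos (lin Λ g (Y 0 ω)) ∂P = ∏ k ∈ Λ, Real.cos (g k) := by
  induction Λ using Finset.induction_on with
  | empty => simp [lin]
  | insert k Λ hk ih =>
    rw [h.init_avg (Λ := insert k Λ) (M := ∅) (g := fun y => Real.cos (lin (insert k Λ) g y))
      (fun y y' hy => by simp only [lin_local (insert k Λ) g y y' hy])
      (C := 1) zero_le_one
      (fun y => by simpa [sqM] using Real.abs_cos_le_one _) k]
    have e : ∀ ω, (Real.cos (lin (insert k Λ) g (Function.update (Y 0 ω) k 1)) +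
        Real.cos (lin (insert k Λ) g (Function.update (Y 0 ω) k (-1)))) / 2 =
        Real.cos (g k) * Real.cos (lin Λ g (Y 0 ω)) := by
      intro ω
      rw [lin_update hk, lin_update hk, Real.cos_add, Real.cos_add]
      push_cast
      rw [mul_neg, mul_one, Real.cos_neg, Real.sin_neg]
      ring
    simp_rw [e]
    rw [integral_const_mul, ih, Finset.prod_insert hk]

end

/-- add `a` at the site `k` -/
def addAt (k a : ℤ) (y : ℤ → ℤ) : ℤ → ℤ := fun x => y x + if x = k then a else 0

/-- the oscillation of `f` in the coordinate `k` is at most `c k` -/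
def OscLe (f : (ℤ → ℤ) → ℝ) (c : ℤ → ℝ) : Prop := ∀ k y, |f (addAt k 1 y) - f y| ≤ c k

lemma OscLe.nonneg {f : (ℤ → ℤ) → ℝ} {c : ℤ → ℝ} (h : OscLe f c) (k : ℤ) : 0 ≤ c k :=
  (abs_nonneg _).trans (h k 0)

lemma addAt_update_self (k a v : ℤ) (y : ℤ → ℤ) :
    addAt k a (Function.update y k v) = Function.update y k (v + a) := by
  funext x
  unfold addAt
  by_cases hx : x = k
  · subst hx; simp
  · rw [Function.update_of_ne hx, Function.update_of_ne hx, if_neg hx, add_zero]

lemma update_addAt_self (k a v : ℤ) (y : ℤ → ℤ) :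
    Function.update (addAt k a y) k v = Function.update y k v := by
  funext x
  unfold addAt
  by_cases hx : x = k
  · subst hx; simp
  · rw [Function.update_of_ne hx, Function.update_of_ne hx, if_neg hx, add_zero]

lemma update_addAt_of_ne {k l : ℤ} (hkl : l ≠ k) (a v : ℤ) (y : ℤ → ℤ) :
    Function.update (addAt l a y) k v = addAt l a (Function.update y k v) := by
  funext x
  unfold addAt
  by_cases hx : x = k
  · subst hx; simp [hkl.symm]
  · rw [Function.update_of_ne hx, Function.update_of_ne hx]

section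

variable [IsProbabilityMeasure P] (h : IsUrnProcess P F R Y)
include h

/-- Efron-Stein inequality for the initial configuration -/
lemma IsUrnProcess.efron_stein (Λ : Finset ℤ) {f : (ℤ → ℤ) → ℝ} (hloc : LocalOn Λ f)
    {C : ℝ} (hC : ∀ y, |f y| ≤ C) {c : ℤ → ℝ} (hosc : OscLe f c) :
    ∫ ω, (f (Y 0 ω)) ^ 2 ∂P ≤ (∫ ω, f (Y 0 ω) ∂P) ^ 2 + ∑ k ∈ Λ, (c k) ^ 2 := by
  induction Λ using Finset.induction_on generalizing f with
  | empty =>
    have e : ∀ y, f y = f 0 := fun y => hloc y 0 (by simp)
    simp_rw [e]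
    simp
  | insert k Λ hk ih =>
    have hC0 : 0 ≤ C := (abs_nonneg _).trans (hC 0)
    set fb : (ℤ → ℤ) → ℝ := fun y => (f (Function.update y k 1) + f (Function.update y k (-1))) / 2
      with hfb
    have hlocb : LocalOn Λ fb := by
      intro y y' hy
      have h1 : ∀ v : ℤ, f (Function.update y k v) = f (Function.update y' k v) := by
        intro v
        apply hloc
        intro x hx
        by_cases hxk : x = k
        · subst hxk; rw [Function.update_self, Function.update_self]
        · rw [Function.update_of_ne hxk, Function.update_of_ne hxk]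
          exact hy x (Finset.mem_of_mem_insert_of_ne hx hxk)
      simp only [hfb, h1]
    have hCb : ∀ y, |fb y| ≤ C := by
      intro y
      simp only [hfb]
      rw [abs_le]
      have h1 := abs_le.1 (hC (Function.update y k 1))
      have h2 := abs_le.1 (hC (Function.update y k (-1)))
      constructor <;> linarith [h1.1, h1.2, h2.1, h2.2]
    have hoscb : OscLe fb c := by
      intro l y
      simp only [hfb]
      by_cases hlk : l = k
      · subst hlk
        rw [update_addAt_self, update_addAt_self, sub_self, abs_zero]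
        exact hosc.nonneg l
      · rw [update_addAt_of_ne hlk, update_addAt_of_ne hlk]
        have h1 := abs_le.1 (hosc l (Function.update y k 1))
        have h2 := abs_le.1 (hosc l (Function.update y k (-1)))
        rw [abs_le]
        constructor <;> linarith [h1.1, h1.2, h2.1, h2.2]
    have ih' := ih hlocb hCb hoscb
    have hIb : ∀ {f : (ℤ → ℤ) → ℝ} {Λ : Finset ℤ} {C : ℝ}, LocalOn Λ f → (∀ y, |f y| ≤ C) →
        Integrable (fun ω => f (Y 0 ω)) P := by
      intro f Λ C hl hb
      refine h.integrable_of_le le_rfl (M := ∅) hl (C := C) ?_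
      intro y; simpa [sqM] using hb y
    have e1 : ∫ ω, f (Y 0 ω) ∂P = ∫ ω, fb (Y 0 ω) ∂P := by
      rw [h.init_avg (Λ := insert k Λ) (M := ∅) hloc hC0 (fun y => by simpa [sqM] using hC y) k]
    have e2 : ∫ ω, (f (Y 0 ω)) ^ 2 ∂P ≤ ∫ ω, ((fb (Y 0 ω)) ^ 2 + (c k) ^ 2) ∂P := by
      have hCsq : ∀ y, |(f y) ^ 2| ≤ C ^ 2 := by
        intro y
        rw [abs_of_nonneg (sq_nonneg _), ← sq_abs]
        exact pow_le_pow_left₀ (abs_nonneg _) (hC y) 2
      rw [h.init_avg (Λ := insert k Λ) (M := ∅) (g := fun y => (f y) ^ 2)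
        (fun y y' hy => by simp only [hloc y y' hy]) (C := C ^ 2) (sq_nonneg _)
        (fun y => by simpa [sqM] using hCsq y) k]
      refine integral_mono ?_ ?_ (fun ω => ?_)
      · refine hIb (f := fun y => ((f (Function.update y k 1)) ^ 2 +
          (f (Function.update y k (-1))) ^ 2) / 2) (Λ := Λ) (C := C ^ 2) ?_ ?_
        · intro y y' hy
          have h1 : ∀ v : ℤ, f (Function.update y k v) = f (Function.update y' k v) := by
            intro v
            apply hloc
            intro x hx
            by_cases hxk : x = k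
            · subst hxk; rw [Function.update_self, Function.update_self]
            · rw [Function.update_of_ne hxk, Function.update_of_ne hxk]
              exact hy x (Finset.mem_of_mem_insert_of_ne hx hxk)
          simp only [h1]
        · intro y
          have h1 := abs_le.1 (hCsq (Function.update y k 1))
          have h2 := abs_le.1 (hCsq (Function.update y k (-1)))
          rw [abs_le]
          constructor <;> linarith [h1.1, h1.2, h2.1, h2.2]
      · refine hIb (f := fun y => (fb y) ^ 2 + (c k) ^ 2) (Λ := Λ) (C := C ^ 2 + (c k) ^ 2) ?_ ?_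
        · intro y y' hy
          simp only [hlocb y y' hy]
        · intro y
          rw [abs_of_nonneg (by positivity)]
          have := pow_le_pow_left₀ (abs_nonneg _) (hCb y) 2
          rw [sq_abs] at this
          linarith
      · simp only [hfb]
        have h1 := hosc k (Function.update (Y 0 ω) k (-1))
        have h2 := hosc k (Function.update (Y 0 ω) k 0)
        rw [addAt_update_self] at h1 h2
        norm_num at h1 h2
        rw [abs_le] at h1 h2
        have h3 : |f (Function.update (Y 0 ω) k 1) - f (Function.update (Y 0 ω) k (-1))| ≤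
            2 * c k := by
          rw [abs_le]; constructor <;> linarith [h1.1, h1.2, h2.1, h2.2]
        have h4 := pow_le_pow_left₀ (abs_nonneg _) h3 2
        rw [sq_abs] at h4
        nlinarith [h4]
    have hIfb2 : Integrable (fun ω => (fb (Y 0 ω)) ^ 2) P := by
      refine hIb (f := fun y => (fb y) ^ 2) (Λ := Λ) (C := C ^ 2) ?_ ?_
      · intro y y' hy
        simp only [hlocb y y' hy]
      · intro y
        rw [abs_of_nonneg (by positivity)]
        have := pow_le_pow_left₀ (abs_nonneg _) (hCb y) 2
        rwa [sq_abs] at this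
    rw [integral_add hIfb2 (integrable_const _)] at e2
    simp only [integral_const, probReal_univ, smul_eq_mul, one_mul] at e2
    rw [Finset.sum_insert hk, e1]
    linarith

end

end Pool.Agent.Lib.MP_5d2315_pr
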