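import Pool.Agent.Lib.MP_5d2315_pr.Lin

/-!
# The truncated exponential of the neighbour operator
-/

namespace Pool.Agent.Lib.MP_5d2315_pr

open MeasureTheory ProbabilityTheory Filter Topology
open scoped ENNReal NNReal

/-- the sites at distance at most `N` (of any parity) -/
def win (N : ℕ) (Λ : Finset ℤ) : Finset ℤ := (Finset.range (N + 1)).biUnion (fun n => nb^[n] Λ)

lemma suppIn_iter {Λ : Finset ℤ} {g : ℤ → ℝ} (hg : SuppIn Λ g) (n : ℕ) :
    SuppIn (nb^[n] Λ) (Af^[n] g) := by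
  induction n with
  | zero => exact hg
  | succ n ih =>
    rw [Function.iterate_succ_apply', Function.iterate_succ_apply']
    exact ih.af

lemma suppIn_win {Λ : Finset ℤ} {g : ℤ → ℝ} (hg : SuppIn Λ g) {n N : ℕ} (hn : n ≤ N) :
    SuppIn (win N Λ) (Af^[n] g) := by
  refine (suppIn_iter hg n).mono ?_
  exact Finset.subset_biUnion_of_mem (fun n => nb^[n] Λ) (Finset.mem_range.2 (by omega))

lemma subset_win (N : ℕ) (Λ : Finset ℤ) : Λ ⊆ win N Λ :=
  Finset.subset_biUnion_of_mem (fun n => nb^[n] Λ) (Finset.mem_range.2 (by omega : 0 < N + 1))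

/-- truncated exponential -/
noncomputable def EN (N : ℕ) (u : ℝ) (g : ℤ → ℝ) : ℤ → ℝ :=
  fun k => ∑ n ∈ Finset.range (N + 1), u ^ n / n.factorial * (Af^[n] g) k

/-- derivative of the truncated exponential -/
noncomputable def ENd (N : ℕ) (u : ℝ) (g : ℤ → ℝ) : ℤ → ℝ :=
  fun k => ∑ n ∈ Finset.range N, u ^ n / n.factorial * (Af^[n + 1] g) k

lemma EN_zero (N : ℕ) (g : ℤ → ℝ) : EN N 0 g = g := by
  funext k
  unfold EN
  rw [Finset.sum_range_succ']
  simp

lemma suppIn_EN {Λ : Finset ℤ} {g : ℤ → ℝ} (hg : SuppIn Λ g) (N : ℕ) (u : ℝ) :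
    SuppIn (win N Λ) (EN N u g) := by
  intro k hk
  unfold EN
  apply Finset.sum_eq_zero
  intro n hn
  rw [suppIn_win hg (Nat.lt_succ_iff.1 (Finset.mem_range.1 hn)) k hk, mul_zero]

lemma suppIn_ENd {Λ : Finset ℤ} {g : ℤ → ℝ} (hg : SuppIn Λ g) (N : ℕ) (u : ℝ) :
    SuppIn (win N Λ) (ENd N u g) := by
  intro k hk
  unfold ENd
  apply Finset.sum_eq_zero
  intro n hn
  rw [suppIn_win hg (by have := Finset.mem_range.1 hn; omega) k hk, mul_zero]

lemma Af_EN (N : ℕ) (u : ℝ) (g : ℤ → ℝ) (k : ℤ) :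
    Af (EN N u g) k = ENd N u g k + u ^ N / N.factorial * (Af^[N + 1] g) k := by
  have h : Af (EN N u g) k = ∑ n ∈ Finset.range (N + 1), u ^ n / n.factorial * (Af^[n + 1] g) k := by
    unfold Af EN
    rw [← Finset.sum_add_distrib]
    refine Finset.sum_congr rfl (fun n _ => ?_)
    have : (fun (g : ℤ → ℝ) (k : ℤ) => g (k - 1) + g (k + 1)) = Af := rfl
    rw [this, Function.iterate_succ_apply']
    unfold Af
    ring
  rw [h, Finset.sum_range_succ]
  rfl

lemma hasDerivAt_EN (N : ℕ) (g : ℤ → ℝ) (t : ℝ) (k : ℤ) (s : ℝ) :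
    HasDerivAt (fun s => EN N (t - s) g k) (-(ENd N (t - s) g k)) s := by
  have h1 : HasDerivAt (fun s : ℝ => t - s) (-1) s := by
    simpa using (hasDerivAt_id s).const_sub t
  have h2 : ∀ n : ℕ, HasDerivAt (fun s : ℝ => (t - s) ^ (n + 1) / (n + 1).factorial *
      (Af^[n + 1] g) k) (-((t - s) ^ n / n.factorial * (Af^[n + 1] g) k)) s := by
    intro n
    have h3 := ((h1.pow (n + 1)).div_const ((n + 1).factorial : ℝ)).mul_const ((Af^[n + 1] g) k)
    refine h3.congr_deriv ?_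
    rw [Nat.factorial_succ]
    push_cast
    field_simp
  have h4 : (fun s => EN N (t - s) g k) = fun s => (∑ n ∈ Finset.range N,
      (t - s) ^ (n + 1) / (n + 1).factorial * (Af^[n + 1] g) k) + g k := by
    funext s
    unfold EN
    rw [Finset.sum_range_succ']
    simp
  rw [h4]
  unfold ENd
  rw [← Finset.sum_neg_distrib]
  apply HasDerivAt.add_const
  exact HasDerivAt.fun_sum (fun n _ => h2 n)

lemma continuous_EN (N : ℕ) (g : ℤ → ℝ) (t : ℝ) (k : ℤ) :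
    Continuous (fun s => EN N (t - s) g k) := by
  unfold EN; fun_prop

lemma continuous_ENd (N : ℕ) (g : ℤ → ℝ) (t : ℝ) (k : ℤ) :
    Continuous (fun s => ENd N (t - s) g k) := by
  unfold ENd; fun_prop

/-- bound for the `ℓ¹` norm -/
def N1 (g : ℤ → ℝ) (c : ℝ) : Prop := ∀ S : Finset ℤ, ∑ k ∈ S, |g k| ≤ c

/-- bound for the square of the `ℓ²` norm -/
def N2 (g : ℤ → ℝ) (c : ℝ) : Prop := ∀ S : Finset ℤ, ∑ k ∈ S, (g k) ^ 2 ≤ c

lemma N1.nonneg {g : ℤ → ℝ} {c : ℝ} (h : N1 g c) : 0 ≤ c := by simpa using h ∅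

lemma N2.nonneg {g : ℤ → ℝ} {c : ℝ} (h : N2 g c) : 0 ≤ c := by simpa using h ∅

lemma N1.mono {g : ℤ → ℝ} {c c' : ℝ} (h : N1 g c) (hc : c ≤ c') : N1 g c' :=
  fun S => (h S).trans hc

lemma N2.mono {g : ℤ → ℝ} {c c' : ℝ} (h : N2 g c) (hc : c ≤ c') : N2 g c' :=
  fun S => (h S).trans hc

lemma N2.le {g : ℤ → ℝ} {c : ℝ} (h : N2 g c) (k : ℤ) : (g k) ^ 2 ≤ c := by simpa using h {k}

lemma N1.le {g : ℤ → ℝ} {c : ℝ} (h : N1 g c) (k : ℤ) : |g k| ≤ c := by simpa using h {k}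

lemma sum_shift (φ : ℤ → ℝ) (S : Finset ℤ) (a : ℤ) :
    ∑ k ∈ S, φ (k + a) = ∑ k ∈ S.image (fun k => k + a), φ k := by
  rw [Finset.sum_image]
  intro x _ y _ hxy
  simpa using hxy

lemma N1.af {g : ℤ → ℝ} {c : ℝ} (h : N1 g c) : N1 (Af g) (2 * c) := by
  intro S
  have h1 : ∑ k ∈ S, |Af g k| ≤ ∑ k ∈ S, |g (k + (-1))| + ∑ k ∈ S, |g (k + 1)| := by
    rw [← Finset.sum_add_distrib]
    refine Finset.sum_le_sum (fun k _ => ?_)
    unfold Af
    rw [← sub_eq_add_neg]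
    exact abs_add_le _ _
  rw [sum_shift (fun k => |g k|), sum_shift (fun k => |g k|)] at h1
  linarith [h (S.image (fun k => k + (-1))), h (S.image (fun k => k + 1))]

lemma N2.af {g : ℤ → ℝ} {c : ℝ} (h : N2 g c) : N2 (Af g) (4 * c) := by
  intro S
  have h1 : ∑ k ∈ S, (Af g k) ^ 2 ≤ 2 * ∑ k ∈ S, (g (k + (-1))) ^ 2 +
      2 * ∑ k ∈ S, (g (k + 1)) ^ 2 := by
    rw [Finset.mul_sum, Finset.mul_sum, ← Finset.sum_add_distrib]
    refine Finset.sum_le_sum (fun k _ => ?_)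
    unfold Af
    rw [← sub_eq_add_neg]
    nlinarith [sq_nonneg (g (k - 1) - g (k + 1))]
  rw [sum_shift (fun k => (g k) ^ 2), sum_shift (fun k => (g k) ^ 2)] at h1
  linarith [h (S.image (fun k => k + (-1))), h (S.image (fun k => k + 1))]

lemma N1.iter {g : ℤ → ℝ} {c : ℝ} (h : N1 g c) (n : ℕ) : N1 (Af^[n] g) (2 ^ n * c) := by
  induction n with
  | zero => simpa using h
  | succ n ih =>
    rw [Function.iterate_succ_apply']
    have := ih.af
    rwa [← mul_assoc, ← pow_succ'] at this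

lemma N2.iter {g : ℤ → ℝ} {c : ℝ} (h : N2 g c) (n : ℕ) : N2 (Af^[n] g) (4 ^ n * c) := by
  induction n with
  | zero => simpa using h
  | succ n ih =>
    rw [Function.iterate_succ_apply']
    have := ih.af
    rwa [← mul_assoc, ← pow_succ'] at this

lemma N1.EN {g : ℤ → ℝ} {c : ℝ} (h : N1 g c) (N : ℕ) {u : ℝ} (hu : 0 ≤ u) :
    N1 (EN N u g) (Real.exp (2 * u) * c) := by
  intro S
  have h1 : ∑ k ∈ S, |Pool.Agent.Lib.MP_5d2315_pr.EN N u g k| ≤
      ∑ k ∈ S, ∑ n ∈ Finset.range (N + 1), u ^ n / n.factorial * |(Af^[n] g) k| := by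
    refine Finset.sum_le_sum (fun k _ => ?_)
    unfold Pool.Agent.Lib.MP_5d2315_pr.EN
    refine (Finset.abs_sum_le_sum_abs _ _).trans (le_of_eq ?_)
    refine Finset.sum_congr rfl (fun n _ => ?_)
    rw [abs_mul, abs_of_nonneg (by positivity)]
  refine h1.trans ?_
  rw [Finset.sum_comm]
  have h2 : ∑ n ∈ Finset.range (N + 1), ∑ k ∈ S, u ^ n / n.factorial * |(Af^[n] g) k| ≤
      ∑ n ∈ Finset.range (N + 1), ((2 * u) ^ n / n.factorial) * c := by
    refine Finset.sum_le_sum (fun n _ => ?_)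
    rw [← Finset.mul_sum]
    have h3 := (h.iter n) S
    calc u ^ n / n.factorial * ∑ k ∈ S, |(Af^[n] g) k| ≤ u ^ n / n.factorial * (2 ^ n * c) := by
          gcongr
      _ = _ := by rw [mul_pow]; ring
  refine h2.trans ?_
  rw [← Finset.sum_mul]
  have := h.nonneg
  gcongr
  exact Real.sum_le_exp_of_nonneg (by positivity) _

lemma N2.EN {g : ℤ → ℝ} {c : ℝ} (h : N2 g c) (N : ℕ) {u : ℝ} (hu : 0 ≤ u) :
    N2 (EN N u g) (Real.exp (4 * u) * c) := by
  intro S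
  set lam : ℕ → ℝ := fun n => (2 * u) ^ n / n.factorial with hlam
  have hlam0 : ∀ n, 0 ≤ lam n := fun n => by simp only [hlam]; positivity
  have hsum : ∑ n ∈ Finset.range (N + 1), lam n ≤ Real.exp (2 * u) :=
    Real.sum_le_exp_of_nonneg (by positivity) _
  have h1 : ∀ k, (Pool.Agent.Lib.MP_5d2315_pr.EN N u g k) ^ 2 ≤
      Real.exp (2 * u) * ∑ n ∈ Finset.range (N + 1), lam n * ((Af^[n] g) k / 2 ^ n) ^ 2 := by
    intro k
    have e : Pool.Agent.Lib.MP_5d2315_pr.EN N u g k =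
        ∑ n ∈ Finset.range (N + 1), lam n * ((Af^[n] g) k / 2 ^ n) := by
      unfold Pool.Agent.Lib.MP_5d2315_pr.EN
      refine Finset.sum_congr rfl (fun n _ => ?_)
      simp only [hlam]
      rw [mul_pow]
      field_simp
    rw [e]
    have h2 := Finset.sum_sq_le_sum_mul_sum_of_sq_le_mul (Finset.range (N + 1))
      (r := fun n => lam n * ((Af^[n] g) k / 2 ^ n)) (f := lam)
      (g := fun n => lam n * ((Af^[n] g) k / 2 ^ n) ^ 2)
      (fun n _ => hlam0 n) (fun n _ => mul_nonneg (hlam0 n) (sq_nonneg _))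
      (fun n _ => le_of_eq (by ring))
    refine h2.trans ?_
    gcongr
  refine (Finset.sum_le_sum (fun k _ => h1 k)).trans ?_
  rw [← Finset.mul_sum, Finset.sum_comm]
  have h3 : ∑ n ∈ Finset.range (N + 1), ∑ k ∈ S, lam n * ((Af^[n] g) k / 2 ^ n) ^ 2 ≤
      ∑ n ∈ Finset.range (N + 1), lam n * c := by
    refine Finset.sum_le_sum (fun n _ => ?_)
    rw [← Finset.mul_sum]
    refine mul_le_mul_of_nonneg_left ?_ (hlam0 n)
    have h4 := (h.iter n) S
    have h5 : ∑ k ∈ S, ((Af^[n] g) k / 2 ^ n) ^ 2 = (∑ k ∈ S, ((Af^[n] g) k) ^ 2) / 4 ^ n := by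
      rw [Finset.sum_div]
      refine Finset.sum_congr rfl (fun k _ => ?_)
      rw [div_pow, ← pow_mul, mul_comm n 2, pow_mul]
      norm_num
    rw [h5, div_le_iff₀ (by positivity)]
    linarith
  have h6 : ∑ n ∈ Finset.range (N + 1), lam n * c ≤ Real.exp (2 * u) * c := by
    rw [← Finset.sum_mul]
    have := h.nonneg
    gcongr
  have h7 : Real.exp (4 * u) = Real.exp (2 * u) * Real.exp (2 * u) := by
    rw [← Real.exp_add]; congr 1; ring
  rw [h7, mul_assoc]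
  exact mul_le_mul_of_nonneg_left (h3.trans h6) (Real.exp_pos _).le

/-- the truncation error -/
noncomputable def er (N : ℕ) (u : ℝ) (g : ℤ → ℝ) : ℤ → ℝ :=
  fun k => u ^ N / N.factorial * (Af^[N + 1] g) k

lemma N1.er {g : ℤ → ℝ} {c : ℝ} (h : N1 g c) (N : ℕ) {u t : ℝ} (hu : 0 ≤ u) (hut : u ≤ t) :
    N1 (er N u g) (2 * ((2 * t) ^ N / N.factorial) * c) := by
  intro S
  unfold Pool.Agent.Lib.MP_5d2315_pr.er
  have h1 : ∑ k ∈ S, |u ^ N / N.factorial * (Af^[N + 1] g) k| =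
      u ^ N / N.factorial * ∑ k ∈ S, |(Af^[N + 1] g) k| := by
    rw [Finset.mul_sum]
    refine Finset.sum_congr rfl (fun k _ => ?_)
    rw [abs_mul, abs_of_nonneg (by positivity)]
  rw [h1]
  have h2 := (h.iter (N + 1)) S
  have hc := h.nonneg
  have ht : 0 ≤ t := hu.trans hut
  calc u ^ N / N.factorial * ∑ k ∈ S, |(Af^[N + 1] g) k|
      ≤ t ^ N / N.factorial * (2 ^ (N + 1) * c) := by gcongr
    _ = _ := by rw [mul_pow, pow_succ]; ring

end Pool.Agent.Lib.MP_5d2315_pr
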