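import Pool.Agent.Lib.MP_5d2315_pr.Four

/-!
# Bounds for the kernel
-/

namespace Pool.Agent.Lib.MP_5d2315_pr

open MeasureTheory Filter Topology
open scoped ENNReal NNReal Real

lemma exp_cos_le {u θ : ℝ} (hu : 0 ≤ u) (hθ : |θ| ≤ π) :
    Real.exp (2 * u * Real.cos θ) ≤
      Real.exp (2 * u) * Real.exp 4 * Real.exp (-(4 * (1 + u) / π ^ 2) * θ ^ 2) := by
  rw [← Real.exp_add, ← Real.exp_add]
  apply Real.exp_le_exp.2
  have h1 := Real.cos_le_one_sub_mul_cos_sq hθ
  have h2 : θ ^ 2 ≤ π ^ 2 := by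
    rw [← sq_abs θ]; exact pow_le_pow_left₀ (abs_nonneg _) hθ 2
  have h3 : θ ^ 2 / π ^ 2 ≤ 1 := by
    rw [div_le_one (by positivity)]; exact h2
  have h4 : 2 / π ^ 2 * θ ^ 2 = 2 * (θ ^ 2 / π ^ 2) := by ring
  have h5 : -(4 * (1 + u) / π ^ 2) * θ ^ 2 = -(4 * (1 + u)) * (θ ^ 2 / π ^ 2) := by ring
  rw [h4] at h1
  rw [h5]
  nlinarith [mul_le_mul_of_nonneg_left h1 hu]

lemma integral_exp_neg_sq_le {b : ℝ} (hb : 0 < b) :
    ∫ θ in (-π)..π, Real.exp (-b * θ ^ 2) ≤ √(π / b) := by
  rw [← integral_gaussian b, intervalIntegral.integral_of_le (by linarith [Real.pi_pos])]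
  exact setIntegral_le_integral (integrable_exp_neg_mul_sq hb)
    (ae_of_all _ (fun x => (Real.exp_pos _).le))

lemma exists_J_bound : ∃ C : ℝ, 0 < C ∧ ∀ u : ℝ, 0 ≤ u →
    ∫ θ in (-π)..π, Real.exp (2 * u * Real.cos θ) ≤ C * Real.exp (2 * u) / √(1 + u) := by
  refine ⟨Real.exp 4 * √(π ^ 3 / 4), by positivity, fun u hu => ?_⟩
  have h1 : ∫ θ in (-π)..π, Real.exp (2 * u * Real.cos θ) ≤
      ∫ θ in (-π)..π, Real.exp (2 * u) * Real.exp 4 *
        Real.exp (-(4 * (1 + u) / π ^ 2) * θ ^ 2) := by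
    apply intervalIntegral.integral_mono_on (by linarith [Real.pi_pos])
    · apply Continuous.intervalIntegrable; fun_prop
    · apply Continuous.intervalIntegrable; fun_prop
    · intro θ hθ
      exact exp_cos_le hu (abs_le.2 hθ)
  refine h1.trans ?_
  rw [intervalIntegral.integral_const_mul]
  have h2 := integral_exp_neg_sq_le (b := 4 * (1 + u) / π ^ 2) (by positivity)
  have h3 : √(π / (4 * (1 + u) / π ^ 2)) = √(π ^ 3 / 4) / √(1 + u) := by
    rw [← Real.sqrt_div (by positivity)]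
    congr 1
    field_simp
  rw [h3] at h2
  calc Real.exp (2 * u) * Real.exp 4 *
        ∫ θ in (-π)..π, Real.exp (-(4 * (1 + u) / π ^ 2) * θ ^ 2)
      ≤ Real.exp (2 * u) * Real.exp 4 * (√(π ^ 3 / 4) / √(1 + u)) := by gcongr
    _ = _ := by ring

lemma exists_D_bound : ∃ C : ℝ, 0 < C ∧ ∀ u : ℝ, 0 ≤ u →
    ∫ θ in (-π)..π, (Real.exp (2 * u * Real.cos θ)) ^ 2 * (2 - 2 * Real.cos θ) ≤
      C * Real.exp (4 * u) / ((1 + u) * √(1 + u)) := by
  refine ⟨Real.exp 8 * (π ^ 2 / 4) * √(π ^ 3 / 4), by positivity, fun u hu => ?_⟩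
  have h1 : ∫ θ in (-π)..π, (Real.exp (2 * u * Real.cos θ)) ^ 2 * (2 - 2 * Real.cos θ) ≤
      ∫ θ in (-π)..π, (Real.exp (4 * u) * Real.exp 8 * (π ^ 2 / (4 * (1 + u)))) *
        Real.exp (-(4 * (1 + u) / π ^ 2) * θ ^ 2) := by
    apply intervalIntegral.integral_mono_on (by linarith [Real.pi_pos])
    · apply Continuous.intervalIntegrable; fun_prop
    · apply Continuous.intervalIntegrable; fun_prop
    · intro θ hθ
      have h2 := exp_cos_le hu (abs_le.2 hθ)
      have h3 := Real.one_sub_sq_div_two_le_cos (x := θ)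
      set b := 4 * (1 + u) / π ^ 2 with hb
      have hb0 : 0 < b := by positivity
      have h4 : (2 - 2 * Real.cos θ) ≤ θ ^ 2 := by linarith
      have h4' : 0 ≤ 2 - 2 * Real.cos θ := by linarith [Real.cos_le_one θ]
      have h5 : (Real.exp (2 * u * Real.cos θ)) ^ 2 ≤
          (Real.exp (2 * u) * Real.exp 4 * Real.exp (-b * θ ^ 2)) ^ 2 :=
        pow_le_pow_left₀ (Real.exp_pos _).le h2 2
      have h6 : (Real.exp (2 * u) * Real.exp 4 * Real.exp (-b * θ ^ 2)) ^ 2 =
          Real.exp (4 * u) * Real.exp 8 * (Real.exp (-b * θ ^ 2) * Real.exp (-b * θ ^ 2)) := by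
        have e1 : Real.exp (4 * u) = Real.exp (2 * u) * Real.exp (2 * u) := by
          rw [← Real.exp_add]; congr 1; ring
        have e2 : Real.exp 8 = Real.exp 4 * Real.exp 4 := by
          rw [← Real.exp_add]; congr 1; ring
        rw [e1, e2]; ring
      have h7 : θ ^ 2 * Real.exp (-b * θ ^ 2) ≤ 1 / b := by
        have h8 : b * θ ^ 2 + 1 ≤ Real.exp (b * θ ^ 2) := Real.add_one_le_exp _
        have h9 : Real.exp (-b * θ ^ 2) * Real.exp (b * θ ^ 2) = 1 := by
          rw [← Real.exp_add]; simp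
        rw [le_div_iff₀ hb0]
        have h10 : b * θ ^ 2 * Real.exp (-b * θ ^ 2) ≤ 1 := by
          calc b * θ ^ 2 * Real.exp (-b * θ ^ 2) ≤
              Real.exp (b * θ ^ 2) * Real.exp (-b * θ ^ 2) := by
                gcongr; linarith
            _ = 1 := by rw [mul_comm]; exact h9
        linarith
      have h11 : 1 / b = π ^ 2 / (4 * (1 + u)) := by rw [hb]; field_simp
      rw [← h11]
      calc (Real.exp (2 * u * Real.cos θ)) ^ 2 * (2 - 2 * Real.cos θ) ≤
          (Real.exp (4 * u) * Real.exp 8 * (Real.exp (-b * θ ^ 2) * Real.exp (-b * θ ^ 2))) *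
            θ ^ 2 := by
            rw [← h6]
            gcongr
        _ = (Real.exp (4 * u) * Real.exp 8 * (θ ^ 2 * Real.exp (-b * θ ^ 2))) *
            Real.exp (-b * θ ^ 2) := by ring
        _ ≤ _ := by gcongr
  refine h1.trans ?_
  rw [intervalIntegral.integral_const_mul]
  have h2 := integral_exp_neg_sq_le (b := 4 * (1 + u) / π ^ 2) (by positivity)
  have h3 : √(π / (4 * (1 + u) / π ^ 2)) = √(π ^ 3 / 4) / √(1 + u) := by
    rw [← Real.sqrt_div (by positivity)]
    congr 1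
    field_simp
  rw [h3] at h2
  calc Real.exp (4 * u) * Real.exp 8 * (π ^ 2 / (4 * (1 + u))) *
        ∫ θ in (-π)..π, Real.exp (-(4 * (1 + u) / π ^ 2) * θ ^ 2)
      ≤ Real.exp (4 * u) * Real.exp 8 * (π ^ 2 / (4 * (1 + u))) *
        (√(π ^ 3 / 4) / √(1 + u)) := by gcongr
    _ = _ := by
      have : √(1 + u) ≠ 0 := by positivity
      field_simp

lemma J_lower {u : ℝ} (hu : 0 ≤ u) :
    2 * Real.exp (-2) * Real.exp (4 * u) / √(1 + u) ≤
      ∫ θ in (-π)..π, (Real.exp (2 * u * Real.cos θ)) ^ 2 := by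
  set a := 1 / √(1 + u) with ha
  have hs : 0 < √(1 + u) := by positivity
  have ha0 : 0 < a := by positivity
  have ha1 : a ≤ 1 := by
    rw [ha, div_le_one hs]
    exact Real.one_le_sqrt.2 (by linarith)
  have hapi : a ≤ π := by linarith [Real.pi_gt_three]
  have hcont : Continuous fun θ : ℝ => (Real.exp (2 * u * Real.cos θ)) ^ 2 := by fun_prop
  have h1 : ∫ θ in (-a)..a, (Real.exp (2 * u * Real.cos θ)) ^ 2 ≤
      ∫ θ in (-π)..π, (Real.exp (2 * u * Real.cos θ)) ^ 2 := by
    apply intervalIntegral.integral_mono_interval (by linarith) (by linarith) hapi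
    · exact ae_of_all _ (fun x => by positivity)
    · exact hcont.intervalIntegrable _ _
  have h2 : ∫ _θ in (-a)..a, (Real.exp (-2) * Real.exp (4 * u)) ≤
      ∫ θ in (-a)..a, (Real.exp (2 * u * Real.cos θ)) ^ 2 := by
    apply intervalIntegral.integral_mono_on (by linarith)
    · apply Continuous.intervalIntegrable; fun_prop
    · exact hcont.intervalIntegrable _ _
    · intro θ hθ
      rw [← Real.exp_add, sq, ← Real.exp_add]
      apply Real.exp_le_exp.2
      have h3 := Real.one_sub_sq_div_two_le_cos (x := θ)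
      have h4 : θ ^ 2 ≤ a ^ 2 := by
        rw [← sq_abs θ]; exact pow_le_pow_left₀ (abs_nonneg _) (abs_le.2 hθ) 2
      have h5 : a ^ 2 = 1 / (1 + u) := by
        rw [ha, div_pow, Real.sq_sqrt (by linarith), one_pow]
      have h6 : u * (1 / (1 + u)) ≤ 1 := by
        rw [mul_one_div, div_le_one (by linarith)]; linarith
      nlinarith [mul_le_mul_of_nonneg_left h3 hu, mul_le_mul_of_nonneg_left h4 hu]
  rw [intervalIntegral.integral_const, smul_eq_mul] at h2
  have h3 : (a - -a) * (Real.exp (-2) * Real.exp (4 * u)) =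
      2 * Real.exp (-2) * Real.exp (4 * u) / √(1 + u) := by
    rw [ha]; ring
  linarith

/-- unit mass -/
def dl (x : ℤ) : ℤ → ℝ := fun k => if k = x then 1 else 0

lemma suppIn_dl (x : ℤ) : SuppIn {x} (dl x) := by
  intro k hk
  unfold dl
  rw [if_neg (by simpa using hk)]

lemma N1_dl (x : ℤ) : N1 (dl x) 1 := by
  intro S
  have : ∀ k ∈ S, |dl x k| = if k = x then 1 else 0 := by
    intro k _; unfold dl; split_ifs <;> simp
  rw [Finset.sum_congr rfl this, Finset.sum_ite_eq']
  split_ifs <;> norm_num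

lemma N2_dl (x : ℤ) : N2 (dl x) 1 := by
  intro S
  have : ∀ k ∈ S, (dl x k) ^ 2 = if k = x then 1 else 0 := by
    intro k _; unfold dl; split_ifs <;> simp
  rw [Finset.sum_congr rfl this, Finset.sum_ite_eq']
  split_ifs <;> norm_num

lemma PN_abs_le {N : ℕ} {u t θ : ℝ} (hu : 0 ≤ u) (hut : u ≤ t) :
    |PN N (u * (2 * Real.cos θ)) - Real.exp (2 * u * Real.cos θ)| ≤ tl N (2 * t) := by
  have h1 := abs_PN_sub_exp_le N (u * (2 * Real.cos θ))
  have e : u * (2 * Real.cos θ) = 2 * u * Real.cos θ := by ring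
  rw [e] at h1 ⊢
  refine h1.trans (tl_mono N (abs_nonneg _) ?_)
  rw [abs_mul, abs_of_nonneg (by positivity : 0 ≤ 2 * u)]
  have := Real.abs_cos_le_one θ
  calc 2 * u * |Real.cos θ| ≤ 2 * u * 1 := by gcongr
    _ ≤ 2 * t := by linarith

/-- sup bound for the truncated kernel -/
lemma exists_sup_bound : ∃ C : ℝ, 0 < C ∧ ∀ (N : ℕ) (x k : ℤ) (u t : ℝ), 0 ≤ u → u ≤ t →
    |EN N u (dl x) k| ≤ C * Real.exp (2 * u) / √(1 + u) + tl N (2 * t) := by
  obtain ⟨C, hC, hJ⟩ := exists_J_bound
  refine ⟨C / (2 * π), by positivity, fun N x k u t hu hut => ?_⟩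
  have ht : 0 ≤ t := hu.trans hut
  have htl := tl_nonneg N (by linarith : 0 ≤ 2 * t)
  by_cases hk : k ∈ win N {x}
  · have h1 := coeff_eq (win N {x}) (EN N u (dl x)) hk
    simp_rw [CF_EN (suppIn_dl x), SF_EN (suppIn_dl x)] at h1
    have h2 : ∀ θ ∈ Set.Icc (-π) π,
        ‖PN N (u * (2 * Real.cos θ)) * CF {x} (dl x) θ * Real.cos (k * θ) +
        PN N (u * (2 * Real.cos θ)) * SF {x} (dl x) θ * Real.sin (k * θ)‖ ≤
        Real.exp (2 * u * Real.cos θ) + tl N (2 * t) := by
      intro θ _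
      have e : PN N (u * (2 * Real.cos θ)) * CF {x} (dl x) θ * Real.cos (k * θ) +
        PN N (u * (2 * Real.cos θ)) * SF {x} (dl x) θ * Real.sin (k * θ) =
        PN N (u * (2 * Real.cos θ)) * Real.cos (x * θ - k * θ) := by
        unfold CF SF dl
        simp only [Finset.sum_singleton, if_true, one_mul]
        rw [Real.cos_sub]
        ring
      rw [e, norm_mul, Real.norm_eq_abs, Real.norm_eq_abs]
      have h3 := PN_abs_le (N := N) (θ := θ) hu hut
      have h4 : |PN N (u * (2 * Real.cos θ))| ≤ Real.exp (2 * u * Real.cos θ) + tl N (2 * t) := by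
        rw [abs_le] at h3 ⊢
        have := Real.exp_pos (2 * u * Real.cos θ)
        constructor <;> linarith [h3.1, h3.2]
      calc |PN N (u * (2 * Real.cos θ))| * |Real.cos (x * θ - k * θ)| ≤
          |PN N (u * (2 * Real.cos θ))| * 1 := by
            gcongr; exact Real.abs_cos_le_one _
        _ ≤ _ := by rw [mul_one]; exact h4
    have hcont1 : Continuous fun θ => PN N (u * (2 * Real.cos θ)) * CF {x} (dl x) θ *
        Real.cos (k * θ) + PN N (u * (2 * Real.cos θ)) * SF {x} (dl x) θ * Real.sin (k * θ) := by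
      unfold PN CF SF; fun_prop
    have h3 : ‖∫ θ in (-π)..π, (PN N (u * (2 * Real.cos θ)) * CF {x} (dl x) θ * Real.cos (k * θ) +
        PN N (u * (2 * Real.cos θ)) * SF {x} (dl x) θ * Real.sin (k * θ))‖ ≤
        ∫ θ in (-π)..π, (Real.exp (2 * u * Real.cos θ) + tl N (2 * t)) := by
      apply intervalIntegral.norm_integral_le_of_norm_le (by linarith [Real.pi_pos])
      · exact ae_of_all _ (fun θ hθ => h2 θ ⟨hθ.1.le, hθ.2⟩)
      · apply Continuous.intervalIntegrable; fun_prop
    rw [h1, intervalIntegral.integral_add (by apply Continuous.intervalIntegrable; fun_prop)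
      (by apply Continuous.intervalIntegrable; fun_prop), intervalIntegral.integral_const,
      smul_eq_mul, norm_mul, Real.norm_eq_abs, Real.norm_eq_abs,
      abs_of_pos (by positivity : 0 < 2 * π)] at h3
    have h4 := hJ u hu
    have h5 : 2 * π * |EN N u (dl x) k| ≤ C * Real.exp (2 * u) / √(1 + u) +
        (π - -π) * tl N (2 * t) := by linarith
    have h6 : |EN N u (dl x) k| ≤ (C * Real.exp (2 * u) / √(1 + u) +
        (π - -π) * tl N (2 * t)) / (2 * π) := by
      rw [le_div_iff₀ (by positivity)]; linarith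
    refine h6.trans (le_of_eq ?_)
    have hs : √(1 + u) ≠ 0 := by positivity
    field_simp
    ring
  · rw [suppIn_EN (suppIn_dl x) N u k hk, abs_zero]
    positivity

/-- lower bound for the energy of the kernel -/
lemma exists_energy_lower : ∃ c : ℝ, 0 < c ∧ ∀ (N : ℕ) (x : ℤ) (u : ℝ), 0 ≤ u →
    c * Real.exp (4 * u) / √(1 + u) - 2 * tl N (2 * u) * Real.exp (2 * u) ≤
      ∑ k ∈ win N {x}, (EN N u (dl x) k) ^ 2 := by
  refine ⟨2 * Real.exp (-2) / (2 * π), by positivity, fun N x u hu => ?_⟩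
  have htl := tl_nonneg N (by linarith : 0 ≤ 2 * u)
  have h1 := parseval (win N {x}) (EN N u (dl x))
  simp_rw [CF_EN (suppIn_dl x), SF_EN (suppIn_dl x)] at h1
  have e : ∀ θ, (PN N (u * (2 * Real.cos θ)) * CF {x} (dl x) θ) ^ 2 +
      (PN N (u * (2 * Real.cos θ)) * SF {x} (dl x) θ) ^ 2 = (PN N (u * (2 * Real.cos θ))) ^ 2 := by
    intro θ
    unfold CF SF dl
    simp only [Finset.sum_singleton, if_true, one_mul]
    have := Real.sin_sq_add_cos_sq (x * θ)
    calc _ = (PN N (u * (2 * Real.cos θ))) ^ 2 * (Real.sin (x * θ) ^ 2 + Real.cos (x * θ) ^ 2) := by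
          ring
      _ = _ := by rw [this, mul_one]
  simp_rw [e] at h1
  have h2 : ∫ θ in (-π)..π, ((Real.exp (2 * u * Real.cos θ)) ^ 2 -
      2 * tl N (2 * u) * Real.exp (2 * u)) ≤ ∫ θ in (-π)..π, (PN N (u * (2 * Real.cos θ))) ^ 2 := by
    apply intervalIntegral.integral_mono_on (by linarith [Real.pi_pos])
    · apply Continuous.intervalIntegrable; fun_prop
    · apply Continuous.intervalIntegrable; unfold PN; fun_prop
    · intro θ _
      have h3 := PN_abs_le (N := N) (θ := θ) hu le_rfl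
      rw [abs_le] at h3
      have h4 : Real.exp (2 * u * Real.cos θ) ≤ Real.exp (2 * u) := by
        apply Real.exp_le_exp.2
        have := Real.cos_le_one θ
        nlinarith
      have h5 := Real.exp_pos (2 * u * Real.cos θ)
      set a := PN N (u * (2 * Real.cos θ))
      set b := Real.exp (2 * u * Real.cos θ)
      nlinarith [sq_nonneg (a - b), mul_le_mul_of_nonneg_left h3.1 h5.le,
        mul_le_mul_of_nonneg_left h4 htl]
  rw [intervalIntegral.integral_sub (by apply Continuous.intervalIntegrable; fun_prop)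
    (by apply Continuous.intervalIntegrable; fun_prop), intervalIntegral.integral_const,
    smul_eq_mul, h1] at h2
  have h3 := J_lower hu
  have h4 : 2 * Real.exp (-2) * Real.exp (4 * u) / √(1 + u) -
      (π - -π) * (2 * tl N (2 * u) * Real.exp (2 * u)) ≤
      2 * π * ∑ k ∈ win N {x}, (EN N u (dl x) k) ^ 2 := by linarith
  have h5 : (2 * Real.exp (-2) * Real.exp (4 * u) / √(1 + u) -
      (π - -π) * (2 * tl N (2 * u) * Real.exp (2 * u))) / (2 * π) ≤
      ∑ k ∈ win N {x}, (EN N u (dl x) k) ^ 2 := by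
    rw [div_le_iff₀ (by positivity)]; linarith
  refine le_trans (le_of_eq ?_) h5
  have hs : √(1 + u) ≠ 0 := by positivity
  field_simp
  ring

/-- gradient -/
def gr (x : ℤ) : ℤ → ℝ := fun k => (if k = x + 1 then 1 else 0) - (if k = x then 1 else 0)

lemma suppIn_gr (x : ℤ) : SuppIn {x, x + 1} (gr x) := by
  intro k hk
  unfold gr
  simp only [Finset.mem_insert, Finset.mem_singleton, not_or] at hk
  rw [if_neg hk.1, if_neg hk.2, sub_zero]

/-- energy bound for the gradient of the kernel -/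
lemma exists_grad_bound : ∃ C : ℝ, 0 < C ∧ ∀ (N : ℕ) (x : ℤ) (u t : ℝ), 0 ≤ u → u ≤ t →
    ∑ k ∈ win N {x, x + 1}, (EN N u (gr x) k) ^ 2 ≤
      C * Real.exp (4 * u) / ((1 + u) * √(1 + u)) +
        4 * (2 * tl N (2 * t) * Real.exp (2 * t) + (tl N (2 * t)) ^ 2) := by
  obtain ⟨C, hC, hD⟩ := exists_D_bound
  refine ⟨C / (2 * π), by positivity, fun N x u t hu hut => ?_⟩
  have ht : 0 ≤ t := hu.trans hut
  have htl := tl_nonneg N (by linarith : 0 ≤ 2 * t)
  have h1 := parseval (win N {x, x + 1}) (EN N u (gr x))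
  simp_rw [CF_EN (suppIn_gr x), SF_EN (suppIn_gr x)] at h1
  have hne : x ≠ x + 1 := by omega
  have e : ∀ θ, (PN N (u * (2 * Real.cos θ)) * CF {x, x + 1} (gr x) θ) ^ 2 +
      (PN N (u * (2 * Real.cos θ)) * SF {x, x + 1} (gr x) θ) ^ 2 =
      (PN N (u * (2 * Real.cos θ))) ^ 2 * (2 - 2 * Real.cos θ) := by
    intro θ
    have hC1 : CF {x, x + 1} (gr x) θ = Real.cos (x * θ + θ) - Real.cos (x * θ) := by
      unfold CF gr
      rw [Finset.sum_pair hne]
      simp only [hne, hne.symm, if_true, if_false]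
      push_cast
      rw [add_mul, one_mul]
      ring
    have hS1 : SF {x, x + 1} (gr x) θ = Real.sin (x * θ + θ) - Real.sin (x * θ) := by
      unfold SF gr
      rw [Finset.sum_pair hne]
      simp only [hne, hne.symm, if_true, if_false]
      push_cast
      rw [add_mul, one_mul]
      ring
    rw [hC1, hS1, Real.cos_add, Real.sin_add]
    have h2 := Real.sin_sq_add_cos_sq (x * θ)
    have h3 := Real.sin_sq_add_cos_sq θ
    have h4 : (Real.cos (x * θ) * Real.cos θ - Real.sin (x * θ) * Real.sin θ -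
        Real.cos (x * θ)) ^ 2 + (Real.sin (x * θ) * Real.cos θ + Real.cos (x * θ) * Real.sin θ -
        Real.sin (x * θ)) ^ 2 = 2 - 2 * Real.cos θ := by
      calc _ = (Real.sin (x * θ) ^ 2 + Real.cos (x * θ) ^ 2) *
            (Real.sin θ ^ 2 + Real.cos θ ^ 2 + 1 - 2 * Real.cos θ) := by ring
        _ = _ := by rw [h2, h3]; ring
    rw [mul_pow, mul_pow, ← mul_add, h4]
  simp_rw [e] at h1
  have h2 : ∫ θ in (-π)..π, (PN N (u * (2 * Real.cos θ))) ^ 2 * (2 - 2 * Real.cos θ) ≤
      ∫ θ in (-π)..π, ((Real.exp (2 * u * Real.cos θ)) ^ 2 * (2 - 2 * Real.cos θ) +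
      4 * (2 * tl N (2 * t) * Real.exp (2 * t) + (tl N (2 * t)) ^ 2)) := by
    apply intervalIntegral.integral_mono_on (by linarith [Real.pi_pos])
    · apply Continuous.intervalIntegrable; unfold PN; fun_prop
    · apply Continuous.intervalIntegrable; fun_prop
    · intro θ _
      have h3 := PN_abs_le (N := N) (θ := θ) hu hut
      rw [abs_le] at h3
      have h4 : Real.exp (2 * u * Real.cos θ) ≤ Real.exp (2 * t) := by
        apply Real.exp_le_exp.2
        have := Real.cos_le_one θ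
        nlinarith
      have h5 := Real.exp_pos (2 * u * Real.cos θ)
      have h6 : (PN N (u * (2 * Real.cos θ))) ^ 2 ≤ (Real.exp (2 * u * Real.cos θ)) ^ 2 +
          (2 * tl N (2 * t) * Real.exp (2 * t) + (tl N (2 * t)) ^ 2) := by
        have h7 : |PN N (u * (2 * Real.cos θ))| ≤
            Real.exp (2 * u * Real.cos θ) + tl N (2 * t) := by
          rw [abs_le]
          constructor <;> linarith [h3.1, h3.2]
        have h8 := pow_le_pow_left₀ (abs_nonneg _) h7 2
        rw [sq_abs] at h8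
        nlinarith [mul_le_mul_of_nonneg_left h4 htl]
      have h7 : 0 ≤ 2 - 2 * Real.cos θ := by linarith [Real.cos_le_one θ]
      have h8 : 2 - 2 * Real.cos θ ≤ 4 := by linarith [Real.neg_one_le_cos θ]
      have h9 : 0 ≤ 2 * tl N (2 * t) * Real.exp (2 * t) + (tl N (2 * t)) ^ 2 := by positivity
      calc (PN N (u * (2 * Real.cos θ))) ^ 2 * (2 - 2 * Real.cos θ) ≤
          ((Real.exp (2 * u * Real.cos θ)) ^ 2 +
          (2 * tl N (2 * t) * Real.exp (2 * t) + (tl N (2 * t)) ^ 2)) * (2 - 2 * Real.cos θ) := by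
            gcongr
        _ ≤ _ := by nlinarith
  rw [intervalIntegral.integral_add (by apply Continuous.intervalIntegrable; fun_prop)
    (by apply Continuous.intervalIntegrable; fun_prop), intervalIntegral.integral_const,
    smul_eq_mul, h1] at h2
  have h3 := hD u hu
  have h4 : 2 * π * ∑ k ∈ win N {x, x + 1}, (EN N u (gr x) k) ^ 2 ≤
      C * Real.exp (4 * u) / ((1 + u) * √(1 + u)) +
      (π - -π) * (4 * (2 * tl N (2 * t) * Real.exp (2 * t) + (tl N (2 * t)) ^ 2)) := by linarith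
  have h5 : ∑ k ∈ win N {x, x + 1}, (EN N u (gr x) k) ^ 2 ≤
      (C * Real.exp (4 * u) / ((1 + u) * √(1 + u)) +
      (π - -π) * (4 * (2 * tl N (2 * t) * Real.exp (2 * t) + (tl N (2 * t)) ^ 2))) / (2 * π) := by
    rw [le_div_iff₀ (by positivity)]; linarith
  refine h5.trans (le_of_eq ?_)
  have hs : √(1 + u) ≠ 0 := by positivity
  field_simp
  ring

end Pool.Agent.Lib.MP_5d2315_pr
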