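import Pool.Agent.Lib.MP_5d2315_pr.Pred

/-!
# The configuration immediately before a given time is predictable
-/

namespace Pool.Agent.Lib.MP_5d2315_pr

open MeasureTheory ProbabilityTheory Filter Topology
open scoped ENNReal NNReal

variable {Ω : Type*} {mΩ : MeasurableSpace Ω} {P : Measure Ω}
  {F : Filtration ℝ mΩ} {R : ℤ → ℕ → Ω → Set ℝ}

/-- The last dyadic point of level `n` strictly before `s`, for `s > 0`. -/
noncomputable def dy (n : ℕ) (s : ℝ) : ℝ := ((⌈s * 2 ^ n⌉₊ : ℝ) - 1) / 2 ^ n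

lemma dy_eq {n m : ℕ} {s : ℝ} (h1 : (m : ℝ) / 2 ^ n < s) (h2 : s ≤ ((m : ℝ) + 1) / 2 ^ n) :
    dy n s = (m : ℝ) / 2 ^ n := by
  have h2' : (0 : ℝ) < 2 ^ n := by positivity
  rw [div_lt_iff₀ h2'] at h1
  rw [le_div_iff₀ h2'] at h2
  have : ⌈s * 2 ^ n⌉₊ = m + 1 := by
    apply le_antisymm
    · apply Nat.ceil_le.2; push_cast; exact h2
    · exact Nat.succ_le_of_lt (Nat.lt_ceil.2 h1)
  unfold dy
  rw [this]
  push_cast
  ring

lemma dy_lt {n : ℕ} {s : ℝ} (hs : 0 < s) : dy n s < s := by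
  unfold dy
  rw [div_lt_iff₀ (by positivity)]
  have := Nat.ceil_lt_add_one (a := s * 2 ^ n) (by positivity)
  linarith

lemma dy_nonneg {n : ℕ} {s : ℝ} (hs : 0 < s) : 0 ≤ dy n s := by
  unfold dy
  have h1 : 0 < ⌈s * 2 ^ n⌉₊ := Nat.ceil_pos.2 (by positivity)
  have h2 : (1 : ℝ) ≤ (⌈s * 2 ^ n⌉₊ : ℝ) := by exact_mod_cast h1
  apply div_nonneg _ (by positivity)
  linarith

lemma dy_gt {n : ℕ} {s : ℝ} : s - 1 / 2 ^ n ≤ dy n s := by
  unfold dy
  rw [sub_div]
  have h2' : (0 : ℝ) < 2 ^ n := by positivity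
  have h1 : s * 2 ^ n ≤ (⌈s * 2 ^ n⌉₊ : ℝ) := Nat.le_ceil _
  have h3 : s ≤ (⌈s * 2 ^ n⌉₊ : ℝ) / 2 ^ n := by rw [le_div_iff₀ h2']; exact h1
  linarith

lemma tendsto_dy {s : ℝ} (hs : 0 < s) : Tendsto (fun n => dy n s) atTop (𝓝[<] s) := by
  rw [tendsto_nhdsWithin_iff]
  constructor
  · have h1 : Tendsto (fun n : ℕ => s - 1 / 2 ^ n) atTop (𝓝 s) := by
      have : Tendsto (fun n : ℕ => (1 / 2 : ℝ) ^ n) atTop (𝓝 0) :=
        tendsto_pow_atTop_nhds_zero_of_lt_one (by norm_num) (by norm_num)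
      have h2 := this.const_sub s
      rw [sub_zero] at h2
      refine h2.congr (fun n => ?_)
      rw [one_div_pow]
    exact tendsto_of_tendsto_of_tendsto_of_le_of_le h1 tendsto_const_nhds
      (fun n => dy_gt) (fun n => (dy_lt hs).le)
  · exact Eventually.of_forall (fun n => dy_lt hs)

open Classical in
/-- The configuration immediately before time `s`, computed along dyadic times. -/
noncomputable def ZL (Y : ℝ → Ω → ℤ → ℤ) (p : Ω × ℝ) (x : ℤ) : ℤ :=
  if h : 0 < p.2 ∧ ∃ a, ∀ᶠ n in atTop, Y (dy n p.2) p.1 x = a then h.2.choose else 0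

lemma ZL_eq {Y : ℝ → Ω → ℤ → ℤ} {ω : Ω} {s : ℝ} {x a : ℤ} (hs : 0 < s)
    (h : LeftValue (fun r => Y r ω x) s a) : ZL Y (ω, s) x = a := by
  have h1 : ∀ᶠ n in atTop, Y (dy n s) ω x = a := (tendsto_dy hs).eventually h
  have h2 : 0 < (ω, s).2 ∧ ∃ a, ∀ᶠ n in atTop, Y (dy n (ω, s).2) (ω, s).1 x = a := ⟨hs, a, h1⟩
  unfold ZL
  rw [dif_pos h2]
  have h3 := h2.2.choose_spec
  obtain ⟨n, hn1, hn2⟩ := (h1.and h3).exists
  rw [← hn2, ← hn1]

lemma measurable_ZL {Y : ℝ → Ω → ℤ → ℤ}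
    (hY : ∀ t, 0 ≤ t → ∀ x, Measurable[F t] fun ω => Y t ω x) (x : ℤ) :
    Measurable[pred F] (fun p => ZL Y p x) := by
  classical
  let : MeasurableSpace (Ω × ℝ) := pred F
  -- the basic sets
  have hD : ∀ (n : ℕ) (a : ℤ), MeasurableSet[pred F]
      {p : Ω × ℝ | 0 < p.2 ∧ Y (dy n p.2) p.1 x = a} := by
    intro n a
    have e : {p : Ω × ℝ | 0 < p.2 ∧ Y (dy n p.2) p.1 x = a} =
        ⋃ m : ℕ, ({ω | Y ((m : ℝ) / 2 ^ n) ω x = a} ×ˢ
          Set.Ioc ((m : ℝ) / 2 ^ n) (((m : ℝ) + 1) / 2 ^ n)) := by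
      ext ⟨ω, s⟩
      simp only [Set.mem_ofPred_eq, Set.mem_iUnion, Set.mem_prod, Set.mem_Ioc]
      constructor
      · rintro ⟨hs, hY⟩
        obtain ⟨T, hT⟩ := exists_nat_ge s
        obtain ⟨m, _, hm2, hm3⟩ := exists_dyadic_cell (n := n) hs hT
        refine ⟨m, ?_, hm2, hm3⟩
        rw [← dy_eq hm2 hm3]
        exact hY
      · rintro ⟨m, hY, hm2, hm3⟩
        refine ⟨lt_of_le_of_lt (by positivity) hm2, ?_⟩
        rw [dy_eq hm2 hm3]
        exact hY
    rw [e]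
    refine MeasurableSet.iUnion (fun m => ?_)
    apply MeasurableSpace.measurableSet_generateFrom
    refine ⟨_, _, _, ?_, rfl⟩
    exact (hY ((m : ℝ) / 2 ^ n) (by positivity) x) (measurableSet_singleton a)
  have hE : ∀ a : ℤ, MeasurableSet[pred F]
      {p : Ω × ℝ | 0 < p.2 ∧ ∀ᶠ n in atTop, Y (dy n p.2) p.1 x = a} := by
    intro a
    have e : {p : Ω × ℝ | 0 < p.2 ∧ ∀ᶠ n in atTop, Y (dy n p.2) p.1 x = a} =
        ⋃ N : ℕ, ⋂ n : ℕ, ⋂ _ : N ≤ n, {p : Ω × ℝ | 0 < p.2 ∧ Y (dy n p.2) p.1 x = a} := by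
      ext p
      simp only [Set.mem_ofPred_eq, Set.mem_iUnion, Set.mem_iInter, eventually_atTop]
      constructor
      · rintro ⟨h1, N, h2⟩
        exact ⟨N, fun n hn => ⟨h1, h2 n hn⟩⟩
      · rintro ⟨N, h⟩
        exact ⟨(h N le_rfl).1, N, fun n hn => (h n hn).2⟩
    rw [e]
    exact MeasurableSet.iUnion (fun N => MeasurableSet.iInter (fun n =>
      MeasurableSet.iInter (fun _ => hD n a)))
  have hval : ∀ (p : Ω × ℝ) (a : ℤ), (0 < p.2 ∧ ∀ᶠ n in atTop, Y (dy n p.2) p.1 x = a) →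
      ZL Y p x = a := by
    intro p a hp
    have h2 : 0 < p.2 ∧ ∃ a, ∀ᶠ n in atTop, Y (dy n p.2) p.1 x = a := ⟨hp.1, a, hp.2⟩
    unfold ZL
    rw [dif_pos h2]
    have h3 := h2.2.choose_spec
    obtain ⟨n, hn1, hn2⟩ := (hp.2.and h3).exists
    rw [← hn2, ← hn1]
  refine measurable_to_countable' (fun a => ?_)
  by_cases ha : a = 0
  · have e : (fun p => ZL Y p x) ⁻¹' {a} =
        {p : Ω × ℝ | 0 < p.2 ∧ ∀ᶠ n in atTop, Y (dy n p.2) p.1 x = 0} ∪
        (⋃ b : ℤ, {p : Ω × ℝ | 0 < p.2 ∧ ∀ᶠ n in atTop, Y (dy n p.2) p.1 x = b})ᶜ := by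
      ext p
      simp only [Set.mem_preimage, Set.mem_singleton_iff, Set.mem_union, Set.mem_ofPred_eq,
        Set.mem_compl_iff, Set.mem_iUnion, not_exists]
      constructor
      · intro hp
        by_cases hex : ∃ b, 0 < p.2 ∧ ∀ᶠ n in atTop, Y (dy n p.2) p.1 x = b
        · obtain ⟨b, hb⟩ := hex
          left
          have := hval p b hb
          rw [← this, hp, ha] at hb
          exact hb
        · right
          push Not at hex ⊢
          intro b hb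
          exact hex b hb
      · rintro (hp | hp)
        · rw [hval p 0 hp, ha]
        · unfold ZL
          rw [dif_neg, ha]
          rintro ⟨h1, b, hb⟩
          exact hp b ⟨h1, hb⟩
    rw [e]
    exact (hE 0).union (MeasurableSet.iUnion (fun b => hE b)).compl
  · have e : (fun p => ZL Y p x) ⁻¹' {a} =
        {p : Ω × ℝ | 0 < p.2 ∧ ∀ᶠ n in atTop, Y (dy n p.2) p.1 x = a} := by
      ext p
      simp only [Set.mem_preimage, Set.mem_singleton_iff, Set.mem_ofPred_eq]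
      constructor
      · intro hp
        by_cases hex : ∃ b, 0 < p.2 ∧ ∀ᶠ n in atTop, Y (dy n p.2) p.1 x = b
        · obtain ⟨b, hb⟩ := hex
          have := hval p b hb
          rw [← this, hp] at hb
          exact hb
        · exfalso
          apply ha
          rw [← hp]
          unfold ZL
          rw [dif_neg]
          rintro ⟨h1, b, hb⟩
          exact hex ⟨b, h1, hb⟩
      · intro hp
        exact hval p a hp
    rw [e]
    exact hE a

lemma measurable_snd_pred : Measurable[pred F] (fun p : Ω × ℝ => p.2) := by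
  let : MeasurableSpace (Ω × ℝ) := pred F
  refine measurable_of_Iic (fun b => ?_)
  have e : (fun p : Ω × ℝ => p.2) ⁻¹' Set.Iic b =
      ⋃ n : ℕ, ((Set.univ : Set Ω) ×ˢ Set.Ioc (b - n) b) := by
    ext ⟨ω, s⟩
    simp only [Set.mem_preimage, Set.mem_Iic, Set.mem_iUnion, Set.mem_prod, Set.mem_univ,
      true_and, Set.mem_Ioc]
    constructor
    · intro hs
      obtain ⟨n, hn⟩ := exists_nat_gt (b - s)
      exact ⟨n, by linarith, hs⟩
    · rintro ⟨n, _, h⟩; exact h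
  rw [e]
  refine MeasurableSet.iUnion (fun n => ?_)
  apply MeasurableSpace.measurableSet_generateFrom
  exact ⟨Set.univ, _, _, @MeasurableSet.univ _ (F (b - n)), rfl⟩

/-- A function of time and configuration depends only on the sites in `Λ`. -/
def LocalOn {α : Type*} (Λ : Finset ℤ) (f : (ℤ → ℤ) → α) : Prop :=
  ∀ y y' : ℤ → ℤ, (∀ x ∈ Λ, y x = y' x) → f y = f y'

/-- extension by zero of a configuration on a window -/
def extZ (Λ : Finset ℤ) (v : Λ → ℤ) : ℤ → ℤ := fun x => if h : x ∈ Λ then v ⟨x, h⟩ else 0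

lemma measurable_local_pred {Y : ℝ → Ω → ℤ → ℤ}
    (hY : ∀ t, 0 ≤ t → ∀ x, Measurable[F t] fun ω => Y t ω x) {Λ : Finset ℤ}
    {h : ℝ → (ℤ → ℤ) → ℝ} (hloc : ∀ s, LocalOn Λ (h s)) (hm : ∀ y, Measurable (fun s => h s y)) :
    Measurable[pred F] (fun p : Ω × ℝ => h p.2 (ZL Y p)) := by
  have h1 : Measurable (fun q : ℝ × (Λ → ℤ) => h q.1 (extZ Λ q.2)) := by
    apply measurable_from_prod_countable_left
    intro v
    exact hm (extZ Λ v)
  let : MeasurableSpace (Ω × ℝ) := pred F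
  have h2 : Measurable (fun p : Ω × ℝ => ((p.2, fun x : Λ => ZL Y p x) : ℝ × (Λ → ℤ))) := by
    refine Measurable.prodMk measurable_snd_pred ?_
    exact measurable_pi_lambda _ (fun x => measurable_ZL hY x)
  have e : (fun p : Ω × ℝ => h p.2 (ZL Y p)) =
      (fun q : ℝ × (Λ → ℤ) => h q.1 (extZ Λ q.2)) ∘
        (fun p : Ω × ℝ => ((p.2, fun x : Λ => ZL Y p x) : ℝ × (Λ → ℤ))) := by
    funext p
    simp only [Function.comp]
    apply hloc
    intro x hx
    simp [extZ, hx]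
  rw [e]
  exact h1.comp h2

end Pool.Agent.Lib.MP_5d2315_pr
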