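import Pool.Agent.Lib.MP_5d2315_pr.Dyn3

/-!
# Linear functionals and the first moment
-/

namespace Pool.Agent.Lib.MP_5d2315_pr

open MeasureTheory ProbabilityTheory Filter Topology
open scoped ENNReal NNReal

/-- sum over the two neighbours -/
def Af (g : ℤ → ℝ) : ℤ → ℝ := fun k => g (k - 1) + g (k + 1)

/-- `g` vanishes outside `Λ` -/
def SuppIn (Λ : Finset ℤ) (g : ℤ → ℝ) : Prop := ∀ k, k ∉ Λ → g k = 0

/-- linear functional -/
noncomputable def lin (Λ : Finset ℤ) (g : ℤ → ℝ) (y : ℤ → ℤ) : ℝ := ∑ k ∈ Λ, g k * (y k : ℝ)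

lemma SuppIn.mono {Λ Λ' : Finset ℤ} {g : ℤ → ℝ} (h : SuppIn Λ g) (hΛ : Λ ⊆ Λ') : SuppIn Λ' g :=
  fun k hk => h k (fun hk' => hk (hΛ hk'))

lemma SuppIn.af {Λ : Finset ℤ} {g : ℤ → ℝ} (h : SuppIn Λ g) : SuppIn (nb Λ) (Af g) := by
  intro k hk
  rw [mem_nb, not_or] at hk
  unfold Af
  rw [h _ hk.1, h _ hk.2, add_zero]

lemma lin_eq_of_subset {Λ Λ' : Finset ℤ} {g : ℤ → ℝ} (h : SuppIn Λ g) (hΛ : Λ ⊆ Λ')
    (y : ℤ → ℤ) : lin Λ' g y = lin Λ g y := by
  unfold lin
  symm
  apply Finset.sum_subset hΛ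
  intro k _ hk
  rw [h k hk, zero_mul]

lemma lin_local (Λ : Finset ℤ) (g : ℤ → ℝ) : LocalOn Λ (lin Λ g) := by
  intro y y' hy
  unfold lin
  exact Finset.sum_congr rfl (fun k hk => by rw [hy k hk])

lemma sum_ite_site {Λ : Finset ℤ} {g : ℤ → ℝ} (hg : SuppIn Λ g) (a : ℤ) (c : ℝ) :
    ∑ k ∈ Λ, g k * (if k = a then c else 0) = g a * c := by
  simp only [mul_ite, mul_zero]
  rw [Finset.sum_ite_eq']
  by_cases h : a ∈ Λ
  · rw [if_pos h]
  · rw [if_neg h, hg a h, zero_mul]

lemma upd_cast (j : ℤ) (y : ℤ → ℤ) (k : ℤ) : ((upd j y k : ℤ) : ℝ) = (y k : ℝ) +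
    ((if k = j - 1 then ((y j).sign : ℝ) else 0) + (if k = j + 1 then ((y j).sign : ℝ) else 0)) := by
  unfold upd
  by_cases h1 : k = j - 1
  · have h2 : ¬ k = j + 1 := by omega
    rw [if_pos (Or.inl h1), if_pos h1, if_neg h2]; push_cast; ring
  · by_cases h2 : k = j + 1
    · rw [if_pos (Or.inr h2), if_neg h1, if_pos h2]; push_cast; ring
    · rw [if_neg (by tauto), if_neg h1, if_neg h2]; push_cast; ring

lemma lin_upd {Λ : Finset ℤ} {g : ℤ → ℝ} (hg : SuppIn Λ g) (j : ℤ) (y : ℤ → ℤ) :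
    lin Λ g (upd j y) = lin Λ g y + ((y j).sign : ℝ) * Af g j := by
  unfold lin
  simp only [upd_cast, mul_add]
  rw [Finset.sum_add_distrib, Finset.sum_add_distrib, sum_ite_site hg, sum_ite_site hg]
  unfold Af
  ring

lemma natAbs_mul_sign (a : ℤ) : ((a.natAbs : ℕ) : ℝ) * (a.sign : ℝ) = (a : ℝ) := by
  have h : ((a.natAbs : ℕ) : ℤ) * a.sign = a := by
    rw [mul_comm]; exact Int.sign_mul_natAbs a
  have h2 := congrArg (fun z : ℤ => (z : ℝ)) h
  simp only [Int.cast_mul, Int.cast_natCast] at h2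
  exact h2

lemma natAbs_mul_sign_sq (a : ℤ) : ((a.natAbs : ℕ) : ℝ) * (a.sign : ℝ) ^ 2 = (a.natAbs : ℝ) := by
  rcases lt_trichotomy a 0 with h | h | h
  · rw [Int.sign_eq_neg_one_of_neg h]; push_cast; ring
  · subst h; simp
  · rw [Int.sign_eq_one_of_pos h]; push_cast; ring

lemma abs_sign_le (a : ℤ) : |(a.sign : ℝ)| ≤ 1 := by
  rcases lt_trichotomy a 0 with h | h | h
  · rw [Int.sign_eq_neg_one_of_neg h]; norm_num
  · subst h; simp
  · rw [Int.sign_eq_one_of_pos h]; norm_num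

lemma natAbs_le_sqM {M : Finset ℤ} {x : ℤ} (hx : x ∈ M) (y : ℤ → ℤ) :
    ((y x).natAbs : ℝ) ≤ sqM M y := by
  unfold sqM
  have h1 : ((y x : ℝ)) ^ 2 ≤ ∑ x ∈ M, (y x : ℝ) ^ 2 :=
    Finset.single_le_sum (f := fun x => (y x : ℝ) ^ 2) (fun i _ => sq_nonneg _) hx
  have h2 : ((y x).natAbs : ℝ) = |(y x : ℝ)| := by rw [Nat.cast_natAbs]; push_cast; rfl
  have h3 : |(y x : ℝ)| ≤ 1 + (y x : ℝ) ^ 2 := by
    nlinarith [sq_abs (y x : ℝ), sq_nonneg (|(y x : ℝ)| - 1)]
  rw [h2]
  linarith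

lemma cast_natAbs_eq_abs (a : ℤ) : ((a.natAbs : ℕ) : ℝ) = |(a : ℝ)| := by
  rw [Nat.cast_natAbs]; push_cast; rfl

variable {Ω : Type*} {mΩ : MeasurableSpace Ω} {P : Measure Ω}
  {F : Filtration ℝ mΩ} {R : ℤ → ℕ → Ω → Set ℝ} {Y : ℝ → Ω → ℤ → ℤ}

/-- first absolute moment -/
noncomputable def q (P : Measure Ω) (Y : ℝ → Ω → ℤ → ℤ) (s : ℝ) (k : ℤ) : ℝ :=
  ∫ ω, ((Y s ω k).natAbs : ℝ) ∂P

section

variable [IsProbabilityMeasure P] (h : IsUrnProcess P F R Y)
include h

lemma IsUrnProcess.integrable_natAbs {s : ℝ} (hs : 0 ≤ s) (k : ℤ) :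
    Integrable (fun ω => ((Y s ω k).natAbs : ℝ)) P := by
  refine h.integrable_of_le hs (Λ := {k}) (M := {k}) (g := fun y => ((y k).natAbs : ℝ)) ?_
    (C := 1) ?_
  · intro y y' hy; simp only [hy k (Finset.mem_singleton_self k)]
  · intro y
    rw [one_mul, abs_of_nonneg (by positivity)]
    exact natAbs_le_sqM (Finset.mem_singleton_self k) y

lemma IsUrnProcess.integrableOn_q (T : ℝ) (k : ℤ) :
    IntegrableOn (fun s => q P Y s k) (Set.Ioc 0 T) := by
  have h1 := h.integrable_ZL_of_le (T := T) (Λ := {k}) (M := {k})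
    (g := fun _ y => ((y k).natAbs : ℝ)) ?_ (fun y => measurable_const) (C := 1) ?_
  · exact h.integrableOn_ZL (g := fun _ y => ((y k).natAbs : ℝ)) h1
  · intro s y y' hy; simp only [hy k (Finset.mem_singleton_self k)]
  · intro s _ _ y
    rw [one_mul, abs_of_nonneg (by positivity)]
    exact natAbs_le_sqM (Finset.mem_singleton_self k) y

lemma IsUrnProcess.q_zero (k : ℤ) : q P Y 0 k = 1 := by
  unfold q
  have hi := h.initial k
  have hm := h.measurable_Y le_rfl k
  have hunion : P ({ω | Y 0 ω k = 1} ∪ {ω | Y 0 ω k = -1}) = 1 := by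
    rw [measure_union (by
      rw [Set.disjoint_left]
      intro ω h1 h2
      simp only [Set.mem_ofPred_eq] at h1 h2
      omega) (show MeasurableSet {ω | Y 0 ω k = -1} from hm (measurableSet_singleton (-1))),
      hi.1, hi.2, ENNReal.add_halves]
  have hae : ∀ᵐ ω ∂P, ((Y 0 ω k).natAbs : ℝ) = 1 := by
    have h1 : ∀ᵐ ω ∂P, ω ∈ ({ω | Y 0 ω k = 1} ∪ {ω | Y 0 ω k = -1}) := by
      exact (mem_ae_iff_prob_eq_one ((hm (measurableSet_singleton 1)).union
        (hm (measurableSet_singleton (-1))))).2 hunion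
    filter_upwards [h1] with ω hω
    rcases hω with hω | hω <;> (simp only [Set.mem_ofPred_eq] at hω; rw [hω]; simp)
  rw [integral_congr_ae hae]
  simp

lemma IsUrnProcess.q_le {T : ℝ} (hT : 0 ≤ T) (k : ℤ) :
    q P Y T k ≤ 1 + ∫ s in Set.Ioc 0 T, (q P Y s (k - 1) + q P Y s (k + 1)) := by
  have hnb : nb {k} = {k - 1, k + 1} := by
    ext j; simp only [mem_nb, Finset.mem_singleton, Finset.mem_insert]; constructor
    · rintro (h | h)
      · left; omega
      · right; omega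
    · rintro (h | h)
      · left; omega
      · right; omega
  have hne : k - 1 ≠ k + 1 := by omega
  have habs : ∀ (j : ℤ) (y : ℤ → ℤ), |(((upd j y k).natAbs : ℕ) : ℝ) - ((y k).natAbs : ℝ)| ≤ 1 := by
    intro j y
    rw [cast_natAbs_eq_abs, cast_natAbs_eq_abs]
    refine (abs_abs_sub_abs_le_abs_sub _ _).trans ?_
    unfold upd
    push_cast
    by_cases hj : k = j - 1 ∨ k = j + 1
    · rw [if_pos hj, add_sub_cancel_left]; exact abs_sign_le _
    · rw [if_neg hj]; simp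
  have hδ0 : ∀ j ∈ nb {k}, ∀ y : ℤ → ℤ, |((y j).natAbs : ℝ) *
      (((upd j y k).natAbs : ℝ) - ((y k).natAbs : ℝ))| ≤ 1 * sqM {k - 1, k, k + 1} y := by
    intro j hj y
    rw [one_mul, abs_mul, abs_of_nonneg (by positivity : (0 : ℝ) ≤ ((y j).natAbs : ℝ))]
    refine (mul_le_of_le_one_right (by positivity) (habs j y)).trans ?_
    apply natAbs_le_sqM
    rw [hnb] at hj
    simp only [Finset.mem_insert, Finset.mem_singleton] at hj ⊢
    tauto
  obtain ⟨h1, h2⟩ := h.dynkin (Λ := {k}) (M := {k - 1, k, k + 1})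
    (f := fun _ y => ((y k).natAbs : ℝ)) (f' := fun _ _ => 0)
    (fun s y y' hy => by simp only [hy k (Finset.mem_singleton_self k)])
    (fun s y y' hy => rfl) hT (fun y s => hasDerivAt_const s _)
    (fun y => continuous_const) (C := 1)
    (fun s _ _ y => by
      rw [one_mul, abs_of_nonneg (by positivity)]
      exact natAbs_le_sqM (by simp) y)
    (fun s _ _ y => by rw [abs_zero, one_mul]; exact sqM_nonneg _ _)
    (fun s _ _ j hj y => hδ0 j hj y)
  have h3 : q P Y T k - q P Y 0 k ≤ ∫ s in Set.Ioc 0 T, (q P Y s (k - 1) + q P Y s (k + 1)) := by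
    unfold q
    rw [h2]
    refine setIntegral_mono_on h1 ((h.integrableOn_q T (k - 1)).add (h.integrableOn_q T (k + 1)))
      measurableSet_Ioc (fun s hs => ?_)
    rw [hnb]
    rw [← integral_add (h.integrable_natAbs hs.1.le _) (h.integrable_natAbs hs.1.le _)]
    refine integral_mono ?_ ((h.integrable_natAbs hs.1.le _).add (h.integrable_natAbs hs.1.le _))
      (fun ω => ?_)
    · simp only [zero_add]
      refine integrable_finsetSum _ (fun j hj => ?_)
      rw [← hnb] at hj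
      exact h.integrable_rate (M := {k - 1, k, k + 1}) (C := 1)
        (f := fun y => ((y k).natAbs : ℝ))
        (fun y y' hy => by simp only [hy k (Finset.mem_singleton_self k)]) hs.1.le hj
        (hδ0 j hj)
    · simp only [zero_add]
      rw [Finset.sum_pair hne]
      have h5 : ∀ j, ((Y s ω j).natAbs : ℝ) *
          (((upd j (Y s ω) k).natAbs : ℝ) - ((Y s ω k).natAbs : ℝ)) ≤ ((Y s ω j).natAbs : ℝ) :=
        fun j => mul_le_of_le_one_right (by positivity) ((le_abs_self _).trans (habs j (Y s ω)))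
      exact add_le_add (h5 _) (h5 _)
  rw [h.q_zero] at h3
  linarith

lemma IsUrnProcess.q_nonneg (s : ℝ) (k : ℤ) : 0 ≤ q P Y s k :=
  integral_nonneg (fun ω => by positivity)

/-- uniform bound for second moments (real form) -/
lemma IsUrnProcess.exists_bound (T : ℝ) :
    ∃ B : ℝ, 0 ≤ B ∧ (∀ s, 0 ≤ s → s ≤ T → ∀ k, ∫ ω, ((Y s ω k : ℝ)) ^ 2 ∂P ≤ B) ∧
      (∀ s, 0 ≤ s → s ≤ T → ∀ k, q P Y s k ≤ 1 + B) := by
  obtain ⟨B, hB⟩ := h.moments T
  have hI : ∀ s, 0 ≤ s → s ≤ T → ∀ k, Integrable (fun ω => ((Y s ω k : ℝ)) ^ 2) P := by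
    intro s hs _ k
    refine h.integrable_of_le hs (Λ := {k}) (M := {k}) (g := fun y => ((y k : ℝ)) ^ 2) ?_
      (C := 1) ?_
    · intro y y' hy; simp only [hy k (Finset.mem_singleton_self k)]
    · intro y
      unfold sqM
      rw [abs_of_nonneg (sq_nonneg _), Finset.sum_singleton]; linarith
  have h1 : ∀ s, 0 ≤ s → s ≤ T → ∀ k, ∫ ω, ((Y s ω k : ℝ)) ^ 2 ∂P ≤ B := by
    intro s hs hsT k
    rw [integral_eq_lintegral_of_nonneg_ae (ae_of_all _ (fun ω => sq_nonneg _))
      (hI s hs hsT k).1]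
    have h2 : ∫⁻ ω, ENNReal.ofReal (((Y s ω k : ℝ)) ^ 2) ∂P ≤ B := by
      refine le_trans (lintegral_mono (fun ω => ?_)) (hB s hs hsT k)
      apply le_of_eq
      have e : ((Y s ω k : ℝ)) ^ 2 = (((Y s ω k).natAbs : ℕ) : ℝ) ^ 2 := by
        rw [cast_natAbs_eq_abs, sq_abs]
      rw [e, ENNReal.ofReal_pow (by positivity), ENNReal.ofReal_natCast]
    exact ENNReal.toReal_le_of_le_ofReal B.2 (by rw [ENNReal.ofReal_coe_nnreal]; exact h2)
  refine ⟨B, B.2, h1, ?_⟩
  intro s hs hsT k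
  have h2 : q P Y s k ≤ ∫ ω, (1 + ((Y s ω k : ℝ)) ^ 2) ∂P := by
    unfold q
    refine integral_mono (h.integrable_natAbs hs k) ((integrable_const _).add (hI s hs hsT k))
      (fun ω => ?_)
    have := natAbs_le_sqM (M := {k}) (x := k) (by simp) (Y s ω)
    unfold sqM at this
    rwa [Finset.sum_singleton] at this
  rw [integral_add (integrable_const _) (hI s hs hsT k)] at h2
  simp only [integral_const, probReal_univ, smul_eq_mul, mul_one] at h2
  linarith [h1 s hs hsT k]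

omit h in
lemma integral_pow_factorial (n : ℕ) (c r : ℝ) (hr : 0 ≤ r) :
    ∫ s in Set.Ioc 0 r, 2 * (c * ((2 * s) ^ n / n.factorial)) =
      c * ((2 * r) ^ (n + 1) / (n + 1).factorial) := by
  rw [← intervalIntegral.integral_of_le hr]
  have h1 : ∀ s ∈ Set.uIcc 0 r, HasDerivAt (fun s : ℝ => c * ((2 * s) ^ (n + 1) / (n + 1).factorial))
      (2 * (c * ((2 * s) ^ n / n.factorial))) s := by
    intro s _
    have h2 : HasDerivAt (fun s : ℝ => 2 * s) 2 s := by
      simpa using (hasDerivAt_id s).const_mul 2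
    have h3 := ((h2.pow (n + 1)).div_const ((n + 1).factorial : ℝ)).const_mul c
    refine h3.congr_deriv ?_
    rw [Nat.factorial_succ]
    push_cast
    field_simp
  rw [intervalIntegral.integral_eq_sub_of_hasDerivAt h1]
  · simp
  · apply Continuous.intervalIntegrable
    fun_prop

theorem IsUrnProcess.q_le_exp {T : ℝ} (hT : 0 ≤ T) (k : ℤ) : q P Y T k ≤ Real.exp (2 * T) := by
  obtain ⟨B, hB0, _, hB⟩ := h.exists_bound T
  have hind : ∀ n : ℕ, ∀ s, 0 ≤ s → s ≤ T → ∀ k, q P Y s k ≤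
      ∑ i ∈ Finset.range n, 1 * ((2 * s) ^ i / i.factorial) +
        (1 + B) * ((2 * s) ^ n / n.factorial) := by
    intro n
    induction n with
    | zero =>
      intro s hs hsT k
      simpa using hB s hs hsT k
    | succ n ih =>
      intro s hs hsT k
      refine (h.q_le hs k).trans ?_
      have h1 : ∫ r in Set.Ioc 0 s, (q P Y r (k - 1) + q P Y r (k + 1)) ≤
          ∫ r in Set.Ioc 0 s, (∑ i ∈ Finset.range n, 2 * (1 * ((2 * r) ^ i / i.factorial)) +
            2 * ((1 + B) * ((2 * r) ^ n / n.factorial))) := by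
        refine setIntegral_mono_on ((h.integrableOn_q s (k - 1)).add (h.integrableOn_q s (k + 1)))
          ?_ measurableSet_Ioc (fun r hr => ?_)
        · refine (Continuous.integrableOn_Icc ?_).mono_set Set.Ioc_subset_Icc_self
          fun_prop
        · have h2 := ih r hr.1.le (hr.2.trans hsT) (k - 1)
          have h3 := ih r hr.1.le (hr.2.trans hsT) (k + 1)
          rw [← Finset.mul_sum]
          linarith
      have hint : ∀ (c : ℝ) (i : ℕ), IntegrableOn (fun r : ℝ =>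
          2 * (c * ((2 * r) ^ i / (i.factorial : ℝ)))) (Set.Ioc 0 s) := by
        intro c i
        refine (Continuous.integrableOn_Icc ?_).mono_set Set.Ioc_subset_Icc_self
        fun_prop
      rw [integral_add (integrable_finsetSum _ (fun i _ => hint 1 i)) (hint _ n),
        integral_finsetSum _ (fun i _ => hint 1 i)] at h1
      simp_rw [integral_pow_factorial _ _ _ hs] at h1
      rw [Finset.sum_range_succ']
      simp only [pow_zero, Nat.factorial_zero, Nat.cast_one, div_one, mul_one]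
      linarith
  have hlim : Tendsto (fun n : ℕ => Real.exp (2 * T) + (1 + B) * ((2 * T) ^ n / n.factorial))
      atTop (𝓝 (Real.exp (2 * T) + (1 + B) * 0)) :=
    ((FloorSemiring.tendsto_pow_div_factorial_atTop (2 * T)).const_mul _).const_add _
  rw [mul_zero, add_zero] at hlim
  refine ge_of_tendsto' hlim (fun n => ?_)
  refine (hind n T hT le_rfl k).trans ?_
  gcongr
  simp only [one_mul]
  exact Real.sum_le_exp_of_nonneg (by positivity) n

end

end Pool.Agent.Lib.MP_5d2315_pr
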