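import Pool.Agent.Lib.MP_5d2315_pr.Init

/-!
# Second moments of linear functionals
-/

namespace Pool.Agent.Lib.MP_5d2315_pr

open MeasureTheory ProbabilityTheory Filter Topology
open scoped ENNReal NNReal

lemma lin_add (Λ : Finset ℤ) (g g' : ℤ → ℝ) (y : ℤ → ℤ) :
    lin Λ (fun k => g k + g' k) y = lin Λ g y + lin Λ g' y := by
  unfold lin
  rw [← Finset.sum_add_distrib]
  exact Finset.sum_congr rfl (fun k _ => by ring)

lemma lin_neg (Λ : Finset ℤ) (g : ℤ → ℝ) (y : ℤ → ℤ) :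
    lin Λ (fun k => -g k) y = -lin Λ g y := by
  unfold lin
  rw [← Finset.sum_neg_distrib]
  exact Finset.sum_congr rfl (fun k _ => by ring)

/-- The drift part of the truncated flow. -/
lemma lin_drift {Λ : Finset ℤ} {g : ℤ → ℝ} (hg : SuppIn Λ g) (N : ℕ) (u : ℝ) (y : ℤ → ℤ) :
    lin (nb (win N Λ)) (Af (EN N u g)) y - lin (win N Λ) (ENd N u g) y =
      lin (win N Λ ∪ nb (win N Λ)) (er N u g) y := by
  rw [← lin_eq_of_subset (suppIn_EN hg N u).af (Finset.subset_union_right (s₁ := win N Λ)) y,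
    ← lin_eq_of_subset (suppIn_ENd hg N u) (Finset.subset_union_left (s₂ := nb (win N Λ))) y,
    sub_eq_add_neg, ← lin_neg, ← lin_add]
  congr 1
  funext k
  rw [Af_EN]
  unfold er
  ring

variable {Ω : Type*} {mΩ : MeasurableSpace Ω} {P : Measure Ω}
  {F : Filtration ℝ mΩ} {R : ℤ → ℕ → Ω → Set ℝ} {Y : ℝ → Ω → ℤ → ℤ}

section

variable [IsProbabilityMeasure P] (h : IsUrnProcess P F R Y)
include h

lemma IsUrnProcess.integrable_prod {s : ℝ} (hs : 0 ≤ s) (k l : ℤ) :
    Integrable (fun ω => (Y s ω k : ℝ) * (Y s ω l : ℝ)) P := by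
  refine h.integrable_of_le hs (Λ := {k, l}) (M := {k, l})
    (g := fun y => ((y k : ℝ)) * (y l : ℝ)) ?_ (C := 1) ?_
  · intro y y' hy; simp only [hy k (by simp), hy l (by simp)]
  · intro y
    rw [abs_mul, one_mul]
    have h1 : ((y k : ℝ)) ^ 2 ≤ ∑ x ∈ ({k, l} : Finset ℤ), (y x : ℝ) ^ 2 :=
      Finset.single_le_sum (f := fun x => (y x : ℝ) ^ 2) (fun i _ => sq_nonneg _) (by simp)
    have h2 : ((y l : ℝ)) ^ 2 ≤ ∑ x ∈ ({k, l} : Finset ℤ), (y x : ℝ) ^ 2 :=
      Finset.single_le_sum (f := fun x => (y x : ℝ) ^ 2) (fun i _ => sq_nonneg _) (by simp)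
    unfold sqM
    nlinarith [sq_abs (y k : ℝ), sq_abs (y l : ℝ), sq_nonneg (|(y k : ℝ)| - |(y l : ℝ)|)]

lemma IsUrnProcess.integrable_lin {s : ℝ} (hs : 0 ≤ s) (Λ : Finset ℤ) (g : ℤ → ℝ) :
    Integrable (fun ω => lin Λ g (Y s ω)) P := by
  unfold lin
  refine integrable_finsetSum _ (fun k _ => Integrable.const_mul ?_ _)
  have h1 := h.integrable_natAbs hs k
  refine h1.mono' (Measurable.comp (g := fun a : ℤ => (a : ℝ)) (measurable_of_countable _)
      (h.measurable_Y hs k)).aestronglyMeasurable (ae_of_all _ (fun ω => ?_))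
  rw [cast_natAbs_eq_abs, Real.norm_eq_abs]

lemma IsUrnProcess.integrable_lin_mul {s : ℝ} (hs : 0 ≤ s) (Λ Λ' : Finset ℤ) (g g' : ℤ → ℝ) :
    Integrable (fun ω => lin Λ g (Y s ω) * lin Λ' g' (Y s ω)) P := by
  unfold lin
  simp_rw [Finset.sum_mul_sum]
  refine integrable_finsetSum _ (fun k _ => integrable_finsetSum _ (fun l _ => ?_))
  have e : (fun ω => g k * (Y s ω k : ℝ) * (g' l * (Y s ω l : ℝ))) =
      fun ω => (g k * g' l) * ((Y s ω k : ℝ) * (Y s ω l : ℝ)) := by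
    funext ω; ring
  rw [e]
  exact (h.integrable_prod hs k l).const_mul _

lemma IsUrnProcess.integral_lin_mul_le {s B : ℝ} (hs : 0 ≤ s)
    (hB : ∀ k, ∫ ω, ((Y s ω k : ℝ)) ^ 2 ∂P ≤ B) {Λ Λ' : Finset ℤ} {g g' : ℤ → ℝ} {c c' : ℝ}
    (hg : N1 g c) (hg' : N1 g' c') :
    |∫ ω, lin Λ g (Y s ω) * lin Λ' g' (Y s ω) ∂P| ≤ c * c' * B := by
  have hsq : ∀ k, Integrable (fun ω => ((Y s ω k : ℝ)) ^ 2) P := by
    intro k
    have := h.integrable_prod hs k k
    simpa [sq] using this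
  have hB0 : 0 ≤ B := (integral_nonneg (fun ω => sq_nonneg _)).trans (hB 0)
  have hkl : ∀ k l, |∫ ω, (Y s ω k : ℝ) * (Y s ω l : ℝ) ∂P| ≤ B := by
    intro k l
    refine (abs_integral_le_integral_abs).trans ?_
    have h1 : ∫ ω, |(Y s ω k : ℝ) * (Y s ω l : ℝ)| ∂P ≤
        ∫ ω, (((Y s ω k : ℝ)) ^ 2 / 2 + ((Y s ω l : ℝ)) ^ 2 / 2) ∂P := by
      refine integral_mono (h.integrable_prod hs k l).abs
        (((hsq k).div_const 2).add ((hsq l).div_const 2)) (fun ω => ?_)
      simp only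
      rw [abs_mul]
      nlinarith [sq_abs (Y s ω k : ℝ), sq_abs (Y s ω l : ℝ),
        sq_nonneg (|(Y s ω k : ℝ)| - |(Y s ω l : ℝ)|)]
    rw [integral_add ((hsq k).div_const 2) ((hsq l).div_const 2), integral_div, integral_div] at h1
    linarith [hB k, hB l]
  have e : ∫ ω, lin Λ g (Y s ω) * lin Λ' g' (Y s ω) ∂P =
      ∑ k ∈ Λ, ∑ l ∈ Λ', (g k * g' l) * ∫ ω, (Y s ω k : ℝ) * (Y s ω l : ℝ) ∂P := by
    unfold lin
    simp_rw [Finset.sum_mul_sum]
    have e1 : ∀ k l, (fun ω => g k * (Y s ω k : ℝ) * (g' l * (Y s ω l : ℝ))) =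
        fun ω => (g k * g' l) * ((Y s ω k : ℝ) * (Y s ω l : ℝ)) := by
      intro k l
      funext ω; ring
    rw [integral_finsetSum]
    · refine Finset.sum_congr rfl (fun k _ => ?_)
      rw [integral_finsetSum]
      · refine Finset.sum_congr rfl (fun l _ => ?_)
        rw [e1, integral_const_mul]
      · intro l _
        rw [e1]
        exact (h.integrable_prod hs k l).const_mul _
    · intro k _
      refine integrable_finsetSum _ (fun l _ => ?_)
      rw [e1]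
      exact (h.integrable_prod hs k l).const_mul _
  rw [e]
  refine (Finset.abs_sum_le_sum_abs _ _).trans ?_
  have h2 : ∀ k ∈ Λ, |∑ l ∈ Λ', (g k * g' l) * ∫ ω, (Y s ω k : ℝ) * (Y s ω l : ℝ) ∂P| ≤
      |g k| * (c' * B) := by
    intro k _
    refine (Finset.abs_sum_le_sum_abs _ _).trans ?_
    have h3 : ∀ l ∈ Λ', |(g k * g' l) * ∫ ω, (Y s ω k : ℝ) * (Y s ω l : ℝ) ∂P| ≤
        |g k| * (|g' l| * B) := by
      intro l _
      rw [abs_mul, abs_mul, mul_assoc]
      have := hkl k l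
      gcongr
    refine (Finset.sum_le_sum h3).trans ?_
    rw [← Finset.mul_sum, ← Finset.sum_mul]
    have := hg' Λ'
    gcongr
  refine (Finset.sum_le_sum h2).trans ?_
  rw [← Finset.sum_mul]
  have h4 := hg Λ
  have h5 := hg'.nonneg
  calc (∑ k ∈ Λ, |g k|) * (c' * B) ≤ c * (c' * B) := by gcongr
    _ = _ := by ring

/-- The second moment inequality for linear functionals. -/
theorem IsUrnProcess.second_moment {Λ : Finset ℤ} {g : ℤ → ℝ} (hg : SuppIn Λ g) {c₁ c₂ : ℝ}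
    (h1 : N1 g c₁) (h2 : N2 g c₂) {t B : ℝ} (ht : 0 ≤ t)
    (hB : ∀ s, 0 ≤ s → s ≤ t → ∀ k, ∫ ω, ((Y s ω k : ℝ)) ^ 2 ∂P ≤ B) (N : ℕ) :
    ∫ ω, (lin Λ g (Y t ω)) ^ 2 ∂P ≤ ∑ k ∈ win N Λ, (EN N t g k) ^ 2 +
      (∫ s in Set.Ioc 0 t, (Real.exp (2 * s) *
        ∑ j ∈ nb (win N Λ), (Af (EN N (t - s) g) j) ^ 2)) +
      t * (2 * ((Real.exp (2 * t) * c₁) * (2 * ((2 * t) ^ N / N.factorial) * c₁) * B)) := by
  have hB0 : 0 ≤ B := (integral_nonneg (fun ω => sq_nonneg _)).trans (hB 0 le_rfl ht 0)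
  have hc2 := h2.nonneg
  set W := win N Λ with hW
  set f : ℝ → (ℤ → ℤ) → ℝ := fun s y => (lin W (EN N (t - s) g) y) ^ 2 with hf
  set f' : ℝ → (ℤ → ℤ) → ℝ := fun s y =>
    2 * lin W (EN N (t - s) g) y * (-lin W (ENd N (t - s) g) y) with hf'
  set K : ℝ := Real.exp (4 * t) * c₂ with hK
  have hK0 : 0 ≤ K := by positivity
  have hEN2 : ∀ s, 0 ≤ s → s ≤ t → N2 (EN N (t - s) g) K := by
    intro s hs hst
    refine (h2.EN N (by linarith : 0 ≤ t - s)).mono ?_
    rw [hK]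
    gcongr
    linarith
  -- bound for the derivative functional
  obtain ⟨Kd, hKd0, hKd⟩ : ∃ Kd : ℝ, 0 ≤ Kd ∧ ∀ s, 0 ≤ s → s ≤ t →
      ∑ k ∈ W, (ENd N (t - s) g k) ^ 2 ≤ Kd := by
    have hcont : ContinuousOn (fun s => ∑ k ∈ W, (ENd N (t - s) g k) ^ 2) (Set.Icc 0 t) := by
      apply Continuous.continuousOn
      exact continuous_finsetSum _ (fun k _ => (continuous_ENd N g t k).pow 2)
    obtain ⟨C, hC⟩ := isCompact_Icc.bddAbove_image hcont
    refine ⟨max C 0, le_max_right _ _, fun s hs hst => ?_⟩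
    exact (hC ⟨s, ⟨hs, hst⟩, rfl⟩).trans (le_max_left _ _)
  have hsqM : ∀ y, 1 ≤ sqM (W ∪ nb W) y := by
    intro y; unfold sqM
    have : (0 : ℝ) ≤ ∑ x ∈ W ∪ nb W, (y x : ℝ) ^ 2 := Finset.sum_nonneg (fun _ _ => sq_nonneg _)
    linarith
  have hsqW : ∀ y, sqM W y ≤ sqM (W ∪ nb W) y := by
    intro y; unfold sqM
    have : ∑ x ∈ W, (y x : ℝ) ^ 2 ≤ ∑ x ∈ W ∪ nb W, (y x : ℝ) ^ 2 :=
      Finset.sum_le_sum_of_subset_of_nonneg Finset.subset_union_left (fun _ _ _ => sq_nonneg _)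
    linarith
  have hbf : ∀ s, 0 ≤ s → s ≤ t → ∀ y, (lin W (EN N (t - s) g) y) ^ 2 ≤ K * sqM (W ∪ nb W) y := by
    intro s hs hst y
    refine (lin_sq_le W _ y).trans ?_
    have h3 := hEN2 s hs hst W
    have h4 := hsqW y
    have h5 := sqM_nonneg W y
    gcongr
  have hbd : ∀ s, 0 ≤ s → s ≤ t → ∀ y, (lin W (ENd N (t - s) g) y) ^ 2 ≤
      Kd * sqM (W ∪ nb W) y := by
    intro s hs hst y
    refine (lin_sq_le W _ y).trans ?_
    have h3 := hKd s hs hst
    have h4 := hsqW y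
    have h5 := sqM_nonneg W y
    gcongr
  -- the rate terms
  have hrate : ∀ s j (y : ℤ → ℤ), ((y j).natAbs : ℝ) * (f s (upd j y) - f s y) =
      2 * lin W (EN N (t - s) g) y * (Af (EN N (t - s) g) j * (y j : ℝ)) +
        ((y j).natAbs : ℝ) * (Af (EN N (t - s) g) j) ^ 2 := by
    intro s j y
    simp only [hf]
    rw [lin_upd (suppIn_EN hg N (t - s))]
    have e1 := natAbs_mul_sign (y j)
    have e2 := natAbs_mul_sign_sq (y j)
    calc ((y j).natAbs : ℝ) * ((lin (win N Λ) (EN N (t - s) g) y +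
          ((y j).sign : ℝ) * Af (EN N (t - s) g) j) ^ 2 - (lin W (EN N (t - s) g) y) ^ 2)
        = 2 * lin W (EN N (t - s) g) y * (Af (EN N (t - s) g) j *
          (((y j).natAbs : ℝ) * ((y j).sign : ℝ))) +
          (((y j).natAbs : ℝ) * ((y j).sign : ℝ) ^ 2) * (Af (EN N (t - s) g) j) ^ 2 := by ring
      _ = _ := by rw [e1, e2]
  have hδ : ∀ s, 0 ≤ s → s ≤ t → ∀ j ∈ nb W, ∀ y : ℤ → ℤ,
      |((y j).natAbs : ℝ) * (f s (upd j y) - f s y)| ≤ (K + Kd + 8 * K) * sqM (W ∪ nb W) y := by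
    intro s hs hst j hj y
    rw [hrate]
    have h3 := hbf s hs hst y
    have h4 : (Af (EN N (t - s) g) j) ^ 2 ≤ 4 * K := ((hEN2 s hs hst).af).le j
    have h5 : ((y j).natAbs : ℝ) ≤ sqM (W ∪ nb W) y :=
      natAbs_le_sqM (Finset.mem_union_right _ hj) y
    have h6 : ((y j : ℝ)) ^ 2 ≤ sqM (W ∪ nb W) y := by
      unfold sqM
      have := Finset.single_le_sum (f := fun x => (y x : ℝ) ^ 2) (fun i _ => sq_nonneg _)
        (Finset.mem_union_right W hj)
      linarith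
    have h7 := sqM_nonneg (W ∪ nb W) y
    have h8 : |2 * lin W (EN N (t - s) g) y * (Af (EN N (t - s) g) j * (y j : ℝ))| ≤
        (lin W (EN N (t - s) g) y) ^ 2 + (Af (EN N (t - s) g) j) ^ 2 * ((y j : ℝ)) ^ 2 := by
      rw [abs_le]
      constructor <;> nlinarith [sq_nonneg (lin W (EN N (t - s) g) y -
        (Af (EN N (t - s) g) j * (y j : ℝ))), sq_nonneg (lin W (EN N (t - s) g) y +
        (Af (EN N (t - s) g) j * (y j : ℝ)))]
    have h9 : (Af (EN N (t - s) g) j) ^ 2 * ((y j : ℝ)) ^ 2 ≤ 4 * K * sqM (W ∪ nb W) y := by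
      gcongr
    have h10 : ((y j).natAbs : ℝ) * (Af (EN N (t - s) g) j) ^ 2 ≤
        sqM (W ∪ nb W) y * (4 * K) := by gcongr
    have h11 : 0 ≤ ((y j).natAbs : ℝ) * (Af (EN N (t - s) g) j) ^ 2 := by positivity
    refine (abs_add_le _ _).trans ?_
    rw [abs_of_nonneg h11]
    nlinarith [mul_nonneg hKd0 h7]
  have hlocf : ∀ s, LocalOn W (f s) := by
    intro s y y' hy
    simp only [hf, lin_local W _ y y' hy]
  obtain ⟨hd1, hd2⟩ := h.dynkin (Λ := W) (M := W ∪ nb W) (f := f) (f' := f') hlocf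
    (fun s y y' hy => by simp only [hf', lin_local W _ y y' hy]) ht
    (fun y s => by
      have h3 : HasDerivAt (fun r => lin W (EN N (t - r) g) y) (-lin W (ENd N (t - s) g) y) s := by
        unfold lin
        rw [← Finset.sum_neg_distrib]
        refine HasDerivAt.fun_sum (fun k _ => ?_)
        have := (hasDerivAt_EN N g t k s).mul_const (y k : ℝ)
        refine this.congr_deriv (by ring)
      have h4 := h3.pow 2
      simp only [hf']
      refine h4.congr_deriv ?_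
      simp)
    (fun y => by
      simp only [hf']
      unfold lin
      have h3 : Continuous (fun s => ∑ k ∈ W, EN N (t - s) g k * (y k : ℝ)) :=
        continuous_finsetSum _ (fun k _ => (continuous_EN N g t k).mul continuous_const)
      have h4 : Continuous (fun s => ∑ k ∈ W, ENd N (t - s) g k * (y k : ℝ)) :=
        continuous_finsetSum _ (fun k _ => (continuous_ENd N g t k).mul continuous_const)
      exact (continuous_const.mul h3).mul h4.neg)
    (C := K + Kd + 8 * K)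
    (fun s hs hst y => by
      simp only [hf]
      rw [abs_of_nonneg (sq_nonneg _)]
      nlinarith [hbf s hs hst y, sqM_nonneg (W ∪ nb W) y, mul_nonneg hK0 (sqM_nonneg (W ∪ nb W) y),
        mul_nonneg hKd0 (sqM_nonneg (W ∪ nb W) y)])
    (fun s hs hst y => by
      simp only [hf']
      have h3 := hbf s hs hst y
      have h4 := hbd s hs hst y
      have h5 : |2 * lin W (EN N (t - s) g) y * (-lin W (ENd N (t - s) g) y)| ≤
        (lin W (EN N (t - s) g) y) ^ 2 + (lin W (ENd N (t - s) g) y) ^ 2 := by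
        rw [abs_le]
        constructor <;> nlinarith [sq_nonneg (lin W (EN N (t - s) g) y -
          lin W (ENd N (t - s) g) y), sq_nonneg (lin W (EN N (t - s) g) y +
          lin W (ENd N (t - s) g) y)]
      nlinarith [mul_nonneg hK0 (sqM_nonneg (W ∪ nb W) y)])
    hδ
  have hf0 : ∫ ω, f 0 (Y 0 ω) ∂P = ∑ k ∈ W, (EN N t g k) ^ 2 := by
    simp only [hf, sub_zero]
    exact h.integral_initial_sq W _
  have hfT : ∀ ω, f t (Y t ω) = (lin Λ g (Y t ω)) ^ 2 := by
    intro ω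
    simp only [hf, sub_self, EN_zero]
    rw [lin_eq_of_subset hg (subset_win N Λ)]
  simp_rw [hfT] at hd2
  rw [hf0] at hd2
  have hcontS : Continuous (fun s => Real.exp (2 * s) *
      ∑ j ∈ nb W, (Af (EN N (t - s) g) j) ^ 2) := by
    refine (by fun_prop : Continuous fun s : ℝ => Real.exp (2 * s)).mul ?_
    refine continuous_finsetSum _ (fun j _ => ?_)
    unfold Af
    exact ((continuous_EN N g t _).add (continuous_EN N g t _)).pow 2
  have hmain : ∫ s in Set.Ioc 0 t, (∫ ω, (f' s (Y s ω) + ∑ j ∈ nb W, ((Y s ω j).natAbs : ℝ) *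
      (f s (upd j (Y s ω)) - f s (Y s ω))) ∂P) ≤ ∫ s in Set.Ioc 0 t, (Real.exp (2 * s) *
        (∑ j ∈ nb W, (Af (EN N (t - s) g) j) ^ 2) +
        2 * ((Real.exp (2 * t) * c₁) * (2 * ((2 * t) ^ N / N.factorial) * c₁) * B)) := by
    refine setIntegral_mono_on hd1 ?_ measurableSet_Ioc (fun s hs => ?_)
    · refine (Continuous.integrableOn_Icc ?_).mono_set Set.Ioc_subset_Icc_self
      exact hcontS.add continuous_const
    · have hs0 := hs.1.le
      have e1 : ∀ ω, f' s (Y s ω) + ∑ j ∈ nb W, ((Y s ω j).natAbs : ℝ) *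
          (f s (upd j (Y s ω)) - f s (Y s ω)) =
          2 * (lin W (EN N (t - s) g) (Y s ω) * lin (W ∪ nb W) (er N (t - s) g) (Y s ω)) +
          ∑ j ∈ nb W, (Af (EN N (t - s) g) j) ^ 2 * ((Y s ω j).natAbs : ℝ) := by
        intro ω
        have e2 : ∑ j ∈ nb W, ((Y s ω j).natAbs : ℝ) * (f s (upd j (Y s ω)) - f s (Y s ω)) =
            2 * lin W (EN N (t - s) g) (Y s ω) * lin (nb W) (Af (EN N (t - s) g)) (Y s ω) +
            ∑ j ∈ nb W, (Af (EN N (t - s) g) j) ^ 2 * ((Y s ω j).natAbs : ℝ) := by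
          simp_rw [hrate]
          rw [Finset.sum_add_distrib, ← Finset.mul_sum]
          congr 1
          exact Finset.sum_congr rfl (fun j _ => by ring)
        rw [e2, ← lin_drift hg N (t - s) (Y s ω)]
        simp only [hf']
        ring
      simp_rw [e1]
      rw [integral_add ((h.integrable_lin_mul hs0 _ _ _ _).const_mul 2)
        (integrable_finsetSum _ (fun j _ => (h.integrable_natAbs hs0 j).const_mul _)),
        integral_const_mul, integral_finsetSum _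
        (fun j _ => (h.integrable_natAbs hs0 j).const_mul _)]
      simp_rw [integral_const_mul]
      have hu : 0 ≤ t - s := by linarith [hs.2]
      have h3 := h.integral_lin_mul_le hs0 (hB s hs0 hs.2) (Λ := W) (Λ' := W ∪ nb W)
        (h1.EN N hu) (h1.er N hu (by linarith : t - s ≤ t))
      have h4 : Real.exp (2 * (t - s)) * c₁ * (2 * ((2 * t) ^ N / N.factorial) * c₁) * B ≤
          (Real.exp (2 * t) * c₁) * (2 * ((2 * t) ^ N / N.factorial) * c₁) * B := by
        have := h1.nonneg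
        gcongr
        linarith
      have h5 : ∑ j ∈ nb W, (Af (EN N (t - s) g) j) ^ 2 * ∫ ω, ((Y s ω j).natAbs : ℝ) ∂P ≤
          Real.exp (2 * s) * ∑ j ∈ nb W, (Af (EN N (t - s) g) j) ^ 2 := by
        rw [Finset.mul_sum]
        refine Finset.sum_le_sum (fun j _ => ?_)
        rw [mul_comm]
        have := h.q_le_exp hs0 j
        unfold q at this
        gcongr
      linarith [(abs_le.1 h3).2]
  rw [integral_add (((hcontS.integrableOn_Icc).mono_set Set.Ioc_subset_Icc_self))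
    (integrableOn_const (by rw [Real.volume_Ioc]; exact ENNReal.ofReal_ne_top)),
    setIntegral_const] at hmain
  simp only [Measure.real, Real.volume_Ioc, sub_zero, ENNReal.toReal_ofReal ht, smul_eq_mul]
    at hmain
  linarith

end

end Pool.Agent.Lib.MP_5d2315_pr
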