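import Pool.Agent.Lib.MP_5d2315_pr.KerBd
import Pool.Agent.Lib.MP_5d2315_pr.Quad

/-!
# Moment bounds for the urn process
-/

namespace Pool.Agent.Lib.MP_5d2315_pr

open MeasureTheory ProbabilityTheory Filter Topology
open scoped ENNReal NNReal Real

lemma N2_of_supp {W : Finset ℤ} {g : ℤ → ℝ} (hg : SuppIn W g) : N2 g (∑ k ∈ W, (g k) ^ 2) := by
  classical
  intro S
  have h1 : ∑ k ∈ S, (g k) ^ 2 ≤ ∑ k ∈ S ∪ W, (g k) ^ 2 :=
    Finset.sum_le_sum_of_subset_of_nonneg Finset.subset_union_left (fun _ _ _ => sq_nonneg _)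
  refine h1.trans (le_of_eq ?_)
  symm
  apply Finset.sum_subset Finset.subset_union_right
  intro k _ hk
  rw [hg k hk]; ring

lemma N1_of_supp {W : Finset ℤ} {g : ℤ → ℝ} (hg : SuppIn W g) : N1 g (∑ k ∈ W, |g k|) := by
  classical
  intro S
  have h1 : ∑ k ∈ S, |g k| ≤ ∑ k ∈ S ∪ W, |g k| :=
    Finset.sum_le_sum_of_subset_of_nonneg Finset.subset_union_left (fun _ _ _ => abs_nonneg _)
  refine h1.trans (le_of_eq ?_)
  symm
  apply Finset.sum_subset Finset.subset_union_right
  intro k _ hk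
  rw [hg k hk, abs_zero]

lemma tendsto_err (t c₁ B : ℝ) : Tendsto (fun N : ℕ => t * (2 * ((Real.exp (2 * t) * c₁) *
    (2 * ((2 * t) ^ N / N.factorial) * c₁) * B))) atTop (𝓝 0) := by
  have h := (FloorSemiring.tendsto_pow_div_factorial_atTop (2 * t)).const_mul
    (t * (2 * ((Real.exp (2 * t) * c₁) * 2 * c₁ * B)))
  rw [mul_zero] at h
  refine h.congr (fun N => ?_)
  ring

lemma continuous_energy (Λ : Finset ℤ) (N : ℕ) (t : ℝ) (g : ℤ → ℝ) :
    Continuous (fun s => Real.exp (2 * s) *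
      ∑ j ∈ nb (win N Λ), (Af (EN N (t - s) g) j) ^ 2) := by
  refine (by fun_prop : Continuous fun s : ℝ => Real.exp (2 * s)).mul ?_
  refine continuous_finsetSum _ (fun j _ => ?_)
  unfold Af
  exact ((continuous_EN N g t _).add (continuous_EN N g t _)).pow 2

lemma integral_exp_neg_le {a t : ℝ} (ha : 0 < a) (ht : 0 ≤ t) :
    ∫ s in Set.Ioc 0 t, Real.exp (-(a * s)) ≤ 1 / a := by
  rw [← intervalIntegral.integral_of_le ht]
  have h1 : ∀ s ∈ Set.uIcc 0 t, HasDerivAt (fun s => -(Real.exp (-(a * s)) / a))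
      (Real.exp (-(a * s))) s := by
    intro s _
    have h2 : HasDerivAt (fun s => -(a * s)) (-a) s := by
      simpa using ((hasDerivAt_id s).const_mul a).fun_neg
    have h3 := (h2.exp.div_const a).fun_neg
    refine h3.congr_deriv ?_
    field_simp
  rw [intervalIntegral.integral_eq_sub_of_hasDerivAt h1]
  · rw [mul_zero, neg_zero, Real.exp_zero]
    have : 0 ≤ Real.exp (-(a * t)) / a := by positivity
    linarith
  · apply Continuous.intervalIntegrable
    fun_prop

lemma one_add_le_exp_mul {s t : ℝ} (hs : 0 ≤ s) (hst : s ≤ t) :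
    1 + t ≤ Real.exp s * (1 + (t - s)) := by
  have h1 : s + 1 ≤ Real.exp s := Real.add_one_le_exp s
  nlinarith [mul_le_mul_of_nonneg_right h1 (by linarith : 0 ≤ 1 + (t - s)), mul_nonneg hs
    (sub_nonneg.2 hst)]

lemma inv_one_add_le {s t : ℝ} (hs : 0 ≤ s) (hst : s ≤ t) :
    1 / (1 + (t - s)) ≤ Real.exp s / (1 + t) := by
  have h0 : 0 < 1 + t := by linarith
  have h1 : 0 < 1 + (t - s) := by linarith
  rw [div_le_div_iff₀ h1 h0, one_mul]
  exact one_add_le_exp_mul hs hst

lemma inv_sqrt_le {s t : ℝ} (hs : 0 ≤ s) (hst : s ≤ t) :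
    1 / √(1 + (t - s)) ≤ Real.exp (s / 2) / √(1 + t) := by
  have h0 : 0 < 1 + t := by linarith
  have h1 : 0 < 1 + (t - s) := by linarith
  have h2 : 0 < √(1 + t) := Real.sqrt_pos.2 h0
  have h3 : 0 < √(1 + (t - s)) := Real.sqrt_pos.2 h1
  rw [div_le_div_iff₀ h3 h2, one_mul]
  have h4 : Real.exp (s / 2) = √(Real.exp s) := by
    rw [Real.exp_half]
  rw [h4, ← Real.sqrt_mul (Real.exp_pos s).le]
  exact Real.sqrt_le_sqrt (one_add_le_exp_mul hs hst)

variable {Ω : Type*} {mΩ : MeasurableSpace Ω} {P : Measure Ω}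
  {F : Filtration ℝ mΩ} {R : ℤ → ℕ → Ω → Set ℝ} {Y : ℝ → Ω → ℤ → ℤ}

section

variable [IsProbabilityMeasure P] (h : IsUrnProcess P F R Y)
include h

/-- second moments of linear functionals are bounded by the `ℓ²` norm -/
theorem IsUrnProcess.second_moment_le {Λ : Finset ℤ} {g : ℤ → ℝ} (hg : SuppIn Λ g) {c₂ : ℝ}
    (h2 : N2 g c₂) {t : ℝ} (ht : 0 ≤ t) :
    ∫ ω, (lin Λ g (Y t ω)) ^ 2 ∂P ≤ 3 * Real.exp (4 * t) * c₂ := by
  obtain ⟨B, _, hB, _⟩ := h.exists_bound t
  have hc := h2.nonneg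
  have hN : ∀ N : ℕ, ∫ ω, (lin Λ g (Y t ω)) ^ 2 ∂P ≤ 3 * Real.exp (4 * t) * c₂ +
      t * (2 * ((Real.exp (2 * t) * (∑ k ∈ Λ, |g k|)) * (2 * ((2 * t) ^ N / N.factorial) *
        (∑ k ∈ Λ, |g k|)) * B)) := by
    intro N
    have h3 := h.second_moment hg (N1_of_supp hg) h2 ht hB N
    have h4 := (h2.EN N ht) (win N Λ)
    have h5 : ∫ s in Set.Ioc 0 t, (Real.exp (2 * s) *
        ∑ j ∈ nb (win N Λ), (Af (EN N (t - s) g) j) ^ 2) ≤
        ∫ s in Set.Ioc 0 t, (4 * Real.exp (4 * t) * c₂) * Real.exp (-(2 * s)) := by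
      refine setIntegral_mono_on (((continuous_energy Λ N t g).integrableOn_Icc).mono_set
        Set.Ioc_subset_Icc_self) ?_ measurableSet_Ioc (fun s hs => ?_)
      · refine (Continuous.integrableOn_Icc ?_).mono_set Set.Ioc_subset_Icc_self
        fun_prop
      · have h6 := ((h2.EN N (by linarith [hs.2] : 0 ≤ t - s)).af) (nb (win N Λ))
        have h7 : Real.exp (2 * s) * Real.exp (4 * (t - s)) =
            Real.exp (4 * t) * Real.exp (-(2 * s)) := by
          rw [← Real.exp_add, ← Real.exp_add]; congr 1; ring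
        calc Real.exp (2 * s) * ∑ j ∈ nb (win N Λ), (Af (EN N (t - s) g) j) ^ 2 ≤
            Real.exp (2 * s) * (4 * (Real.exp (4 * (t - s)) * c₂)) := by gcongr
          _ = 4 * (Real.exp (2 * s) * Real.exp (4 * (t - s))) * c₂ := by ring
          _ = _ := by rw [h7]; ring
    rw [integral_const_mul] at h5
    have h6 := integral_exp_neg_le (a := 2) (by norm_num) ht
    have h7 : (4 * Real.exp (4 * t) * c₂) * ∫ s in Set.Ioc 0 t, Real.exp (-(2 * s)) ≤
        (4 * Real.exp (4 * t) * c₂) * (1 / 2) := by gcongr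
    linarith
  have hlim := (tendsto_err t (∑ k ∈ Λ, |g k|) B).const_add (3 * Real.exp (4 * t) * c₂)
  rw [add_zero] at hlim
  exact ge_of_tendsto' hlim hN

omit h [IsProbabilityMeasure P] in
lemma lin_gr (x : ℤ) (y : ℤ → ℤ) : lin {x, x + 1} (gr x) y = (y (x + 1) : ℝ) - y x := by
  have hne : x ≠ x + 1 := by omega
  unfold lin gr
  rw [Finset.sum_pair hne]
  simp only [hne, hne.symm, if_true, if_false]
  ring

omit h in
/-- second moments of the gradient -/
theorem exists_gradient_bound : ∃ C : ℝ, 0 < C ∧ ∀ {Ω : Type*} {mΩ : MeasurableSpace Ω}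
    {P : Measure Ω} {F : Filtration ℝ mΩ} {R : ℤ → ℕ → Ω → Set ℝ} {Y : ℝ → Ω → ℤ → ℤ}
    [IsProbabilityMeasure P] (_ : IsUrnProcess P F R Y) {t : ℝ} (_ : 0 ≤ t) (x : ℤ),
    ∫ ω, ((Y t ω (x + 1) : ℝ) - Y t ω x) ^ 2 ∂P ≤
      C * Real.exp (4 * t) / ((1 + t) * √(1 + t)) := by
  obtain ⟨C, hC, hgrad⟩ := exists_grad_bound
  refine ⟨9 * C, by positivity, ?_⟩
  intro Ω mΩ P F R Y _ h t ht x
  obtain ⟨B, _, hB, _⟩ := h.exists_bound t
  set δ : ℕ → ℝ := fun N => 4 * (2 * tl N (2 * t) * Real.exp (2 * t) + (tl N (2 * t)) ^ 2) with hδ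
  have hδ0 : ∀ N, 0 ≤ δ N := by
    intro N
    have := tl_nonneg N (by linarith : 0 ≤ 2 * t)
    simp only [hδ]; positivity
  have hδlim : Tendsto δ atTop (𝓝 0) := by
    have h1 := tendsto_tl (2 * t)
    have h2 := (((h1.const_mul 2).mul_const (Real.exp (2 * t))).add (h1.pow 2)).const_mul 4
    simpa [hδ] using h2
  set D : ℝ := Real.exp (4 * t) / ((1 + t) * √(1 + t)) with hD
  have hD0 : 0 ≤ D := by positivity
  have hN : ∀ N : ℕ, ∫ ω, ((Y t ω (x + 1) : ℝ) - Y t ω x) ^ 2 ∂P ≤ 9 * C * D +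
      (δ N + 4 * t * Real.exp (2 * t) * δ N) +
      t * (2 * ((Real.exp (2 * t) * (∑ k ∈ ({x, x + 1} : Finset ℤ), |gr x k|)) *
        (2 * ((2 * t) ^ N / N.factorial) *
        (∑ k ∈ ({x, x + 1} : Finset ℤ), |gr x k|)) * B)) := by
    intro N
    have h3 := h.second_moment (suppIn_gr x) (N1_of_supp (suppIn_gr x)) (N2_of_supp (suppIn_gr x))
      ht hB N
    simp_rw [lin_gr] at h3
    have h4 : ∑ k ∈ win N {x, x + 1}, (EN N t (gr x) k) ^ 2 ≤ C * D + δ N := by
      have := hgrad N x t t ht le_rfl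
      rw [mul_div_assoc] at this
      exact this
    have h5 : ∫ s in Set.Ioc 0 t, (Real.exp (2 * s) *
        ∑ j ∈ nb (win N {x, x + 1}), (Af (EN N (t - s) (gr x)) j) ^ 2) ≤
        ∫ s in Set.Ioc 0 t, ((4 * C * D) * Real.exp (-(1 / 2 * s)) +
          4 * Real.exp (2 * t) * δ N) := by
      refine setIntegral_mono_on (((continuous_energy _ N t _).integrableOn_Icc).mono_set
        Set.Ioc_subset_Icc_self) ?_ measurableSet_Ioc (fun s hs => ?_)
      · refine (Continuous.integrableOn_Icc ?_).mono_set Set.Ioc_subset_Icc_self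
        fun_prop
      · have hu : 0 ≤ t - s := by linarith [hs.2]
        have h6 := ((N2_of_supp (suppIn_EN (suppIn_gr x) N (t - s))).af) (nb (win N {x, x + 1}))
        have h7 := hgrad N x (t - s) t hu (by linarith [hs.1])
        have h8 : Real.exp (2 * s) * ∑ j ∈ nb (win N {x, x + 1}),
            (Af (EN N (t - s) (gr x)) j) ^ 2 ≤ Real.exp (2 * s) * (4 * (C *
            Real.exp (4 * (t - s)) / ((1 + (t - s)) * √(1 + (t - s))) + δ N)) := by
          gcongr
          exact h6.trans (by linarith)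
        refine h8.trans ?_
        have h9 := inv_one_add_le hs.1.le hs.2
        have h10 := inv_sqrt_le hs.1.le hs.2
        have h11 : 1 / ((1 + (t - s)) * √(1 + (t - s))) ≤
            Real.exp s / (1 + t) * (Real.exp (s / 2) / √(1 + t)) := by
          rw [one_div, mul_inv, ← one_div, ← one_div]
          gcongr
        have h12 : Real.exp (2 * s) * (Real.exp (4 * (t - s)) *
            (Real.exp s * Real.exp (s / 2))) = Real.exp (4 * t) * Real.exp (-(1 / 2 * s)) := by
          rw [← Real.exp_add, ← Real.exp_add, ← Real.exp_add, ← Real.exp_add]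
          congr 1; ring
        have h13 : Real.exp (2 * s) ≤ Real.exp (2 * t) := by
          apply Real.exp_le_exp.2; linarith [hs.2]
        have h14 : Real.exp (2 * s) * (4 * (C *
            Real.exp (4 * (t - s)) / ((1 + (t - s)) * √(1 + (t - s))))) ≤
            (4 * C * D) * Real.exp (-(1 / 2 * s)) := by
          calc Real.exp (2 * s) * (4 * (C *
              Real.exp (4 * (t - s)) / ((1 + (t - s)) * √(1 + (t - s)))))
              = 4 * C * (Real.exp (2 * s) * Real.exp (4 * (t - s))) *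
                (1 / ((1 + (t - s)) * √(1 + (t - s)))) := by ring
            _ ≤ 4 * C * (Real.exp (2 * s) * Real.exp (4 * (t - s))) *
                (Real.exp s / (1 + t) * (Real.exp (s / 2) / √(1 + t))) := by gcongr
            _ = 4 * C * (Real.exp (2 * s) * (Real.exp (4 * (t - s)) *
                (Real.exp s * Real.exp (s / 2)))) / ((1 + t) * √(1 + t)) := by
                have : √(1 + t) ≠ 0 := by positivity
                field_simp
            _ = _ := by rw [h12, hD]; ring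
        have h15 : Real.exp (2 * s) * (4 * δ N) ≤ 4 * Real.exp (2 * t) * δ N := by
          have := mul_le_mul_of_nonneg_right h13 (hδ0 N)
          linarith
        calc Real.exp (2 * s) * (4 * (C *
            Real.exp (4 * (t - s)) / ((1 + (t - s)) * √(1 + (t - s))) + δ N)) =
            Real.exp (2 * s) * (4 * (C *
            Real.exp (4 * (t - s)) / ((1 + (t - s)) * √(1 + (t - s))))) +
            Real.exp (2 * s) * (4 * δ N) := by ring
          _ ≤ _ := add_le_add h14 h15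
    rw [integral_add (((by fun_prop : Continuous fun s : ℝ =>
        (4 * C * D) * Real.exp (-(1 / 2 * s))).integrableOn_Icc).mono_set Set.Ioc_subset_Icc_self)
      (integrableOn_const (by rw [Real.volume_Ioc]; exact ENNReal.ofReal_ne_top)),
      integral_const_mul, setIntegral_const] at h5
    simp only [Measure.real, Real.volume_Ioc, sub_zero, ENNReal.toReal_ofReal ht, smul_eq_mul]
      at h5
    have h6 := integral_exp_neg_le (a := 1 / 2) (by norm_num) ht
    have h7 : (4 * C * D) * ∫ s in Set.Ioc 0 t, Real.exp (-(1 / 2 * s)) ≤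
        (4 * C * D) * (1 / (1 / 2)) := by gcongr
    linarith
  have hlim := ((hδlim.add (hδlim.const_mul (4 * t * Real.exp (2 * t)))).const_add
    (9 * C * D)).add (tendsto_err t (∑ k ∈ ({x, x + 1} : Finset ℤ), |gr x k|) B)
  simp only [mul_zero, add_zero] at hlim
  have h3 := ge_of_tendsto' hlim hN
  rw [hD, ← mul_div_assoc] at h3
  exact h3

end

end Pool.Agent.Lib.MP_5d2315_pr
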