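import Pool.Agent.Lib.MP_5d2315_pr.Left

/-!
# The change of a local function along a path of the urn scheme
-/

namespace Pool.Agent.Lib.MP_5d2315_pr

open MeasureTheory ProbabilityTheory Filter Topology
open scoped ENNReal NNReal

/-- The configuration after a nucleation at `j`. -/
def upd (j : ℤ) (y : ℤ → ℤ) : ℤ → ℤ :=
  fun x => y x + if x = j - 1 ∨ x = j + 1 then (y j).sign else 0

/-- the sites with a neighbour in `Λ` -/
def nb (Λ : Finset ℤ) : Finset ℤ := Λ.image (fun x => x - 1) ∪ Λ.image (fun x => x + 1)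

lemma mem_nb {Λ : Finset ℤ} {j : ℤ} : j ∈ nb Λ ↔ (j + 1 ∈ Λ ∨ j - 1 ∈ Λ) := by
  unfold nb
  simp only [Finset.mem_union, Finset.mem_image]
  constructor
  · rintro (⟨x, hx, rfl⟩ | ⟨x, hx, rfl⟩)
    · left; simpa using hx
    · right; simpa using hx
  · rintro (h | h)
    · left; exact ⟨j + 1, h, by ring⟩
    · right; exact ⟨j - 1, h, by ring⟩

structure PathData (R : ℤ → ℕ → Set ℝ) (y z : ℝ → ℤ → ℤ) : Prop where
  path : IsUrnPath R y
  unique : ∀ c c' : ℤ × ℕ, c ≠ c' → ∀ s, 0 < s → s ∈ R c.1 c.2 → s ∉ R c'.1 c'.2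
  left : ∀ s, 0 < s → ∀ x, LeftValue (fun r => y r x) s (z s x)

namespace PathData

variable {R : ℤ → ℕ → Set ℝ} {y z : ℝ → ℤ → ℤ} (h : PathData R y z)
include h

lemma active {s : ℝ} (hs : 0 < s) {j : ℤ} {i : ℕ} (h1 : s ∈ R j i) (h2 : i < (z s j).natAbs) :
    y s = upd j (z s) := by
  funext x
  exact h.path.nucleation s hs (z s) (h.left s hs) j i h1 h2 x

lemma window_eq {s : ℝ} (hs : 0 < s) {Λ : Finset ℤ}
    (hno : ∀ j ∈ nb Λ, ∀ i, s ∈ R j i → (z s j).natAbs ≤ i) {x : ℤ} (hx : x ∈ Λ) :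
    y s x = z s x := by
  by_cases hex : ∃ j i, s ∈ R j i ∧ i < (z s j).natAbs
  · obtain ⟨j, i, h1, h2⟩ := hex
    rw [h.active hs h1 h2]
    unfold upd
    have hj : j ∉ nb Λ := by
      intro hj
      exact absurd (hno j hj i h1) (not_le.2 h2)
    rw [if_neg, add_zero]
    rintro (rfl | rfl)
    · exact hj (mem_nb.2 (Or.inr hx))
    · exact hj (mem_nb.2 (Or.inl hx))
  · push Not at hex
    exact h.path.quiet s hs (z s) (h.left s hs) hex x

lemma right_z {t : ℝ} (ht : 0 ≤ t) (x : ℤ) : ∀ᶠ s in 𝓝[>] t, y s x = y t x ∧ z s x = y t x := by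
  have h1 := h.path.right t ht x
  rw [eventually_nhdsWithin_iff, Metric.eventually_nhds_iff] at h1
  obtain ⟨ε, hε, h1⟩ := h1
  rw [eventually_nhdsWithin_iff, Metric.eventually_nhds_iff]
  refine ⟨ε, hε, fun s hs hst => ⟨h1 hs hst, ?_⟩⟩
  have hst' : t < s := hst
  have hl := h.left s (lt_of_le_of_lt ht hst') x
  have h2 : ∀ᶠ r in 𝓝[<] s, t < r := nhdsWithin_le_nhds (lt_mem_nhds hst')
  have h3 : ∀ᶠ r in 𝓝[<] s, r < s := self_mem_nhdsWithin
  obtain ⟨r, hr1, hr2, hr3⟩ := (hl.and (h2.and h3)).exists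
  rw [← hr1]
  apply h1 _ hr2
  rw [Real.dist_eq, abs_of_pos (by linarith)]
  rw [Real.dist_eq, abs_of_pos (by linarith)] at hs
  linarith

lemma left_z {t : ℝ} (ht : 0 < t) (x : ℤ) : ∀ᶠ s in 𝓝[<] t, y s x = z t x ∧ z s x = z t x := by
  have h1 := h.left t ht x
  unfold LeftValue at h1
  rw [eventually_nhdsWithin_iff, Metric.eventually_nhds_iff] at h1
  obtain ⟨ε, hε, h1⟩ := h1
  rw [eventually_nhdsWithin_iff, Metric.eventually_nhds_iff]
  refine ⟨min ε t, lt_min hε ht, fun s hs hst => ?_⟩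
  have hst' : s < t := hst
  rw [Real.dist_eq, abs_of_neg (by linarith)] at hs
  have hs1 := lt_of_lt_of_le hs (min_le_left _ _)
  have hs2 := lt_of_lt_of_le hs (min_le_right _ _)
  have hs0 : 0 < s := by linarith
  refine ⟨?_, ?_⟩
  · apply h1 _ hst
    rw [Real.dist_eq, abs_of_neg (by linarith)]; exact hs1
  · have hl := h.left s hs0 x
    have h2 : ∀ᶠ r in 𝓝[<] s, t - ε < r := nhdsWithin_le_nhds (lt_mem_nhds (by linarith))
    have h3 : ∀ᶠ r in 𝓝[<] s, r < s := self_mem_nhdsWithin
    obtain ⟨r, hr1, hr2, hr3⟩ := (hl.and (h2.and h3)).exists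
    rw [← hr1]
    apply h1
    · rw [Real.dist_eq, abs_of_neg (by linarith)]; linarith
    · exact lt_trans hr3 hst

lemma quiet_of_const {s : ℝ} (hs : 0 < s) {j : ℤ} (hc : y s (j + 1) = z s (j + 1)) (i : ℕ)
    (h1 : s ∈ R j i) : (z s j).natAbs ≤ i := by
  by_contra hcon
  push Not at hcon
  have h2 := h.active hs h1 hcon
  rw [h2] at hc
  unfold upd at hc
  simp only [or_true, if_true, add_eq_left] at hc
  rw [Int.sign_eq_zero_iff_zero] at hc
  rw [hc] at hcon
  simp at hcon

lemma right_quiet {t : ℝ} (ht : 0 ≤ t) (j : ℤ) :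
    ∀ᶠ s in 𝓝[>] t, ∀ i, s ∈ R j i → (z s j).natAbs ≤ i := by
  filter_upwards [h.right_z ht (j + 1), self_mem_nhdsWithin] with s hs hs2 i hi
  exact h.quiet_of_const (lt_of_le_of_lt ht hs2) (hs.1.trans hs.2.symm) i hi

lemma left_quiet {t : ℝ} (ht : 0 < t) (j : ℤ) :
    ∀ᶠ s in 𝓝[<] t, ∀ i, s ∈ R j i → (z s j).natAbs ≤ i := by
  have h2 : ∀ᶠ r in 𝓝[<] t, 0 < r := nhdsWithin_le_nhds (lt_mem_nhds ht)
  filter_upwards [h.left_z ht (j + 1), h2] with s hs hs2 i hi
  exact h.quiet_of_const hs2 (hs.1.trans hs.2.symm) i hi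

/-- The set of active rings in `(0, T]` of the sites in `J`. -/
def actSet (R : ℤ → ℕ → Set ℝ) (z : ℝ → ℤ → ℤ) (J : Finset ℤ) (T : ℝ) : Set (ℤ × ℕ × ℝ) :=
  {a | a.1 ∈ J ∧ 0 < a.2.2 ∧ a.2.2 ≤ T ∧ a.2.2 ∈ R a.1 a.2.1 ∧ a.2.1 < (z a.2.2 a.1).natAbs}

lemma finite_actSet (J : Finset ℤ) (T : ℝ) : (actSet R z J T).Finite := by
  -- times
  have hD : (Set.Icc 0 T ∩ {s | 0 < s ∧ ∃ j ∈ J, ∃ i, s ∈ R j i ∧ i < (z s j).natAbs}).Finite := by
    refine isCompact_Icc.induction_on (p := fun S : Set ℝ =>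
      (S ∩ {s | 0 < s ∧ ∃ j ∈ J, ∃ i, s ∈ R j i ∧ i < (z s j).natAbs}).Finite) ?_ ?_ ?_ ?_
    · simp
    · intro S S' hSS hS'
      exact hS'.subset (Set.inter_subset_inter_left _ hSS)
    · intro S S' hS hS'
      rw [Set.union_inter_distrib_right]
      exact hS.union hS'
    · intro t ht
      have h1 : ∀ᶠ s in 𝓝[>] t, ∀ j ∈ J, ∀ i, s ∈ R j i → (z s j).natAbs ≤ i := by
        rw [Finset.eventually_all]
        intro j _
        exact h.right_quiet ht.1 j
      have h2 : ∀ᶠ s in 𝓝[<] t, 0 < s → ∀ j ∈ J, ∀ i, s ∈ R j i → (z s j).natAbs ≤ i := by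
        rcases eq_or_lt_of_le ht.1 with h0 | h0
        · rw [← h0]
          filter_upwards [self_mem_nhdsWithin] with s hs hs2
          exact absurd hs2 (not_lt.2 (le_of_lt hs))
        · have : ∀ᶠ s in 𝓝[<] t, ∀ j ∈ J, ∀ i, s ∈ R j i → (z s j).natAbs ≤ i := by
            rw [Finset.eventually_all]
            intro j _
            exact h.left_quiet h0 j
          filter_upwards [this] with s hs _ using hs
      have h3 : ∀ᶠ s in 𝓝[≠] t, 0 < s → ∀ j ∈ J, ∀ i, s ∈ R j i → (z s j).natAbs ≤ i := by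
        rw [← Set.Iio_union_Ioi, nhdsWithin_union, eventually_sup]
        exact ⟨h2, h1.mono (fun s hs _ => hs)⟩
      rw [eventually_nhdsWithin_iff] at h3
      refine ⟨{s | s ∈ ({t} : Set ℝ)ᶜ → 0 < s → ∀ j ∈ J, ∀ i, s ∈ R j i → (z s j).natAbs ≤ i},
        mem_nhdsWithin_of_mem_nhds h3, ?_⟩
      refine (Set.finite_singleton t).subset ?_
      rintro s ⟨hs1, hs2, j, hj, i, hi1, hi2⟩
      by_contra hne
      exact absurd (hs1 hne hs2 j hj i hi1) (not_le.2 hi2)
  refine Set.Finite.of_finite_image (f := fun a : ℤ × ℕ × ℝ => a.2.2) ?_ ?_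
  · refine hD.subset ?_
    rintro _ ⟨a, ⟨ha1, ha2, ha3, ha4, ha5⟩, rfl⟩
    exact ⟨⟨ha2.le, ha3⟩, ha2, a.1, ha1, a.2.1, ha4, ha5⟩
  · rintro ⟨j, i, s⟩ ⟨_, ha2, _, ha4, _⟩ ⟨j', i', s'⟩ ⟨_, _, _, hb4, _⟩ hs
    simp only at hs ha2 ha4 hb4
    subst hs
    by_contra hne
    have hc : (j, i) ≠ (j', i') := by
      intro heq
      apply hne
      simp only [Prod.mk.injEq] at heq ⊢
      exact ⟨heq.1, heq.2, trivial⟩
    exact h.unique (j, i) (j', i') hc s ha2 ha4 hb4

/-- The formula for the change of a local function along the path. -/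
theorem change {Λ : Finset ℤ} {f f' : ℝ → (ℤ → ℤ) → ℝ} (hloc : ∀ s, LocalOn Λ (f s))
    (hloc' : ∀ s, LocalOn Λ (f' s)) {T : ℝ} (hT : 0 ≤ T)
    (hder : ∀ y, ∀ s, HasDerivAt (fun r => f r y) (f' s y) s)
    (hcont : ∀ y, Continuous (fun s => f' s y))
    (hmeas : Measurable (fun s => f' s (z s))) :
    IntegrableOn (fun s => f' s (z s)) (Set.Icc 0 T) ∧
    f T (y T) - f 0 (y 0) = (∫ s in (0 : ℝ)..T, f' s (z s)) +
      ∑ a ∈ (h.finite_actSet (nb Λ) T).toFinset,
        (f a.2.2 (upd a.1 (z a.2.2)) - f a.2.2 (z a.2.2)) := by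
  classical
  set A := (h.finite_actSet (nb Λ) T).toFinset with hA
  have hAmem : ∀ a, a ∈ A ↔ a ∈ actSet R z (nb Λ) T := by
    intro a; rw [hA, Set.Finite.mem_toFinset]
  -- window values near a point
  have hright : ∀ t, 0 ≤ t → ∀ᶠ s in 𝓝[>] t, (∀ x ∈ Λ, y s x = y t x) ∧
      (∀ x ∈ Λ, z s x = y t x) := by
    intro t ht
    have : ∀ᶠ s in 𝓝[>] t, ∀ x ∈ Λ, y s x = y t x ∧ z s x = y t x := by
      rw [Finset.eventually_all]
      intro x _
      exact h.right_z ht x
    filter_upwards [this] with s hs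
    exact ⟨fun x hx => (hs x hx).1, fun x hx => (hs x hx).2⟩
  have hleft : ∀ t, 0 < t → ∀ᶠ s in 𝓝[<] t, (∀ x ∈ Λ, y s x = z t x) ∧
      (∀ x ∈ Λ, z s x = z t x) := by
    intro t ht
    have : ∀ᶠ s in 𝓝[<] t, ∀ x ∈ Λ, y s x = z t x ∧ z s x = z t x := by
      rw [Finset.eventually_all]
      intro x _
      exact h.left_z ht x
    filter_upwards [this] with s hs
    exact ⟨fun x hx => (hs x hx).1, fun x hx => (hs x hx).2⟩
  -- integrability
  have hint : IntegrableOn (fun s => f' s (z s)) (Set.Icc 0 T) := by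
    apply LocallyIntegrableOn.integrableOn_isCompact _ isCompact_Icc
    intro t ht
    have hb1 : ∀ᶠ s in 𝓝[>] t, ‖f' s (z s)‖ ≤ ‖f' t (y t)‖ + 1 := by
      have hc : ∀ᶠ s in 𝓝[>] t, ‖f' s (y t)‖ < ‖f' t (y t)‖ + 1 :=
        nhdsWithin_le_nhds ((((hcont (y t)).norm).continuousAt (x := t)).eventually
          (gt_mem_nhds (by linarith)))
      filter_upwards [hc, hright t ht.1] with s hs1 hs2
      rw [hloc' s (z s) (y t) hs2.2]
      exact hs1.le
    have hb2 : ∀ᶠ s in 𝓝[<] t, 0 ≤ s → ‖f' s (z s)‖ ≤ ‖f' t (z t)‖ + 1 := by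
      rcases eq_or_lt_of_le ht.1 with h0 | h0
      · filter_upwards [self_mem_nhdsWithin] with s hs hs2
        exact absurd hs (not_lt.2 (show t ≤ s by rw [← h0]; exact hs2))
      · have hc : ∀ᶠ s in 𝓝[<] t, ‖f' s (z t)‖ < ‖f' t (z t)‖ + 1 :=
          nhdsWithin_le_nhds ((((hcont (z t)).norm).continuousAt (x := t)).eventually
            (gt_mem_nhds (by linarith)))
        filter_upwards [hc, hleft t h0] with s hs1 hs2 _
        rw [hloc' s (z s) (z t) hs2.2]
        exact hs1.le
    obtain ⟨M, hM⟩ : ∃ M : ℝ, ∀ᶠ s in 𝓝 t, 0 ≤ s → ‖f' s (z s)‖ ≤ M := by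
      refine ⟨max (max (‖f' t (y t)‖ + 1) (‖f' t (z t)‖ + 1)) (‖f' t (z t)‖), ?_⟩
      have h3 : ∀ᶠ s in 𝓝[≠] t, 0 ≤ s → ‖f' s (z s)‖ ≤
          max (max (‖f' t (y t)‖ + 1) (‖f' t (z t)‖ + 1)) (‖f' t (z t)‖) := by
        rw [← Set.Iio_union_Ioi, nhdsWithin_union, eventually_sup]
        refine ⟨hb2.mono (fun s hs h0 => (hs h0).trans ?_), hb1.mono (fun s hs _ => hs.trans ?_)⟩
        · exact (le_max_right _ _).trans (le_max_left _ _)
        · exact (le_max_left _ _).trans (le_max_left _ _)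
      rw [eventually_nhdsWithin_iff] at h3
      filter_upwards [h3] with s hs h0
      by_cases hst : s = t
      · rw [hst]; exact le_max_right _ _
      · exact hs hst h0
    rw [Metric.eventually_nhds_iff] at hM
    obtain ⟨ε, hε, hM⟩ := hM
    refine ⟨Metric.ball t ε ∩ Set.Icc 0 T, ?_, ?_⟩
    · rw [Set.inter_comm]
      exact inter_mem_nhdsWithin _ (Metric.ball_mem_nhds t hε)
    · refine Measure.integrableOn_of_bounded (M := M) ?_ hmeas.aestronglyMeasurable ?_
      · exact ((measure_mono Set.inter_subset_right).trans_lt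
          (by rw [Real.volume_Icc]; exact ENNReal.ofReal_lt_top)).ne
      · have hm : MeasurableSet (Metric.ball t ε ∩ Set.Icc 0 T) :=
          measurableSet_ball.inter measurableSet_Icc
        rw [ae_restrict_iff' hm]
        exact ae_of_all _ (fun s hs => hM hs.1 hs.2.1)
  refine ⟨hint, ?_⟩
  have hintT : ∀ t ∈ Set.Icc 0 T, IntervalIntegrable (fun s => f' s (z s)) volume 0 t := by
    intro t ht
    rw [intervalIntegrable_iff_integrableOn_Icc_of_le ht.1]
    exact hint.mono_set (Set.Icc_subset_Icc_right ht.2)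
  -- the compensated function
  set S : ℝ → ℝ := fun r => ∑ a ∈ A, if a.2.2 ≤ r then
    (f a.2.2 (upd a.1 (z a.2.2)) - f a.2.2 (z a.2.2)) else 0 with hS
  set Φ : ℝ → ℝ := fun r => f r (y r) - (∫ s in (0 : ℝ)..r, f' s (z s)) - S r with hΦ
  have hSright : ∀ t, ∀ᶠ r in 𝓝[≥] t, S r = S t := by
    intro t
    have h1 : ∀ᶠ r in 𝓝[≥] t, ∀ a ∈ A, (a.2.2 ≤ r ↔ a.2.2 ≤ t) := by
      rw [Finset.eventually_all]
      intro a _
      by_cases hat : a.2.2 ≤ t
      · filter_upwards [self_mem_nhdsWithin] with r hr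
        exact ⟨fun _ => hat, fun _ => hat.trans hr⟩
      · push Not at hat
        filter_upwards [nhdsWithin_le_nhds (gt_mem_nhds hat)] with r hr
        exact ⟨fun hc => absurd hc (not_le.2 hr), fun hc => absurd hc (not_le.2 hat)⟩
    filter_upwards [h1] with r hr
    refine Finset.sum_congr rfl (fun a ha => ?_)
    simp only [hr a ha]
  have hSleft : ∀ t, ∀ᶠ r in 𝓝[<] t, S r = ∑ a ∈ A, if a.2.2 < t then
      (f a.2.2 (upd a.1 (z a.2.2)) - f a.2.2 (z a.2.2)) else 0 := by
    intro t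
    have h1 : ∀ᶠ r in 𝓝[<] t, ∀ a ∈ A, (a.2.2 ≤ r ↔ a.2.2 < t) := by
      rw [Finset.eventually_all]
      intro a _
      by_cases hat : a.2.2 < t
      · filter_upwards [nhdsWithin_le_nhds (lt_mem_nhds hat)] with r hr
        exact ⟨fun _ => hat, fun _ => le_of_lt hr⟩
      · filter_upwards [self_mem_nhdsWithin] with r hr
        push Not at hat
        exact ⟨fun hc => absurd (hat.trans hc) (not_le.2 hr), fun hc => absurd hc (not_lt.2 hat)⟩
    filter_upwards [h1] with r hr
    refine Finset.sum_congr rfl (fun a ha => ?_)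
    simp only [hr a ha]
  -- right derivative
  have hderivΦ : ∀ t ∈ Set.Ico 0 T, HasDerivWithinAt Φ 0 (Set.Ici t) t := by
    intro t ht
    have h1 : HasDerivWithinAt (fun r => f r (y r)) (f' t (y t)) (Set.Ici t) t := by
      apply ((hder (y t) t).hasDerivWithinAt).congr_of_eventuallyEq
      · have : ∀ᶠ s in 𝓝[≥] t, (∀ x ∈ Λ, y s x = y t x) := by
          rw [← Set.Ioi_union_left, nhdsWithin_union, eventually_sup, nhdsWithin_singleton]
          exact ⟨(hright t ht.1).mono (fun s hs => hs.1), fun x _ => rfl⟩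
        filter_upwards [this] with s hs
        exact hloc s _ _ hs
      · rfl
    have h2 : HasDerivWithinAt (fun r => ∫ s in (0 : ℝ)..r, f' s (z s)) (f' t (y t))
        (Set.Ici t) t := by
      apply intervalIntegral.integral_hasDerivWithinAt_of_tendsto_ae_right
        (hintT t ⟨ht.1, ht.2.le⟩) (t := Set.Ioi t)
      · exact hmeas.stronglyMeasurable.stronglyMeasurableAtFilter
      · have h3 : Tendsto (fun s => f' s (z s)) (𝓝[>] t) (𝓝 (f' t (y t))) := by
          have h4 : Tendsto (fun s => f' s (y t)) (𝓝[>] t) (𝓝 (f' t (y t))) :=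
            ((hcont (y t)).tendsto t).mono_left nhdsWithin_le_nhds
          refine h4.congr' ?_
          filter_upwards [hright t ht.1] with s hs
          exact (hloc' s _ _ hs.2).symm
        exact h3.mono_left inf_le_left
    have h3 : HasDerivWithinAt S 0 (Set.Ici t) t := by
      apply (hasDerivWithinAt_const t (Set.Ici t) (S t)).congr_of_eventuallyEq (hSright t) rfl
    have h4 := (h1.sub h2).sub h3
    simp only [sub_self] at h4
    exact h4
  -- continuity
  have hcontΦ : ContinuousOn Φ (Set.Icc 0 T) := by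
    intro t ht
    have hIcont : ContinuousOn (fun r => ∫ s in (0 : ℝ)..r, f' s (z s)) (Set.Icc 0 T) :=
      intervalIntegral.continuousOn_primitive_interval (by
        rw [Set.uIcc_of_le hT]; exact hint) |>.mono (by rw [Set.uIcc_of_le hT])
    have hsplit : Set.Icc 0 T = Set.Icc 0 t ∪ Set.Icc t T :=
      (Set.Icc_union_Icc_eq_Icc ht.1 ht.2).symm
    rw [hsplit]
    apply ContinuousWithinAt.union
    · rcases eq_or_lt_of_le ht.1 with h0 | h0
      · rw [← h0, Set.Icc_self]; exact continuousWithinAt_singleton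
      · have hlim : ContinuousWithinAt Φ (Set.Iio t) t := by
          have h1 : Tendsto (fun r => f r (y r)) (𝓝[<] t) (𝓝 (f t (z t))) := by
            have h4 : Tendsto (fun s => f s (z t)) (𝓝[<] t) (𝓝 (f t (z t))) :=
              ((hder (z t) t).continuousAt.tendsto).mono_left nhdsWithin_le_nhds
            refine h4.congr' ?_
            filter_upwards [hleft t h0] with s hs
            exact (hloc s _ _ hs.1).symm
          have h2 : Tendsto (fun r => ∫ s in (0 : ℝ)..r, f' s (z s)) (𝓝[<] t)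
              (𝓝 (∫ s in (0 : ℝ)..t, f' s (z s))) := by
            refine (hIcont t ht).mono_left ?_
            apply nhdsWithin_le_of_mem
            have ha : ∀ᶠ r in 𝓝[<] t, 0 < r := nhdsWithin_le_nhds (lt_mem_nhds h0)
            filter_upwards [ha, self_mem_nhdsWithin] with r hr1 hr2
            exact ⟨hr1.le, (le_of_lt hr2).trans ht.2⟩
          have h3 : Tendsto S (𝓝[<] t) (𝓝 (∑ a ∈ A, if a.2.2 < t then
              (f a.2.2 (upd a.1 (z a.2.2)) - f a.2.2 (z a.2.2)) else 0)) := by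
            refine tendsto_const_nhds.congr' ?_
            filter_upwards [hSleft t] with r hr
            exact hr.symm
          have h4 := (h1.sub h2).sub h3
          have h5 : f t (z t) - (∫ s in (0 : ℝ)..t, f' s (z s)) - (∑ a ∈ A, if a.2.2 < t then
              (f a.2.2 (upd a.1 (z a.2.2)) - f a.2.2 (z a.2.2)) else 0) = Φ t := by
            have h6 : S t - (∑ a ∈ A, if a.2.2 < t then
              (f a.2.2 (upd a.1 (z a.2.2)) - f a.2.2 (z a.2.2)) else 0) =
              f t (y t) - f t (z t) := by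
              rw [hS, ← Finset.sum_sub_distrib]
              have h7 : ∀ a ∈ A, ((if a.2.2 ≤ t then
                  (f a.2.2 (upd a.1 (z a.2.2)) - f a.2.2 (z a.2.2)) else 0) -
                  (if a.2.2 < t then
                  (f a.2.2 (upd a.1 (z a.2.2)) - f a.2.2 (z a.2.2)) else 0)) =
                  if a.2.2 = t then
                  (f a.2.2 (upd a.1 (z a.2.2)) - f a.2.2 (z a.2.2)) else 0 := by
                intro a _
                rcases lt_trichotomy a.2.2 t with hlt | heq | hgt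
                · rw [if_pos hlt.le, if_pos hlt, if_neg hlt.ne]; ring
                · rw [if_pos heq.le, if_neg (by rw [heq]; exact lt_irrefl t), if_pos heq]; ring
                · rw [if_neg (not_le.2 hgt), if_neg (not_lt.2 hgt.le), if_neg hgt.ne']; ring
              rw [Finset.sum_congr rfl h7]
              by_cases hex : ∃ j ∈ nb Λ, ∃ i, t ∈ R j i ∧ i < (z t j).natAbs
              · obtain ⟨j, hj, i, hi1, hi2⟩ := hex
                have hmem : ((j, i, t) : ℤ × ℕ × ℝ) ∈ A := by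
                  rw [hAmem]
                  exact ⟨hj, h0, ht.2, hi1, hi2⟩
                rw [Finset.sum_eq_single_of_mem _ hmem]
                · simp only [if_true]
                  rw [h.active h0 hi1 hi2]
                · intro a ha hne
                  rw [if_neg]
                  intro hat
                  rw [hAmem] at ha
                  obtain ⟨ha1, ha2, ha3, ha4, ha5⟩ := ha
                  have hc : (j, i) ≠ (a.1, a.2.1) := by
                    intro heq
                    apply hne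
                    simp only [Prod.mk.injEq] at heq
                    rw [heq.1, heq.2, ← hat]
                  apply h.unique (j, i) (a.1, a.2.1) hc t h0 hi1
                  rw [← hat]; exact ha4
              · push Not at hex
                rw [Finset.sum_eq_zero]
                · rw [hloc t (y t) (z t) (fun x hx => h.window_eq h0 hex hx), sub_self]
                · intro a ha
                  rw [if_neg]
                  intro hat
                  rw [hAmem] at ha
                  obtain ⟨ha1, ha2, ha3, ha4, ha5⟩ := ha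
                  rw [hat] at ha4 ha5
                  exact absurd (hex a.1 ha1 a.2.1 ha4) (not_le.2 ha5)
            rw [hΦ]
            simp only
            linarith
          rw [h5] at h4
          exact h4
        exact (continuousWithinAt_Iio_iff_Iic.1 hlim).mono Set.Icc_subset_Iic_self
    · rcases eq_or_lt_of_le ht.2 with h0 | h0
      · rw [h0, Set.Icc_self]; exact continuousWithinAt_singleton
      · exact (hderivΦ t ⟨ht.1, h0⟩).continuousWithinAt.mono Set.Icc_subset_Ici_self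
  have hfin := constant_of_has_deriv_right_zero hcontΦ hderivΦ T ⟨hT, le_refl T⟩
  have hS0 : S 0 = 0 := by
    rw [hS]
    apply Finset.sum_eq_zero
    intro a ha
    rw [hAmem] at ha
    rw [if_neg (not_le.2 ha.2.1)]
  have hST : S T = ∑ a ∈ A, (f a.2.2 (upd a.1 (z a.2.2)) - f a.2.2 (z a.2.2)) := by
    rw [hS]
    refine Finset.sum_congr rfl (fun a ha => ?_)
    rw [hAmem] at ha
    rw [if_pos ha.2.2.1]
  rw [hΦ] at hfin
  simp only [intervalIntegral.integral_same, hS0, sub_zero] at hfin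
  rw [hST] at hfin
  linarith

end PathData

end Pool.Agent.Lib.MP_5d2315_pr
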