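import Pool.Agent.Lib.MP_5d2315_pr.Comp

/-!
# Predictable processes and the compensation formula
-/

namespace Pool.Agent.Lib.MP_5d2315_pr

open MeasureTheory ProbabilityTheory Filter Topology
open scoped ENNReal NNReal

variable {Ω : Type*} {mΩ : MeasurableSpace Ω} {P : Measure Ω}
  {F : Filtration ℝ mΩ} {R : ℤ → ℕ → Ω → Set ℝ}

/-- Generators of the predictable sets. -/
def predGen (F : Filtration ℝ mΩ) : Set (Set (Ω × ℝ)) :=
  {B | ∃ A : Set Ω, ∃ a b : ℝ, MeasurableSet[F a] A ∧ B = A ×ˢ Set.Ioc a b}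

/-- The predictable sigma-algebra. -/
@[reducible]
def pred (F : Filtration ℝ mΩ) : MeasurableSpace (Ω × ℝ) :=
  MeasurableSpace.generateFrom (predGen F)

lemma isPiSystem_predGen (F : Filtration ℝ mΩ) : IsPiSystem (predGen F) := by
  rintro _ ⟨A, a, b, hA, rfl⟩ _ ⟨A', a', b', hA', rfl⟩ _
  refine ⟨A ∩ A', max a a', min b b', ?_, ?_⟩
  · exact (F.mono (le_max_left a a') _ hA).inter (F.mono (le_max_right a a') _ hA')
  · rw [Set.prod_inter_prod, Set.Ioc_inter_Ioc]

lemma pred_le (F : Filtration ℝ mΩ) : pred F ≤ (inferInstance : MeasurableSpace (Ω × ℝ)) := by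
  apply MeasurableSpace.generateFrom_le
  rintro _ ⟨A, a, b, hA, rfl⟩
  exact (F.le a _ hA).prod measurableSet_Ioc

/-- Counting measure on the rings up to time `T`. -/
noncomputable def ringMeasure (A : Set ℝ) (T : ℝ) : Measure ℝ :=
  (Measure.count : Measure ℝ).restrict (A ∩ Set.Ioc 0 T)

lemma ringMeasure_Ioc {A : Set ℝ} {T : ℝ} (hA : (A ∩ Set.Ioc 0 T).Finite) (a b : ℝ) :
    ringMeasure A T (Set.Ioc a b) = (ringCount A (max a 0) (min b T) : ℝ≥0∞) := by
  unfold ringMeasure ringCount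
  rw [Measure.restrict_apply measurableSet_Ioc]
  have e : Set.Ioc a b ∩ (A ∩ Set.Ioc 0 T) = A ∩ Set.Ioc (max a 0) (min b T) := by
    rw [← Set.Ioc_inter_Ioc, Set.inter_left_comm]
  rw [e]
  have hfin : (A ∩ Set.Ioc (max a 0) (min b T)).Finite := by
    refine hA.subset ?_
    exact Set.inter_subset_inter_right _
      (Set.Ioc_subset_Ioc (le_max_right _ _) (min_le_right _ _))
  rw [Measure.count_apply_finite _ hfin, Set.ncard_eq_toFinset_card _ hfin]

lemma ringMeasure_univ {A : Set ℝ} {T : ℝ} (hA : (A ∩ Set.Ioc 0 T).Finite) :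
    ringMeasure A T Set.univ = (ringCount A 0 T : ℝ≥0∞) := by
  have h := ringMeasure_Ioc hA 0 T
  rw [max_self, min_self] at h
  rw [← h]
  unfold ringMeasure
  rw [Measure.restrict_apply MeasurableSet.univ, Measure.restrict_apply measurableSet_Ioc]
  congr 1
  ext x
  simp only [Set.mem_inter_iff, Set.mem_univ, true_and, Set.mem_Ioc]
  tauto

variable (hR : IsPoissonClocks P F R)
include hR

lemma IsPoissonClocks.pred_sets [IsProbabilityMeasure P] (k : ℤ) (i : ℕ) {T : ℝ} (hT : 0 ≤ T)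
    {B : Set (Ω × ℝ)} (hB : MeasurableSet[pred F] B) :
    Measurable (fun ω => ringMeasure (R k i ω) T (Prod.mk ω ⁻¹' B)) ∧
    ∫⁻ ω, ringMeasure (R k i ω) T (Prod.mk ω ⁻¹' B) ∂P =
      ∫⁻ ω, (volume.restrict (Set.Ioc 0 T)) (Prod.mk ω ⁻¹' B) ∂P := by
  classical
  have hsec : ∀ B : Set (Ω × ℝ), MeasurableSet[pred F] B → ∀ ω : Ω,
      MeasurableSet (Prod.mk ω ⁻¹' B : Set ℝ) := by
    intro B hB ω
    exact measurable_prodMk_left (pred_le F _ hB)
  have hmeasvol : ∀ B : Set (Ω × ℝ), MeasurableSet[pred F] B →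
      Measurable (fun ω => (volume.restrict (Set.Ioc 0 T)) (Prod.mk ω ⁻¹' B)) := by
    intro B hB
    exact measurable_measure_prodMk_left (pred_le F _ hB)
  have huniv_meas : Measurable (fun ω => ringMeasure (R k i ω) T Set.univ) := by
    have : (fun ω => ringMeasure (R k i ω) T Set.univ) =
        fun ω => ((ringCount (R k i ω) 0 T : ℕ) : ℝ≥0∞) := by
      funext ω; exact ringMeasure_univ (hR.finite k i ω T)
    rw [this]
    exact Measurable.comp (g := fun n : ℕ => (n : ℝ≥0∞)) measurable_from_top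
      (hR.measurable_count k i le_rfl hT)
  have huniv_int : ∫⁻ ω, ringMeasure (R k i ω) T Set.univ ∂P = ENNReal.ofReal T := by
    have : (fun ω => ringMeasure (R k i ω) T Set.univ) =
        fun ω => ((ringCount (R k i ω) 0 T : ℕ) : ℝ≥0∞) := by
      funext ω; exact ringMeasure_univ (hR.finite k i ω T)
    rw [this, hR.lintegral_count k i le_rfl hT, sub_zero]
  have hvol_univ : ∫⁻ _ω : Ω, (volume.restrict (Set.Ioc 0 T)) (Set.univ : Set ℝ) ∂P =
      ENNReal.ofReal T := by
    rw [Measure.restrict_apply_univ, Real.volume_Ioc, sub_zero, lintegral_const, measure_univ,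
      mul_one]
  have hfin : ∀ ω, ringMeasure (R k i ω) T Set.univ ≠ ⊤ := by
    intro ω
    rw [ringMeasure_univ (hR.finite k i ω T)]
    exact ENNReal.natCast_ne_top _
  refine MeasurableSpace.induction_on_inter (C := fun B _ =>
    Measurable (fun ω => ringMeasure (R k i ω) T (Prod.mk ω ⁻¹' B)) ∧
    ∫⁻ ω, ringMeasure (R k i ω) T (Prod.mk ω ⁻¹' B) ∂P =
      ∫⁻ ω, (volume.restrict (Set.Ioc 0 T)) (Prod.mk ω ⁻¹' B) ∂P) rfl
    (isPiSystem_predGen F) ?_ ?_ ?_ ?_ B hB
  · simp
  · rintro _ ⟨A, a, b, hA, rfl⟩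
    have hAm := F.le a _ hA
    have hs : ∀ ω, (Prod.mk ω ⁻¹' (A ×ˢ Set.Ioc a b) : Set ℝ) =
        if ω ∈ A then Set.Ioc a b else ∅ := by
      intro ω
      rw [Set.mk_preimage_prod_right_eq_if]
    have h1 : (fun ω => ringMeasure (R k i ω) T (Prod.mk ω ⁻¹' (A ×ˢ Set.Ioc a b))) =
        fun ω => A.indicator (fun _ => (1 : ℝ≥0∞)) ω *
          ((ringCount (R k i ω) (max a 0) (min b T) : ℕ) : ℝ≥0∞) := by
      funext ω
      rw [hs ω]
      by_cases hω : ω ∈ A
      · rw [if_pos hω, Set.indicator_of_mem hω, one_mul]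
        exact ringMeasure_Ioc (hR.finite k i ω T) a b
      · rw [if_neg hω, Set.indicator_of_notMem hω, zero_mul, measure_empty]
    have h2 : (fun ω => (volume.restrict (Set.Ioc 0 T)) (Prod.mk ω ⁻¹' (A ×ˢ Set.Ioc a b))) =
        fun ω => A.indicator (fun _ => (1 : ℝ≥0∞)) ω *
          ENNReal.ofReal (min b T - max a 0) := by
      funext ω
      rw [hs ω]
      by_cases hω : ω ∈ A
      · rw [if_pos hω, Set.indicator_of_mem hω, one_mul,
          Measure.restrict_apply measurableSet_Ioc, Set.Ioc_inter_Ioc, Real.volume_Ioc]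
      · rw [if_neg hω, Set.indicator_of_notMem hω, zero_mul, measure_empty]
    rw [h1, h2]
    rcases le_or_gt (max a 0) (min b T) with hab | hab
    · constructor
      · apply Measurable.mul
        · exact measurable_const.indicator hAm
        · exact Measurable.comp (g := fun n : ℕ => (n : ℝ≥0∞)) measurable_from_top
            (hR.measurable_count k i (le_max_right _ _) hab)
      · rw [hR.lintegral_count_indicator k i (le_max_right _ _) hab
          (F.mono (le_max_left a 0) _ hA),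
          lintegral_mul_const _ (measurable_const.indicator hAm),
          lintegral_indicator_const hAm, one_mul]
    · have h3 : ∀ ω, ringCount (R k i ω) (max a 0) (min b T) = 0 := by
        intro ω
        unfold ringCount
        rw [Set.Ioc_eq_empty (not_lt.2 hab.le)]
        simp
      have h4 : ENNReal.ofReal (min b T - max a 0) = 0 :=
        ENNReal.ofReal_eq_zero.2 (by linarith)
      simp only [h3, h4, Nat.cast_zero, mul_zero, lintegral_const, zero_mul, and_true]
      exact measurable_const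
  · intro B hB ⟨ih1, ih2⟩
    have hc : ∀ ω, ringMeasure (R k i ω) T (Prod.mk ω ⁻¹' Bᶜ) =
        ringMeasure (R k i ω) T Set.univ - ringMeasure (R k i ω) T (Prod.mk ω ⁻¹' B) := by
      intro ω
      rw [Set.preimage_compl]
      exact measure_compl (hsec B hB ω)
        (ne_top_of_le_ne_top (hfin ω) (measure_mono (Set.subset_univ _)))
    have hle : ∀ ω, ringMeasure (R k i ω) T (Prod.mk ω ⁻¹' B) ≤
        ringMeasure (R k i ω) T Set.univ := fun ω => measure_mono (Set.subset_univ _)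
    have hcv : ∀ ω, (volume.restrict (Set.Ioc 0 T)) (Prod.mk ω ⁻¹' Bᶜ) =
        (volume.restrict (Set.Ioc 0 T)) Set.univ -
          (volume.restrict (Set.Ioc 0 T)) (Prod.mk ω ⁻¹' B) := by
      intro ω
      rw [Set.preimage_compl]
      exact measure_compl (hsec B hB ω) (measure_ne_top _ _)
    refine ⟨?_, ?_⟩
    · simp_rw [hc]
      exact huniv_meas.sub ih1
    · simp_rw [hc, hcv]
      have hne : ∫⁻ ω, ringMeasure (R k i ω) T (Prod.mk ω ⁻¹' B) ∂P ≠ ⊤ := by
        refine ne_top_of_le_ne_top ?_ (lintegral_mono hle)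
        rw [huniv_int]; exact ENNReal.ofReal_ne_top
      rw [lintegral_sub ih1 hne (ae_of_all _ hle), lintegral_sub (hmeasvol B hB)
        (by rw [← ih2]; exact hne) (ae_of_all _ (fun ω => measure_mono (Set.subset_univ _))),
        huniv_int, hvol_univ, ih2]
  · intro f hdisj hf ih
    have hc : ∀ ω, ringMeasure (R k i ω) T (Prod.mk ω ⁻¹' (⋃ n, f n)) =
        ∑' n, ringMeasure (R k i ω) T (Prod.mk ω ⁻¹' (f n)) := by
      intro ω
      rw [Set.preimage_iUnion]
      apply measure_iUnion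
      · intro a b hab
        exact (hdisj hab).preimage _
      · intro n; exact hsec _ (hf n) ω
    have hcv : ∀ ω, (volume.restrict (Set.Ioc 0 T)) (Prod.mk ω ⁻¹' (⋃ n, f n)) =
        ∑' n, (volume.restrict (Set.Ioc 0 T)) (Prod.mk ω ⁻¹' (f n)) := by
      intro ω
      rw [Set.preimage_iUnion]
      apply measure_iUnion
      · intro a b hab
        exact (hdisj hab).preimage _
      · intro n; exact hsec _ (hf n) ω
    refine ⟨?_, ?_⟩
    · simp_rw [hc]
      exact Measurable.tsum (fun n => (ih n).1)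
    · simp_rw [hc, hcv]
      rw [lintegral_tsum (fun n => (ih n).1.aemeasurable),
        lintegral_tsum (fun n => (hmeasvol _ (hf n)).aemeasurable)]
      exact tsum_congr (fun n => (ih n).2)

/-- The compensation formula. -/
lemma IsPoissonClocks.compensation [IsProbabilityMeasure P] (k : ℤ) (i : ℕ) {T : ℝ} (hT : 0 ≤ T)
    {H : Ω × ℝ → ℝ≥0∞} (hH : Measurable[pred F] H) :
    Measurable (fun ω => ∫⁻ s, H (ω, s) ∂(ringMeasure (R k i ω) T)) ∧
    ∫⁻ ω, (∫⁻ s, H (ω, s) ∂(ringMeasure (R k i ω) T)) ∂P =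
      ∫⁻ ω, (∫⁻ s in Set.Ioc 0 T, H (ω, s)) ∂P := by
  have hmk : ∀ (H : Ω × ℝ → ℝ≥0∞), Measurable[pred F] H → ∀ ω,
      Measurable (fun s => H (ω, s)) := by
    intro H hH ω
    exact (hH.mono (pred_le F) le_rfl).comp measurable_prodMk_left
  have hvol : ∀ (H : Ω × ℝ → ℝ≥0∞), Measurable[pred F] H →
      Measurable (fun ω => ∫⁻ s in Set.Ioc 0 T, H (ω, s)) := by
    intro H hH
    exact Measurable.lintegral_prod_right' (hH.mono (pred_le F) le_rfl)
  refine @Measurable.ennreal_induction (Ω × ℝ) (pred F) (fun H =>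
    Measurable (fun ω => ∫⁻ s, H (ω, s) ∂(ringMeasure (R k i ω) T)) ∧
    ∫⁻ ω, (∫⁻ s, H (ω, s) ∂(ringMeasure (R k i ω) T)) ∂P =
      ∫⁻ ω, (∫⁻ s in Set.Ioc 0 T, H (ω, s)) ∂P) ?_ ?_ ?_ H hH
  · intro c B hB
    have h := hR.pred_sets k i hT hB
    have hsec : ∀ ω : Ω, MeasurableSet (Prod.mk ω ⁻¹' B : Set ℝ) := by
      intro ω
      exact measurable_prodMk_left (pred_le F _ hB)
    have e1 : ∀ (ω : Ω) (s : ℝ), B.indicator (fun _ => c) (ω, s) =
        (Prod.mk ω ⁻¹' B).indicator (fun _ => c) s := by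
      intro ω s; rfl
    have e2 : ∀ ω, ∫⁻ s, B.indicator (fun _ => c) (ω, s) ∂(ringMeasure (R k i ω) T) =
        c * ringMeasure (R k i ω) T (Prod.mk ω ⁻¹' B) := by
      intro ω
      simp_rw [e1]
      rw [lintegral_indicator_const (hsec ω)]
    have e3 : ∀ ω, ∫⁻ s in Set.Ioc 0 T, B.indicator (fun _ => c) (ω, s) =
        c * (volume.restrict (Set.Ioc 0 T)) (Prod.mk ω ⁻¹' B) := by
      intro ω
      simp_rw [e1]
      rw [lintegral_indicator_const (hsec ω)]
    simp_rw [e2, e3]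
    refine ⟨h.1.const_mul c, ?_⟩
    rw [lintegral_const_mul _ h.1, lintegral_const_mul _
      (measurable_measure_prodMk_left (pred_le F _ hB)), h.2]
  · intro f g _ hf hg ⟨ihf1, ihf2⟩ ⟨ihg1, ihg2⟩
    have e2 : ∀ ω, ∫⁻ s, (f + g) (ω, s) ∂(ringMeasure (R k i ω) T) =
        ∫⁻ s, f (ω, s) ∂(ringMeasure (R k i ω) T) +
          ∫⁻ s, g (ω, s) ∂(ringMeasure (R k i ω) T) := by
      intro ω
      simp only [Pi.add_apply]
      exact lintegral_add_left (hmk f hf ω) _
    have e3 : ∀ ω, ∫⁻ s in Set.Ioc 0 T, (f + g) (ω, s) =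
        (∫⁻ s in Set.Ioc 0 T, f (ω, s)) + ∫⁻ s in Set.Ioc 0 T, g (ω, s) := by
      intro ω
      simp only [Pi.add_apply]
      exact lintegral_add_left (hmk f hf ω) _
    simp_rw [e2, e3]
    refine ⟨ihf1.add ihg1, ?_⟩
    rw [lintegral_add_left ihf1, lintegral_add_left (hvol f hf), ihf2, ihg2]
  · intro f hf hmono ih
    have e2 : ∀ ω, ∫⁻ s, (⨆ n, f n (ω, s)) ∂(ringMeasure (R k i ω) T) =
        ⨆ n, ∫⁻ s, f n (ω, s) ∂(ringMeasure (R k i ω) T) := by
      intro ω
      exact lintegral_iSup (fun n => hmk _ (hf n) ω) (fun a b hab s => hmono hab (ω, s))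
    have e3 : ∀ ω, ∫⁻ s in Set.Ioc 0 T, (⨆ n, f n (ω, s)) =
        ⨆ n, ∫⁻ s in Set.Ioc 0 T, f n (ω, s) := by
      intro ω
      exact lintegral_iSup (fun n => hmk _ (hf n) ω) (fun a b hab s => hmono hab (ω, s))
    simp_rw [e2, e3]
    refine ⟨Measurable.iSup (fun n => (ih n).1), ?_⟩
    rw [lintegral_iSup (fun n => (ih n).1) (fun a b hab ω =>
        lintegral_mono (fun s => hmono hab (ω, s))),
      lintegral_iSup (fun n => hvol _ (hf n)) (fun a b hab ω =>
        lintegral_mono (fun s => hmono hab (ω, s)))]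
    congr 1
    funext n
    exact (ih n).2

end Pool.Agent.Lib.MP_5d2315_pr
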