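import Pool.Agent.Lib.MP_5d2315_pr.Mom

/-!
# The semigroup of a finite set of clocks
-/

namespace Pool.Agent.Lib.MP_5d2315_pr

open MeasureTheory ProbabilityTheory Filter Topology
open scoped ENNReal NNReal Real

/-- one ring of each clock `(j, i)`, `j ∈ J`, `i < n` -/
noncomputable def TT (J : Finset ℤ) (n : ℕ) (g : (ℤ → ℤ) → ℝ) : (ℤ → ℤ) → ℝ :=
  fun y => ∑ j ∈ J, ∑ i ∈ Finset.range n, g (if i < (y j).natAbs then upd j y else y)

lemma sum_slots (n a : ℕ) (d : ℝ) :
    ∑ i ∈ Finset.range n, (if i < a then d else 0) = (min n a : ℕ) * d := by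
  rw [← Finset.sum_filter, Finset.sum_const, nsmul_eq_mul]
  congr 2
  have : (Finset.range n).filter (fun i => i < a) = Finset.range (min n a) := by
    ext i; simp
  rw [this, Finset.card_range]

lemma TT_eq (J : Finset ℤ) (n : ℕ) (g : (ℤ → ℤ) → ℝ) (y : ℤ → ℤ) :
    TT J n g y - (J.card * n : ℕ) * g y =
      ∑ j ∈ J, (min n (y j).natAbs : ℕ) * (g (upd j y) - g y) := by
  have h1 : ((J.card * n : ℕ) : ℝ) * g y = ∑ j ∈ J, ∑ i ∈ Finset.range n, g y := by
    simp; ring
  rw [h1]
  unfold TT
  rw [← Finset.sum_sub_distrib]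
  refine Finset.sum_congr rfl (fun j _ => ?_)
  rw [← Finset.sum_sub_distrib, ← sum_slots]
  refine Finset.sum_congr rfl (fun i _ => ?_)
  split_ifs <;> ring

lemma TT_local {J Λ : Finset ℤ} (hJ : J ⊆ Λ) (n : ℕ) {g : (ℤ → ℤ) → ℝ} (hg : LocalOn Λ g) :
    LocalOn Λ (TT J n g) := by
  intro y y' hy
  unfold TT
  refine Finset.sum_congr rfl (fun j hj => Finset.sum_congr rfl (fun i _ => ?_))
  have hj' := hy j (hJ hj)
  apply hg
  intro x hx
  rw [hj']
  split_ifs
  · unfold upd; rw [hy x hx, hj']
  · exact hy x hx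

lemma TT_iter_local {J Λ : Finset ℤ} (hJ : J ⊆ Λ) (n : ℕ) {g : (ℤ → ℤ) → ℝ} (hg : LocalOn Λ g)
    (r : ℕ) : LocalOn Λ ((TT J n)^[r] g) := by
  induction r with
  | zero => exact hg
  | succ r ih => rw [Function.iterate_succ_apply']; exact TT_local hJ n ih

lemma TT_bound {J : Finset ℤ} {n : ℕ} {g : (ℤ → ℤ) → ℝ} {M : ℝ} (hg : ∀ y, |g y| ≤ M)
    (y : ℤ → ℤ) : |TT J n g y| ≤ (J.card * n : ℕ) * M := by
  have h1 : ((J.card * n : ℕ) : ℝ) * M = ∑ j ∈ J, ∑ i ∈ Finset.range n, M := by
    simp; ring
  rw [h1]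
  unfold TT
  refine (Finset.abs_sum_le_sum_abs _ _).trans (Finset.sum_le_sum (fun j _ => ?_))
  exact (Finset.abs_sum_le_sum_abs _ _).trans (Finset.sum_le_sum (fun i _ => hg _))

lemma TT_iter_bound {J : Finset ℤ} {n : ℕ} {g : (ℤ → ℤ) → ℝ} {M : ℝ} (hg : ∀ y, |g y| ≤ M)
    (r : ℕ) (y : ℤ → ℤ) : |((TT J n)^[r] g) y| ≤ ((J.card * n : ℕ) : ℝ) ^ r * M := by
  induction r generalizing y with
  | zero => simpa using hg y
  | succ r ih =>
    rw [Function.iterate_succ_apply']
    refine (TT_bound ih y).trans (le_of_eq ?_)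
    rw [pow_succ]; ring

/-! ### Oscillations -/

lemma addAt_neg_one (k : ℤ) (y : ℤ → ℤ) : addAt k 1 (addAt k (-1) y) = y := by
  funext x; unfold addAt; split_ifs <;> ring

lemma OscLe.neg_one {f : (ℤ → ℤ) → ℝ} {c : ℤ → ℝ} (h : OscLe f c) (k : ℤ) (y : ℤ → ℤ) :
    |f (addAt k (-1) y) - f y| ≤ c k := by
  have h1 := h k (addAt k (-1) y)
  rw [addAt_neg_one] at h1
  rwa [abs_sub_comm]

lemma upd_eq_addAt (j : ℤ) (y : ℤ → ℤ) :
    upd j y = addAt (j - 1) (y j).sign (addAt (j + 1) (y j).sign y) := by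
  funext x
  unfold upd addAt
  by_cases h1 : x = j - 1
  · have h2 : ¬ x = j + 1 := by omega
    rw [if_pos (Or.inl h1), if_pos h1, if_neg h2]; ring
  · by_cases h2 : x = j + 1
    · rw [if_pos (Or.inr h2), if_neg h1, if_pos h2]; ring
    · rw [if_neg (by tauto), if_neg h1, if_neg h2]; ring

lemma OscLe.addAt_sign {f : (ℤ → ℤ) → ℝ} {c : ℤ → ℝ} (h : OscLe f c) (k a : ℤ)
    (ha : a = 1 ∨ a = 0 ∨ a = -1) (y : ℤ → ℤ) : |f (addAt k a y) - f y| ≤ c k := by
  rcases ha with rfl | rfl | rfl
  · exact h k y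
  · have : addAt k 0 y = y := by funext x; unfold addAt; split_ifs <;> ring
    rw [this, sub_self, abs_zero]; exact h.nonneg k
  · exact h.neg_one k y

lemma sign_cases (a : ℤ) : a.sign = 1 ∨ a.sign = 0 ∨ a.sign = -1 := by
  rcases lt_trichotomy a 0 with h | h | h
  · right; right; exact Int.sign_eq_neg_one_of_neg h
  · right; left; rw [h]; rfl
  · left; exact Int.sign_eq_one_of_pos h

lemma OscLe.upd_le {f : (ℤ → ℤ) → ℝ} {c : ℤ → ℝ} (h : OscLe f c) (j : ℤ) (y : ℤ → ℤ) :
    |f (upd j y) - f y| ≤ Af c j := by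
  rw [upd_eq_addAt]
  have h1 := h.addAt_sign (j - 1) _ (sign_cases (y j)) (addAt (j + 1) (y j).sign y)
  have h2 := h.addAt_sign (j + 1) _ (sign_cases (y j)) y
  unfold Af
  refine (abs_sub_le _ _ _).trans (add_le_add h1 h2)

/-- one step of the oscillation bound -/
def bstep (c : ℝ) (b : ℤ → ℝ) : ℤ → ℝ := fun k => c * b k + Af b k

lemma TT_osc {J : Finset ℤ} {n : ℕ} {g : (ℤ → ℤ) → ℝ} {b : ℤ → ℝ} (hg : OscLe g b) :
    OscLe (TT J n g) (bstep ((J.card * n : ℕ) : ℝ) b) := by
  intro k y
  have hAf : 0 ≤ Af b k := add_nonneg (hg.nonneg _) (hg.nonneg _)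
  unfold TT
  rw [← Finset.sum_sub_distrib]
  refine (Finset.abs_sum_le_sum_abs _ _).trans ?_
  -- the slot bound
  have hslot : ∀ j ∈ J, |∑ i ∈ Finset.range n, g (if i < (addAt k 1 y j).natAbs then
      upd j (addAt k 1 y) else addAt k 1 y) -
      ∑ i ∈ Finset.range n, g (if i < (y j).natAbs then upd j y else y)| ≤
      n * b k + (if j = k then Af b k else 0) := by
    intro j _
    rw [← Finset.sum_sub_distrib]
    refine (Finset.abs_sum_le_sum_abs _ _).trans ?_
    by_cases hjk : j = k
    · subst hjk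
      rw [if_pos rfl]
      set i₀ : ℕ := if 0 ≤ y j then (y j).natAbs else (y j).natAbs - 1 with hi0
      have hy1 : addAt j 1 y j = y j + 1 := by unfold addAt; simp
      have hcomm : (y j + 1).sign = (y j).sign → upd j (addAt j 1 y) = addAt j 1 (upd j y) := by
        intro hs
        funext x
        unfold upd addAt
        simp only [if_true, hs]
        ring
      have hi : ∀ i ∈ Finset.range n, |g (if i < (addAt j 1 y j).natAbs then
          upd j (addAt j 1 y) else addAt j 1 y) - g (if i < (y j).natAbs then upd j y else y)| ≤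
          b j + (if i = i₀ then Af b j else 0) := by
        intro i _
        rw [hy1]
        by_cases h0 : 0 ≤ y j
        · rw [if_pos h0] at hi0
          rcases lt_trichotomy i (y j).natAbs with h1 | h1 | h1
          · rw [if_pos h1, if_pos (by omega), if_neg (by omega), add_zero]
            have hs : (y j + 1).sign = (y j).sign := by
              rw [Int.sign_eq_one_of_pos (by omega), Int.sign_eq_one_of_pos (by omega)]
            rw [hcomm hs]
            exact hg j _
          · rw [if_neg (show ¬ i < (y j).natAbs by omega), if_pos (by omega), if_pos (by omega)]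
            have h2 := hg.upd_le j (addAt j 1 y)
            have h3 := hg j y
            have := abs_sub_le (g (upd j (addAt j 1 y))) (g (addAt j 1 y)) (g y)
            linarith
          · rw [if_neg (show ¬ i < (y j).natAbs by omega), if_neg (by omega), if_neg (by omega),
              add_zero]
            exact hg j y
        · rw [if_neg h0] at hi0
          push Not at h0
          rcases lt_trichotomy i ((y j).natAbs - 1) with h1 | h1 | h1
          · rw [if_pos (show i < (y j).natAbs by omega), if_pos (by omega), if_neg (by omega),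
              add_zero]
            have hs : (y j + 1).sign = (y j).sign := by
              rw [Int.sign_eq_neg_one_of_neg (by omega), Int.sign_eq_neg_one_of_neg (by omega)]
            rw [hcomm hs]
            exact hg j _
          · rw [if_pos (show i < (y j).natAbs by omega), if_neg (by omega), if_pos (by omega)]
            have h2 := hg.upd_le j y
            have h3 := hg j y
            have := abs_sub_le (g (addAt j 1 y)) (g y) (g (upd j y))
            rw [abs_sub_comm (g y)] at this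
            linarith
          · rw [if_neg (show ¬ i < (y j).natAbs by omega), if_neg (by omega), if_neg (by omega),
              add_zero]
            exact hg j y
      refine (Finset.sum_le_sum hi).trans ?_
      rw [Finset.sum_add_distrib, Finset.sum_const, Finset.card_range, nsmul_eq_mul,
        Finset.sum_ite_eq']
      have : (if i₀ ∈ Finset.range n then Af b j else 0) ≤ Af b j := by
        split_ifs
        · exact le_rfl
        · exact hAf
      linarith
    · rw [if_neg hjk, add_zero]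
      have hy1 : addAt k 1 y j = y j := by unfold addAt; rw [if_neg hjk, add_zero]
      have hcomm : upd j (addAt k 1 y) = addAt k 1 (upd j y) := by
        funext x
        unfold upd
        rw [hy1]
        unfold addAt
        ring
      have hi : ∀ i ∈ Finset.range n, |g (if i < (addAt k 1 y j).natAbs then
          upd j (addAt k 1 y) else addAt k 1 y) - g (if i < (y j).natAbs then upd j y else y)| ≤
          b k := by
        intro i _
        rw [hy1, hcomm]
        split_ifs
        · exact hg k _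
        · exact hg k _
      refine (Finset.sum_le_sum hi).trans ?_
      rw [Finset.sum_const, Finset.card_range, nsmul_eq_mul]
  refine (Finset.sum_le_sum hslot).trans ?_
  rw [Finset.sum_add_distrib, Finset.sum_const, nsmul_eq_mul, Finset.sum_ite_eq']
  unfold bstep
  have : (if k ∈ J then Af b k else 0) ≤ Af b k := by
    split_ifs
    · exact le_rfl
    · exact hAf
  push_cast
  linarith

lemma TT_iter_osc {J : Finset ℤ} {n : ℕ} {g : (ℤ → ℤ) → ℝ} {b : ℤ → ℝ} (hg : OscLe g b) (r : ℕ) :
    OscLe ((TT J n)^[r] g) ((bstep ((J.card * n : ℕ) : ℝ))^[r] b) := by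
  induction r with
  | zero => exact hg
  | succ r ih =>
    rw [Function.iterate_succ_apply', Function.iterate_succ_apply']
    exact TT_osc ih

/-- the neighbour operator as a linear map -/
def AL : Module.End ℝ (ℤ → ℝ) where
  toFun := Af
  map_add' f g := by funext k; unfold Af; simp only [Pi.add_apply]; ring
  map_smul' a g := by funext k; unfold Af; simp only [Pi.smul_apply, smul_eq_mul, RingHom.id_apply]; ring

lemma AL_pow (n : ℕ) (g : ℤ → ℝ) : (AL ^ n) g = Af^[n] g := by
  rw [Module.End.pow_apply]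
  rfl

lemma bstep_iter (c : ℝ) (b : ℤ → ℝ) (r : ℕ) (k : ℤ) :
    ((bstep c)^[r] b) k = ∑ m ∈ Finset.range (r + 1), c ^ (r - m) * (Af^[m] b) k *
      (r.choose m : ℝ) := by
  have h1 : ((bstep c)^[r] b) = ((AL + algebraMap ℝ (Module.End ℝ (ℤ → ℝ)) c) ^ r) b := by
    rw [Module.End.pow_apply]
    congr 1
    funext g k
    unfold bstep
    simp only [LinearMap.add_apply, Pi.add_apply, Module.algebraMap_end_apply, Pi.smul_apply,
      smul_eq_mul]
    rw [add_comm]
    rfl
  have h2 := (Algebra.commute_algebraMap_right c AL).add_pow r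
  rw [h1, h2]
  simp only [LinearMap.sum_apply, Finset.sum_apply]
  refine Finset.sum_congr rfl (fun m _ => ?_)
  rw [← map_pow]
  rw [show (AL ^ m * (algebraMap ℝ (Module.End ℝ (ℤ → ℝ))) (c ^ (r - m)) *
    ((r.choose m : ℕ) : Module.End ℝ (ℤ → ℝ))) b =
    (AL ^ m) ((algebraMap ℝ (Module.End ℝ (ℤ → ℝ)) (c ^ (r - m)))
      (((r.choose m : ℕ) : Module.End ℝ (ℤ → ℝ)) b)) from rfl]
  have h3 : (((r.choose m : ℕ) : Module.End ℝ (ℤ → ℝ)) b) = (r.choose m : ℝ) • b := by
    rw [Module.End.natCast_apply, ← Nat.cast_smul_eq_nsmul ℝ]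
  rw [h3, Module.algebraMap_end_apply, map_smul, map_smul, AL_pow]
  simp only [Pi.smul_apply, smul_eq_mul]
  ring

lemma iter_nonneg {b : ℤ → ℝ} (hb : ∀ k, 0 ≤ b k) (n : ℕ) (k : ℤ) : 0 ≤ (Af^[n] b) k := by
  induction n generalizing k with
  | zero => exact hb k
  | succ n ih =>
    rw [Function.iterate_succ_apply']
    exact add_nonneg (ih _) (ih _)

lemma EN_nonneg {b : ℤ → ℝ} (hb : ∀ k, 0 ≤ b k) (N : ℕ) {u : ℝ} (hu : 0 ≤ u) (k : ℤ) :
    0 ≤ EN N u b k :=
  Finset.sum_nonneg (fun n _ => mul_nonneg (by positivity) (iter_nonneg hb n k))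

lemma sum_bstep_le {b : ℤ → ℝ} (hb : ∀ k, 0 ≤ b k) {c u : ℝ} (hc : 0 ≤ c) (hu : 0 ≤ u) (N : ℕ)
    (k : ℤ) : ∑ r ∈ Finset.range (N + 1), u ^ r / r.factorial * ((bstep c)^[r] b) k ≤
      Real.exp (c * u) * EN N u b k := by
  have h1 : ∀ r ∈ Finset.range (N + 1), u ^ r / r.factorial * ((bstep c)^[r] b) k =
      ∑ m ∈ Finset.range (r + 1), (u ^ m / m.factorial * (Af^[m] b) k) *
        ((c * u) ^ (r - m) / (r - m).factorial) := by
    intro r _
    rw [bstep_iter, Finset.mul_sum]
    refine Finset.sum_congr rfl (fun m hm => ?_)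
    have hm' : m ≤ r := Nat.lt_succ_iff.1 (Finset.mem_range.1 hm)
    rw [Nat.cast_choose ℝ hm', mul_pow]
    have h2 : u ^ r = u ^ m * u ^ (r - m) := by rw [← pow_add]; congr 1; omega
    rw [h2]
    have h3 : (r.factorial : ℝ) ≠ 0 := by positivity
    field_simp
  rw [Finset.sum_congr rfl h1]
  rw [Finset.sum_range_diag_flip (N + 1) (fun m p => (u ^ m / m.factorial * (Af^[m] b) k) *
        ((c * u) ^ p / p.factorial))]
  have h4 : ∀ m ∈ Finset.range (N + 1), ∑ p ∈ Finset.range (N + 1 - m),
      (u ^ m / m.factorial * (Af^[m] b) k) * ((c * u) ^ p / p.factorial) ≤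
      (u ^ m / m.factorial * (Af^[m] b) k) * Real.exp (c * u) := by
    intro m _
    rw [← Finset.mul_sum]
    have h5 := iter_nonneg hb m k
    have h6 : ∑ p ∈ Finset.range (N + 1 - m), (c * u) ^ p / p.factorial ≤ Real.exp (c * u) :=
      Real.sum_le_exp_of_nonneg (by positivity) _
    gcongr
  refine (Finset.sum_le_sum h4).trans (le_of_eq ?_)
  rw [← Finset.sum_mul, mul_comm]
  rfl

end Pool.Agent.Lib.MP_5d2315_pr
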