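import Pool.Agent.Lib.MP_5d2315_pr.Cos

/-!
# Small ball probabilities
-/

namespace Pool.Agent.Lib.MP_5d2315_pr

open MeasureTheory ProbabilityTheory Filter Topology
open scoped ENNReal NNReal Real

/-- the fourth root of `1 + t` -/
noncomputable def tau (t : ℝ) : ℝ := √(√(1 + t))

lemma tau_sq (t : ℝ) : (tau t) ^ 2 = √(1 + t) := by
  unfold tau
  exact Real.sq_sqrt (Real.sqrt_nonneg _)

lemma one_le_tau {t : ℝ} (ht : 0 ≤ t) : 1 ≤ tau t := by
  unfold tau
  rw [Real.one_le_sqrt, Real.one_le_sqrt]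
  linarith

lemma iter_smul (a : ℝ) (g : ℤ → ℝ) (n : ℕ) (k : ℤ) :
    (Af^[n] (fun k => a * g k)) k = a * (Af^[n] g) k := by
  have h1 : (fun k => a * g k) = a • g := rfl
  rw [← AL_pow, ← AL_pow, h1, map_smul]
  rfl

lemma EN_smul (N : ℕ) (u a : ℝ) (g : ℤ → ℝ) (k : ℤ) :
    EN N u (fun k => a * g k) k = a * EN N u g k := by
  unfold EN
  rw [Finset.mul_sum]
  refine Finset.sum_congr rfl (fun n _ => ?_)
  rw [iter_smul]
  ring

lemma N1.smul {g : ℤ → ℝ} {c a : ℝ} (h : N1 g c) (ha : 0 ≤ a) :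
    N1 (fun k => a * g k) (a * c) := by
  intro S
  simp_rw [abs_mul, abs_of_nonneg ha]
  rw [← Finset.mul_sum]
  exact mul_le_mul_of_nonneg_left (h S) ha

lemma sum_pow_le {S : Finset ℤ} {a : ℤ → ℝ} {m c : ℝ} (hm : ∀ j, |a j| ≤ m) (h1 : N1 a c)
    (p : ℕ) : ∑ j ∈ S, |a j| ^ (p + 1) ≤ m ^ p * c := by
  have hm0 : 0 ≤ m := (abs_nonneg _).trans (hm 0)
  have h2 : ∀ j ∈ S, |a j| ^ (p + 1) ≤ m ^ p * |a j| := by
    intro j _
    rw [pow_succ]
    have := hm j
    gcongr
  refine (Finset.sum_le_sum h2).trans ?_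
  rw [← Finset.mul_sum]
  exact mul_le_mul_of_nonneg_left (h1 S) (by positivity)

lemma prod_cos_le {W : Finset ℤ} {a : ℤ → ℝ} (ha : ∀ j, |a j| ≤ 1) :
    |∏ k ∈ W, Real.cos (a k)| ≤ Real.exp (-(2 / π ^ 2 * ∑ k ∈ W, (a k) ^ 2)) := by
  rw [Finset.abs_prod, Finset.mul_sum, ← Finset.sum_neg_distrib, Real.exp_sum]
  refine Finset.prod_le_prod (fun k _ => abs_nonneg _) (fun k _ => ?_)
  have h1 : |a k| ≤ π := (ha k).trans (by linarith [Real.pi_gt_three])
  have h2 := Real.cos_le_one_sub_mul_cos_sq h1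
  have h3 : 0 ≤ Real.cos (a k) := by
    apply Real.cos_nonneg_of_neg_pi_div_two_le_of_le
    · have := abs_le.1 (ha k)
      linarith [this.1, Real.pi_gt_three]
    · have := abs_le.1 (ha k)
      linarith [this.2, Real.pi_gt_three]
  rw [abs_of_nonneg h3]
  have h4 := Real.add_one_le_exp (-(2 / π ^ 2 * (a k) ^ 2))
  linarith

/-- Bound for the characteristic function. -/
theorem exists_cos_bound : ∃ c₀ C₁ C₂ : ℝ, 0 < c₀ ∧ 0 < C₁ ∧ 0 < C₂ ∧
    ∀ {Ω : Type*} {mΩ : MeasurableSpace Ω}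
    {P : Measure Ω} {F : Filtration ℝ mΩ} {R : ℤ → ℕ → Ω → Set ℝ} {Y : ℝ → Ω → ℤ → ℤ}
    [IsProbabilityMeasure P] (_ : IsUrnProcess P F R Y) {t θ : ℝ} (_ : 0 ≤ t) (_ : 0 ≤ θ) (x : ℤ),
    C₁ * θ ≤ tau t → |∫ ω, Real.cos (θ * (tau t * Real.exp (-(2 * t)) * (Y t ω x : ℝ))) ∂P| ≤
      Real.exp (-(c₀ * θ ^ 2)) + C₂ * (θ ^ 2 + θ ^ 3) / tau t := by
  obtain ⟨C, hC, hsup⟩ := exists_sup_bound
  obtain ⟨c, hc, hlow⟩ := exists_energy_lower
  refine ⟨c / π ^ 2, C + 1, 8 * (C + 1) ^ 2, by positivity, by positivity, by positivity, ?_⟩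
  intro Ω mΩ P F R Y _ h t θ ht hθ x hτθ
  set τ := tau t with hτ
  have hτ1 : 1 ≤ τ := one_le_tau ht
  have hτ0 : 0 < τ := by linarith
  have hτsq : τ ^ 2 = √(1 + t) := tau_sq t
  set κ : ℝ := θ * (τ * Real.exp (-(2 * t))) with hκ
  have hκ0 : 0 ≤ κ := by positivity
  set g : ℤ → ℝ := fun k => κ * dl x k with hg
  have hgs : SuppIn {x} g := fun k hk => by simp only [hg, suppIn_dl x k hk, mul_zero]
  have hN1 : N1 g κ := by
    have := (N1_dl x).smul hκ0
    rwa [mul_one] at this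
  have hlin : ∀ y : ℤ → ℤ, lin {x} g y = θ * (τ * Real.exp (-(2 * t)) * (y x : ℝ)) := by
    intro y
    unfold lin
    simp only [hg, dl, Finset.sum_singleton, if_true, mul_one, hκ]
    ring
  -- the key estimate for given `N`
  have hkey : ∀ N : ℕ, tl N (2 * t) ≤ 1 / τ ^ 2 → 2 * tl N (2 * t) ≤ c / 2 / τ ^ 2 →
      |∫ ω, Real.cos (θ * (τ * Real.exp (-(2 * t)) * (Y t ω x : ℝ))) ∂P| ≤
      Real.exp (-(c / π ^ 2 * θ ^ 2)) + 8 * (C + 1) ^ 2 * (θ ^ 2 + θ ^ 3) / τ +
      t * (Real.exp (2 * t) * (2 * ((2 * t) ^ N / N.factorial) * κ)) := by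
    intro N hN hN2
    have htl0 : 0 ≤ tl N (2 * t) := tl_nonneg N (by linarith)
    -- sup bound
    have hsupb : ∀ s, 0 ≤ s → s ≤ t → ∀ k, |EN N (t - s) g k| ≤
        (C + 1) * θ * Real.exp (-(3 / 2 * s)) / τ := by
      intro s hs hst k
      have hu : 0 ≤ t - s := by linarith
      simp only [hg]
      rw [EN_smul, abs_mul, abs_of_nonneg hκ0]
      have h3 := hsup N x k (t - s) t hu (by linarith)
      have hsq : √(1 + (t - s)) ≤ τ ^ 2 := by
        rw [hτsq]; exact Real.sqrt_le_sqrt (by linarith)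
      have hsq0 : 0 < √(1 + (t - s)) := Real.sqrt_pos.2 (by linarith)
      have h4 : tl N (2 * t) ≤ Real.exp (2 * (t - s)) / √(1 + (t - s)) := by
        refine hN.trans ?_
        have h5 : 1 / τ ^ 2 ≤ 1 / √(1 + (t - s)) := one_div_le_one_div_of_le hsq0 hsq
        have h6 : 1 ≤ Real.exp (2 * (t - s)) := Real.one_le_exp (by linarith)
        refine h5.trans ?_
        gcongr
      have h5 := inv_sqrt_le hs hst
      rw [← hτsq] at h5
      have h6 : |EN N (t - s) (dl x) k| ≤ (C + 1) * (Real.exp (2 * (t - s)) *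
          (1 / √(1 + (t - s)))) := by
        calc _ ≤ _ := h3
          _ ≤ C * Real.exp (2 * (t - s)) / √(1 + (t - s)) +
            Real.exp (2 * (t - s)) / √(1 + (t - s)) := by linarith
          _ = _ := by ring
      have h7 : Real.exp (2 * (t - s)) * Real.exp (s / 2) * Real.exp (-(2 * t)) =
          Real.exp (-(3 / 2 * s)) := by
        rw [← Real.exp_add, ← Real.exp_add]; congr 1; ring
      calc κ * |EN N (t - s) (dl x) k| ≤ κ * ((C + 1) * (Real.exp (2 * (t - s)) *
          (Real.exp (s / 2) / τ ^ 2))) := by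
            gcongr
            refine h6.trans ?_
            gcongr
        _ = (C + 1) * θ * (Real.exp (2 * (t - s)) * Real.exp (s / 2) *
            Real.exp (-(2 * t))) / τ := by
            rw [hκ]; field_simp
        _ = _ := by rw [h7]
    have hAf : ∀ s, 0 ≤ s → s ≤ t → ∀ k, |Af (EN N (t - s) g) k| ≤
        2 * ((C + 1) * θ * Real.exp (-(3 / 2 * s)) / τ) := by
      intro s hs hst k
      unfold Af
      refine (abs_add_le _ _).trans ?_
      linarith [hsupb s hs hst (k - 1), hsupb s hs hst (k + 1)]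
    have hN1' : ∀ s, 0 ≤ s → s ≤ t → N1 (Af (EN N (t - s) g)) (2 * θ * τ * Real.exp (-(2 * s))) := by
      intro s hs hst
      have h3 := (hN1.EN N (by linarith : 0 ≤ t - s)).af
      refine h3.mono (le_of_eq ?_)
      have h7 : Real.exp (2 * (t - s)) * Real.exp (-(2 * t)) = Real.exp (-(2 * s)) := by
        rw [← Real.exp_add]; congr 1; ring
      rw [hκ, ← h7]; ring
    set E : ℝ → ℝ := fun s => Real.exp (2 * t) * (2 * ((2 * t) ^ N / N.factorial) * κ) +
      8 * (C + 1) ^ 2 * (θ ^ 2 + θ ^ 3) / τ * Real.exp (-(1 * s)) with hE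
    have hEcont : Continuous E := by simp only [hE]; fun_prop
    have hEI : IntegrableOn E (Set.Ioc 0 t) :=
      (hEcont.integrableOn_Icc).mono_set Set.Ioc_subset_Icc_self
    have haux := h.cos_aux hgs hN1 ht N hEI (fun s hs => by
      have hs0 := hs.1.le
      have hst := hs.2
      set S : ℝ := 2 * ((C + 1) * θ * Real.exp (-(3 / 2 * s)) / τ) with hS
      have hS0 : 0 ≤ S := by positivity
      have h3 := sum_pow_le (S := nb (win N {x})) (hAf s hs0 hst) (hN1' s hs0 hst) 2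
      have h4 := sum_pow_le (S := nb (win N {x})) (hAf s hs0 hst) (hN1' s hs0 hst) 3
      have e4 : ∑ j ∈ nb (win N {x}), (Af (EN N (t - s) g) j) ^ 4 =
          ∑ j ∈ nb (win N {x}), |Af (EN N (t - s) g) j| ^ (3 + 1) := by
        refine Finset.sum_congr rfl (fun j _ => ?_)
        rw [show 3 + 1 = 2 * 2 by norm_num, pow_mul, sq_abs, ← pow_mul]
      rw [e4]
      have hx1 : Real.exp (2 * s) ≤ Real.exp (2 * t) := Real.exp_le_exp.2 (by linarith)
      have hterm1 : Real.exp (2 * s) * (2 * ((2 * t) ^ N / N.factorial) * κ) ≤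
          Real.exp (2 * t) * (2 * ((2 * t) ^ N / N.factorial) * κ) := by gcongr
      have hC1 : 1 ≤ C + 1 := by linarith
      have hterm2 : √(3 * Real.exp (4 * s) *
          ∑ j ∈ nb (win N {x}), |Af (EN N (t - s) g) j| ^ (3 + 1)) ≤
          7 * (C + 1) ^ 2 * θ ^ 2 * Real.exp (-(1 * s)) / τ := by
        apply Real.sqrt_le_iff.2
        refine ⟨by positivity, ?_⟩
        have h5 : 3 * Real.exp (4 * s) * (S ^ 3 * (2 * θ * τ * Real.exp (-(2 * s)))) =
            48 * (C + 1) ^ 3 * θ ^ 4 / τ ^ 2 * Real.exp (-(5 / 2 * s)) := by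
          have e5 : Real.exp (4 * s) * Real.exp (-(3 / 2 * s)) ^ 3 * Real.exp (-(2 * s)) =
              Real.exp (-(5 / 2 * s)) := by
            rw [← Real.exp_nat_mul, ← Real.exp_add, ← Real.exp_add]
            congr 1
            push_cast
            ring
          rw [← e5, hS]
          field_simp
          ring
        have h6 : Real.exp (-(5 / 2 * s)) ≤ Real.exp (-(2 * s)) :=
          Real.exp_le_exp.2 (by linarith)
        have h7 : (7 * (C + 1) ^ 2 * θ ^ 2 * Real.exp (-(1 * s)) / τ) ^ 2 =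
            49 * (C + 1) ^ 4 * θ ^ 4 / τ ^ 2 * Real.exp (-(2 * s)) := by
          have e5 : Real.exp (-(1 * s)) ^ 2 = Real.exp (-(2 * s)) := by
            rw [← Real.exp_nat_mul]; congr 1; push_cast; ring
          rw [← e5]; field_simp; ring
        rw [h7]
        calc 3 * Real.exp (4 * s) * ∑ j ∈ nb (win N {x}), |Af (EN N (t - s) g) j| ^ (3 + 1) ≤
            3 * Real.exp (4 * s) * (S ^ 3 * (2 * θ * τ * Real.exp (-(2 * s)))) := by gcongr
          _ = 48 * (C + 1) ^ 3 * θ ^ 4 / τ ^ 2 * Real.exp (-(5 / 2 * s)) := h5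
          _ ≤ 49 * (C + 1) ^ 4 * θ ^ 4 / τ ^ 2 * Real.exp (-(2 * s)) := by
            gcongr
            · norm_num
            · norm_num
      have hterm3 : Real.exp (2 * s) * ∑ j ∈ nb (win N {x}), |Af (EN N (t - s) g) j| ^ 3 ≤
          8 * (C + 1) ^ 2 * θ ^ 3 / τ * Real.exp (-(1 * s)) := by
        have h5 : Real.exp (2 * s) * (S ^ 2 * (2 * θ * τ * Real.exp (-(2 * s)))) =
            8 * (C + 1) ^ 2 * θ ^ 3 / τ * Real.exp (-(3 * s)) := by
          have e5 : Real.exp (2 * s) * Real.exp (-(3 / 2 * s)) ^ 2 * Real.exp (-(2 * s)) =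
              Real.exp (-(3 * s)) := by
            rw [← Real.exp_nat_mul, ← Real.exp_add, ← Real.exp_add]
            congr 1
            push_cast
            ring
          rw [← e5, hS]
          field_simp
          ring
        have h6 : Real.exp (-(3 * s)) ≤ Real.exp (-(1 * s)) := Real.exp_le_exp.2 (by linarith)
        calc Real.exp (2 * s) * ∑ j ∈ nb (win N {x}), |Af (EN N (t - s) g) j| ^ 3 ≤
            Real.exp (2 * s) * (S ^ 2 * (2 * θ * τ * Real.exp (-(2 * s)))) := by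
              gcongr
          _ = 8 * (C + 1) ^ 2 * θ ^ 3 / τ * Real.exp (-(3 * s)) := h5
          _ ≤ _ := by gcongr
      have hterm2' : 7 * (C + 1) ^ 2 * θ ^ 2 * Real.exp (-(1 * s)) / τ ≤
          8 * (C + 1) ^ 2 * θ ^ 2 * Real.exp (-(1 * s)) / τ := by
        gcongr; norm_num
      simp only [hE]
      have e6 : 8 * (C + 1) ^ 2 * (θ ^ 2 + θ ^ 3) / τ * Real.exp (-(1 * s)) =
          8 * (C + 1) ^ 2 * θ ^ 2 * Real.exp (-(1 * s)) / τ +
          8 * (C + 1) ^ 2 * θ ^ 3 / τ * Real.exp (-(1 * s)) := by ring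
      rw [e6]
      linarith)
    simp_rw [hlin] at haux
    -- the integral of E
    have hEint : ∫ s in Set.Ioc 0 t, E s ≤
        t * (Real.exp (2 * t) * (2 * ((2 * t) ^ N / N.factorial) * κ)) +
        8 * (C + 1) ^ 2 * (θ ^ 2 + θ ^ 3) / τ := by
      simp only [hE]
      have hi1 : IntegrableOn (fun _ : ℝ => Real.exp (2 * t) *
          (2 * ((2 * t) ^ N / (N.factorial : ℝ)) * κ)) (Set.Ioc 0 t) :=
        integrableOn_const (by rw [Real.volume_Ioc]; exact ENNReal.ofReal_ne_top)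
      have hi2 : IntegrableOn (fun s : ℝ => 8 * (C + 1) ^ 2 * (θ ^ 2 + θ ^ 3) / τ *
          Real.exp (-(1 * s))) (Set.Ioc 0 t) :=
        ((by fun_prop : Continuous fun s : ℝ => 8 * (C + 1) ^ 2 * (θ ^ 2 + θ ^ 3) / τ *
          Real.exp (-(1 * s))).integrableOn_Icc).mono_set Set.Ioc_subset_Icc_self
      rw [integral_add hi1 hi2, setIntegral_const, integral_const_mul]
      simp only [Measure.real, Real.volume_Ioc, sub_zero, ENNReal.toReal_ofReal ht, smul_eq_mul]
      have h6 := integral_exp_neg_le (a := 1) (by norm_num) ht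
      have h7 : 8 * (C + 1) ^ 2 * (θ ^ 2 + θ ^ 3) / τ * ∫ s in Set.Ioc 0 t, Real.exp (-(1 * s)) ≤
          8 * (C + 1) ^ 2 * (θ ^ 2 + θ ^ 3) / τ * (1 / 1) := by gcongr
      linarith
    -- the product
    have hprod : |∏ k ∈ win N {x}, Real.cos (EN N t g k)| ≤ Real.exp (-(c / π ^ 2 * θ ^ 2)) := by
      have h3 : ∀ k, |EN N t g k| ≤ 1 := by
        intro k
        have h4 := hsupb 0 le_rfl ht k
        rw [sub_zero, mul_zero, neg_zero, Real.exp_zero, mul_one] at h4
        refine h4.trans ?_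
        rw [div_le_one hτ0]
        exact hτθ
      refine (prod_cos_le h3).trans (Real.exp_le_exp.2 ?_)
      have h4 : c / 2 * θ ^ 2 ≤ ∑ k ∈ win N {x}, (EN N t g k) ^ 2 := by
        have h5 : ∑ k ∈ win N {x}, (EN N t g k) ^ 2 =
            κ ^ 2 * ∑ k ∈ win N {x}, (EN N t (dl x) k) ^ 2 := by
          rw [Finset.mul_sum]
          refine Finset.sum_congr rfl (fun k _ => ?_)
          simp only [hg]
          rw [EN_smul]; ring
        rw [h5]
        have h6 := hlow N x t ht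
        have h7 : c / 2 * θ ^ 2 ≤ κ ^ 2 * (c * Real.exp (4 * t) / √(1 + t) -
            2 * tl N (2 * t) * Real.exp (2 * t)) := by
          rw [← hτsq]
          have e7 : κ ^ 2 * (c * Real.exp (4 * t) / τ ^ 2 -
            2 * tl N (2 * t) * Real.exp (2 * t)) =
            θ ^ 2 * (c - 2 * tl N (2 * t) * τ ^ 2 * Real.exp (-(2 * t))) := by
            have e8 : Real.exp (-(2 * t)) ^ 2 * Real.exp (4 * t) = 1 := by
              rw [← Real.exp_nat_mul, ← Real.exp_add]
              rw [← Real.exp_zero]; congr 1; push_cast; ring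
            have e9 : Real.exp (-(2 * t)) ^ 2 * Real.exp (2 * t) = Real.exp (-(2 * t)) := by
              rw [← Real.exp_nat_mul, ← Real.exp_add]; congr 1; push_cast; ring
            calc κ ^ 2 * (c * Real.exp (4 * t) / τ ^ 2 - 2 * tl N (2 * t) * Real.exp (2 * t)) =
                θ ^ 2 * (c * (Real.exp (-(2 * t)) ^ 2 * Real.exp (4 * t)) -
                2 * tl N (2 * t) * τ ^ 2 * (Real.exp (-(2 * t)) ^ 2 * Real.exp (2 * t))) := by
                  rw [hκ]; field_simp
              _ = _ := by rw [e8, e9, mul_one]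
          rw [e7]
          have h8 : 2 * tl N (2 * t) * τ ^ 2 ≤ c / 2 := by
            rw [le_div_iff₀ (by positivity)] at hN2; exact hN2
          have h9 : Real.exp (-(2 * t)) ≤ 1 := by
            rw [Real.exp_le_one_iff]; linarith
          have h10 : 2 * tl N (2 * t) * τ ^ 2 * Real.exp (-(2 * t)) ≤ c / 2 * 1 := by gcongr
          nlinarith [sq_nonneg θ]
        exact h7.trans (mul_le_mul_of_nonneg_left h6 (sq_nonneg _))
      have h5 : 0 ≤ 2 / π ^ 2 := by positivity
      have h6 := mul_le_mul_of_nonneg_left h4 h5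
      have e : 2 / π ^ 2 * (c / 2 * θ ^ 2) = c / π ^ 2 * θ ^ 2 := by ring
      rw [e] at h6
      linarith
    linarith
  -- limit
  have hlim1 := tendsto_tl (2 * t)
  have hev1 : ∀ᶠ N in atTop, tl N (2 * t) ≤ 1 / τ ^ 2 :=
    hlim1.eventually (eventually_le_nhds (by positivity))
  have hev2 : ∀ᶠ N in atTop, 2 * tl N (2 * t) ≤ c / 2 / τ ^ 2 := by
    have h3 := hlim1.const_mul 2
    rw [mul_zero] at h3
    exact h3.eventually (eventually_le_nhds (by positivity))
  have hlim2 : Tendsto (fun N : ℕ => Real.exp (-(c / π ^ 2 * θ ^ 2)) +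
      8 * (C + 1) ^ 2 * (θ ^ 2 + θ ^ 3) / τ +
      t * (Real.exp (2 * t) * (2 * ((2 * t) ^ N / N.factorial) * κ))) atTop
      (𝓝 (Real.exp (-(c / π ^ 2 * θ ^ 2)) + 8 * (C + 1) ^ 2 * (θ ^ 2 + θ ^ 3) / τ)) := by
    have h3 := (FloorSemiring.tendsto_pow_div_factorial_atTop (2 * t)).const_mul
      (t * (Real.exp (2 * t) * (2 * κ)))
    rw [mul_zero] at h3
    have h4 := h3.const_add (Real.exp (-(c / π ^ 2 * θ ^ 2)) +
      8 * (C + 1) ^ 2 * (θ ^ 2 + θ ^ 3) / τ)
    rw [add_zero] at h4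
    refine h4.congr (fun N => ?_)
    ring
  refine ge_of_tendsto hlim2 ?_
  filter_upwards [hev1, hev2] with N h3 h4
  exact hkey N h3 h4

/-- The Fejer kernel is nonnegative. -/
lemma fejer_nonneg {A : ℝ} (hA : 0 < A) (v : ℝ) :
    0 ≤ ∫ θ in (0 : ℝ)..A, (1 - θ / A) * Real.cos (θ * v) := by
  by_cases hv : v = 0
  · subst hv
    apply intervalIntegral.integral_nonneg hA.le
    intro θ hθ
    rw [mul_zero, Real.cos_zero, mul_one]
    have : θ / A ≤ 1 := by rw [div_le_one hA]; exact hθ.2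
    linarith
  · have h1 : ∀ θ ∈ Set.uIcc 0 A, HasDerivAt (fun θ => (1 - θ / A) * (Real.sin (θ * v) / v) -
        Real.cos (θ * v) / (A * v ^ 2)) ((1 - θ / A) * Real.cos (θ * v)) θ := by
      intro θ _
      have h2 : HasDerivAt (fun θ : ℝ => θ * v) v θ := by
        simpa using (hasDerivAt_id θ).mul_const v
      have h3 : HasDerivAt (fun θ : ℝ => 1 - θ / A) (-(1 / A)) θ := by
        simpa using ((hasDerivAt_id θ).div_const A).const_sub 1
      have h4 := (h3.mul (h2.sin.div_const v)).sub (h2.cos.div_const (A * v ^ 2))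
      refine h4.congr_deriv ?_
      field_simp
      ring
    rw [intervalIntegral.integral_eq_sub_of_hasDerivAt h1]
    · have e : ((1 - A / A) * (Real.sin (A * v) / v) - Real.cos (A * v) / (A * v ^ 2)) -
        ((1 - 0 / A) * (Real.sin (0 * v) / v) - Real.cos (0 * v) / (A * v ^ 2)) =
        (1 - Real.cos (A * v)) / (A * v ^ 2) := by
        rw [div_self hA.ne', zero_mul, Real.sin_zero, Real.cos_zero]
        ring
      rw [e]
      have := Real.cos_le_one (A * v)
      apply div_nonneg (by linarith)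
      positivity
    · apply Continuous.intervalIntegrable
      fun_prop

lemma fejer_lower {A : ℝ} (hA : 0 < A) {v : ℝ} (hv : |v| ≤ 1 / A) :
    A / 4 ≤ ∫ θ in (0 : ℝ)..A, (1 - θ / A) * Real.cos (θ * v) := by
  have h1 : ∫ θ in (0 : ℝ)..A, (1 / 2 : ℝ) * (1 - θ / A) ≤
      ∫ θ in (0 : ℝ)..A, (1 - θ / A) * Real.cos (θ * v) := by
    apply intervalIntegral.integral_mono_on hA.le
    · apply Continuous.intervalIntegrable; fun_prop
    · apply Continuous.intervalIntegrable; fun_prop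
    · intro θ hθ
      have h2 : 0 ≤ 1 - θ / A := by
        have : θ / A ≤ 1 := by rw [div_le_one hA]; exact hθ.2
        linarith
      have h3 := Real.one_sub_sq_div_two_le_cos (x := θ * v)
      have h4 : |θ * v| ≤ 1 := by
        rw [abs_mul, abs_of_nonneg hθ.1]
        calc θ * |v| ≤ A * (1 / A) := by
              have := hθ.1
              have := hθ.2
              gcongr
          _ = 1 := by field_simp
      have h5 : (θ * v) ^ 2 ≤ 1 := by
        rw [← sq_abs]; exact pow_le_one₀ (abs_nonneg _) h4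
      nlinarith
  refine le_trans (le_of_eq ?_) h1
  rw [intervalIntegral.integral_const_mul, intervalIntegral.integral_sub
    (by apply Continuous.intervalIntegrable; fun_prop)
    (by apply Continuous.intervalIntegrable; fun_prop), intervalIntegral.integral_div]
  simp only [intervalIntegral.integral_const, sub_zero, smul_eq_mul, mul_one, integral_id]
  field_simp
  ring

/-- Small ball estimate. -/
theorem exists_small_ball : ∃ C₁ C₃ C₄ : ℝ, 0 < C₁ ∧ 0 < C₃ ∧ 0 < C₄ ∧
    ∀ {Ω : Type*} {mΩ : MeasurableSpace Ω}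
    {P : Measure Ω} {F : Filtration ℝ mΩ} {R : ℤ → ℕ → Ω → Set ℝ} {Y : ℝ → Ω → ℤ → ℤ}
    [IsProbabilityMeasure P] (_ : IsUrnProcess P F R Y) {t A : ℝ} (_ : 0 ≤ t) (_ : 1 ≤ A) (x : ℤ),
    C₁ * A ≤ tau t →
    P.real {ω | |tau t * Real.exp (-(2 * t)) * (Y t ω x : ℝ)| ≤ 1 / A} ≤
      C₃ / A + C₄ * A ^ 3 / tau t := by
  obtain ⟨c₀, C₁, C₂, hc₀, hC₁, hC₂, hcos⟩ := exists_cos_bound
  refine ⟨C₁, 4 * √(π / c₀), 8 * C₂, hC₁, by positivity, by positivity, ?_⟩
  intro Ω mΩ P F R Y _ h t A ht hA x hτA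
  set τ := tau t with hτ
  have hτ1 : 1 ≤ τ := one_le_tau ht
  have hτ0 : 0 < τ := by linarith
  have hA0 : 0 < A := by linarith
  set V : Ω → ℝ := fun ω => τ * Real.exp (-(2 * t)) * (Y t ω x : ℝ) with hV
  have hVm : Measurable V := by
    refine measurable_const.mul ?_
    exact Measurable.comp (g := fun a : ℤ => (a : ℝ)) (measurable_of_countable _)
      (h.measurable_Y ht x)
  set Φ : Ω → ℝ := fun ω => ∫ θ in Set.Ioc 0 A, (1 - θ / A) * Real.cos (θ * V ω) with hΦ
  have hΦe : ∀ ω, Φ ω = ∫ θ in (0 : ℝ)..A, (1 - θ / A) * Real.cos (θ * V ω) := by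
    intro ω
    rw [intervalIntegral.integral_of_le hA0.le]
  -- integrability on the product
  have hprodI : Integrable (fun p : Ω × ℝ => (1 - p.2 / A) * Real.cos (p.2 * V p.1))
      (P.prod (volume.restrict (Set.Ioc 0 A))) := by
    have hmeas : Measurable (fun p : Ω × ℝ => (1 - p.2 / A) * Real.cos (p.2 * V p.1)) := by
      refine (measurable_const.sub (measurable_snd.div_const A)).mul ?_
      exact Real.measurable_cos.comp (measurable_snd.mul (hVm.comp measurable_fst))
    refine Integrable.mono' (g := fun _ => (1 : ℝ)) (integrable_const _)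
      hmeas.aestronglyMeasurable ?_
    have hae : ∀ᵐ p : Ω × ℝ ∂(P.prod (volume.restrict (Set.Ioc 0 A))), p.2 ∈ Set.Ioc 0 A := by
      have h1 : ∀ᵐ θ ∂(volume.restrict (Set.Ioc 0 A)), θ ∈ Set.Ioc 0 A :=
        ae_restrict_mem measurableSet_Ioc
      exact Measure.quasiMeasurePreserving_snd.ae h1
    filter_upwards [hae] with p hp
    rw [Real.norm_eq_abs, abs_mul]
    have h2 : 0 ≤ 1 - p.2 / A := by
      have : p.2 / A ≤ 1 := by rw [div_le_one hA0]; exact hp.2
      linarith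
    have h3 : 1 - p.2 / A ≤ 1 := by
      have := div_nonneg hp.1.le hA0.le
      linarith
    rw [abs_of_nonneg h2]
    calc (1 - p.2 / A) * |Real.cos (p.2 * V p.1)| ≤ 1 * 1 := by
          gcongr; exact Real.abs_cos_le_one _
      _ = 1 := one_mul 1
  have hΦI : Integrable Φ P := hprodI.integral_prod_left
  have hswap : ∫ ω, Φ ω ∂P = ∫ θ in Set.Ioc 0 A, (1 - θ / A) *
      ∫ ω, Real.cos (θ * V ω) ∂P := by
    simp only [hΦ]
    rw [integral_integral_swap hprodI]
    refine setIntegral_congr_fun measurableSet_Ioc (fun θ _ => ?_)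
    simp only [integral_const_mul]
  -- lower bound
  have hmS : MeasurableSet {ω | |V ω| ≤ 1 / A} :=
    measurableSet_le (hVm.abs) measurable_const
  have hlow : P.real {ω | |V ω| ≤ 1 / A} * (A / 4) ≤ ∫ ω, Φ ω ∂P := by
    have h1 : ∫ ω, ({ω | |V ω| ≤ 1 / A}.indicator (fun _ => A / 4)) ω ∂P ≤ ∫ ω, Φ ω ∂P := by
      refine integral_mono ((integrable_const _).indicator hmS) hΦI (fun ω => ?_)
      simp only
      rw [hΦe]
      by_cases hω : ω ∈ {ω | |V ω| ≤ 1 / A}
      · rw [Set.indicator_of_mem hω]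
        exact fejer_lower hA0 hω
      · rw [Set.indicator_of_notMem hω]
        exact fejer_nonneg hA0 _
    rwa [integral_indicator_const _ hmS, smul_eq_mul] at h1
  -- upper bound
  have hupp : ∫ θ in Set.Ioc 0 A, (1 - θ / A) * ∫ ω, Real.cos (θ * V ω) ∂P ≤
      √(π / c₀) + 2 * C₂ * A ^ 4 / τ := by
    have hIo : Integrable (fun θ : ℝ => Real.exp (-c₀ * θ ^ 2)) := integrable_exp_neg_mul_sq hc₀
    have h1 : ∫ θ in Set.Ioc 0 A, (1 - θ / A) * ∫ ω, Real.cos (θ * V ω) ∂P ≤
        ∫ θ in Set.Ioc 0 A, (Real.exp (-c₀ * θ ^ 2) + C₂ * (A ^ 2 + A ^ 3) / τ) := by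
      refine setIntegral_mono_on ?_ (hIo.integrableOn.add
        (integrableOn_const (by rw [Real.volume_Ioc]; exact ENNReal.ofReal_ne_top)))
        measurableSet_Ioc (fun θ hθ => ?_)
      · have h2 := hprodI.integral_prod_right
        refine (h2.congr ?_)
        refine ae_of_all _ (fun θ => ?_)
        simp only [integral_const_mul]
      · have h2 : 0 ≤ 1 - θ / A := by
          have : θ / A ≤ 1 := by rw [div_le_one hA0]; exact hθ.2
          linarith
        have h3 : 1 - θ / A ≤ 1 := by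
          have := div_nonneg hθ.1.le hA0.le
          linarith
        have h4 := hcos h ht hθ.1.le x (by
          refine le_trans ?_ hτA
          have := hθ.2
          gcongr)
        have h5 : (1 - θ / A) * ∫ ω, Real.cos (θ * V ω) ∂P ≤
            1 * |∫ ω, Real.cos (θ * V ω) ∂P| := by
          calc (1 - θ / A) * ∫ ω, Real.cos (θ * V ω) ∂P ≤
              (1 - θ / A) * |∫ ω, Real.cos (θ * V ω) ∂P| := by
                gcongr; exact le_abs_self _
            _ ≤ _ := by gcongr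
        rw [one_mul] at h5
        refine h5.trans (h4.trans ?_)
        have h6 : -(c₀ * θ ^ 2) = -c₀ * θ ^ 2 := by ring
        rw [h6]
        have h7 : θ ^ 2 ≤ A ^ 2 := pow_le_pow_left₀ hθ.1.le hθ.2 2
        have h8 : θ ^ 3 ≤ A ^ 3 := pow_le_pow_left₀ hθ.1.le hθ.2 3
        gcongr
    refine h1.trans ?_
    rw [integral_add hIo.integrableOn
      (integrableOn_const (by rw [Real.volume_Ioc]; exact ENNReal.ofReal_ne_top)),
      setIntegral_const]
    simp only [Measure.real, Real.volume_Ioc, sub_zero, ENNReal.toReal_ofReal hA0.le, smul_eq_mul]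
    have h2 : ∫ θ in Set.Ioc 0 A, Real.exp (-c₀ * θ ^ 2) ≤ √(π / c₀) := by
      rw [← integral_gaussian c₀]
      exact setIntegral_le_integral hIo (ae_of_all _ (fun x => (Real.exp_pos _).le))
    have h3 : A * (C₂ * (A ^ 2 + A ^ 3) / τ) ≤ 2 * C₂ * A ^ 4 / τ := by
      have h4 : A ^ 3 ≤ A ^ 4 := pow_le_pow_right₀ hA (by norm_num)
      have e : A * (C₂ * (A ^ 2 + A ^ 3) / τ) = C₂ * (A ^ 3 + A ^ 4) / τ := by ring
      rw [e]
      have e2 : 2 * C₂ * A ^ 4 / τ = C₂ * (A ^ 4 + A ^ 4) / τ := by ring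
      rw [e2]
      gcongr
    linarith
  have hfin : P.real {ω | |V ω| ≤ 1 / A} * (A / 4) ≤ √(π / c₀) + 2 * C₂ * A ^ 4 / τ := by
    rw [hswap] at hlow; exact hlow.trans hupp
  have h9 : P.real {ω | |V ω| ≤ 1 / A} ≤ (√(π / c₀) + 2 * C₂ * A ^ 4 / τ) / (A / 4) := by
    rw [le_div_iff₀ (by positivity)]; exact hfin
  refine h9.trans (le_of_eq ?_)
  field_simp
  ring

end Pool.Agent.Lib.MP_5d2315_pr
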