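import Pool.Agent.Lib.MP_5d2315_pr.Semi

/-!
# The variance inequality
-/

namespace Pool.Agent.Lib.MP_5d2315_pr

open MeasureTheory ProbabilityTheory Filter Topology
open scoped ENNReal NNReal Real

/-- number of clocks -/
noncomputable def cc (J : Finset ℤ) (n : ℕ) : ℝ := ((J.card * n : ℕ) : ℝ)

lemma cc_nonneg (J : Finset ℤ) (n : ℕ) : 0 ≤ cc J n := by unfold cc; positivity

/-- the truncated semigroup of a finite set of clocks -/
noncomputable def HN (J : Finset ℤ) (n N : ℕ) (f : (ℤ → ℤ) → ℝ) (u : ℝ) (y : ℤ → ℤ) : ℝ :=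
  Real.exp (-(cc J n * u)) * ∑ r ∈ Finset.range (N + 1), u ^ r / r.factorial * ((TT J n)^[r] f) y

/-- the time derivative of the truncated semigroup, run backwards -/
noncomputable def HNd (J : Finset ℤ) (n N : ℕ) (f : (ℤ → ℤ) → ℝ) (u : ℝ) (y : ℤ → ℤ) : ℝ :=
  cc J n * HN J n N f u y - Real.exp (-(cc J n * u)) *
    ∑ r ∈ Finset.range N, u ^ r / r.factorial * ((TT J n)^[r + 1] f) y

/-- the truncation error -/
noncomputable def rho (J : Finset ℤ) (n N : ℕ) (f : (ℤ → ℤ) → ℝ) (u : ℝ) (y : ℤ → ℤ) : ℝ :=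
  Real.exp (-(cc J n * u)) * (u ^ N / N.factorial * ((TT J n)^[N + 1] f) y)

lemma HN_zero (J : Finset ℤ) (n N : ℕ) (f : (ℤ → ℤ) → ℝ) (y : ℤ → ℤ) : HN J n N f 0 y = f y := by
  unfold HN
  rw [Finset.sum_range_succ']
  simp

lemma HN_local {J Λ : Finset ℤ} (hJ : J ⊆ Λ) (n N : ℕ) {f : (ℤ → ℤ) → ℝ} (hf : LocalOn Λ f)
    (u : ℝ) : LocalOn Λ (HN J n N f u) := by
  intro y y' hy
  unfold HN
  congr 1
  exact Finset.sum_congr rfl (fun r _ => by rw [TT_iter_local hJ n hf r y y' hy])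

lemma HNd_local {J Λ : Finset ℤ} (hJ : J ⊆ Λ) (n N : ℕ) {f : (ℤ → ℤ) → ℝ} (hf : LocalOn Λ f)
    (u : ℝ) : LocalOn Λ (HNd J n N f u) := by
  intro y y' hy
  unfold HNd
  rw [HN_local hJ n N hf u y y' hy]
  congr 2
  exact Finset.sum_congr rfl (fun r _ => by rw [TT_iter_local hJ n hf (r + 1) y y' hy])

lemma hasDerivAt_HN (J : Finset ℤ) (n N : ℕ) (f : (ℤ → ℤ) → ℝ) (t : ℝ) (y : ℤ → ℤ) (s : ℝ) :
    HasDerivAt (fun s => HN J n N f (t - s) y) (HNd J n N f (t - s) y) s := by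
  have h1 : HasDerivAt (fun s : ℝ => t - s) (-1) s := by
    simpa using (hasDerivAt_id s).const_sub t
  have h2 : ∀ r : ℕ, HasDerivAt (fun s : ℝ => (t - s) ^ (r + 1) / (r + 1).factorial *
      ((TT J n)^[r + 1] f) y) (-((t - s) ^ r / r.factorial * ((TT J n)^[r + 1] f) y)) s := by
    intro r
    have h3 := ((h1.pow (r + 1)).div_const ((r + 1).factorial : ℝ)).mul_const
      (((TT J n)^[r + 1] f) y)
    refine h3.congr_deriv ?_
    rw [Nat.factorial_succ]
    push_cast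
    field_simp
  have h4 : (fun s => ∑ r ∈ Finset.range (N + 1), (t - s) ^ r / r.factorial *
      ((TT J n)^[r] f) y) = fun s => (∑ r ∈ Finset.range N,
      (t - s) ^ (r + 1) / (r + 1).factorial * ((TT J n)^[r + 1] f) y) + f y := by
    funext s
    rw [Finset.sum_range_succ']
    simp
  have h5 : HasDerivAt (fun s => ∑ r ∈ Finset.range (N + 1), (t - s) ^ r / r.factorial *
      ((TT J n)^[r] f) y) (-∑ r ∈ Finset.range N, (t - s) ^ r / r.factorial *
      ((TT J n)^[r + 1] f) y) s := by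
    rw [h4, ← Finset.sum_neg_distrib]
    apply HasDerivAt.add_const
    exact HasDerivAt.fun_sum (fun r _ => h2 r)
  have h6 : HasDerivAt (fun s : ℝ => Real.exp (-(cc J n * (t - s))))
      (Real.exp (-(cc J n * (t - s))) * cc J n) s := by
    have h7 : HasDerivAt (fun s : ℝ => -(cc J n * (t - s))) (cc J n) s := by
      simpa using (h1.const_mul (cc J n)).fun_neg
    exact h7.exp
  have h8 := h6.mul h5
  refine h8.congr_deriv ?_
  unfold HNd HN
  ring

lemma continuous_HN (J : Finset ℤ) (n N : ℕ) (f : (ℤ → ℤ) → ℝ) (t : ℝ) (y : ℤ → ℤ) :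
    Continuous (fun s => HN J n N f (t - s) y) := by
  unfold HN; fun_prop

lemma continuous_HNd (J : Finset ℤ) (n N : ℕ) (f : (ℤ → ℤ) → ℝ) (t : ℝ) (y : ℤ → ℤ) :
    Continuous (fun s => HNd J n N f (t - s) y) := by
  unfold HNd HN; fun_prop

lemma TT_HN (J : Finset ℤ) (n N : ℕ) (f : (ℤ → ℤ) → ℝ) (u : ℝ) (y : ℤ → ℤ) :
    TT J n (HN J n N f u) y = Real.exp (-(cc J n * u)) *
      ∑ r ∈ Finset.range (N + 1), u ^ r / r.factorial * ((TT J n)^[r + 1] f) y := by
  have h1 : ∀ r, ((TT J n)^[r + 1] f) y = ∑ j ∈ J, ∑ i ∈ Finset.range n,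
      ((TT J n)^[r] f) (if i < (y j).natAbs then upd j y else y) := by
    intro r
    rw [Function.iterate_succ_apply']
    rfl
  simp_rw [h1, Finset.mul_sum]
  have h2 : TT J n (HN J n N f u) y = ∑ j ∈ J, ∑ i ∈ Finset.range n,
      HN J n N f u (if i < (y j).natAbs then upd j y else y) := rfl
  rw [h2, Finset.sum_comm (s := Finset.range (N + 1))]
  refine Finset.sum_congr rfl (fun j _ => ?_)
  rw [Finset.sum_comm (s := Finset.range (N + 1))]
  refine Finset.sum_congr rfl (fun i _ => ?_)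
  unfold HN
  rw [Finset.mul_sum]

lemma HNd_eq (J : Finset ℤ) (n N : ℕ) (f : (ℤ → ℤ) → ℝ) (u : ℝ) (y : ℤ → ℤ) :
    HNd J n N f u y = -(∑ j ∈ J, (min n (y j).natAbs : ℕ) *
      (HN J n N f u (upd j y) - HN J n N f u y)) + rho J n N f u y := by
  rw [← TT_eq, TT_HN, Finset.sum_range_succ]
  unfold HNd rho cc
  ring

lemma HN_bound {J : Finset ℤ} {n N : ℕ} {f : (ℤ → ℤ) → ℝ} {M : ℝ} (hM : ∀ y, |f y| ≤ M)
    {u : ℝ} (hu : 0 ≤ u) (y : ℤ → ℤ) : |HN J n N f u y| ≤ M := by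
  have hM0 : 0 ≤ M := (abs_nonneg _).trans (hM 0)
  have hc := cc_nonneg J n
  unfold HN
  rw [abs_mul, abs_of_pos (Real.exp_pos _)]
  have h1 : |∑ r ∈ Finset.range (N + 1), u ^ r / r.factorial * ((TT J n)^[r] f) y| ≤
      ∑ r ∈ Finset.range (N + 1), (cc J n * u) ^ r / r.factorial * M := by
    refine (Finset.abs_sum_le_sum_abs _ _).trans (Finset.sum_le_sum (fun r _ => ?_))
    rw [abs_mul, abs_of_nonneg (by positivity), mul_pow]
    have h2 := TT_iter_bound (J := J) (n := n) hM r y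
    calc u ^ r / r.factorial * |((TT J n)^[r] f) y| ≤ u ^ r / r.factorial * (cc J n ^ r * M) := by
          gcongr; exact h2
      _ = _ := by ring
  rw [← Finset.sum_mul] at h1
  have h3 : ∑ r ∈ Finset.range (N + 1), (cc J n * u) ^ r / r.factorial ≤ Real.exp (cc J n * u) :=
    Real.sum_le_exp_of_nonneg (by positivity) _
  calc Real.exp (-(cc J n * u)) *
        |∑ r ∈ Finset.range (N + 1), u ^ r / r.factorial * ((TT J n)^[r] f) y|
      ≤ Real.exp (-(cc J n * u)) * (Real.exp (cc J n * u) * M) := by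
        gcongr
        exact h1.trans (by gcongr)
    _ = M := by rw [← mul_assoc, ← Real.exp_add]; simp

lemma HNd_bound {J : Finset ℤ} {n N : ℕ} {f : (ℤ → ℤ) → ℝ} {M : ℝ} (hM : ∀ y, |f y| ≤ M)
    {u : ℝ} (hu : 0 ≤ u) (y : ℤ → ℤ) : |HNd J n N f u y| ≤ 2 * cc J n * M := by
  have hM0 : 0 ≤ M := (abs_nonneg _).trans (hM 0)
  have hc := cc_nonneg J n
  have h0 := HN_bound (J := J) (n := n) (N := N) hM hu y
  have h1 : |∑ r ∈ Finset.range N, u ^ r / r.factorial * ((TT J n)^[r + 1] f) y| ≤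
      ∑ r ∈ Finset.range N, (cc J n * u) ^ r / r.factorial * (cc J n * M) := by
    refine (Finset.abs_sum_le_sum_abs _ _).trans (Finset.sum_le_sum (fun r _ => ?_))
    rw [abs_mul, abs_of_nonneg (by positivity), mul_pow]
    have h2 := TT_iter_bound (J := J) (n := n) hM (r + 1) y
    calc u ^ r / r.factorial * |((TT J n)^[r + 1] f) y| ≤
        u ^ r / r.factorial * (cc J n ^ (r + 1) * M) := by
          gcongr; exact h2
      _ = _ := by ring
  rw [← Finset.sum_mul] at h1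
  have h3 : ∑ r ∈ Finset.range N, (cc J n * u) ^ r / r.factorial ≤ Real.exp (cc J n * u) :=
    Real.sum_le_exp_of_nonneg (by positivity) _
  have h4 : |Real.exp (-(cc J n * u)) *
      ∑ r ∈ Finset.range N, u ^ r / r.factorial * ((TT J n)^[r + 1] f) y| ≤ cc J n * M := by
    rw [abs_mul, abs_of_pos (Real.exp_pos _)]
    calc Real.exp (-(cc J n * u)) *
          |∑ r ∈ Finset.range N, u ^ r / r.factorial * ((TT J n)^[r + 1] f) y|
        ≤ Real.exp (-(cc J n * u)) * (Real.exp (cc J n * u) * (cc J n * M)) := by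
          gcongr
          exact h1.trans (by gcongr)
      _ = cc J n * M := by rw [← mul_assoc, ← Real.exp_add]; simp
  have h5 : |cc J n * HN J n N f u y| ≤ cc J n * M := by
    rw [abs_mul, abs_of_nonneg hc]; gcongr
  unfold HNd
  refine (abs_sub _ _).trans ?_
  linarith

lemma rho_bound {J : Finset ℤ} {n N : ℕ} {f : (ℤ → ℤ) → ℝ} {M : ℝ} (hM : ∀ y, |f y| ≤ M)
    {u t : ℝ} (hu : 0 ≤ u) (hut : u ≤ t) (y : ℤ → ℤ) :
    |rho J n N f u y| ≤ t ^ N / N.factorial * (cc J n ^ (N + 1) * M) := by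
  have hM0 : 0 ≤ M := (abs_nonneg _).trans (hM 0)
  have hc := cc_nonneg J n
  have ht : 0 ≤ t := hu.trans hut
  unfold rho
  rw [abs_mul, abs_mul, abs_of_pos (Real.exp_pos _), abs_of_nonneg (by positivity :
    0 ≤ u ^ N / (N.factorial : ℝ))]
  have h2 := TT_iter_bound (J := J) (n := n) hM (N + 1) y
  have h3 : Real.exp (-(cc J n * u)) ≤ 1 := by
    rw [Real.exp_le_one_iff]
    have : 0 ≤ cc J n * u := by positivity
    linarith
  calc Real.exp (-(cc J n * u)) * (u ^ N / N.factorial * |((TT J n)^[N + 1] f) y|) ≤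
      1 * (t ^ N / N.factorial * (cc J n ^ (N + 1) * M)) := by
        gcongr
        exact h2
    _ = _ := one_mul _

lemma HN_osc {J : Finset ℤ} {n N : ℕ} {f : (ℤ → ℤ) → ℝ} {b : ℤ → ℝ} (hf : OscLe f b)
    {u : ℝ} (hu : 0 ≤ u) : OscLe (HN J n N f u) (EN N u b) := by
  intro k y
  unfold HN
  rw [← mul_sub, ← Finset.sum_sub_distrib, abs_mul, abs_of_pos (Real.exp_pos _)]
  have h1 : |∑ r ∈ Finset.range (N + 1), (u ^ r / r.factorial * ((TT J n)^[r] f) (addAt k 1 y) -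
      u ^ r / r.factorial * ((TT J n)^[r] f) y)| ≤
      ∑ r ∈ Finset.range (N + 1), u ^ r / r.factorial * ((bstep (cc J n))^[r] b) k := by
    refine (Finset.abs_sum_le_sum_abs _ _).trans (Finset.sum_le_sum (fun r _ => ?_))
    rw [← mul_sub, abs_mul, abs_of_nonneg (by positivity)]
    gcongr
    exact TT_iter_osc hf r k y
  have h2 := sum_bstep_le (b := b) hf.nonneg (cc_nonneg J n) hu N k
  calc Real.exp (-(cc J n * u)) * |∑ r ∈ Finset.range (N + 1),
        (u ^ r / r.factorial * ((TT J n)^[r] f) (addAt k 1 y) -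
        u ^ r / r.factorial * ((TT J n)^[r] f) y)|
      ≤ Real.exp (-(cc J n * u)) * (Real.exp (cc J n * u) * EN N u b k) := by
        gcongr
        exact h1.trans h2
    _ = EN N u b k := by rw [← mul_assoc, ← Real.exp_add]; simp

/-- tail bound: the oscillation outside a large window -/
lemma sum_tail_le {Λ : Finset ℤ} {b : ℤ → ℝ} (hb : SuppIn Λ b) {c₁ : ℝ} (h1 : N1 b c₁)
    {u t : ℝ} (hu : 0 ≤ u) (hut : u ≤ t) (m N : ℕ) (S : Finset ℤ)
    (hS : ∀ j ∈ S, j ∉ win (m + 1) Λ) :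
    ∑ j ∈ S, Af (EN N u b) j ≤ 2 * c₁ * tl m (2 * t) := by
  have hc1 := h1.nonneg
  have htl : 0 ≤ tl m (2 * t) := tl_nonneg m (by linarith)
  have e1 : ∀ j ∈ S, Af (EN N u b) j =
      ∑ n ∈ Finset.Ico (m + 1) (N + 1), u ^ n / n.factorial * (Af^[n + 1] b) j := by
    intro j hj
    have h2 : Af (EN N u b) j = ∑ n ∈ Finset.range (N + 1),
        u ^ n / n.factorial * (Af^[n + 1] b) j := by
      rw [Af_EN, Finset.sum_range_succ]; rfl
    rw [h2]
    symm
    apply Finset.sum_subset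
    · intro n hn
      rw [Finset.mem_Ico] at hn
      exact Finset.mem_range.2 hn.2
    · intro n hn hn'
      have h3 : n + 1 ≤ m + 1 := by
        rw [Finset.mem_range] at hn
        rw [Finset.mem_Ico] at hn'
        omega
      rw [suppIn_win hb h3 j (hS j hj), mul_zero]
  rw [Finset.sum_congr rfl e1, Finset.sum_comm]
  have h2 : ∀ n ∈ Finset.Ico (m + 1) (N + 1), ∑ j ∈ S, u ^ n / n.factorial * (Af^[n + 1] b) j ≤
      2 * c₁ * ((2 * u) ^ n / n.factorial) := by
    intro n _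
    rw [← Finset.mul_sum]
    have h3 : ∑ j ∈ S, (Af^[n + 1] b) j ≤ 2 ^ (n + 1) * c₁ := by
      refine (Finset.sum_le_sum (fun j _ => le_abs_self _)).trans (h1.iter (n + 1) S)
    calc u ^ n / n.factorial * ∑ j ∈ S, (Af^[n + 1] b) j ≤
        u ^ n / n.factorial * (2 ^ (n + 1) * c₁) := by gcongr
      _ = _ := by rw [mul_pow, pow_succ]; ring
  refine (Finset.sum_le_sum h2).trans ?_
  rw [← Finset.mul_sum]
  have h4 : ∑ n ∈ Finset.Ico (m + 1) (N + 1), (2 * u) ^ n / n.factorial ≤ tl m (2 * u) := by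
    by_cases hmN : m + 1 ≤ N + 1
    · rw [Finset.sum_Ico_eq_sub _ hmN]
      unfold tl PN
      have := Real.sum_le_exp_of_nonneg (by linarith : 0 ≤ 2 * u) (N + 1)
      linarith
    · rw [Finset.Ico_eq_empty (by omega)]
      simp only [Finset.sum_empty]
      exact tl_nonneg m (by linarith)
  have h5 := tl_mono m (by linarith : 0 ≤ 2 * u) (by linarith : 2 * u ≤ 2 * t)
  gcongr
  exact h4.trans h5

end Pool.Agent.Lib.MP_5d2315_pr
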