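import Pool.Agent.Lib.MP_5d2315_pr.Var

/-!
# The variance inequality, II
-/

namespace Pool.Agent.Lib.MP_5d2315_pr

open MeasureTheory ProbabilityTheory Filter Topology
open scoped ENNReal NNReal Real

/-- number of balls at `j` which use a clock outside the chosen set -/
noncomputable def exc (J : Finset ℤ) (n : ℕ) (j : ℤ) (y : ℤ → ℤ) : ℝ :=
  ((y j).natAbs : ℝ) - if j ∈ J then ((min n (y j).natAbs : ℕ) : ℝ) else 0

lemma exc_nonneg (J : Finset ℤ) (n : ℕ) (j : ℤ) (y : ℤ → ℤ) : 0 ≤ exc J n j y := by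
  unfold exc
  split_ifs
  · have : ((min n (y j).natAbs : ℕ) : ℝ) ≤ ((y j).natAbs : ℝ) := by
      exact_mod_cast min_le_right _ _
    linarith
  · simp

lemma exc_le (J : Finset ℤ) (n : ℕ) (j : ℤ) (y : ℤ → ℤ) : exc J n j y ≤ ((y j).natAbs : ℝ) := by
  unfold exc
  split_ifs
  · have : (0 : ℝ) ≤ ((min n (y j).natAbs : ℕ) : ℝ) := by positivity
    linarith
  · simp

lemma exc_le_sq {J : Finset ℤ} {n : ℕ} (hn : 0 < n) {j : ℤ} (hj : j ∈ J) (y : ℤ → ℤ) :
    exc J n j y ≤ ((y j : ℝ)) ^ 2 / n := by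
  unfold exc
  rw [if_pos hj]
  have e : ((y j : ℝ)) ^ 2 = ((y j).natAbs : ℝ) ^ 2 := by rw [cast_natAbs_eq_abs, sq_abs]
  rw [e]
  have hn' : (0 : ℝ) < n := by exact_mod_cast hn
  rcases le_total n (y j).natAbs with h | h
  · rw [min_eq_left h]
    have h' : (n : ℝ) ≤ ((y j).natAbs : ℝ) := by exact_mod_cast h
    rw [le_div_iff₀ hn']
    nlinarith
  · rw [min_eq_right h, sub_self]
    positivity

lemma exc_local (J : Finset ℤ) (n : ℕ) (j : ℤ) : LocalOn {j} (exc J n j) := by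
  intro y y' hy
  unfold exc
  rw [hy j (Finset.mem_singleton_self j)]

lemma upd_eq_of_notMem_nb {J : Finset ℤ} {j : ℤ} (hj : j ∉ nb J) (y : ℤ → ℤ) :
    ∀ x ∈ J, upd j y x = y x := by
  intro x hx
  unfold upd
  rw [if_neg, add_zero]
  rintro (rfl | rfl)
  · exact hj (mem_nb.2 (Or.inr hx))
  · exact hj (mem_nb.2 (Or.inl hx))

lemma sum_kappa {J : Finset ℤ} {g : (ℤ → ℤ) → ℝ} (hg : LocalOn J g) (n : ℕ) (y : ℤ → ℤ) :
    ∑ j ∈ J, ((min n (y j).natAbs : ℕ) : ℝ) * (g (upd j y) - g y) =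
      ∑ j ∈ nb J, (if j ∈ J then ((min n (y j).natAbs : ℕ) : ℝ) else 0) *
        (g (upd j y) - g y) := by
  classical
  have h1 : ∑ j ∈ nb J, (if j ∈ J then ((min n (y j).natAbs : ℕ) : ℝ) else 0) *
      (g (upd j y) - g y) = ∑ j ∈ nb J ∩ J, ((min n (y j).natAbs : ℕ) : ℝ) *
      (g (upd j y) - g y) := by
    rw [← Finset.sum_ite_mem]
    refine Finset.sum_congr rfl (fun j _ => ?_)
    split_ifs <;> ring
  rw [h1]
  symm
  apply Finset.sum_subset Finset.inter_subset_right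
  intro j hj hj'
  have hj2 : j ∉ nb J := fun h => hj' (Finset.mem_inter.2 ⟨h, hj⟩)
  rw [hg _ _ (upd_eq_of_notMem_nb hj2 y), sub_self, mul_zero]

lemma gen_one {J : Finset ℤ} {n N : ℕ} {f : (ℤ → ℤ) → ℝ} (hf : LocalOn J f) (u : ℝ)
    (y : ℤ → ℤ) :
    HNd J n N f u y + ∑ j ∈ nb J, ((y j).natAbs : ℝ) *
      (HN J n N f u (upd j y) - HN J n N f u y) =
    rho J n N f u y + ∑ j ∈ nb J, exc J n j y * (HN J n N f u (upd j y) - HN J n N f u y) := by
  rw [HNd_eq, sum_kappa (HN_local le_rfl n N hf u)]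
  unfold exc
  simp_rw [sub_mul]
  rw [Finset.sum_sub_distrib]
  ring

lemma gen_two {J : Finset ℤ} {n N : ℕ} {f : (ℤ → ℤ) → ℝ} (hf : LocalOn J f) (u : ℝ)
    (y : ℤ → ℤ) :
    2 * HN J n N f u y * HNd J n N f u y + ∑ j ∈ nb J, ((y j).natAbs : ℝ) *
      ((HN J n N f u (upd j y)) ^ 2 - (HN J n N f u y) ^ 2) =
    (∑ j ∈ nb J, ((y j).natAbs : ℝ) * (HN J n N f u (upd j y) - HN J n N f u y) ^ 2) +
      2 * HN J n N f u y * (rho J n N f u y +
        ∑ j ∈ nb J, exc J n j y * (HN J n N f u (upd j y) - HN J n N f u y)) := by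
  rw [← gen_one hf u y]
  have e : ∑ j ∈ nb J, ((y j).natAbs : ℝ) *
      ((HN J n N f u (upd j y)) ^ 2 - (HN J n N f u y) ^ 2) =
      (∑ j ∈ nb J, ((y j).natAbs : ℝ) * (HN J n N f u (upd j y) - HN J n N f u y) ^ 2) +
      2 * HN J n N f u y * ∑ j ∈ nb J, ((y j).natAbs : ℝ) *
      (HN J n N f u (upd j y) - HN J n N f u y) := by
    rw [Finset.mul_sum, ← Finset.sum_add_distrib]
    exact Finset.sum_congr rfl (fun j _ => by ring)
  rw [e]
  ring

lemma one_le_sqM (M : Finset ℤ) (y : ℤ → ℤ) : 1 ≤ sqM M y := by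
  unfold sqM
  have : (0 : ℝ) ≤ ∑ x ∈ M, (y x : ℝ) ^ 2 := Finset.sum_nonneg (fun _ _ => sq_nonneg _)
  linarith

variable {Ω : Type*} {mΩ : MeasurableSpace Ω} {P : Measure Ω}
  {F : Filtration ℝ mΩ} {R : ℤ → ℕ → Ω → Set ℝ} {Y : ℝ → Ω → ℤ → ℤ}

section

variable [IsProbabilityMeasure P] (h : IsUrnProcess P F R Y)
include h

lemma IsUrnProcess.integrable_bdd {s : ℝ} (hs : 0 ≤ s) {Λ : Finset ℤ} {f : (ℤ → ℤ) → ℝ}
    (hloc : LocalOn Λ f) {M : ℝ} (hM : ∀ y, |f y| ≤ M) : Integrable (fun ω => f (Y s ω)) P := by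
  refine h.integrable_of_le hs (M := ∅) hloc (C := M) ?_
  intro y; simpa [sqM] using hM y

lemma IsUrnProcess.integrable_exc {s : ℝ} (hs : 0 ≤ s) (J : Finset ℤ) (n : ℕ) (j : ℤ) :
    Integrable (fun ω => exc J n j (Y s ω)) P := by
  refine (h.integrable_natAbs hs j).mono'
    (measurable_localY (fun x => h.measurable_Y hs x) (exc_local J n j)).aestronglyMeasurable
    (ae_of_all _ (fun ω => ?_))
  rw [Real.norm_eq_abs, abs_of_nonneg (exc_nonneg _ _ _ _)]
  exact exc_le _ _ _ _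

lemma IsUrnProcess.integral_exc_le {s B : ℝ} (hs : 0 ≤ s)
    (hB : ∀ k, ∫ ω, ((Y s ω k : ℝ)) ^ 2 ∂P ≤ B) (J : Finset ℤ) {n : ℕ} (hn : 0 < n) (j : ℤ) :
    ∫ ω, exc J n j (Y s ω) ∂P ≤ if j ∈ J then B / n else Real.exp (2 * s) := by
  split_ifs with hj
  · have hsq : Integrable (fun ω => ((Y s ω j : ℝ)) ^ 2) P := by
      have := h.integrable_prod hs j j
      simpa [sq] using this
    have h1 : ∫ ω, exc J n j (Y s ω) ∂P ≤ ∫ ω, ((Y s ω j : ℝ)) ^ 2 / n ∂P :=
      integral_mono (h.integrable_exc hs J n j) (hsq.div_const _) (fun ω => exc_le_sq hn hj _)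
    rw [integral_div] at h1
    refine h1.trans ?_
    have := hB j
    gcongr
  · have h1 : ∫ ω, exc J n j (Y s ω) ∂P ≤ ∫ ω, ((Y s ω j).natAbs : ℝ) ∂P :=
      integral_mono (h.integrable_exc hs J n j) (h.integrable_natAbs hs j) (fun ω => exc_le _ _ _ _)
    exact h1.trans (h.q_le_exp hs j)

/-- The variance inequality with truncation errors. -/
theorem IsUrnProcess.variance_aux {Λ : Finset ℤ} {f : (ℤ → ℤ) → ℝ} (hloc : LocalOn Λ f) {M : ℝ}
    (hM : ∀ y, |f y| ≤ M) {b : ℤ → ℝ} (hosc : OscLe f b) (hb : SuppIn Λ b) {c₁ c₂ : ℝ}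
    (h1 : N1 b c₁) (h2 : N2 b c₂) {t B : ℝ} (ht : 0 ≤ t)
    (hB : ∀ s, 0 ≤ s → s ≤ t → ∀ k, ∫ ω, ((Y s ω k : ℝ)) ^ 2 ∂P ≤ B) (m n N : ℕ) (hn : 0 < n) :
    ∫ ω, (f (Y t ω)) ^ 2 ∂P ≤ (∫ ω, f (Y t ω) ∂P) ^ 2 + 3 * Real.exp (4 * t) * c₂ +
      4 * M * t * (t ^ N / N.factorial * (cc (win (m + 1) Λ) n ^ (N + 1) * M) +
        (Real.exp (2 * t) * (2 * c₁ * tl m (2 * t)) + B / n * (2 * (Real.exp (2 * t) * c₁)))) := by
  have hB0 : 0 ≤ B := (integral_nonneg (fun ω => sq_nonneg _)).trans (hB 0 le_rfl ht 0)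
  have hM0 : 0 ≤ M := (abs_nonneg _).trans (hM 0)
  have hc1 := h1.nonneg
  have hc2 := h2.nonneg
  have htl : 0 ≤ tl m (2 * t) := tl_nonneg m (by linarith)
  set J := win (m + 1) Λ with hJdef
  have hJ : Λ ⊆ J := subset_win (m + 1) Λ
  have hlocJ : LocalOn J f := fun y y' hy => hloc y y' (fun x hx => hy x (hJ hx))
  have hcc := cc_nonneg J n
  set rb : ℝ := t ^ N / N.factorial * (cc J n ^ (N + 1) * M) with hrb
  have hrb0 : 0 ≤ rb := by positivity
  set ep : ℝ := Real.exp (2 * t) * (2 * c₁ * tl m (2 * t)) +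
    B / n * (2 * (Real.exp (2 * t) * c₁)) with hep
  have hep0 : 0 ≤ ep := by positivity
  set H : ℝ → (ℤ → ℤ) → ℝ := fun s => HN J n N f (t - s) with hH
  have hHb : ∀ s, s ≤ t → ∀ y, |H s y| ≤ M := fun s hs y => HN_bound hM (by linarith) y
  have hHloc : ∀ s, LocalOn J (H s) := fun s => HN_local le_rfl n N hlocJ (t - s)
  have hosc' : ∀ s, s ≤ t → OscLe (H s) (EN N (t - s) b) := fun s hs => HN_osc hosc (by linarith)
  have hδle : ∀ s, s ≤ t → ∀ j y, |H s (upd j y) - H s y| ≤ Af (EN N (t - s) b) j :=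
    fun s hs j y => (hosc' s hs).upd_le j y
  have hAfnn : ∀ s, s ≤ t → ∀ j, 0 ≤ Af (EN N (t - s) b) j := fun s hs j =>
    add_nonneg ((hosc' s hs).nonneg _) ((hosc' s hs).nonneg _)
  -- the excess term
  have hexc : ∀ s, 0 ≤ s → s ≤ t →
      ∑ j ∈ nb J, Af (EN N (t - s) b) j * ∫ ω, exc J n j (Y s ω) ∂P ≤ ep := by
    intro s hs hst
    have hu : 0 ≤ t - s := by linarith
    have e1 : ∑ j ∈ nb J, Af (EN N (t - s) b) j * ∫ ω, exc J n j (Y s ω) ∂P ≤
        ∑ j ∈ nb J, ((if j ∈ J then 0 else Af (EN N (t - s) b) j * Real.exp (2 * t)) +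
          Af (EN N (t - s) b) j * (B / n)) := by
      refine Finset.sum_le_sum (fun j _ => ?_)
      have h3 := h.integral_exc_le hs (hB s hs hst) J hn j
      have h4 := hAfnn s hst j
      have h5 : Real.exp (2 * s) ≤ Real.exp (2 * t) := Real.exp_le_exp.2 (by linarith)
      have h6 : 0 ≤ B / n := by positivity
      split_ifs at h3 ⊢ with hj
      · rw [zero_add]
        gcongr
      · have h7 : Af (EN N (t - s) b) j * ∫ ω, exc J n j (Y s ω) ∂P ≤
            Af (EN N (t - s) b) j * Real.exp (2 * t) := by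
          gcongr
          exact h3.trans h5
        have h8 : 0 ≤ Af (EN N (t - s) b) j * (B / n) := mul_nonneg h4 h6
        linarith
    refine e1.trans ?_
    rw [Finset.sum_add_distrib, ← Finset.sum_mul]
    have h3 : ∑ j ∈ nb J, Af (EN N (t - s) b) j ≤ 2 * (Real.exp (2 * t) * c₁) := by
      have h4 := ((h1.EN N hu).af) (nb J)
      have h5 : ∑ j ∈ nb J, Af (EN N (t - s) b) j ≤ ∑ j ∈ nb J, |Af (EN N (t - s) b) j| :=
        Finset.sum_le_sum (fun j _ => le_abs_self _)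
      have h6 : Real.exp (2 * (t - s)) ≤ Real.exp (2 * t) := Real.exp_le_exp.2 (by linarith)
      calc _ ≤ _ := h5.trans h4
        _ ≤ _ := by gcongr
    have h4 : ∑ j ∈ nb J, (if j ∈ J then 0 else Af (EN N (t - s) b) j * Real.exp (2 * t)) ≤
        Real.exp (2 * t) * (2 * c₁ * tl m (2 * t)) := by
      have h5 : ∑ j ∈ nb J, (if j ∈ J then 0 else Af (EN N (t - s) b) j * Real.exp (2 * t)) =
          ∑ j ∈ (nb J).filter (fun j => j ∉ J), Af (EN N (t - s) b) j * Real.exp (2 * t) := by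
        rw [Finset.sum_filter]
        refine Finset.sum_congr rfl (fun j _ => ?_)
        split_ifs <;> simp_all
      rw [h5, ← Finset.sum_mul, mul_comm]
      gcongr
      exact sum_tail_le hb h1 hu (by linarith) m N _ (fun j hj => (Finset.mem_filter.1 hj).2)
    have h5 : 0 ≤ B / n := by positivity
    have h6 : (∑ j ∈ nb J, Af (EN N (t - s) b) j) * (B / n) ≤
        B / n * (2 * (Real.exp (2 * t) * c₁)) := by
      rw [mul_comm]; gcongr
    linarith
  have hIexc : ∀ s, 0 ≤ s → Integrable (fun ω => ∑ j ∈ nb J,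
      Af (EN N (t - s) b) j * exc J n j (Y s ω)) P := fun s hs =>
    integrable_finsetSum _ (fun j _ => (h.integrable_exc hs J n j).const_mul _)
  have hsum_exc : ∀ s, s ≤ t → ∀ y, |∑ j ∈ nb J, exc J n j y * (H s (upd j y) - H s y)| ≤
      ∑ j ∈ nb J, Af (EN N (t - s) b) j * exc J n j y := by
    intro s hs y
    refine (Finset.abs_sum_le_sum_abs _ _).trans (Finset.sum_le_sum (fun j _ => ?_))
    rw [abs_mul, abs_of_nonneg (exc_nonneg _ _ _ _), mul_comm]
    have := hδle s hs j y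
    have := exc_nonneg J n j y
    gcongr
  have hrho : ∀ s, 0 ≤ s → s ≤ t → ∀ y, |rho J n N f (t - s) y| ≤ rb := fun s hs hst y =>
    rho_bound hM (by linarith) (by linarith) y
  have hexc_int : ∀ s, 0 ≤ s → s ≤ t → ∫ ω, (rb + ∑ j ∈ nb J,
      Af (EN N (t - s) b) j * exc J n j (Y s ω)) ∂P ≤ rb + ep := by
    intro s hs hst
    rw [integral_add (integrable_const _) (hIexc s hs), integral_finsetSum _
      (fun j _ => (h.integrable_exc hs J n j).const_mul _)]
    simp_rw [integral_const_mul]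
    have := hexc s hs hst
    simp only [integral_const, probReal_univ, smul_eq_mul, one_mul]
    linarith
  -- Dynkin for `H`
  obtain ⟨hd1, hd2⟩ := h.dynkin (Λ := J) (M := J ∪ nb J) (f := H)
    (f' := fun s => HNd J n N f (t - s)) hHloc (fun s => HNd_local le_rfl n N hlocJ (t - s)) ht
    (fun y s => hasDerivAt_HN J n N f t y s) (fun y => continuous_HNd J n N f t y)
    (C := 2 * M + 2 * cc J n * M)
    (fun s hs hst y => by
      have h3 := hHb s hst y
      have h4 := one_le_sqM (J ∪ nb J) y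
      have h5 : 0 ≤ 2 * cc J n * M := by positivity
      nlinarith [mul_nonneg (by linarith : 0 ≤ 2 * M + 2 * cc J n * M) (by linarith :
        0 ≤ sqM (J ∪ nb J) y - 1)])
    (fun s hs hst y => by
      have h3 := HNd_bound (J := J) (n := n) (N := N) hM (by linarith : 0 ≤ t - s) y
      have h4 := one_le_sqM (J ∪ nb J) y
      have h5 : 0 ≤ 2 * cc J n * M := by positivity
      nlinarith [mul_nonneg (by linarith : 0 ≤ 2 * M + 2 * cc J n * M) (by linarith :
        0 ≤ sqM (J ∪ nb J) y - 1)])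
    (fun s hs hst j hj y => by
      rw [abs_mul, abs_of_nonneg (by positivity : (0 : ℝ) ≤ ((y j).natAbs : ℝ))]
      have h3 : |H s (upd j y) - H s y| ≤ 2 * M := by
        refine (abs_sub _ _).trans ?_
        linarith [hHb s hst (upd j y), hHb s hst y]
      have h4 : ((y j).natAbs : ℝ) ≤ sqM (J ∪ nb J) y :=
        natAbs_le_sqM (Finset.mem_union_right _ hj) y
      have h5 : 0 ≤ 2 * cc J n * M := by positivity
      have h6 := sqM_nonneg (J ∪ nb J) y
      calc ((y j).natAbs : ℝ) * |H s (upd j y) - H s y| ≤ sqM (J ∪ nb J) y * (2 * M) := by gcongr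
        _ ≤ _ := by nlinarith [mul_nonneg h5 h6])
  have hHt : ∀ ω, H t (Y t ω) = f (Y t ω) := by
    intro ω
    simp only [hH, sub_self]
    exact HN_zero J n N f _
  have hmean : |∫ ω, f (Y t ω) ∂P - ∫ ω, H 0 (Y 0 ω) ∂P| ≤ t * (rb + ep) := by
    simp_rw [hHt] at hd2
    rw [hd2]
    have h3 : ∀ s ∈ Set.Ioc 0 t, ‖∫ ω, (HNd J n N f (t - s) (Y s ω) + ∑ j ∈ nb J,
        ((Y s ω j).natAbs : ℝ) * (H s (upd j (Y s ω)) - H s (Y s ω))) ∂P‖ ≤ rb + ep := by
      intro s hs
      refine le_trans (norm_integral_le_of_norm_le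
        ((integrable_const rb).add (hIexc s hs.1.le)) (ae_of_all _ (fun ω => ?_)))
        (hexc_int s hs.1.le hs.2)
      simp only [hH]
      rw [gen_one hlocJ (t - s) (Y s ω), Real.norm_eq_abs]
      refine (abs_add_le _ _).trans (add_le_add (hrho s hs.1.le hs.2 _) ?_)
      exact hsum_exc s hs.2 (Y s ω)
    have h4 := norm_setIntegral_le_of_norm_le_const (μ := volume) (s := Set.Ioc 0 t)
      (by rw [Real.volume_Ioc]; exact ENNReal.ofReal_lt_top) h3
    simp only [Measure.real, Real.volume_Ioc, sub_zero, ENNReal.toReal_ofReal ht,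
      Real.norm_eq_abs] at h4
    linarith
  -- Dynkin for `H ^ 2`
  have hHsq : ∀ s, s ≤ t → ∀ y, |(H s y) ^ 2| ≤ M ^ 2 := by
    intro s hs y
    rw [abs_of_nonneg (sq_nonneg _), ← sq_abs]
    exact pow_le_pow_left₀ (abs_nonneg _) (hHb s hs y) 2
  have hCf : ∀ s, 0 ≤ s → s ≤ t → ∀ y, |2 * H s y * HNd J n N f (t - s) y| ≤
      (2 * M ^ 2 + 4 * cc J n * M ^ 2) * sqM (J ∪ nb J) y := by
    intro s hs hst y
    have h3 := HNd_bound (J := J) (n := n) (N := N) hM (by linarith : 0 ≤ t - s) y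
    have h4 := one_le_sqM (J ∪ nb J) y
    have h5 : 0 ≤ 4 * cc J n * M ^ 2 := by positivity
    have h6 := hHb s hst y
    rw [abs_mul, abs_mul, abs_of_nonneg (by norm_num : (0 : ℝ) ≤ 2)]
    calc 2 * |H s y| * |HNd J n N f (t - s) y| ≤ 2 * M * (2 * cc J n * M) := by gcongr
      _ = 4 * cc J n * M ^ 2 := by ring
      _ ≤ (2 * M ^ 2 + 4 * cc J n * M ^ 2) * 1 := by nlinarith [sq_nonneg M]
      _ ≤ _ := by gcongr
  have hCr : ∀ s, 0 ≤ s → s ≤ t → ∀ j ∈ nb J, ∀ y : ℤ → ℤ,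
      |((y j).natAbs : ℝ) * ((H s (upd j y)) ^ 2 - (H s y) ^ 2)| ≤
      (2 * M ^ 2 + 4 * cc J n * M ^ 2) * sqM (J ∪ nb J) y := by
    intro s hs hst j hj y
    rw [abs_mul, abs_of_nonneg (by positivity : (0 : ℝ) ≤ ((y j).natAbs : ℝ))]
    have h3 : |(H s (upd j y)) ^ 2 - (H s y) ^ 2| ≤ 2 * M ^ 2 := by
      refine (abs_sub _ _).trans ?_
      linarith [hHsq s hst (upd j y), hHsq s hst y]
    have h4 : ((y j).natAbs : ℝ) ≤ sqM (J ∪ nb J) y :=
      natAbs_le_sqM (Finset.mem_union_right _ hj) y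
    have h5 : 0 ≤ 4 * cc J n * M ^ 2 := by positivity
    have h6 := sqM_nonneg (J ∪ nb J) y
    calc ((y j).natAbs : ℝ) * |(H s (upd j y)) ^ 2 - (H s y) ^ 2| ≤
        sqM (J ∪ nb J) y * (2 * M ^ 2) := by gcongr
      _ ≤ _ := by nlinarith [mul_nonneg h5 h6]
  have hlocsq : ∀ s, LocalOn J (fun y => (H s y) ^ 2) := fun s y y' hy => by
    simp only [hHloc s y y' hy]
  have hlocpr : ∀ s, LocalOn J (fun y => 2 * H s y * HNd J n N f (t - s) y) := fun s y y' hy => by
    simp only [hHloc s y y' hy, HNd_local le_rfl n N hlocJ (t - s) y y' hy]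
  obtain ⟨he1, he2⟩ := h.dynkin (Λ := J) (M := J ∪ nb J) (f := fun s y => (H s y) ^ 2)
    (f' := fun s y => 2 * H s y * HNd J n N f (t - s) y) hlocsq hlocpr ht
    (fun y s => by
      have h3 := (hasDerivAt_HN J n N f t y s).pow 2
      refine h3.congr_deriv ?_
      simp [hH])
    (fun y => (continuous_const.mul (continuous_HN J n N f t y)).mul (continuous_HNd J n N f t y))
    (C := 2 * M ^ 2 + 4 * cc J n * M ^ 2)
    (fun s hs hst y => by
      have h3 := hHsq s hst y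
      have h4 := one_le_sqM (J ∪ nb J) y
      have h5 : 0 ≤ 4 * cc J n * M ^ 2 := by positivity
      refine h3.trans ?_
      nlinarith [mul_nonneg (by nlinarith [sq_nonneg M] : 0 ≤ 2 * M ^ 2 + 4 * cc J n * M ^ 2)
        (by linarith : 0 ≤ sqM (J ∪ nb J) y - 1), sq_nonneg M])
    hCf hCr
  have hsecond : ∫ ω, (f (Y t ω)) ^ 2 ∂P - ∫ ω, (H 0 (Y 0 ω)) ^ 2 ∂P ≤
      2 * Real.exp (4 * t) * c₂ + 2 * M * t * (rb + ep) := by
    simp_rw [hHt] at he2
    rw [he2]
    have h3 : ∫ s in Set.Ioc 0 t, (∫ ω, (2 * H s (Y s ω) * HNd J n N f (t - s) (Y s ω) +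
        ∑ j ∈ nb J, ((Y s ω j).natAbs : ℝ) *
        ((H s (upd j (Y s ω))) ^ 2 - (H s (Y s ω)) ^ 2)) ∂P) ≤
        ∫ s in Set.Ioc 0 t, ((4 * Real.exp (4 * t) * c₂) * Real.exp (-(2 * s)) +
          2 * M * (rb + ep)) := by
      refine setIntegral_mono_on he1 ?_ measurableSet_Ioc (fun s hs => ?_)
      · refine (Continuous.integrableOn_Icc ?_).mono_set Set.Ioc_subset_Icc_self
        fun_prop
      · have hs0 := hs.1.le
        have hst := hs.2
        have hpt : ∀ ω, 2 * H s (Y s ω) * HNd J n N f (t - s) (Y s ω) +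
            ∑ j ∈ nb J, ((Y s ω j).natAbs : ℝ) *
            ((H s (upd j (Y s ω))) ^ 2 - (H s (Y s ω)) ^ 2) ≤
            ∑ j ∈ nb J, (Af (EN N (t - s) b) j) ^ 2 * ((Y s ω j).natAbs : ℝ) +
            2 * M * (rb + ∑ j ∈ nb J, Af (EN N (t - s) b) j * exc J n j (Y s ω)) := by
          intro ω
          simp only [hH]
          rw [gen_two hlocJ (t - s) (Y s ω)]
          apply add_le_add
          · refine Finset.sum_le_sum (fun j _ => ?_)
            rw [mul_comm]
            have h4 := hδle s hst j (Y s ω)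
            simp only [hH] at h4
            have h5 := pow_le_pow_left₀ (abs_nonneg _) h4 2
            rw [sq_abs] at h5
            gcongr
          · have h4 := hHb s hst (Y s ω)
            simp only [hH] at h4
            have h5 := (abs_add_le _ _).trans (add_le_add (hrho s hs0 hst (Y s ω))
              (hsum_exc s hst (Y s ω)))
            simp only [hH] at h5
            refine (le_abs_self _).trans ?_
            rw [abs_mul, abs_mul, abs_of_nonneg (by norm_num : (0 : ℝ) ≤ 2)]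
            gcongr
        have hI1 : Integrable (fun ω => 2 * H s (Y s ω) * HNd J n N f (t - s) (Y s ω) +
            ∑ j ∈ nb J, ((Y s ω j).natAbs : ℝ) *
            ((H s (upd j (Y s ω))) ^ 2 - (H s (Y s ω)) ^ 2)) P := by
          refine Integrable.add (h.integrable_of_le hs0 (hlocpr s) (hCf s hs0 hst)) ?_
          exact integrable_finsetSum _ (fun j hj => h.integrable_rate (hlocsq s) hs0 hj
            (hCr s hs0 hst j hj))
        have hI2 : Integrable (fun ω => ∑ j ∈ nb J, (Af (EN N (t - s) b) j) ^ 2 *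
            ((Y s ω j).natAbs : ℝ)) P :=
          integrable_finsetSum _ (fun j _ => (h.integrable_natAbs hs0 j).const_mul _)
        have hI3 : Integrable (fun ω => 2 * M * (rb + ∑ j ∈ nb J,
            Af (EN N (t - s) b) j * exc J n j (Y s ω))) P :=
          ((integrable_const rb).add (hIexc s hs0)).const_mul _
        refine (integral_mono hI1 (hI2.add hI3) hpt).trans ?_
        rw [integral_add' hI2 hI3, integral_const_mul, integral_finsetSum _
          (fun j _ => (h.integrable_natAbs hs0 j).const_mul _)]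
        simp_rw [integral_const_mul]
        have h4 := hexc_int s hs0 hst
        have h5 : ∑ j ∈ nb J, (Af (EN N (t - s) b) j) ^ 2 * ∫ ω, ((Y s ω j).natAbs : ℝ) ∂P ≤
            (4 * Real.exp (4 * t) * c₂) * Real.exp (-(2 * s)) := by
          have h6 : ∑ j ∈ nb J, (Af (EN N (t - s) b) j) ^ 2 * ∫ ω, ((Y s ω j).natAbs : ℝ) ∂P ≤
              ∑ j ∈ nb J, (Af (EN N (t - s) b) j) ^ 2 * Real.exp (2 * s) := by
            refine Finset.sum_le_sum (fun j _ => ?_)
            have := h.q_le_exp hs0 j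
            unfold q at this
            gcongr
          refine h6.trans ?_
          rw [← Finset.sum_mul]
          have h7 := ((h2.EN N (by linarith : 0 ≤ t - s)).af) (nb J)
          have h8 : Real.exp (4 * (t - s)) * Real.exp (2 * s) =
              Real.exp (4 * t) * Real.exp (-(2 * s)) := by
            rw [← Real.exp_add, ← Real.exp_add]; congr 1; ring
          calc (∑ j ∈ nb J, (Af (EN N (t - s) b) j) ^ 2) * Real.exp (2 * s) ≤
              (4 * (Real.exp (4 * (t - s)) * c₂)) * Real.exp (2 * s) := by gcongr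
            _ = 4 * c₂ * (Real.exp (4 * (t - s)) * Real.exp (2 * s)) := by ring
            _ = _ := by rw [h8]; ring
        have h6 : 2 * M * ∫ ω, (rb + ∑ j ∈ nb J, Af (EN N (t - s) b) j * exc J n j (Y s ω)) ∂P ≤
            2 * M * (rb + ep) := by gcongr
        linarith
    rw [integral_add (((by fun_prop : Continuous fun s : ℝ =>
        (4 * Real.exp (4 * t) * c₂) * Real.exp (-(2 * s))).integrableOn_Icc).mono_set
        Set.Ioc_subset_Icc_self)
      (integrableOn_const (by rw [Real.volume_Ioc]; exact ENNReal.ofReal_ne_top)),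
      integral_const_mul, setIntegral_const] at h3
    simp only [Measure.real, Real.volume_Ioc, sub_zero, ENNReal.toReal_ofReal ht, smul_eq_mul]
      at h3
    have h6 := integral_exp_neg_le (a := 2) (by norm_num) ht
    have h7 : (4 * Real.exp (4 * t) * c₂) * ∫ s in Set.Ioc 0 t, Real.exp (-(2 * s)) ≤
        (4 * Real.exp (4 * t) * c₂) * (1 / 2) := by gcongr
    linarith
  -- the initial configuration
  have hES := h.efron_stein J (hHloc 0) (hHb 0 ht) (hosc' 0 ht)
  have hb2 := (h2.EN N (by linarith : 0 ≤ t - 0)) J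
  rw [sub_zero] at hb2 hES
  -- comparison of the means
  have hmf : |∫ ω, f (Y t ω) ∂P| ≤ M := by
    have h3 := norm_integral_le_of_norm_le (μ := P) (f := fun ω => f (Y t ω)) (integrable_const M)
      (ae_of_all _ (fun ω => by rw [Real.norm_eq_abs]; exact hM _))
    simpa using h3
  have hm0 : |∫ ω, H 0 (Y 0 ω) ∂P| ≤ M := by
    have h3 := norm_integral_le_of_norm_le (μ := P) (f := fun ω => H 0 (Y 0 ω))
      (integrable_const M) (ae_of_all _ (fun ω => by rw [Real.norm_eq_abs]; exact hHb 0 ht _))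
    simpa using h3
  set a := ∫ ω, f (Y t ω) ∂P
  set a0 := ∫ ω, H 0 (Y 0 ω) ∂P
  have hfin : a0 ^ 2 ≤ a ^ 2 + 2 * M * t * (rb + ep) := by
    have h3 : a0 ^ 2 - a ^ 2 = (a0 - a) * (a0 + a) := by ring
    have h4 : |(a0 - a) * (a0 + a)| ≤ (t * (rb + ep)) * (2 * M) := by
      rw [abs_mul]
      have h5 : |a0 - a| ≤ t * (rb + ep) := by rw [abs_sub_comm]; exact hmean
      have h6 : |a0 + a| ≤ 2 * M := (abs_add_le _ _).trans (by linarith)
      have h7 : 0 ≤ t * (rb + ep) := by positivity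
      gcongr
    have h5 := (le_abs_self _).trans h4
    linarith
  linarith

end

end Pool.Agent.Lib.MP_5d2315_pr
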