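import Pool.Agent.Lib.MP_5d2315_pr.Var2

/-!
# The variance inequality, III
-/

namespace Pool.Agent.Lib.MP_5d2315_pr

open MeasureTheory ProbabilityTheory Filter Topology
open scoped ENNReal NNReal Real

variable {Ω : Type*} {mΩ : MeasurableSpace Ω} {P : Measure Ω}
  {F : Filtration ℝ mΩ} {R : ℤ → ℕ → Ω → Set ℝ} {Y : ℝ → Ω → ℤ → ℤ}

section

variable [IsProbabilityMeasure P] (h : IsUrnProcess P F R Y)
include h

/-- The variance inequality. -/
theorem IsUrnProcess.variance_le {Λ : Finset ℤ} {f : (ℤ → ℤ) → ℝ} (hloc : LocalOn Λ f) {M : ℝ}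
    (hM : ∀ y, |f y| ≤ M) {b : ℤ → ℝ} (hosc : OscLe f b) (hb : SuppIn Λ b) {c₂ : ℝ}
    (h2 : N2 b c₂) {t : ℝ} (ht : 0 ≤ t) :
    ∫ ω, (f (Y t ω)) ^ 2 ∂P ≤ (∫ ω, f (Y t ω) ∂P) ^ 2 + 3 * Real.exp (4 * t) * c₂ := by
  obtain ⟨B, _, hB, _⟩ := h.exists_bound t
  have h1 := N1_of_supp hb
  set c₁ := ∑ k ∈ Λ, |b k| with hc₁
  have hstep : ∀ m : ℕ, ∫ ω, (f (Y t ω)) ^ 2 ∂P ≤ (∫ ω, f (Y t ω) ∂P) ^ 2 +
      3 * Real.exp (4 * t) * c₂ + 4 * M * t * (0 +
        (Real.exp (2 * t) * (2 * c₁ * tl m (2 * t)) +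
          B / ((m + 1 : ℕ) : ℝ) * (2 * (Real.exp (2 * t) * c₁)))) := by
    intro m
    have h3 : Tendsto (fun N : ℕ => t ^ N / (N.factorial : ℝ) *
        (cc (win (m + 1) Λ) (m + 1) ^ (N + 1) * M)) atTop (𝓝 0) := by
      have h4 := (FloorSemiring.tendsto_pow_div_factorial_atTop
        (t * cc (win (m + 1) Λ) (m + 1))).mul_const (cc (win (m + 1) Λ) (m + 1) * M)
      rw [zero_mul] at h4
      refine h4.congr (fun N => ?_)
      rw [mul_pow, pow_succ]
      ring
    have h5 := ((h3.add_const (Real.exp (2 * t) * (2 * c₁ * tl m (2 * t)) +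
      B / ((m + 1 : ℕ) : ℝ) * (2 * (Real.exp (2 * t) * c₁)))).const_mul (4 * M * t)).const_add
      ((∫ ω, f (Y t ω) ∂P) ^ 2 + 3 * Real.exp (4 * t) * c₂)
    exact ge_of_tendsto' h5 (fun N =>
      h.variance_aux hloc hM hosc hb h1 h2 ht hB m (m + 1) N (Nat.succ_pos m))
  have h3 : Tendsto (fun m : ℕ => (0 : ℝ) + (Real.exp (2 * t) * (2 * c₁ * tl m (2 * t)) +
      B / ((m + 1 : ℕ) : ℝ) * (2 * (Real.exp (2 * t) * c₁)))) atTop (𝓝 0) := by
    have h4 := ((tendsto_tl (2 * t)).const_mul (2 * c₁)).const_mul (Real.exp (2 * t))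
    have h5 : Tendsto (fun m : ℕ => B / ((m + 1 : ℕ) : ℝ)) atTop (𝓝 0) :=
      (tendsto_const_div_atTop_nhds_zero_nat B).comp (tendsto_add_atTop_nat 1)
    have h6 := (h4.add (h5.mul_const (2 * (Real.exp (2 * t) * c₁)))).const_add 0
    simpa using h6
  have h4 := (h3.const_mul (4 * M * t)).const_add
    ((∫ ω, f (Y t ω) ∂P) ^ 2 + 3 * Real.exp (4 * t) * c₂)
  rw [mul_zero, add_zero] at h4
  exact ge_of_tendsto' h4 hstep

/-- The mean deviation of a bounded local function. -/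
theorem IsUrnProcess.abs_dev_bdd {Λ : Finset ℤ} {f : (ℤ → ℤ) → ℝ} (hloc : LocalOn Λ f) {M : ℝ}
    (hM : ∀ y, |f y| ≤ M) {b : ℤ → ℝ} (hosc : OscLe f b) (hb : SuppIn Λ b) {c₂ : ℝ}
    (h2 : N2 b c₂) {t : ℝ} (ht : 0 ≤ t) :
    ∫ ω, |f (Y t ω) - ∫ ω', f (Y t ω') ∂P| ∂P ≤ √(3 * Real.exp (4 * t) * c₂) := by
  set a := ∫ ω', f (Y t ω') ∂P with ha
  have hI := h.integrable_bdd ht hloc hM
  have hI2 : Integrable (fun ω => (f (Y t ω)) ^ 2) P := by
    refine h.integrable_bdd ht (Λ := Λ) (f := fun y => (f y) ^ 2)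
      (fun y y' hy => by simp only [hloc y y' hy]) (M := M ^ 2) (fun y => ?_)
    rw [abs_of_nonneg (sq_nonneg _), ← sq_abs]
    exact pow_le_pow_left₀ (abs_nonneg _) (hM y) 2
  have hvar : ∫ ω, (f (Y t ω) - a) ^ 2 ∂P ≤ 3 * Real.exp (4 * t) * c₂ := by
    have e : ∀ ω, (f (Y t ω) - a) ^ 2 = (f (Y t ω)) ^ 2 - (2 * a * f (Y t ω) - a ^ 2) := by
      intro ω; ring
    simp_rw [e]
    have hI3 : Integrable (fun ω => 2 * a * f (Y t ω) - a ^ 2) P :=
      (hI.const_mul (2 * a)).sub (integrable_const _)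
    rw [integral_sub hI2 hI3,
      integral_sub (hI.const_mul (2 * a)) (integrable_const _), integral_const_mul, ← ha]
    simp only [integral_const, probReal_univ, smul_eq_mul, one_mul]
    have := h.variance_le hloc hM hosc hb h2 ht
    rw [← ha] at this
    linarith
  have hIsub : Integrable (fun ω => f (Y t ω) - a) P := hI.sub (integrable_const _)
  have hIsq : Integrable (fun ω => (f (Y t ω) - a) ^ 2) P := by
    have e : (fun ω => (f (Y t ω) - a) ^ 2) =
        fun ω => (f (Y t ω)) ^ 2 - (2 * a * f (Y t ω) - a ^ 2) := by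
      funext ω; ring
    rw [e]
    exact hI2.sub ((hI.const_mul (2 * a)).sub (integrable_const _))
  apply Real.le_sqrt_of_sq_le
  refine le_trans ?_ hvar
  -- Jensen
  set m := ∫ ω, |f (Y t ω) - a| ∂P with hm
  have hnn : 0 ≤ ∫ ω, (|f (Y t ω) - a| - m) ^ 2 ∂P := integral_nonneg (fun ω => sq_nonneg _)
  have e : ∀ ω, (|f (Y t ω) - a| - m) ^ 2 =
      (f (Y t ω) - a) ^ 2 - (2 * m * |f (Y t ω) - a| - m ^ 2) := by
    intro ω
    rw [sub_sq, sq_abs]
    ring
  simp_rw [e] at hnn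
  have hI3 : Integrable (fun ω => 2 * m * |f (Y t ω) - a| - m ^ 2) P :=
    (hIsub.abs.const_mul (2 * m)).sub (integrable_const _)
  rw [integral_sub hIsq hI3,
      integral_sub (hIsub.abs.const_mul (2 * m)) (integrable_const _), integral_const_mul,
      ← hm] at hnn
  simp only [integral_const, probReal_univ, smul_eq_mul, one_mul] at hnn
  nlinarith

/-- Concentration of weighted sums of numbers of balls. -/
theorem IsUrnProcess.abs_dev_le {Λ : Finset ℤ} {w : ℤ → ℝ} (hw : SuppIn Λ w) {c₂ : ℝ}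
    (h2 : N2 w c₂) {t : ℝ} (ht : 0 ≤ t) :
    ∫ ω, |∑ k ∈ Λ, w k * (((Y t ω k).natAbs : ℝ) - q P Y t k)| ∂P ≤
      √(3 * Real.exp (4 * t) * c₂) := by
  obtain ⟨B, hB0, hB, _⟩ := h.exists_bound t
  set c₁ := ∑ k ∈ Λ, |w k| with hc₁
  have hIn : ∀ (K : ℕ) (k : ℤ), Integrable (fun ω => ((min K (Y t ω k).natAbs : ℕ) : ℝ)) P := by
    intro K k
    refine h.integrable_bdd ht (Λ := {k}) (f := fun y => ((min K (y k).natAbs : ℕ) : ℝ))
      (fun y y' hy => by simp only [hy k (Finset.mem_singleton_self k)]) (M := K) (fun y => ?_)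
    rw [abs_of_nonneg (by positivity)]
    exact_mod_cast min_le_left _ _
  have hstep : ∀ K : ℕ, ∫ ω, |∑ k ∈ Λ, w k * (((Y t ω k).natAbs : ℝ) - q P Y t k)| ∂P ≤
      √(3 * Real.exp (4 * t) * c₂) + 2 * (c₁ * (B / ((K + 1 : ℕ) : ℝ))) := by
    intro K
    set f : (ℤ → ℤ) → ℝ := fun y => ∑ k ∈ Λ, w k * ((min (K + 1) (y k).natAbs : ℕ) : ℝ) with hf
    have hloc : LocalOn Λ f := by
      intro y y' hy
      simp only [hf]
      exact Finset.sum_congr rfl (fun k hk => by rw [hy k hk])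
    have hM : ∀ y, |f y| ≤ c₁ * ((K + 1 : ℕ) : ℝ) := by
      intro y
      simp only [hf]
      refine (Finset.abs_sum_le_sum_abs _ _).trans ?_
      rw [hc₁, Finset.sum_mul]
      refine Finset.sum_le_sum (fun k _ => ?_)
      rw [abs_mul, abs_of_nonneg (by positivity : (0 : ℝ) ≤ ((min (K + 1) (y k).natAbs : ℕ) : ℝ))]
      have : ((min (K + 1) (y k).natAbs : ℕ) : ℝ) ≤ ((K + 1 : ℕ) : ℝ) := by
        exact_mod_cast min_le_left _ _
      gcongr
    have hosc : OscLe f (fun k => |w k|) := by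
      intro k y
      simp only [hf]
      rw [← Finset.sum_sub_distrib]
      have e1 : ∀ x ∈ Λ, w x * ((min (K + 1) (addAt k 1 y x).natAbs : ℕ) : ℝ) -
          w x * ((min (K + 1) (y x).natAbs : ℕ) : ℝ) = if x = k then
          w k * (((min (K + 1) (y k + 1).natAbs : ℕ) : ℝ) -
            ((min (K + 1) (y k).natAbs : ℕ) : ℝ)) else 0 := by
        intro x _
        unfold addAt
        by_cases hx : x = k
        · subst hx; simp only [if_true]; ring
        · simp only [if_neg hx, add_zero, sub_self]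
      rw [Finset.sum_congr rfl e1, Finset.sum_ite_eq']
      have e2 : |((min (K + 1) (y k + 1).natAbs : ℕ) : ℝ) -
            ((min (K + 1) (y k).natAbs : ℕ) : ℝ)| ≤ 1 := by
        rw [abs_le]
        have h3 : (min (K + 1) (y k + 1).natAbs) ≤ (min (K + 1) (y k).natAbs) + 1 := by omega
        have h4 : (min (K + 1) (y k).natAbs) ≤ (min (K + 1) (y k + 1).natAbs) + 1 := by omega
        have h3' : ((min (K + 1) (y k + 1).natAbs : ℕ) : ℝ) ≤
            ((min (K + 1) (y k).natAbs : ℕ) : ℝ) + 1 := by exact_mod_cast h3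
        have h4' : ((min (K + 1) (y k).natAbs : ℕ) : ℝ) ≤
            ((min (K + 1) (y k + 1).natAbs : ℕ) : ℝ) + 1 := by exact_mod_cast h4
        constructor <;> linarith
      split_ifs
      · rw [abs_mul]
        exact mul_le_of_le_one_right (abs_nonneg _) e2
      · rw [abs_zero]; exact abs_nonneg _
    have hb : SuppIn Λ (fun k => |w k|) := fun k hk => by simp only [hw k hk, abs_zero]
    have h2' : N2 (fun k => |w k|) c₂ := by
      intro S
      simp only [sq_abs]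
      exact h2 S
    have h3 := h.abs_dev_bdd hloc hM hosc hb h2' ht
    have hIf := h.integrable_bdd ht hloc hM
    -- comparison
    have hId : ∀ (v : ℝ) (k : ℤ), Integrable (fun ω => v * (((Y t ω k).natAbs : ℝ) -
        ((min (K + 1) (Y t ω k).natAbs : ℕ) : ℝ))) P := fun v k =>
      ((h.integrable_natAbs ht k).sub (hIn (K + 1) k)).const_mul _
    set r : Ω → ℝ := fun ω => ∑ k ∈ Λ, |w k| * (((Y t ω k).natAbs : ℝ) -
      ((min (K + 1) (Y t ω k).natAbs : ℕ) : ℝ)) with hr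
    have hrI : Integrable r P := integrable_finsetSum _ (fun k _ => hId _ k)
    have hrle : ∫ ω, r ω ∂P ≤ c₁ * (B / ((K + 1 : ℕ) : ℝ)) := by
      simp only [hr]
      rw [integral_finsetSum _ (fun k _ => hId _ k), hc₁, Finset.sum_mul]
      refine Finset.sum_le_sum (fun k hk => ?_)
      rw [integral_const_mul]
      have h4 := h.integral_exc_le ht (hB t ht le_rfl) Λ (Nat.succ_pos K) k
      rw [if_pos hk] at h4
      unfold exc at h4
      simp only [if_pos hk] at h4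
      gcongr
    have hpt : ∀ ω, |∑ k ∈ Λ, w k * (((Y t ω k).natAbs : ℝ) - q P Y t k)| ≤
        |f (Y t ω) - ∫ ω', f (Y t ω') ∂P| + (r ω + ∫ ω', r ω' ∂P) := by
      intro ω
      have e1 : ∑ k ∈ Λ, w k * (((Y t ω k).natAbs : ℝ) - q P Y t k) =
          (f (Y t ω) - ∫ ω', f (Y t ω') ∂P) +
          (∑ k ∈ Λ, w k * (((Y t ω k).natAbs : ℝ) - ((min (K + 1) (Y t ω k).natAbs : ℕ) : ℝ)) -
          ∫ ω', ∑ k ∈ Λ, w k * (((Y t ω' k).natAbs : ℝ) -
            ((min (K + 1) (Y t ω' k).natAbs : ℕ) : ℝ)) ∂P) := by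
        simp only [hf]
        rw [integral_finsetSum _ (fun k _ => (hIn (K + 1) k).const_mul _),
          integral_finsetSum _ (fun k _ => hId _ k)]
        simp_rw [integral_const_mul]
        rw [← Finset.sum_sub_distrib, ← Finset.sum_sub_distrib, ← Finset.sum_add_distrib]
        refine Finset.sum_congr rfl (fun k _ => ?_)
        rw [integral_sub (h.integrable_natAbs ht k) (hIn (K + 1) k)]
        unfold q
        ring
      have hnn : ∀ ω' k, 0 ≤ ((Y t ω' k).natAbs : ℝ) -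
          ((min (K + 1) (Y t ω' k).natAbs : ℕ) : ℝ) := by
        intro ω' k
        have : ((min (K + 1) (Y t ω' k).natAbs : ℕ) : ℝ) ≤ ((Y t ω' k).natAbs : ℝ) := by
          exact_mod_cast min_le_right _ _
        linarith
      have e2 : ∀ ω', |∑ k ∈ Λ, w k * (((Y t ω' k).natAbs : ℝ) -
          ((min (K + 1) (Y t ω' k).natAbs : ℕ) : ℝ))| ≤ r ω' := by
        intro ω'
        refine (Finset.abs_sum_le_sum_abs _ _).trans (le_of_eq ?_)
        simp only [hr]
        refine Finset.sum_congr rfl (fun k _ => ?_)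
        rw [abs_mul, abs_of_nonneg (hnn ω' k)]
      rw [e1]
      refine (abs_add_le _ _).trans (add_le_add le_rfl ?_)
      refine (abs_sub _ _).trans (add_le_add (e2 ω) ?_)
      rw [← Real.norm_eq_abs]
      refine norm_integral_le_of_norm_le hrI (ae_of_all _ (fun ω' => ?_))
      rw [Real.norm_eq_abs]
      exact e2 ω'
    have hI4 : Integrable (fun ω => |f (Y t ω) - ∫ ω', f (Y t ω') ∂P|) P :=
      (hIf.sub (integrable_const _)).abs
    have h5 : ∫ ω, |∑ k ∈ Λ, w k * (((Y t ω k).natAbs : ℝ) - q P Y t k)| ∂P ≤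
        ∫ ω, (|f (Y t ω) - ∫ ω', f (Y t ω') ∂P| + (r ω + ∫ ω', r ω' ∂P)) ∂P := by
      refine integral_mono ?_ (hI4.add (hrI.add (integrable_const _))) hpt
      refine Integrable.abs ?_
      exact integrable_finsetSum _ (fun k _ =>
        ((h.integrable_natAbs ht k).sub (integrable_const _)).const_mul _)
    have hI5 : Integrable (fun ω => r ω + ∫ ω', r ω' ∂P) P := hrI.add (integrable_const _)
    rw [integral_add hI4 hI5, integral_add hrI (integrable_const _)] at h5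
    simp only [integral_const, probReal_univ, smul_eq_mul, one_mul] at h5
    linarith
  have h3 : Tendsto (fun K : ℕ => √(3 * Real.exp (4 * t) * c₂) +
      2 * (c₁ * (B / ((K + 1 : ℕ) : ℝ)))) atTop (𝓝 (√(3 * Real.exp (4 * t) * c₂))) := by
    have h5 : Tendsto (fun m : ℕ => B / ((m + 1 : ℕ) : ℝ)) atTop (𝓝 0) :=
      (tendsto_const_div_atTop_nhds_zero_nat B).comp (tendsto_add_atTop_nat 1)
    have h6 := ((h5.const_mul c₁).const_mul 2).const_add (√(3 * Real.exp (4 * t) * c₂))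
    simpa using h6
  exact ge_of_tendsto' h3 hstep

end

end Pool.Agent.Lib.MP_5d2315_pr
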