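import Pool.Agent.Lib.MP_5d2315_pr.SmallBall

/-!
# The width of the interval at the origin
-/

namespace Pool.Agent.Lib.MP_5d2315_pr

open MeasureTheory ProbabilityTheory Filter Topology
open scoped ENNReal NNReal Real

/-- variation of `y` on the sites `-m, …, m` -/
noncomputable def vari (m : ℕ) (y : ℤ → ℤ) : ℝ :=
  ∑ i ∈ Finset.range m, (|(y ((i : ℤ) + 1) : ℝ) - y i| +
    |(y (-(i : ℤ) - 1 + 1) : ℝ) - y (-(i : ℤ) - 1)|)

lemma vari_mono (y : ℤ → ℤ) {m m' : ℕ} (h : m ≤ m') : vari m y ≤ vari m' y := by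
  unfold vari
  exact Finset.sum_le_sum_of_subset_of_nonneg (Finset.range_subset_range.2 h)
    (fun _ _ _ => by positivity)

lemma abs_sub_le_vari (y : ℤ → ℤ) (n : ℕ) :
    |(y n : ℝ) - y 0| ≤ vari n y ∧ |(y (-(n : ℤ)) : ℝ) - y 0| ≤ vari n y := by
  induction n with
  | zero => simp [vari]
  | succ n ih =>
    unfold vari at ih ⊢
    rw [Finset.sum_range_succ]
    constructor
    · have h1 := abs_sub_le (y ((n : ℤ) + 1) : ℝ) (y n) (y 0)
      have h2 : (0 : ℝ) ≤ |(y (-(n : ℤ) - 1 + 1) : ℝ) - y (-(n : ℤ) - 1)| := abs_nonneg _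
      push_cast
      linarith [ih.1]
    · have h1 := abs_sub_le (y (-(n : ℤ) - 1) : ℝ) (y (-(n : ℤ))) (y 0)
      have h2 : (0 : ℝ) ≤ |(y ((n : ℤ) + 1) : ℝ) - y n| := abs_nonneg _
      have e1 : (-((n + 1 : ℕ) : ℤ)) = -(n : ℤ) - 1 := by push_cast; ring
      have e2 : (-(n : ℤ) - 1 + 1) = -(n : ℤ) := by ring
      rw [e1, e2]
      rw [abs_sub_comm (y (-(n : ℤ) - 1) : ℝ) (y (-(n : ℤ)))] at h1
      linarith [ih.2]

/-- same sign near the origin -/
lemma same_sign {y : ℤ → ℤ} {m : ℕ} (h : vari m y < |(y 0 : ℝ)|) {x : ℤ}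
    (hx : x ∈ Set.Icc (-(m : ℤ)) m) : (0 < y 0 → 0 < y x) ∧ (y 0 < 0 → y x < 0) := by
  have h1 : |(y x : ℝ) - y 0| < |(y 0 : ℝ)| := by
    refine lt_of_le_of_lt ?_ h
    rcases le_total 0 x with h0 | h0
    · have e : x = ((x.natAbs : ℕ) : ℤ) := by omega
      rw [e]
      exact ((abs_sub_le_vari y x.natAbs).1).trans (vari_mono y (by have := hx.2; omega))
    · have e : x = -((x.natAbs : ℕ) : ℤ) := by omega
      rw [e]
      exact ((abs_sub_le_vari y x.natAbs).2).trans (vari_mono y (by have := hx.1; omega))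
  constructor
  · intro h0
    have h0' : (0 : ℝ) < y 0 := by exact_mod_cast h0
    rw [abs_of_pos h0', abs_lt] at h1
    have : (0 : ℝ) < y x := by linarith [h1.1]
    exact_mod_cast this
  · intro h0
    have h0' : (y 0 : ℝ) < 0 := by exact_mod_cast h0
    rw [abs_of_neg h0', abs_lt] at h1
    have : (y x : ℝ) < 0 := by linarith [h1.2]
    exact_mod_cast this

/-- the configuration has one sign on `I` -/
def OneSign (y : ℤ → ℤ) (I : Set ℤ) : Prop := (∀ x ∈ I, 0 ≤ y x) ∨ (∀ x ∈ I, y x ≤ 0)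

lemma OneSign.mono {y : ℤ → ℤ} {I J : Set ℤ} (h : OneSign y J) (hIJ : I ⊆ J) : OneSign y I :=
  h.imp (fun h x hx => h x (hIJ hx)) (fun h x hx => h x (hIJ hx))

/-- The deterministic part of the argument. -/
lemma width_det {y : ℤ → ℤ} {m L : ℕ} (h0 : vari m y < |(y 0 : ℝ)|)
    (hR : ¬ OneSign y (Set.Icc 0 (L : ℤ))) (hL : ¬ OneSign y (Set.Icc (-(L : ℤ)) 0)) :
    (∃ S, IsMonoInterval y S ∧ (0 : ℤ) ∈ S) ∧
    ∀ S, IsMonoInterval y S → (0 : ℤ) ∈ S → S.Finite ∧ 2 * m + 1 ≤ S.ncard ∧ S.ncard ≤ 2 * L := by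
  have hy0 : y 0 ≠ 0 := by
    intro h
    rw [h] at h0
    simp only [Int.cast_zero, abs_zero] at h0
    have : 0 ≤ vari m y := by unfold vari; positivity
    linarith
  refine ⟨?_, ?_⟩
  · -- existence
    have key : ∀ p : ℤ → Prop, p (y 0) → (∀ T : Set ℤ, IsMonochromatic y T → 0 ∈ T →
        ∀ x ∈ T, p (y x)) → ((∀ x, p x → 0 ≤ x) ∨ (∀ x, p x → x ≤ 0)) →
        ∃ S, IsMonoInterval y S ∧ (0 : ℤ) ∈ S := by
      intro p hp0 hp hsg
      set S : Set ℤ := {x | ∀ z ∈ Set.uIcc 0 x, p (y z)} with hS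
      have h0S : (0 : ℤ) ∈ S := by
        intro z hz
        rw [Set.uIcc_self, Set.mem_singleton_iff] at hz
        rw [hz]; exact hp0
      have hSsub : ∀ x ∈ S, p (y x) := fun x hx => hx x Set.right_mem_uIcc
      refine ⟨S, ⟨⟨?_, ⟨0, h0S, hy0⟩, ?_⟩, ?_⟩, h0S⟩
      · constructor
        intro a ha b hb c hc z hz
        have h1 : z ∈ Set.uIcc 0 a ∨ z ∈ Set.uIcc 0 b := by
          rw [Set.mem_uIcc] at hz ⊢
          rw [Set.mem_uIcc]
          obtain ⟨hc1, hc2⟩ := hc
          omega
        rcases h1 with h1 | h1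
        · exact ha z h1
        · exact hb z h1
      · rcases hsg with h | h
        · left; exact fun x hx => h _ (hSsub x hx)
        · right; exact fun x hx => h _ (hSsub x hx)
      · intro T hT hST x hx z hz
        have h0T : (0 : ℤ) ∈ T := hST h0S
        exact hp T hT h0T z (hT.1.uIcc_subset h0T hx hz)
    rcases lt_or_gt_of_ne hy0 with hneg | hpos
    · refine key (fun v => v ≤ 0) hneg.le ?_ (Or.inr (fun x hx => hx))
      intro T hT h0T x hx
      rcases hT.2.2 with h | h
      · exact absurd (h 0 h0T) (not_le.2 hneg)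
      · exact h x hx
    · refine key (fun v => 0 ≤ v) (le_of_lt hpos) ?_ (Or.inl (fun x hx => hx))
      intro T hT h0T x hx
      rcases hT.2.2 with h | h
      · exact h x hx
      · exact absurd (h 0 h0T) (not_le.2 hpos)
  · intro S hS h0S
    obtain ⟨⟨hconn, hocc, hsign⟩, hmax⟩ := hS
    -- the upper bound
    have hLS : (L : ℤ) ∉ S := by
      intro h
      exact hR (OneSign.mono (J := S) hsign (hconn.out h0S h))
    have hLS' : (-(L : ℤ)) ∉ S := by
      intro h
      exact hL (OneSign.mono (J := S) hsign (hconn.out h h0S))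
    have hsub : S ⊆ Set.Ioo (-(L : ℤ)) L := by
      intro x hx
      constructor
      · by_contra hcon
        push Not at hcon
        exact hLS' (hconn.out hx h0S ⟨hcon, by omega⟩)
      · by_contra hcon
        push Not at hcon
        exact hLS (hconn.out h0S hx ⟨by omega, hcon⟩)
    have hfin : S.Finite := (Set.finite_Ioo _ _).subset hsub
    -- the lower bound
    have hIcc : Set.Icc (-(m : ℤ)) m ⊆ S := by
      have h0m : (0 : ℤ) ∈ Set.Icc (-(m : ℤ)) m := ⟨by omega, by omega⟩
      have h1 : IsMonochromatic y (S ∪ Set.Icc (-(m : ℤ)) m) := by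
        refine ⟨?_, ?_, ?_⟩
        · constructor
          intro a ha b hb z hz
          have h1 : z ∈ Set.uIcc 0 a ∨ z ∈ Set.uIcc 0 b := by
            rw [Set.mem_uIcc, Set.mem_uIcc]
            obtain ⟨hc1, hc2⟩ := hz
            omega
          have h2 : ∀ c ∈ S ∪ Set.Icc (-(m : ℤ)) m, ∀ z ∈ Set.uIcc 0 c,
              z ∈ S ∪ Set.Icc (-(m : ℤ)) m := by
            rintro c (hc | hc) z hz
            · exact Or.inl (hconn.uIcc_subset h0S hc hz)
            · right
              rw [Set.mem_uIcc] at hz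
              obtain ⟨hc1, hc2⟩ := hc
              exact ⟨by omega, by omega⟩
          rcases h1 with h1 | h1
          · exact h2 a ha z h1
          · exact h2 b hb z h1
        · obtain ⟨x, hx, hxn⟩ := hocc
          exact ⟨x, Or.inl hx, hxn⟩
        · rcases lt_or_gt_of_ne hy0 with hneg | hpos
          · right
            rintro x (hx | hx)
            · rcases hsign with h | h
              · exact absurd (h 0 h0S) (not_le.2 hneg)
              · exact h x hx
            · exact ((same_sign h0 hx).2 hneg).le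
          · left
            rintro x (hx | hx)
            · rcases hsign with h | h
              · exact h x hx
              · exact absurd (h 0 h0S) (not_le.2 hpos)
            · exact ((same_sign h0 hx).1 hpos).le
      have h2 := hmax h1 Set.subset_union_left
      exact Set.subset_union_right.trans h2
    refine ⟨hfin, ?_, ?_⟩
    · have h1 := Set.ncard_le_ncard hIcc hfin
      have h2 : (Set.Icc (-(m : ℤ)) m).ncard = 2 * m + 1 := by
        rw [← Finset.coe_Icc, Set.ncard_coe_finset, Int.card_Icc]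
        omega
      rw [h2] at h1
      exact h1
    · have h1 := Set.ncard_le_ncard hsub (Set.finite_Ioo _ _)
      have h2 : (Set.Ioo (-(L : ℤ)) L).ncard ≤ 2 * L := by
        rw [← Finset.coe_Ioo, Set.ncard_coe_finset, Int.card_Ioo]
        omega
      exact h1.trans h2

end Pool.Agent.Lib.MP_5d2315_pr
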